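import Pool.Agent.Lib.MP_a0a715_lc_BI.Defs
import Pool.Agent.Lib.MP_a0a715_lc_TL.Next2
import Pool.Agent.Lib.MP_a0a715_lc_TL.PTNext

/-!
# The given circuit
-/

namespace Pool.Agent.MPa0a715.BI

open Pool.Agent.MPa0a715 Pool.Agent.PolyTime

namespace BasAux

/-- the blocks -/
def nb (n : ℕ) (G : List Gate) (O : List ℕ) : List Blk :=
  TL.nblocks n G O ++
    [ (O.length * n, fun t => (some true, [(8, (n + 1) * (t / n) + t % n), (11, t % n)])),
      (O.length, fun j => (some false, (2, 0) :: ws 16 ((List.range n).map fun k => n * j + k))) ]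

/-- the gates -/
def gs (C : Circuit) : List NG := toG 1 (nb C.n C.gates C.outs)

/-- number of the wire with a name -/
def wr (C : Circuit) (w : Name) : ℕ :=
  wireOf (inNames C.n).length (fanin (gs C)) (inNames C.n ++ (gs C).map Prod.fst) w

/-- names of the digits of the cost -/
def cnm (C : Circuit) : List Name :=
  ws 3 ((List.range C.outs.length).map fun j => (C.n + 1) * C.outs.getD j 0 + C.n)

end BasAux

/-- the circuit which computes the next solution, the digits of the cost, and the digit that is
improved -/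
def baseOf (C : Circuit) : Base where
  n := C.n
  G := (compile (inNames C.n) (BasAux.gs C) []).gates
  nx := (compile (inNames C.n) (BasAux.gs C) (ws 15 (List.range C.n))).outs
  co := (compile (inNames C.n) (BasAux.gs C) (BasAux.cnm C)).outs
  im := (compile (inNames C.n) (BasAux.gs C) (ws 17 (List.range C.outs.length))).outs

theorem baseOf_n (C : Circuit) : (baseOf C).n = C.n := rfl

namespace BasAux

theorem toG_append (b : ℕ) (l l' : List Blk) :
    toG b (l ++ l') = toG b l ++ toG (b + l.length) l' := by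
  induction l generalizing b with
  | nil => rfl
  | cons a l ih =>
    rw [List.cons_append, toG, toG, ih, List.append_assoc, List.length_cons]
    congr 3
    omega

theorem allB_append {P : ℕ → Blk → Prop} {b : ℕ} {l l' : List Blk} (h : AllB P b l)
    (h' : AllB P (b + l.length) l') : AllB P b (l ++ l') := by
  induction l generalizing b with
  | nil => exact h'
  | cons a l ih =>
    refine ⟨h.1, ih h.2 ?_⟩
    rw [List.length_cons] at h'
    have e : b + 1 + l.length = b + (l.length + 1) := by omega
    rw [e]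
    exact h'

theorem allB_mono {P Q : ℕ → Blk → Prop} (hPQ : ∀ b l, P b l → Q b l) {b : ℕ} {l : List Blk}
    (h : AllB P b l) : AllB Q b l := by
  induction l generalizing b with
  | nil => trivial
  | cons a l ih => exact ⟨hPQ _ _ h.1, ih h.2⟩

theorem cnt_append {N : ℕ} {bs bs' : List Blk} {b r : ℕ} (h : r < cnt N bs b) :
    r < cnt N (bs ++ bs') b := by
  unfold cnt at h ⊢
  by_cases hb : b < (N :: bs.map Prod.fst).length
  · rw [List.map_append, ← List.cons_append, List.getD_append _ _ _ _ hb]
    exact h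
  · rw [List.getD_eq_default _ _ (by omega)] at h
    omega

section
variable {n : ℕ} {G : List Gate} {O : List ℕ}

theorem c2 : cnt n (nb n G O) 2 = 1 := rfl
theorem c8 : cnt n (nb n G O) 8 = (n + 1) * O.length := rfl
theorem c11 : cnt n (nb n G O) 11 = n := rfl
theorem c16 : cnt n (nb n G O) 16 = O.length * n := rfl
theorem len_nblocks : (TL.nblocks n G O).length = 15 := rfl

theorem nb_ok (hn : 0 < n)
    (hG : ∀ (k : ℕ) (h : k < G.length), ∀ r ∈ G[k].refs, r < n + k)
    (hO : ∀ o ∈ O, n ≤ o ∧ o < n + G.length) :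
    AllB (BlkOK n (nb n G O)) 1 (nb n G O) := by
  have h1 : AllB (BlkOK n (nb n G O)) 1 (TL.nblocks n G O) := by
    refine allB_mono ?_ (TL.nblocks_ok hn hG hO)
    intro b l h i hi
    obtain ⟨h1, h2⟩ := h i hi
    exact ⟨h1, fun r hr => ⟨cnt_append (h2 r hr).1, (h2 r hr).2⟩⟩
  refine allB_append h1 ?_
  rw [len_nblocks]
  refine ⟨?_, ?_, trivial⟩
  · intro t ht
    change t < O.length * n at ht
    refine ⟨List.cons_ne_nil _ _, ?_⟩
    have h2 : t / n < O.length := by
      rw [Nat.div_lt_iff_lt_mul hn]
      exact ht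
    have h3 : t % n < n := Nat.mod_lt t hn
    have h4 := TL.pair_lt (n := n) (k := t % n) h2 (Nat.le_of_lt h3)
    simp only [List.forall_mem_cons, List.not_mem_nil, false_imp_iff, implies_true,
      and_true, c8, c11, nlt]
    omega
  · intro j hj
    change j < O.length at hj
    refine ⟨List.cons_ne_nil _ _, ?_⟩
    simp only [List.forall_mem_cons, c2, nlt, forall_ws, List.mem_map, List.mem_range]
    refine ⟨by omega, ?_⟩
    rintro j' ⟨k, hk, rfl⟩
    rw [c16]
    refine ⟨?_, Or.inl (by simp)⟩
    have h5 : n * (j + 1) ≤ n * O.length := Nat.mul_le_mul_left _ hj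
    rw [Nat.mul_add, Nat.mul_one, Nat.mul_comm n O.length] at h5
    omega

end

section
variable {C : Circuit}

theorem wf (hC : C.Valid) (hn : 0 < C.n) : WF (inNames C.n) (gs C) :=
  wf_blocks (nb_ok hn hC.1 hC.2)

theorem mem_gs {i : ℕ} {l : Blk} (h : (nb C.n C.gates C.outs)[i]? = some l) {w : Name}
    (h1 : w.1 = 1 + i) (h2 : w.2 < l.1) : w ∈ (gs C).map Prod.fst :=
  toG_names.2 ⟨i, l, h, h1, h2⟩

theorem outs15 {o : Name} (ho : o ∈ ws 15 (List.range C.n)) : o ∈ (gs C).map Prod.fst := by
  obtain ⟨h1, h2⟩ := mem_ws.1 ho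
  exact mem_gs (i := 14) rfl (by omega) (List.mem_range.1 h2)

theorem outs17 {o : Name} (ho : o ∈ ws 17 (List.range C.outs.length)) :
    o ∈ (gs C).map Prod.fst := by
  obtain ⟨h1, h2⟩ := mem_ws.1 ho
  exact mem_gs (i := 16) rfl (by omega) (List.mem_range.1 h2)

theorem outs3 (hC : C.Valid) {o : Name} (ho : o ∈ cnm C) : o ∈ (gs C).map Prod.fst := by
  obtain ⟨h1, h2⟩ := mem_ws.1 ho
  refine mem_gs (i := 2) rfl (by omega) ?_
  obtain ⟨j, hj, h3⟩ := List.mem_map.1 h2
  rw [← h3]
  exact TL.pair_lt (TL.out_lt hC (List.mem_range.1 hj)) le_rfl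

/-- the gates form a well-formed circuit -/
theorem refs_lt (hC : C.Valid) (hn : 0 < C.n) (k : ℕ) (h : k < (baseOf C).G.length) :
    ∀ r ∈ ((baseOf C).G)[k].refs, r < C.n + k := by
  have h1 := (compile_valid (wf hC hn) (outs := []) (fun o ho => absurd ho List.not_mem_nil)).1 k h
  intro r hr
  have h2 := h1 r hr
  change r < (inNames C.n).length + k at h2
  rwa [length_inNames] at h2

theorem wr_lt (hC : C.Valid) (hn : 0 < C.n) {w : Name} (hw : w ∈ (gs C).map Prod.fst) :
    wr C w < (baseOf C).N := by
  have h1 := (compile_valid (wf hC hn) (outs := [w]) (fun o ho => by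
    rw [List.mem_singleton] at ho
    rw [ho]
    exact hw)).2 (wr C w) (List.mem_map.2 ⟨w, List.mem_singleton.2 rfl, rfl⟩)
  have h2 := h1.2
  change wr C w < (inNames C.n).length + (baseOf C).G.length at h2
  rwa [length_inNames] at h2

theorem nx_getD {i : ℕ} (hi : i < C.n) : (baseOf C).nx.getD i 0 = wr C (15, i) := by
  change ((ws 15 (List.range C.n)).map (wr C)).getD i 0 = _
  unfold ws
  rw [List.map_map, List.getD_eq_getElem _ _ (by simpa using hi), List.getElem_map,
    List.getElem_range]
  rfl

theorem co_len : (baseOf C).co.length = C.outs.length := by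
  change ((cnm C).map (wr C)).length = _
  unfold cnm ws
  simp

theorem im_len : (baseOf C).im.length = C.outs.length := by
  change ((ws 17 (List.range C.outs.length)).map (wr C)).length = _
  unfold ws
  simp

theorem im_getD {j : ℕ} (hj : j < C.outs.length) :
    (baseOf C).im.getD j 0 = wr C (17, j) := by
  change ((ws 17 (List.range C.outs.length)).map (wr C)).getD j 0 = _
  unfold ws
  rw [List.map_map, List.getD_eq_getElem _ _ (by simpa using hj), List.getElem_map,
    List.getElem_range]
  rfl

theorem co_getD {j : ℕ} (hj : j < C.outs.length) :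
    (baseOf C).co.getD j 0 = wr C (3, (C.n + 1) * C.outs.getD j 0 + C.n) := by
  change ((cnm C).map (wr C)).getD j 0 = _
  unfold cnm ws
  rw [List.map_map, List.map_map, List.getD_eq_getElem _ _ (by simpa using hj), List.getElem_map,
    List.getElem_range]
  rfl

theorem m_eq : (baseOf C).m = C.outs.length := co_len

/-- the values on the named wires -/
theorem env_wr (x : List Bool) (w : Name) :
    (baseOf C).env x (wr C w) = cenv (inNames C.n) (gs C) [] x w := rfl

section
variable (hC : C.Valid) (hn : 0 < C.n) {x : List Bool} (hx : x.length = C.n)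

include hC hn hx in
theorem sat_gs : ∀ g ∈ gs C, GSat (cenv (inNames C.n) (gs C) [] x) g := by
  have hx' : x.length = (inNames C.n).length := by rw [length_inNames, hx]
  exact compile_sat (wf hC hn) (fun o ho => absurd ho List.not_mem_nil) hx'

include hC hn hx in
theorem sat_sub : ∀ g ∈ toG 1 (TL.nblocks C.n C.gates C.outs),
    GSat (cenv (inNames C.n) (gs C) [] x) g := by
  intro g hg
  refine sat_gs hC hn hx g ?_
  unfold gs nb
  rw [toG_append]
  exact List.mem_append_left _ hg

include hC hn hx in
theorem in0 : ∀ i < C.n, cenv (inNames C.n) (gs C) [] x (0, i) = x.getD i false := by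
  have hx' : x.length = (inNames C.n).length := by rw [length_inNames, hx]
  intro i hi
  have h1 := cenv_input (outs := []) (wf hC hn) hx' (i := i)
    (by rw [length_inNames]; exact hi)
  have h2 : (inNames C.n)[i]'(by rw [length_inNames]; exact hi) = (0, i) := by
    unfold inNames
    rw [List.getElem_map, List.getElem_range]
  rw [h2] at h1
  exact h1

/-- `k` is the first better neighbour -/
def Fst (C : Circuit) (x : List Bool) (k : ℕ) : Prop :=
  k < C.n ∧ val (C.out (flip x k)) < val (C.out x) ∧
    ∀ k' < k, ¬ val (C.out (flip x k')) < val (C.out x)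

/-- `j` is the highest digit that differs, and it is improved -/
def Hd (C : Circuit) (x x' : List Bool) (j : ℕ) : Prop :=
  (C.out x').getD j false = false ∧ (C.out x).getD j false = true ∧
    ∀ j' < C.outs.length, j < j' → (C.out x').getD j' false = (C.out x).getD j' false

theorem fst_unique {k k' : ℕ} (h : Fst C x k) (h' : Fst C x k') : k = k' := by
  rcases Nat.lt_trichotomy k k' with h1 | h1 | h1
  · exact absurd h.2.1 (h'.2.2 k h1)
  · exact h1
  · exact absurd h'.2.1 (h.2.2 k' h1)

include hC hn hx in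
theorem co_env {j : ℕ} (hj : j < C.outs.length) :
    (baseOf C).env x ((baseOf C).co.getD j 0) = (C.out x).getD j false := by
  rw [co_getD hj, env_wr, TL.n3' hC hx (sat_sub hC hn hx) (in0 hC hn hx) le_rfl hj]
  unfold TL.inp
  rw [if_neg (by omega)]

include hC hn hx in
theorem im_env {j : ℕ} (hj : j < C.outs.length) :
    (baseOf C).env x ((baseOf C).im.getD j 0) = true ↔ ∃ k, Fst C x k ∧ Hd C x (flip x k) j := by
  rw [im_getD hj, env_wr]
  have hE := sat_sub hC hn hx
  have h0 := in0 hC hn hx
  have hg := sat_gs hC hn hx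
  have e2 : TL.inp C.n x C.n = x := by
    unfold TL.inp
    rw [if_neg (by omega)]
  have h16 : ∀ k < C.n, cenv (inNames C.n) (gs C) [] x (16, C.n * j + k) = true ↔
      Fst C x k ∧ Hd C x (flip x k) j := by
    intro k hk
    have hlt : C.n * j + k < C.outs.length * C.n := by
      have h5 : C.n * (j + 1) ≤ C.n * C.outs.length := Nat.mul_le_mul_left _ hj
      rw [Nat.mul_add, Nat.mul_one, Nat.mul_comm C.n C.outs.length] at h5
      omega
    have h1 := sat_and (sat_blocks (bs := nb C.n C.gates C.outs) hg (i := 15) rfl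
      (C.n * j + k) hlt)
    have e3 : (C.n * j + k) / C.n = j := by
      rw [Nat.mul_add_div hn, Nat.div_eq_of_lt hk, Nat.add_zero]
    have e4 : (C.n * j + k) % C.n = k := by
      rw [Nat.mul_add_mod, Nat.mod_eq_of_lt hk]
    rw [List.forall_mem_cons, List.forall_mem_cons, forall_nil, and_true, e3, e4] at h1
    have e1 : TL.inp C.n x k = flip x k := by
      unfold TL.inp
      rw [if_pos hk]
    rw [TL.n8 hC hx hE h0 (by omega) hj, TL.n11 hC hn hx hE h0 hk, e1, e2] at h1
    rw [show ((16, C.n * j + k) : Name) = (1 + 15, C.n * j + k) from rfl, h1]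
    unfold Fst Hd
    constructor
    · rintro ⟨h2, h3⟩
      exact ⟨⟨hk, h3⟩, h2⟩
    · rintro ⟨⟨_, h3⟩, h2⟩
      exact ⟨h2, h3⟩
  have h17 := sat_or (sat_blocks (bs := nb C.n C.gates C.outs) hg (i := 16) rfl j hj)
  rw [exists_cons, exists_ws, TL.n2 hn hE h0] at h17
  rw [show ((17, j) : Name) = (1 + 16, j) from rfl, h17]
  constructor
  · rintro (h | ⟨t, ht, h⟩)
    · exact absurd h (by simp)
    · obtain ⟨k, hk, rfl⟩ := List.mem_map.1 ht
      rw [List.mem_range] at hk
      exact ⟨k, (h16 k hk).1 h⟩
  · rintro ⟨k, hk, h⟩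
    right
    exact ⟨_, List.mem_map.2 ⟨k, List.mem_range.2 hk.1, rfl⟩, (h16 k hk.1).2 ⟨hk, h⟩⟩

include hC hn hx in
theorem next_eq {k : ℕ} (hk : Fst C x k) : (baseOf C).next x = flip x k := by
  have hE := sat_sub hC hn hx
  have h0 := in0 hC hn hx
  unfold Base.next
  refine ext_getD (by rw [length_flip, List.length_map, List.length_range, hx]; rfl)
    fun i hi => ?_
  have hi2 : i < (baseOf C).n := by simpa using hi
  have hi' : i < C.n := hi2
  rw [List.getD_eq_getElem _ _ hi, List.getElem_map, List.getElem_range, nx_getD hi', env_wr,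
    TL.n15 hE h0 hi', getD_flip _ _ _ (by omega)]
  by_cases hik : k = i
  · rw [if_pos hik, (TL.n11 hC hn hx hE h0 hi').2]
    · cases x.getD i false <;> rfl
    · rw [← hik]
      exact hk.2
  · rw [if_neg hik]
    have h3 : cenv (inNames C.n) (gs C) [] x (11, i) = false := by
      rw [← Bool.not_eq_true, TL.n11 hC hn hx hE h0 hi']
      intro h4
      exact hik (fst_unique hk ⟨hi', h4⟩)
    rw [h3]
    cases x.getD i false <;> rfl

end

end

end BasAux

open BasAux

theorem baseOf_ok {C : Circuit} (hC : C.Valid) (hn : 0 < C.n) : (baseOf C).Ok where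
  pos := hn
  gates := refs_lt hC hn
  len := by rw [im_len, co_len]
  nx := by
    intro i hi
    have hi' : i < C.n := hi
    rw [nx_getD hi']
    exact wr_lt hC hn (outs15 (mem_ws.2 ⟨rfl, List.mem_range.2 hi'⟩))
  co := by
    intro j hj
    rw [m_eq] at hj
    rw [co_getD hj]
    exact wr_lt hC hn (outs3 hC (mem_ws.2 ⟨rfl, List.mem_map.2 ⟨j, List.mem_range.2 hj, rfl⟩⟩))
  im := by
    intro j hj
    rw [m_eq] at hj
    rw [im_getD hj]
    exact wr_lt hC hn (outs17 (mem_ws.2 ⟨rfl, List.mem_range.2 hj⟩))

theorem baseOf_sem {C : Circuit} (hC : C.Valid) (hn : 0 < C.n) : (baseOf C).Sem := by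
  intro x hx j hj him
  have hx' : x.length = C.n := hx
  rw [m_eq] at hj
  obtain ⟨k, hk, h1, h2, h3⟩ := (im_env hC hn hx' hj).1 him
  have hfl : (flip x k).length = C.n := by rw [length_flip, hx']
  refine ⟨?_, ?_, ?_, ?_⟩
  · rw [co_env hC hn hx' hj, h2]
  · rw [next_eq hC hn hx' hk, co_env hC hn hfl hj, h1]
  · intro k' hk' hjk
    rw [m_eq] at hk'
    rw [next_eq hC hn hx' hk, co_env hC hn hfl hk', co_env hC hn hx' hk']
    exact h3 k' hk' hjk
  · intro k' hk' hne
    rw [m_eq] at hk'
    rw [← Bool.not_eq_true, im_env hC hn hx' hk']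
    rintro ⟨k₂, hk₂, h4, h5, h6⟩
    rw [fst_unique hk₂ hk] at h4 h6
    rcases Nat.lt_or_gt_of_ne hne with h7 | h7
    · have h8 := h6 j hj h7
      rw [h1, h2] at h8
      exact absurd h8 (by simp)
    · have h8 := h3 k' hk' h7
      rw [h4, h5] at h8
      exact absurd h8 (by simp)

theorem baseOf_min {C : Circuit} (hC : C.Valid) (hn : 0 < C.n) {x : List Bool}
    (hx : x.length = C.n)
    (h : ∀ j < (baseOf C).m, (baseOf C).env x ((baseOf C).im.getD j 0) = false) :
    C.IsLocalMin x := by
  refine ⟨hx, fun i hi => ?_⟩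
  by_contra hcon
  have h1 : ∃ k, k < C.n ∧ val (C.out (flip x k)) < val (C.out x) := by
    refine ⟨i, hi, ?_⟩
    rw [Circuit.cost_eq, Circuit.cost_eq] at hcon
    omega
  classical
  obtain ⟨k, hk⟩ : ∃ k, Fst C x k :=
    ⟨Nat.find h1, (Nat.find_spec h1).1, (Nat.find_spec h1).2, fun k' hk' hc =>
      Nat.find_min h1 hk' ⟨by have := (Nat.find_spec h1).1; omega, hc⟩⟩
  have h2 := hk.2.1
  rw [MPa0a715.val_lt_iff _ _ (by rw [TL.length_out, TL.length_out]), TL.length_out] at h2
  obtain ⟨j, hj, h3, h4, h5⟩ := h2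
  have h6 := h j (by rw [m_eq]; exact hj)
  rw [← Bool.not_eq_true, im_env hC hn hx hj] at h6
  exact h6 ⟨k, hk, h3, h4, h5⟩

namespace BasAux

theorem ptime_gs : PTime gs := by
  have hf : PTime (fun C : Circuit => C) := PTime.id
  have hn : PU (fun C : Circuit => C.n) := pu_n hf
  have hG : PTime (fun C : Circuit => C.gates) := ptime_gates hf
  have hO : PTime (fun C : Circuit => C.outs) := ptime_outs hf
  have u1 : PU (fun C : Circuit => C.outs.length) := PU.ofLength hO
  have u2 : PU (fun C : Circuit => C.outs.length * C.n) := u1.mul hn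
  have hn0 : PTime (fun p : Circuit × ℕ => p.1.n) := hn.toNat.comp PTime.fst
  have hi : PTime (fun p : Circuit × ℕ => p.2) := PTime.snd
  have hq : PTime (fun p : Circuit × ℕ => p.2 / p.1.n) := hi.div hn0
  have hr : PTime (fun p : Circuit × ℕ => p.2 % p.1.n) := hi.mod hn0
  have l1 : PTime (fun p : Circuit × ℕ => (List.range p.1.n).map fun k => p.1.n * p.2 + k) :=
    PTime.map (g := fun (p : Circuit × ℕ) (k : ℕ) => p.1.n * p.2 + k) (hn.range.comp PTime.fst)
      (((hn0.comp PTime.fst).mul (hi.comp PTime.fst)).add PTime.snd)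
  have h1 : PTime (fun C : Circuit => toG 1 (TL.nblocks C.n C.gates C.outs) ++ toG 16
      [ (C.outs.length * C.n, fun t => (some true, [(8, (C.n + 1) * (t / C.n) + t % C.n),
        (11, t % C.n)])),
      (C.outs.length, fun j => (some false, (2, 0) :: ws 16 ((List.range C.n).map
        fun k => C.n * j + k))) ]) := by
    refine (TL.ptime_nblocks hn hG hO).append ?_
    refine ptime_toG_cons u2 ?_ (ptime_toG_cons u1 ?_ (PTime.const _))
    · exact (PTime.const (some true)).pair (((PTime.const 8).pair
        (((hn0.add (PTime.const 1)).mul hq).add hr)).cons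
        (((PTime.const 11).pair hr).cons (PTime.const _)))
    · exact (PTime.const (some false)).pair ((PTime.const ((2, 0) : Name)).cons (ptime_ws l1))
  refine h1.of_eq fun C => ?_
  unfold gs nb
  rw [toG_append]
  rfl

theorem ptime_in : PTime (fun C : Circuit => inNames C.n) :=
  PTime.map (g := fun (_ : Circuit) (i : ℕ) => ((0, i) : Name))
    (pu_n (PTime.id (α := Circuit))).range ((PTime.const 0).pair PTime.snd)

end BasAux

theorem ptime_baseOf : PTime (fun C => (baseOf C).G) ∧ PTime (fun C => (baseOf C).nx) ∧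
    PTime (fun C => (baseOf C).co) ∧ PTime (fun C => (baseOf C).im) := by
  have hf : PTime (fun C : Circuit => C) := PTime.id
  have hn : PU (fun C : Circuit => C.n) := pu_n hf
  have hO : PTime (fun C : Circuit => C.outs) := ptime_outs hf
  have u1 : PU (fun C : Circuit => C.outs.length) := PU.ofLength hO
  have hco : PTime cnm := by
    have e1 : PTime (fun C : Circuit => (List.range C.outs.length).map
        (fun j => (C.n + 1) * C.outs.getD j 0 + C.n)) := by
      refine PTime.map (g := fun (C : Circuit) (j : ℕ) => (C.n + 1) * C.outs.getD j 0 + C.n)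
        u1.range ?_
      have h1 : PTime (fun p : Circuit × ℕ => p.1.n) := hn.toNat.comp PTime.fst
      exact ((h1.add (PTime.const 1)).mul (PTime.listGetD (hO.comp PTime.fst) PTime.snd
        (PTime.const 0))).add h1
    exact ptime_ws e1
  have g1 : PTime (fun C : Circuit => (compile (inNames C.n) (gs C) []).gates) :=
    ptime_gates (ptime_compile ptime_in ptime_gs (PTime.const _))
  have g2 : PTime (fun C : Circuit => (compile (inNames C.n) (gs C)
      (ws 15 (List.range C.n))).outs) :=
    ptime_outs (ptime_compile ptime_in ptime_gs (ptime_ws hn.range))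
  have g3 : PTime (fun C : Circuit => (compile (inNames C.n) (gs C) (cnm C)).outs) :=
    ptime_outs (ptime_compile ptime_in ptime_gs hco)
  have g4 : PTime (fun C : Circuit => (compile (inNames C.n) (gs C)
      (ws 17 (List.range C.outs.length))).outs) :=
    ptime_outs (ptime_compile ptime_in ptime_gs (ptime_ws u1.range))
  exact ⟨g1, g2, g3, g4⟩

end Pool.Agent.MPa0a715.BI
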