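import Pool.Agent.Lib.MP_a0a715_lc_OD.HardSide

/-!
# The system of OD with bounded influence

The system of constraints of `OD.conds` in which every variable occurs in boundedly many
conditions if every variable of the given conjunctions does: the first position where flipping is
an improvement is found by a chain of gates, and gates which are not needed are trivial.
-/

namespace Pool.Agent.MPa0a715.OD.Bd

open Pool.Agent.MPa0a715 Pool.Agent.MPa0a715.OD
open Pool.Agent.MPa0a715.TL (NT)

section
variable (Us : List NT)

/-- flipping the variable at this position is an improvement -/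
def fixB (k : ℕ) : List (VV × Bool) :=
  if okp Us k = true then fixL Us k else [((1, k), true), ((1, k), false)]

/-- no position before this one is good for flipping: chain -/
def nfB : ℕ → List (VV × Bool)
  | 0 => []
  | k + 1 => [((14, k), true), ((2, k), false)]

/-- the first position where flipping is an improvement -/
def selB (k : ℕ) : List (VV × Bool) := [((2, k), true), ((14, k), true)]

/-- first mode for the third literal -/
def mcaB (k : ℕ) : List (VV × Bool) := if (uu Us k).length = 3 then mcaL Us k else []

/-- second mode for the third literal -/
def mcbB (k : ℕ) : List (VV × Bool) := if (uu Us k).length = 3 then mcbL Us k else []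

/-- all conditions, the most important one first -/
def condsB (N : ℕ) : List CV :=
  pA Us ++ (pG 1 (3 * Us.length) (restL Us) ++ (pG 2 (3 * Us.length) (fixB Us) ++
    (pG 14 (3 * Us.length) nfB ++ (pG 3 (3 * Us.length) selB ++ (pG 4 N (naL Us) ++
    (pG 5 (3 * Us.length) (mcaB Us) ++ (pG 6 (3 * Us.length) (mcbB Us) ++ pS Us)))))))

end

/-- local minimum -/
def MnB (β₁ β₂ : Bool) (N : ℕ) (Us : List NT) (X : VV → Bool) : Prop :=
  ∀ v : VV, v.1 < 15 → v.2 < N + 3 * Us.length + 1 →
    imp β₁ β₂ X (flv X v) (condsB Us N) = false

/-- the conditions of the circuit, the least important one first -/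
def uDsB (N : ℕ) (Ts : List NT) : List (Cnd ℕ) :=
  ((condsB (nUs Ts) N).map (numC (bB N Ts))).reverse

/-- the circuit -/
def uCB (β₁ β₂ : Bool) (N : ℕ) (Ts : List NT) : Circuit :=
  condCircuit β₁ β₂ (15 * bB N Ts) (uDsB N Ts)

/-- the variable occurs in the condition -/
def occC (v : VV) (c : CV) : Bool := c.2.any fun p => decide (p.1 = v)

end Pool.Agent.MPa0a715.OD.Bd
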