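import Pool.Agent.Lib.MP_a0a715_lc_BI.BdDefs
import Pool.Agent.Lib.MP_a0a715_lc_IN.Defs

/-!
# Counting occurrences of variables in the system with bounded influence
-/

namespace Pool.Agent.MPa0a715.OD.Bd

open Pool.Agent.MPa0a715 Pool.Agent.MPa0a715.OD Pool.Agent.PolyTime
open Pool.Agent.MPa0a715.TL (NT termCircuit litNames)

namespace BdInflAux

/-! ### general facts on counting -/

theorem filter_card {α : Type} (d : α) (l : List α) (p : α → Bool) :
    ((Finset.range l.length).filter fun i => p (l.getD i d) = true).card =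
      (l.filter p).length := by
  have e : l = (List.range l.length).map (fun i => l.getD i d) := by
    refine List.ext_getElem (by simp) fun i h1 h2 => ?_
    rw [List.getElem_map, List.getElem_range, List.getD_eq_getElem _ _ h1]
  have e1 : (l.filter p).length =
      ((List.range l.length).filter fun i => p (l.getD i d)).length := by
    conv_lhs => rw [e, List.filter_map, List.length_map]
    rfl
  rw [e1, ← List.toFinset_card_of_nodup (List.nodup_range.filter _)]
  congr 1
  ext i
  simp

theorem cnt_flat {v : VV} {f : ℕ → List CV} {m b : ℕ} {S : Finset ℕ}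
    (hlen : ∀ k < m, (f k).length ≤ b)
    (hocc : ∀ k < m, ∀ c ∈ f k, occC v c = true → k ∈ S) :
    (((List.range m).flatMap f).filter (occC v)).length ≤ S.card * b := by
  have key : ∀ n ≤ m, (((List.range n).flatMap f).filter (occC v)).length ≤
      (S.filter (· < n)).card * b := by
    intro n
    induction n with
    | zero =>
      intro _
      simp
    | succ n ih =>
      intro hn
      rw [List.range_succ, List.flatMap_append, List.filter_append, List.length_append]
      have h1 := ih (by omega)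
      have e0 : List.flatMap f [n] = f n := by simp
      rw [e0]
      by_cases hS : n ∈ S
      · have e : S.filter (· < n + 1) = insert n (S.filter (· < n)) := by
          ext i
          simp only [Finset.mem_filter, Finset.mem_insert]
          constructor
          · rintro ⟨h2, h3⟩
            by_cases h4 : i = n
            · exact Or.inl h4
            · exact Or.inr ⟨h2, by omega⟩
          · rintro (rfl | ⟨h2, h3⟩)
            · exact ⟨hS, by omega⟩
            · exact ⟨h2, by omega⟩
        rw [e, Finset.card_insert_of_notMem (by simp), Nat.add_mul, Nat.one_mul]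
        have h2 : (List.filter (occC v) (f n)).length ≤ b :=
          (List.length_filter_le _ _).trans (hlen n (by omega))
        omega
      · have e : List.filter (occC v) (f n) = [] := by
          rw [List.filter_eq_nil_iff]
          intro c hc h
          exact hS (hocc n (by omega) c hc h)
        rw [e, List.length_nil, Nat.add_zero]
        refine h1.trans (Nat.mul_le_mul_right _ (Finset.card_le_card ?_))
        intro i hi
        rw [Finset.mem_filter] at hi ⊢
        exact ⟨hi.1, by omega⟩
  exact (key m le_rfl).trans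
    (Nat.mul_le_mul_right _ (Finset.card_le_card (Finset.filter_subset _ _)))

theorem occ_iff {v : VV} {c : CV} : occC v c = true ↔ ∃ p ∈ c.2, p.1 = v := by
  unfold occC
  rw [List.any_eq_true]
  simp

theorem occ_gd {g v : VV} {L : List (VV × Bool)} {c : CV} (hc : c ∈ gd g L)
    (h : occC v c = true) : g = v ∨ ∃ p ∈ L, p.1 = v := by
  rw [occ_iff] at h
  obtain ⟨p, hp, hpv⟩ := h
  unfold gd at hc
  rcases List.mem_append.1 hc with hc | hc
  · obtain ⟨q, hq, rfl⟩ := List.mem_map.1 hc
    simp only [List.mem_cons, List.not_mem_nil, or_false] at hp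
    rcases hp with rfl | rfl
    · exact Or.inl hpv
    · exact Or.inr ⟨q, hq, hpv⟩
  · rw [List.mem_singleton] at hc
    subst hc
    rw [List.mem_singleton] at hp
    subst hp
    exact Or.inl hpv

theorem length_gd (g : VV) (L : List (VV × Bool)) : (gd g L).length = L.length + 1 := by
  unfold gd
  simp

theorem cnt_pG {κ m b : ℕ} {L : ℕ → List (VV × Bool)} {v : VV} {S : Finset ℕ}
    (hlen : ∀ k < m, (L k).length + 1 ≤ b) (h1 : ∀ k < m, (κ, k) = v → k ∈ S)
    (h2 : ∀ k < m, ∀ p ∈ L k, p.1 = v → k ∈ S) :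
    ((pG κ m L).filter (occC v)).length ≤ S.card * b := by
  refine cnt_flat (fun k hk => by rw [length_gd]; exact hlen k hk) fun k hk c hc h => ?_
  rcases occ_gd hc h with h | ⟨p, hp, h⟩
  · exact h1 k hk h
  · exact h2 k hk p hp h

/-! ### positions -/

section
variable (Us : List NT)

/-- the conjunctions in which a variable occurs -/
def Qs (x : ℕ) : Finset ℕ :=
  (Finset.range Us.length).filter fun q => decide (∃ p ∈ Us.getD q [], p.1 = x) = true

/-- the positions of these conjunctions -/
def Ps (x : ℕ) : Finset ℕ := (Finset.range (3 * Us.length)).filter fun k => k / 3 ∈ Qs Us x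

variable {Us}

theorem mem_Qs {x q : ℕ} : q ∈ Qs Us x ↔ q < Us.length ∧ ∃ p ∈ Us.getD q [], p.1 = x := by
  unfold Qs
  rw [Finset.mem_filter, Finset.mem_range, decide_eq_true_eq]

theorem mem_Ps {x k : ℕ} : k ∈ Ps Us x ↔ k < 3 * Us.length ∧ ∃ p ∈ uu Us k, p.1 = x := by
  unfold Ps
  rw [Finset.mem_filter, Finset.mem_range, mem_Qs]
  constructor
  · rintro ⟨h1, _, h2⟩
    exact ⟨h1, h2⟩
  · rintro ⟨h1, h2⟩
    exact ⟨h1, by omega, h2⟩

variable (h : ∀ x, (Us.filter fun U => decide (∃ p ∈ U, p.1 = x)).length ≤ 7)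

include h

theorem card_Qs (x : ℕ) : (Qs Us x).card ≤ 7 := by
  unfold Qs
  rw [filter_card [] Us fun U => decide (∃ p ∈ U, p.1 = x)]
  exact h x

theorem card_Ps (x : ℕ) : (Ps Us x).card ≤ 21 := by
  have h1 : Ps Us x ⊆ (Qs Us x).biUnion fun q => {3 * q, 3 * q + 1, 3 * q + 2} := by
    intro k hk
    unfold Ps at hk
    rw [Finset.mem_filter] at hk
    rw [Finset.mem_biUnion]
    refine ⟨k / 3, hk.2, ?_⟩
    simp only [Finset.mem_insert, Finset.mem_singleton]
    omega
  have h2 := Finset.card_biUnion_le_card_mul (Qs Us x)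
    (fun q => ({3 * q, 3 * q + 1, 3 * q + 2} : Finset ℕ)) 3 (fun q _ => Finset.card_le_three)
  have h3 := card_Qs h x
  have h4 := Finset.card_le_card h1
  omega

end

section
variable {N : ℕ} {Us : List NT}

theorem rt_mem {k j : ℕ} (h : (k + j) % 3 < (uu Us k).length) : rt Us k j ∈ uu Us k := by
  unfold rt
  rw [List.getD_eq_getElem _ _ h]
  exact List.getElem_mem h

theorem okp_mem {k : ℕ} (h : okp Us k = true) : rt Us k 0 ∈ uu Us k := by
  unfold okp at h
  rw [decide_eq_true_eq] at h
  exact rt_mem h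

theorem up_occ {U : NT} {p : VV × Bool} (hp : p ∈ up U) {v : VV} (h : p.1 = v) :
    v.1 = 0 ∧ ∃ q ∈ U, q.1 = v.2 := by
  unfold up at hp
  obtain ⟨q, hq, rfl⟩ := List.mem_map.1 hp
  subst h
  exact ⟨rfl, q, hq, rfl⟩

theorem uu_len (hU : UOk N Us) (k : ℕ) : (uu Us k).length ≤ 3 := by
  unfold uu
  by_cases h : k / 3 < Us.length
  · exact (hU _ (mem_Us h)).1
  · rw [List.getD_eq_default _ _ (by omega)]
    simp

theorem rho_occ {k i : ℕ} (h3 : (uu Us k).length = 3) {v : VV} (h : (rho Us k i).1 = v) :
    (∃ p ∈ uu Us k, p.1 = v.2) ∨ k = v.2 := by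
  unfold rho at h
  split_ifs at h
  · subst h
    exact Or.inl ⟨_, rt_mem (by omega), rfl⟩
  · subst h
    exact Or.inl ⟨_, rt_mem (by omega), rfl⟩
  · subst h
    exact Or.inr rfl

theorem mp_occ {k : ℕ} (h3 : (uu Us k).length = 3) {L : List (Cnd ℕ)} {c : CV}
    (hc : c ∈ L.map (mp (rho Us k))) {v : VV} (h : occC v c = true) :
    (∃ p ∈ uu Us k, p.1 = v.2) ∨ k = v.2 := by
  obtain ⟨c', hc', rfl⟩ := List.mem_map.1 hc
  obtain ⟨p, hp, hpv⟩ := occ_iff.1 h
  obtain ⟨p', hp', rfl⟩ := List.mem_map.1 hp
  exact rho_occ h3 hpv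

theorem uu_three {q r : ℕ} (hr : r < 3) : uu Us (3 * q + r) = Us.getD q [] := by
  unfold uu
  congr 1
  omega

theorem blk_occ {q : ℕ} (hq : q < Us.length) {c : CV} (hc : c ∈ blk Us q) {v : VV}
    (h : occC v c = true) : q ∈ insert (v.2 / 3) (Qs Us v.2) := by
  rw [Finset.mem_insert, mem_Qs]
  unfold blk at hc
  split_ifs at hc with h1 h2
  · have key : ∀ r < 3, c ∈ hd Us (3 * q + r) → q = v.2 / 3 ∨ q < Us.length ∧
        ∃ p ∈ Us.getD q [], p.1 = v.2 := by
      intro r hr hc
      rcases mp_occ (by rw [uu_three hr]; exact h1) hc h with h4 | h4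
      · rw [uu_three hr] at h4
        exact Or.inr ⟨hq, h4⟩
      · left
        omega
    rcases List.mem_append.1 hc with hc | hc
    · exact key 0 (by omega) hc
    · rcases List.mem_append.1 hc with hc | hc
      · exact key 1 (by omega) hc
      · exact key 2 (by omega) hc
  · exact absurd hc List.not_mem_nil
  · rw [List.mem_singleton] at hc
    subst hc
    obtain ⟨p, hp, hpv⟩ := occ_iff.1 h
    exact Or.inr ⟨hq, (up_occ hp hpv).2⟩

theorem sbk_occ {q : ℕ} (hq : q < Us.length) {c : CV} (hc : c ∈ sbk Us q) {v : VV}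
    (h : occC v c = true) : q ∈ insert (v.2 / 3) (Qs Us v.2) := by
  rw [Finset.mem_insert, mem_Qs]
  unfold sbk at hc
  split_ifs at hc with h1
  · have key : ∀ r < 3, c ∈ sd Us (3 * q + r) → q = v.2 / 3 ∨ q < Us.length ∧
        ∃ p ∈ Us.getD q [], p.1 = v.2 := by
      intro r hr hc
      rcases mp_occ (by rw [uu_three hr]; exact h1) hc h with h4 | h4
      · rw [uu_three hr] at h4
        exact Or.inr ⟨hq, h4⟩
      · left
        omega
    rcases List.mem_append.1 hc with hc | hc
    · exact key 0 (by omega) hc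
    · rcases List.mem_append.1 hc with hc | hc
      · exact key 1 (by omega) hc
      · exact key 2 (by omega) hc
  · exact absurd hc List.not_mem_nil

theorem length_blk (q : ℕ) : (blk Us q).length ≤ 24 := by
  unfold blk hd
  split_ifs
  · simp [hardL]
  · simp
  · simp

theorem length_sbk (q : ℕ) : (sbk Us q).length ≤ 78 := by
  unfold sbk sd
  split_ifs
  · simp [softL]
  · simp

end

/-! ### the segments -/

section
variable {N : ℕ} {Us : List NT}
  (h : ∀ x, (Us.filter fun U => decide (∃ p ∈ U, p.1 = x)).length ≤ 7)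

include h

theorem card_ins_Q (a x : ℕ) : (insert a (Qs Us x)).card ≤ 8 := by
  have h1 := Finset.card_insert_le a (Qs Us x)
  have h2 := card_Qs h x
  omega

theorem card_ins_P (a x : ℕ) : (insert a (Ps Us x)).card ≤ 22 := by
  have h1 := Finset.card_insert_le a (Ps Us x)
  have h2 := card_Ps h x
  omega

theorem cnt_pA (v : VV) : ((pA Us).filter (occC v)).length ≤ 192 := by
  have h1 := cnt_flat (v := v) (f := blk Us) (m := Us.length) (b := 24)
    (S := insert (v.2 / 3) (Qs Us v.2)) (fun q _ => length_blk q)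
    (fun q hq c hc hv => blk_occ hq hc hv)
  have h2 := card_ins_Q h (v.2 / 3) v.2
  unfold pA
  omega

theorem cnt_pS (v : VV) : ((pS Us).filter (occC v)).length ≤ 624 := by
  have h1 := cnt_flat (v := v) (f := sbk Us) (m := Us.length) (b := 78)
    (S := insert (v.2 / 3) (Qs Us v.2)) (fun q _ => length_sbk q)
    (fun q hq c hc hv => sbk_occ hq hc hv)
  have h2 := card_ins_Q h (v.2 / 3) v.2
  unfold pS
  omega

theorem cnt_rest (hU : UOk N Us) (v : VV) :
    ((pG 1 (3 * Us.length) (restL Us)).filter (occC v)).length ≤ 88 := by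
  have h1 := cnt_pG (κ := 1) (m := 3 * Us.length) (L := restL Us) (b := 4) (v := v)
    (S := insert v.2 (Ps Us v.2)) ?_ ?_ ?_
  · have h2 := card_ins_P h v.2 v.2
    omega
  · intro k _
    unfold restL up
    rw [List.length_map]
    have h1 := List.length_filter_le (fun p : ℕ × Bool => decide (p.1 ≠ (rt Us k 0).1)) (uu Us k)
    have h2 := uu_len hU k
    omega
  · rintro k _ rfl
    exact Finset.mem_insert_self _ _
  · intro k hk p hp hv
    obtain ⟨_, q, hq, hqv⟩ := up_occ hp hv
    exact Finset.mem_insert_of_mem (mem_Ps.2 ⟨hk, q, List.mem_of_mem_filter hq, hqv⟩)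

/-- few positions with a given variable -/
theorem few_pos {m x : ℕ} (hm : m ≤ 3 * Us.length) {r : ℕ → Bool}
    (hr : ∀ k, r k = true → okp Us k = true ∧ (rt Us k 0).1 = x) :
    ((List.range m).filter r).length ≤ 21 := by
  rw [← List.toFinset_card_of_nodup (List.nodup_range.filter _)]
  refine (Finset.card_le_card ?_).trans (card_Ps h x)
  intro k hk
  rw [List.mem_toFinset, List.mem_filter, List.mem_range] at hk
  obtain ⟨h1, h2⟩ := hr k hk.2
  exact mem_Ps.2 ⟨by omega, _, okp_mem h1, h2⟩

theorem cnt_fix (hU : UOk N Us) (v : VV) :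
    ((pG 2 (3 * Us.length) (fixB Us)).filter (occC v)).length ≤ 550 := by
  have h1 := cnt_pG (κ := 2) (m := 3 * Us.length) (L := fixB Us) (b := 25) (v := v)
    (S := if v.1 = 0 then Ps Us v.2 else insert v.2 (Ps Us (rt Us v.2 0).1)) ?_ ?_ ?_
  · have h2 := card_ins_P h v.2 (rt Us v.2 0).1
    have h3 := card_Ps h v.2
    split_ifs at h1 <;> omega
  · intro k hk
    unfold fixB
    split_ifs with hok
    · unfold fixL up
      rw [if_pos hok, List.length_append, List.length_map, List.length_map]
      have h2 := uu_len hU k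
      have h3 := few_pos h (m := 3 * (k / 3)) (x := (rt Us k 0).1) (by omega)
        (r := fun k' => okp Us k' && decide (rt Us k' 0 = ((rt Us k 0).1, !(rt Us k 0).2))) ?_
      · omega
      · intro k' hk'
        rw [Bool.and_eq_true, decide_eq_true_eq] at hk'
        exact ⟨hk'.1, by rw [hk'.2]⟩
    · simp
  · rintro k _ rfl
    rw [if_neg (by simp)]
    exact Finset.mem_insert_self _ _
  · intro k hk p hp hv
    unfold fixB at hp
    split_ifs at hp with hok
    · unfold fixL at hp
      rw [if_pos hok] at hp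
      rcases List.mem_append.1 hp with hp | hp
      · obtain ⟨h0, q, hq, hqv⟩ := up_occ hp hv
        rw [if_pos h0]
        exact mem_Ps.2 ⟨hk, q, hq, hqv⟩
      · obtain ⟨k', hk', rfl⟩ := List.mem_map.1 hp
        subst hv
        rw [if_neg (by simp)]
        have h2 := (List.mem_filter.1 hk').2
        rw [Bool.and_eq_true, decide_eq_true_eq] at h2
        refine Finset.mem_insert_of_mem (mem_Ps.2 ⟨hk, _, okp_mem hok, ?_⟩)
        dsimp only
        rw [h2.2]
    · simp only [List.mem_cons, List.not_mem_nil, or_false] at hp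
      rcases hp with rfl | rfl
      · subst hv
        rw [if_neg (by simp)]
        exact Finset.mem_insert_self _ _
      · subst hv
        rw [if_neg (by simp)]
        exact Finset.mem_insert_self _ _

omit h in
theorem cnt_nf (v : VV) : ((pG 14 (3 * Us.length) nfB).filter (occC v)).length ≤ 6 := by
  have h1 := cnt_pG (κ := 14) (m := 3 * Us.length) (L := nfB) (b := 3) (v := v)
    (S := {v.2, v.2 + 1}) ?_ ?_ ?_
  · have h2 := Finset.card_le_two (a := v.2) (b := v.2 + 1)
    omega
  · intro k _
    cases k <;> simp [nfB]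
  · rintro k _ rfl
    simp
  · intro k _ p hp hv
    cases k with
    | zero => exact absurd hp List.not_mem_nil
    | succ k =>
      unfold nfB at hp
      simp only [List.mem_cons, List.not_mem_nil, or_false] at hp
      rcases hp with rfl | rfl <;> subst hv <;> simp

omit h in
theorem cnt_sel (v : VV) : ((pG 3 (3 * Us.length) selB).filter (occC v)).length ≤ 3 := by
  have h1 := cnt_pG (κ := 3) (m := 3 * Us.length) (L := selB) (b := 3) (v := v)
    (S := {v.2}) ?_ ?_ ?_
  · rw [Finset.card_singleton] at h1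
    omega
  · intro k _
    simp [selB]
  · rintro k _ rfl
    simp
  · intro k _ p hp hv
    unfold selB at hp
    simp only [List.mem_cons, List.not_mem_nil, or_false] at hp
    rcases hp with rfl | rfl <;> subst hv <;> simp

theorem cnt_na (v : VV) : ((pG 4 N (naL Us)).filter (occC v)).length ≤ 44 := by
  have h1 := cnt_pG (κ := 4) (m := N) (L := naL Us) (b := 22) (v := v)
    (S := {v.2, (rt Us v.2 0).1}) ?_ ?_ ?_
  · have h2 := Finset.card_le_two (a := v.2) (b := (rt Us v.2 0).1)
    omega
  · intro k _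
    unfold naL
    rw [List.length_map]
    have h3 := few_pos h (m := 3 * Us.length) (x := k) le_rfl
      (r := fun k' => okp Us k' && decide ((rt Us k' 0).1 = k)) ?_
    · omega
    · intro k' hk'
      rw [Bool.and_eq_true, decide_eq_true_eq] at hk'
      exact hk'
  · rintro k _ rfl
    simp
  · intro k _ p hp hv
    unfold naL at hp
    obtain ⟨k', hk', rfl⟩ := List.mem_map.1 hp
    subst hv
    have h2 := (List.mem_filter.1 hk').2
    rw [Bool.and_eq_true, decide_eq_true_eq] at h2
    simp [h2.2]

theorem cnt_mca (v : VV) :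
    ((pG 5 (3 * Us.length) (mcaB Us)).filter (occC v)).length ≤ 66 := by
  have h1 := cnt_pG (κ := 5) (m := 3 * Us.length) (L := mcaB Us) (b := 3) (v := v)
    (S := insert v.2 (Ps Us v.2)) ?_ ?_ ?_
  · have h2 := card_ins_P h v.2 v.2
    omega
  · intro k _
    unfold mcaB mcaL
    split_ifs <;> simp
  · rintro k _ rfl
    exact Finset.mem_insert_self _ _
  · intro k hk p hp hv
    unfold mcaB at hp
    split_ifs at hp with h3
    · unfold mcaL at hp
      simp only [List.mem_cons, List.not_mem_nil, or_false] at hp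
      rcases hp with rfl | rfl <;> subst hv
      · exact Finset.mem_insert_of_mem (mem_Ps.2 ⟨hk, _, rt_mem (j := 2) (by omega), rfl⟩)
      · exact Finset.mem_insert_of_mem (mem_Ps.2 ⟨hk, _, rt_mem (j := 0) (by omega), rfl⟩)
    · exact absurd hp List.not_mem_nil

theorem cnt_mcb (v : VV) :
    ((pG 6 (3 * Us.length) (mcbB Us)).filter (occC v)).length ≤ 66 := by
  have h1 := cnt_pG (κ := 6) (m := 3 * Us.length) (L := mcbB Us) (b := 3) (v := v)
    (S := insert v.2 (Ps Us v.2)) ?_ ?_ ?_
  · have h2 := card_ins_P h v.2 v.2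
    omega
  · intro k _
    unfold mcbB mcbL
    split_ifs <;> simp
  · rintro k _ rfl
    exact Finset.mem_insert_self _ _
  · intro k hk p hp hv
    unfold mcbB at hp
    split_ifs at hp with h3
    · unfold mcbL at hp
      simp only [List.mem_cons, List.not_mem_nil, or_false] at hp
      rcases hp with rfl | rfl <;> subst hv
      · exact Finset.mem_insert_of_mem (mem_Ps.2 ⟨hk, _, rt_mem (j := 2) (by omega), rfl⟩)
      · exact Finset.mem_insert_of_mem (mem_Ps.2 ⟨hk, _, rt_mem (j := 0) (by omega), rfl⟩)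
    · exact absurd hp List.not_mem_nil

end

end BdInflAux

open BdInflAux

/-- if every variable occurs in at most seven conjunctions, then every variable of the system
occurs in at most 2000 conditions -/
theorem count_condsB {N : ℕ} {Us : List NT} (hU : UOk N Us)
    (h : ∀ x, (Us.filter fun U => decide (∃ p ∈ U, p.1 = x)).length ≤ 7) (v : VV) :
    ((condsB Us N).filter (occC v)).length ≤ 2000 := by
  unfold condsB
  simp only [List.filter_append, List.length_append]
  have h1 := cnt_pA h v
  have h2 := cnt_rest h hU v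
  have h3 := cnt_fix h hU v
  have h4 := cnt_nf (Us := Us) v
  have h5 := cnt_sel (Us := Us) v
  have h6 := cnt_na (N := N) h v
  have h7 := cnt_mca h v
  have h8 := cnt_mcb h v
  have h9 := cnt_pS h v
  omega

namespace BdInflAux

/-! ### the conditions are in order -/

/-- the variables are in range -/
def InB15 (B : ℕ) (v : VV) : Prop := v.1 < 15 ∧ v.2 < B

/-- the conditions are in order -/
def COk15 (B : ℕ) (L : List CV) : Prop := ∀ c ∈ L, Shape c ∧ ∀ p ∈ c.2, InB15 B p.1

theorem cok_gd15 {B : ℕ} {g : VV} {L : List (VV × Bool)} (hg : InB15 B g)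
    (hL : ∀ p ∈ L, InB15 B p.1) : COk15 B (gd g L) := by
  intro c hc
  unfold gd at hc
  rcases List.mem_append.1 hc with hc | hc
  · obtain ⟨q, hq, rfl⟩ := List.mem_map.1 hc
    refine ⟨Or.inl ⟨rfl, Or.inr rfl⟩, ?_⟩
    intro p hp
    simp only [List.mem_cons, List.not_mem_nil, or_false] at hp
    rcases hp with rfl | rfl
    · exact hg
    · exact hL q hq
  · rw [List.mem_singleton] at hc
    subst hc
    refine ⟨Or.inl ⟨rfl, Or.inl rfl⟩, ?_⟩
    intro p hp
    rw [List.mem_singleton] at hp
    subst hp
    exact hg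

theorem cok15 {N : ℕ} {Us : List NT} (hU : UOk N Us) :
    COk15 (N + 3 * Us.length + 1) (condsB Us N) := by
  intro c hcm
  have hin : c ∈ conds Us N → Shape c ∧ ∀ p ∈ c.2, InB15 (N + 3 * Us.length + 1) p.1 := by
    intro hc
    obtain ⟨h1, h2⟩ := cok_conds hU c hc
    refine ⟨h1, fun p hp => ?_⟩
    obtain ⟨h3, h4⟩ := h2 p hp
    exact ⟨by omega, h4⟩
  unfold conds at hin
  simp only [List.mem_append] at hin
  unfold condsB at hcm
  simp only [List.mem_append] at hcm
  have hM : ∀ {κ m : ℕ} {L : ℕ → List (VV × Bool)} {k : ℕ}, k < m → c ∈ gd (κ, k) (L k) →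
      c ∈ pG κ m L := by
    intro κ m L k hk hc
    exact List.mem_flatMap.2 ⟨k, List.mem_range.2 hk, hc⟩
  rcases hcm with hc | hc | hc | hc | hc | hc | hc | hc | hc
  · exact hin (Or.inl hc)
  · exact hin (Or.inr (Or.inl hc))
  · obtain ⟨k, hk, hc⟩ := List.mem_flatMap.1 hc
    rw [List.mem_range] at hk
    unfold fixB at hc
    split_ifs at hc
    · exact hin (Or.inr (Or.inr (Or.inl (hM hk hc))))
    · refine cok_gd15 ⟨by simp, by show k < _; omega⟩ ?_ c hc
      intro p hp
      simp only [List.mem_cons, List.not_mem_nil, or_false] at hp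
      rcases hp with rfl | rfl
      · exact ⟨by simp, by show k < _; omega⟩
      · exact ⟨by simp, by show k < _; omega⟩
  · obtain ⟨k, hk, hc⟩ := List.mem_flatMap.1 hc
    rw [List.mem_range] at hk
    refine cok_gd15 ⟨by simp, by show k < _; omega⟩ ?_ c hc
    intro p hp
    cases k with
    | zero => exact absurd hp List.not_mem_nil
    | succ k =>
      unfold nfB at hp
      simp only [List.mem_cons, List.not_mem_nil, or_false] at hp
      rcases hp with rfl | rfl
      · exact ⟨by simp, by show k < _; omega⟩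
      · exact ⟨by simp, by show k < _; omega⟩
  · obtain ⟨k, hk, hc⟩ := List.mem_flatMap.1 hc
    rw [List.mem_range] at hk
    refine cok_gd15 ⟨by simp, by show k < _; omega⟩ ?_ c hc
    intro p hp
    unfold selB at hp
    simp only [List.mem_cons, List.not_mem_nil, or_false] at hp
    rcases hp with rfl | rfl
    · exact ⟨by simp, by show k < _; omega⟩
    · exact ⟨by simp, by show k < _; omega⟩
  · exact hin (Or.inr (Or.inr (Or.inr (Or.inr (Or.inl hc)))))
  · obtain ⟨k, hk, hc⟩ := List.mem_flatMap.1 hc
    rw [List.mem_range] at hk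
    unfold mcaB at hc
    split_ifs at hc
    · exact hin (Or.inr (Or.inr (Or.inr (Or.inr (Or.inr (Or.inl (hM hk hc)))))))
    · exact cok_gd15 ⟨by simp, by show k < _; omega⟩
        (fun p hp => absurd hp List.not_mem_nil) c hc
  · obtain ⟨k, hk, hc⟩ := List.mem_flatMap.1 hc
    rw [List.mem_range] at hk
    unfold mcbB at hc
    split_ifs at hc
    · exact hin (Or.inr (Or.inr (Or.inr (Or.inr (Or.inr (Or.inr (Or.inl (hM hk hc))))))))
    · exact cok_gd15 ⟨by simp, by show k < _; omega⟩
        (fun p hp => absurd hp List.not_mem_nil) c hc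
  · exact hin (Or.inr (Or.inr (Or.inr (Or.inr (Or.inr (Or.inr (Or.inr hc)))))))

theorem nm_lt15 {B : ℕ} {v : VV} (h1 : v.1 < 15) (h2 : v.2 < B) : nm B v < 15 * B := by
  unfold nm
  calc v.1 * B + v.2 < v.1 * B + B := by omega
    _ = (v.1 + 1) * B := by ring
    _ ≤ 15 * B := Nat.mul_le_mul_right _ h1

theorem uDsB_ok15 {N : ℕ} {Ts : List NT} (h : TOk N Ts) :
    DOk (15 * bB N Ts) (uDsB N Ts) := by
  intro c hc
  unfold uDsB at hc
  rw [List.mem_reverse] at hc
  obtain ⟨c', hc', rfl⟩ := List.mem_map.1 hc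
  obtain ⟨h1, h2⟩ := cok15 (nUs_ok h) c' hc'
  refine ⟨numC_shape h1, ?_⟩
  intro p hp
  unfold numC at hp
  obtain ⟨q, hq, rfl⟩ := List.mem_map.1 hp
  obtain ⟨h3, h4⟩ := h2 q hq
  rw [length_nUs] at h4
  exact nm_lt15 h3 h4

theorem few_nUs {Ts : List NT}
    (h : ∀ x, (Ts.filter fun T => decide (∃ p ∈ T, p.1 = x)).length ≤ 7) (x : ℕ) :
    ((nUs Ts).filter fun U => decide (∃ p ∈ U, p.1 = x)).length ≤ 7 := by
  refine le_trans ?_ (h x)
  unfold nUs
  rw [List.filter_reverse, List.length_reverse, List.filter_map, List.length_map,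
    ← List.countP_eq_length_filter, ← List.countP_eq_length_filter]
  refine List.countP_mono_left fun T _ hT => ?_
  rw [Function.comp_apply, decide_eq_true_eq] at hT
  obtain ⟨p, hp, hx⟩ := hT
  rw [decide_eq_true_eq]
  exact ⟨p, nT_sub hp, hx⟩

theorem cc_outs_length {β₁ β₂ : Bool} {N : ℕ} {Ds : List (Cnd ℕ)} :
    (condCircuit β₁ β₂ N Ds).outs.length = Ds.length := by
  unfold condCircuit compile ws
  simp

theorem cc_outBit {β₁ β₂ : Bool} {N : ℕ} {Ds : List (Cnd ℕ)} (h : DOk N Ds) {x : List Bool}
    (hx : x.length = N) {j : ℕ} (hj : j < Ds.length) :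
    (condCircuit β₁ β₂ N Ds).outBit x j =
      cv β₁ β₂ (fun i => x.getD i false) (Ds.getD j (false, [])) := by
  have h1 := cc_out (β₁ := β₁) (β₂ := β₂) h hx
  have h2 : ((condCircuit β₁ β₂ N Ds).out x).getD j false =
      (condCircuit β₁ β₂ N Ds).outBit x j := by
    have hj' : j < (condCircuit β₁ β₂ N Ds).outs.length := by
      rw [cc_outs_length]
      exact hj
    unfold Circuit.out Circuit.outBit
    rw [List.getD_eq_getElem _ _ (by rw [List.length_map]; exact hj'),
      List.getElem_map, List.getD_eq_getElem _ _ hj']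
    rfl
  rw [← h2, h1, List.getD_eq_getElem _ _ (by rw [List.length_map]; exact hj), List.getElem_map,
    List.getD_eq_getElem _ _ hj]

end BdInflAux

open BdInflAux

theorem influence_uCB {β₁ β₂ : Bool} {N : ℕ} {Ts : List NT} (hT : TOk N Ts)
    (h : ∀ x, (Ts.filter fun T => decide (∃ p ∈ T, p.1 = x)).length ≤ 7) :
    (uCB β₁ β₂ N Ts).Influence 2000 := by
  have hok := uDsB_ok15 hT
  intro i hi
  refine ⟨(Finset.range (uDsB N Ts).length).filter fun j =>
    (fun c : Cnd ℕ => decide (∃ p ∈ c.2, p.1 = i)) ((uDsB N Ts).getD j (false, [])) = true,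
    ?_, ?_⟩
  · rw [filter_card (false, []) (uDsB N Ts) fun c : Cnd ℕ => decide (∃ p ∈ c.2, p.1 = i)]
    refine le_trans ?_ (count_condsB (nUs_ok hT) (few_nUs h) (i / bB N Ts, i % bB N Ts))
    unfold uDsB
    rw [List.filter_reverse, List.length_reverse, List.filter_map, List.length_map,
      ← List.countP_eq_length_filter, ← List.countP_eq_length_filter]
    refine List.countP_mono_left fun c hc hci => ?_
    rw [Function.comp_apply, decide_eq_true_eq] at hci
    obtain ⟨p, hp, hpi⟩ := hci
    unfold numC at hp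
    obtain ⟨q, hq, rfl⟩ := List.mem_map.1 hp
    rw [occ_iff]
    refine ⟨q, hq, ?_⟩
    have h1 := ((cok15 (nUs_ok hT) c hc).2 q hq).2
    rw [length_nUs] at h1
    change q.1.2 < bB N Ts at h1
    have hB : 0 < bB N Ts := by omega
    subst hpi
    unfold nm
    dsimp only
    refine Prod.ext ?_ ?_
    · dsimp only
      rw [Nat.add_comm, Nat.add_mul_div_right _ _ hB, Nat.div_eq_of_lt h1, Nat.zero_add]
    · dsimp only
      rw [Nat.add_comm, Nat.add_mul_mod_self_right, Nat.mod_eq_of_lt h1]
  · rintro j hj ⟨x, hx, hne⟩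
    unfold uCB at hj hx hne hi
    rw [cc_outs_length] at hj
    rw [cc_n] at hx hi
    rw [Finset.mem_filter, Finset.mem_range]
    refine ⟨hj, ?_⟩
    rw [decide_eq_true_eq]
    by_contra hcon
    push Not at hcon
    apply hne
    rw [cc_outBit hok (by rw [length_flip]; exact hx) hj, cc_outBit hok hx hj]
    refine cv_congr fun p hp => ?_
    have hlt := (getD_ok hok hj).2 p hp
    rw [getD_flip _ _ _ (by rw [hx]; exact hlt), if_neg fun e => hcon p hp e.symm]

end Pool.Agent.MPa0a715.OD.Bd
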