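import Pool.Agent.Lib.MP_a0a715_lc_BI.BdDefs
import Pool.Agent.Lib.MP_a0a715_lc_OD.HPT

/-!
# The reduction to circuits with bounded influence is computed in polynomial time
-/

namespace Pool.Agent.MPa0a715.OD.Bd

open Pool.Agent.MPa0a715 Pool.Agent.MPa0a715.OD Pool.Agent.PolyTime
open Pool.Agent.MPa0a715.TL (NT termCircuit litNames)

namespace BdPTAux

variable {α : Type} [Enc α] {Us : α → List NT} {k : α → ℕ}

/-- as `fixB`, with a bound for the range -/
def fixB' (Us : List NT) (k : ℕ) : List (VV × Bool) :=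
  if okp Us k = true then fixL' Us k else [((1, k), true), ((1, k), false)]

theorem ptime_fixB (hU : PTime Us) (hk : PTime k) : PTime (fun a => fixB' (Us a) (k a)) :=
  PTime.iteP (ptime_okp hU hk).boolP (ptime_fixL hU hk)
    ((((PTime.const 1).pair hk).pair (PTime.const true)).cons
      ((((PTime.const 1).pair hk).pair (PTime.const false)).cons (PTime.const [])))

theorem ptime_nfB (hk : PTime k) : PTime (fun a => nfB (k a)) := by
  have h1 := hk.sub (PTime.const 1)
  refine (PTime.iteP (PTime.eq hk (PTime.const 0)) (PTime.const [])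
    ((((PTime.const 14).pair h1).pair (PTime.const true)).cons
      ((((PTime.const 2).pair h1).pair (PTime.const false)).cons (PTime.const [])))).of_eq
        fun a => ?_
  rcases Nat.eq_zero_or_pos (k a) with h | h
  · simp [h, nfB]
  · obtain ⟨j, hj⟩ := Nat.exists_eq_succ_of_ne_zero h.ne'
    simp [hj, nfB]

theorem ptime_selB (hk : PTime k) : PTime (fun a => selB (k a)) :=
  (((PTime.const 2).pair hk).pair (PTime.const true)).cons
    ((((PTime.const 14).pair hk).pair (PTime.const true)).cons (PTime.const []))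

theorem ptime_mcaB (hU : PTime Us) (hk : PTime k) : PTime (fun a => mcaB (Us a) (k a)) :=
  PTime.iteP (PTime.eq (PTime.length (ptime_uu hU hk)) (PTime.const 3)) (ptime_mcaL hU hk)
    (PTime.const [])

theorem ptime_mcbB (hU : PTime Us) (hk : PTime k) : PTime (fun a => mcbB (Us a) (k a)) :=
  PTime.iteP (PTime.eq (PTime.length (ptime_uu hU hk)) (PTime.const 3)) (ptime_mcbL hU hk)
    (PTime.const [])

theorem ptime_condsB {N : α → ℕ} (hU : PTime Us) (hN : PU N) :
    PTime (fun a => condsB (Us a) (N a)) := by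
  have hl : PU (fun a => 3 * (Us a).length) := (PU.const 3).mul (PU.ofLength hU)
  have hU' : PTime (fun p : α × ℕ => Us p.1) := hU.comp PTime.fst
  have hs : PTime (fun p : α × ℕ => p.2) := PTime.snd
  have hA : PTime (fun a => pA (Us a)) :=
    PTime.flatMap (g := fun (a : α) (k : ℕ) => blk (Us a) k) (PU.ofLength hU).range
      (ptime_blk hU' hs)
  have hS : PTime (fun a => pS (Us a)) :=
    PTime.flatMap (g := fun (a : α) (k : ℕ) => sbk (Us a) k) (PU.ofLength hU).range
      (ptime_sbk hU' hs)
  have h1 := ptime_pG (κ := 1) hl (L := fun a k => restL (Us a) k) (ptime_restL hU' hs)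
  have h2 := ptime_pG (κ := 2) hl (L := fun a k => fixB' (Us a) k) (ptime_fixB hU' hs)
  have h14 := ptime_pG (κ := 14) hl (L := fun _ k => nfB k) (ptime_nfB hs)
  have h3 := ptime_pG (κ := 3) hl (L := fun _ k => selB k) (ptime_selB hs)
  have h4 := ptime_pG (κ := 4) hN (L := fun a k => naL (Us a) k) (ptime_naL hU' hs)
  have h5 := ptime_pG (κ := 5) hl (L := fun a k => mcaB (Us a) k) (ptime_mcaB hU' hs)
  have h6 := ptime_pG (κ := 6) hl (L := fun a k => mcbB (Us a) k) (ptime_mcbB hU' hs)
  refine (PTime.append hA (PTime.append h1 (PTime.append h2 (PTime.append h14 (PTime.append h3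
    (PTime.append h4 (PTime.append h5 (PTime.append h6 hS)))))))).of_eq fun a => ?_
  unfold condsB
  have e2 : pG 2 (3 * (Us a).length) (fixB' (Us a)) = pG 2 (3 * (Us a).length) (fixB (Us a)) :=
    pG_congr fun k hk => by
      unfold fixB' fixB fixL' fixL
      rw [rg_eq (by omega)]
  rw [← e2]

end BdPTAux

open BdPTAux

theorem ptime_uCB {α : Type} [Enc α] {β₁ β₂ : Bool} {N : α → ℕ} {Ts : α → List NT}
    (hN : PU N) (hT : PTime Ts) : PTime (fun a => uCB β₁ β₂ (N a) (Ts a)) := by
  have hU : PTime (fun a => nUs (Ts a)) :=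
    PTime.reverse (PTime.map (g := fun (_ : α) (T : NT) => nT T) hT (ptime_nT.comp PTime.snd))
  have hB : PU (fun a => bB (N a) (Ts a)) :=
    (hN.add ((PU.const 3).mul (PU.ofLength hT))).add (PU.const 1)
  have hc := ptime_condsB hU hN
  have hD : PTime (fun a => uDsB (N a) (Ts a)) := by
    refine PTime.reverse (PTime.map (g := fun (a : α) (c : CV) => numC (bB (N a) (Ts a)) c) hc ?_)
    have h2 : PTime (fun q : α × CV => q.2) := PTime.snd
    refine h2.fst'.pair (PTime.map (g := fun (q : α × CV) (p : VV × Bool) =>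
      ((nm (bB (N q.1) (Ts q.1)) p.1, p.2) : ℕ × Bool)) h2.snd' ?_)
    have h3 : PTime (fun r : (α × CV) × (VV × Bool) => r.2) := PTime.snd
    have hB' : PTime (fun r : (α × CV) × (VV × Bool) => bB (N r.1.1) (Ts r.1.1)) :=
      hB.toNat.comp (PTime.fst' PTime.fst)
    exact ((h3.fst'.fst'.mul hB').add h3.fst'.snd').pair h3.snd'
  exact ptime_condCircuit ((PU.const 15).mul hB) hD

end Pool.Agent.MPa0a715.OD.Bd
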