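import Pool.Agent.Lib.MP_a0a715_lc_BI.BdDefs

/-!
# Local minima of the system with bounded influence
-/

namespace Pool.Agent.MPa0a715.OD.Bd

open Pool.Agent.MPa0a715 Pool.Agent.MPa0a715.OD
open Pool.Agent.MPa0a715.TL (NT)

namespace BdMnAux

section
variable {β₁ β₂ : Bool} {X Y : VV → Bool}

theorem all_congr {L : List (VV × Bool)} (h : ∀ p ∈ L, X p.1 = Y p.1) :
    L.all (lv X) = L.all (lv Y) := by
  rw [Bool.eq_iff_iff, List.all_eq_true, List.all_eq_true]
  exact forall₂_congr fun p hp => by
    unfold lv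
    rw [h p hp]

/-- in a local minimum all gates are right: inputs of the same kind with smaller number are
allowed -/
theorem gate_right' {κ m : ℕ} {L : ℕ → List (VV × Bool)} {P Q : List CV} {k : ℕ} (hk : k < m)
    (hP : Av κ P) (hL : ∀ k < m, ∀ p ∈ L k, p.1.1 = κ → p.1.2 < k)
    (h : imp β₁ β₂ X (flv X (κ, k)) (P ++ (pG κ m L ++ Q)) = false) :
    X (κ, k) = (L k).all (lv X) := by
  by_contra hcon
  have h1 : imp β₁ β₂ X (flv X (κ, k)) (P ++ (pG κ m L ++ Q)) = true := by
    refine imp_right hP.ni (imp_left (imp_flatMap hk ?_ (gd_imp ?_ hcon)))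
    · intro j hj
      refine ni_of_eq fun c hc p hp => ?_
      unfold gd at hc
      have hL' : ∀ q ∈ L j, q.1 ≠ (κ, k) := fun q hq e => by
        have := hL j (by omega) q hq (by rw [e])
        rw [e] at this
        dsimp only at this
        omega
      have hjk : ((κ, j) : VV) ≠ (κ, k) := by
        intro e
        have := congrArg Prod.snd e
        simp at this
        omega
      rcases List.mem_append.1 hc with hc | hc
      · obtain ⟨q, hq, rfl⟩ := List.mem_map.1 hc
        simp only [List.mem_cons, List.not_mem_nil, or_false] at hp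
        rcases hp with rfl | rfl
        · exact hjk
        · exact hL' q hq
      · rw [List.mem_singleton] at hc
        subst hc
        rw [List.mem_singleton] at hp
        subst hp
        exact hjk
    · intro p hp e
      have := hL k hk p hp (by rw [e])
      rw [e] at this
      dsimp only at this
      omega
  rw [h1] at h
  exact absurd h (by simp)

theorem imp_false_of {X' : VV → Bool} {K : List CV} (h : ∀ c ∈ K, cv β₁ β₂ X c = false) :
    imp β₁ β₂ X X' K = false := by
  induction K with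
  | nil => rfl
  | cons c K ih =>
    rw [imp_cons, h c List.mem_cons_self, ih fun c hc => h c (List.mem_cons_of_mem _ hc)]
    simp

/-- a right gate which is flipped: some condition becomes true -/
theorem gd_ni {g : VV} {L : List (VV × Bool)} (hg : ∀ p ∈ L, p.1 ≠ g)
    (h : X g = L.all (lv X)) (hN : Ni β₁ β₂ X (flv X g) (gd g L)) : False := by
  cases hX : X g with
  | false =>
    rw [hX] at h
    have hall : ∃ p ∈ L, lv X p = false := by
      by_contra hcon
      push Not at hcon
      have : L.all (lv X) = true := by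
        rw [List.all_eq_true]
        intro p hp
        exact (Bool.not_eq_false _).mp (hcon p hp)
      rw [this] at h
      exact absurd h (by simp)
    obtain ⟨p, hp, hp'⟩ := hall
    have h1 := hN (false, [(g, true), (p.1, !p.2)]) (by
      unfold gd
      exact List.mem_append_left _ (List.mem_map.2 ⟨p, hp, rfl⟩))
    have h2 : cv β₁ β₂ (flv X g) (false, [(g, true), (p.1, !p.2)]) = true := by
      simp only [cv, lv, List.all_cons, List.all_nil, flv_self, hX, flv_ne _ (hg p hp)]
      simp only [lv] at hp'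
      revert hp'
      cases X p.1 <;> cases p.2 <;> simp
    have h3 := h1 h2
    simp [cv, lv, hX] at h3
  | true =>
    have h1 := hN (false, [(g, false)]) (by
      unfold gd
      exact List.mem_append_right _ (List.mem_singleton.2 rfl))
    have h2 : cv β₁ β₂ (flv X g) (false, [(g, false)]) = true := by
      simp [cv, lv, flv_self, hX]
    have h3 := h1 h2
    simp [cv, lv, hX] at h3

/-- a right gate: no flip is an improvement -/
theorem gd_imp_false {g : VV} {L : List (VV × Bool)} (hg : ∀ p ∈ L, p.1 ≠ g)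
    (h : X g = L.all (lv X)) (v : VV) : imp β₁ β₂ X (flv X v) (gd g L) = false := by
  rw [← Bool.not_eq_true]
  intro hcon
  unfold gd at hcon
  rcases imp_append_cases hcon with h1 | ⟨h1, h2⟩
  · rw [imp_false_of] at h1
    · exact absurd h1 (by simp)
    · intro c hc
      obtain ⟨p, hp, rfl⟩ := List.mem_map.1 hc
      cases hX : X g with
      | false => simp [cv, lv, hX]
      | true =>
        rw [hX] at h
        have h3 := (List.all_eq_true.1 h.symm) p hp
        simp only [cv, lv, List.all_cons, List.all_nil, hX]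
        simp only [lv] at h3
        revert h3
        cases X p.1 <;> cases p.2 <;> simp
  · rw [imp_cons] at h2
    simp only [cv, lv, List.all_cons, List.all_nil, Bool.and_true] at h2
    by_cases hv : v = g
    · subst hv
      cases hX : X v with
      | true =>
        rw [hX] at h2
        simp [imp] at h2
      | false =>
        refine gd_ni (β₁ := β₁) (β₂ := β₂) hg h ?_
        unfold gd
        refine h1.append ?_
        intro c hc _
        rw [List.mem_singleton] at hc
        subst hc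
        simp [cv, lv, hX]
    · rw [flv_ne _ (Ne.symm hv)] at h2
      revert h2
      cases X g <;> simp [imp]

theorem pG_imp_false {κ m : ℕ} {L : ℕ → List (VV × Bool)} (hL : ∀ k < m, ∀ p ∈ L k, p.1.1 ≠ κ)
    (h : ∀ k < m, X (κ, k) = (L k).all (lv X)) (v : VV) :
    imp β₁ β₂ X (flv X v) (pG κ m L) = false := by
  unfold pG
  induction m with
  | zero => rfl
  | succ m ih =>
    rw [← Bool.not_eq_true]
    intro hcon
    rw [List.range_succ, List.flatMap_append] at hcon
    rcases imp_append_cases hcon with h1 | ⟨_, h2⟩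
    · rw [ih (fun k hk => hL k (by omega)) fun k hk => h k (by omega)] at h1
      exact absurd h1 (by simp)
    · rw [List.flatMap_singleton, gd_imp_false] at h2
      · exact absurd h2 (by simp)
      · intro p hp e
        exact hL m (by omega) p hp (by rw [e])
      · exact h m (by omega)

theorem pG_ne {κ m : ℕ} {L : ℕ → List (VV × Bool)} (hL : ∀ k < m, ∀ p ∈ L k, p.1.1 ≠ κ)
    (h : ∀ k < m, X (κ, k) = (L k).all (lv X)) {v : VV}
    (hN : Ni β₁ β₂ X (flv X v) (pG κ m L)) {k : ℕ} (hk : k < m) : v ≠ (κ, k) := by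
  rintro rfl
  refine gd_ni (β₁ := β₁) (β₂ := β₂) (X := X) (g := (κ, k)) (L := L k) ?_ (h k hk) ?_
  · intro p hp e
    exact hL k hk p hp (by rw [e])
  · intro c hc
    exact hN c (List.mem_flatMap.2 ⟨k, List.mem_range.2 hk, hc⟩)

end

section
variable {Us : List NT}

theorem fixB_kind {k : ℕ} {p : VV × Bool} (hp : p ∈ fixB Us k) : p.1.1 = 0 ∨ p.1.1 = 1 := by
  unfold fixB at hp
  split_ifs at hp
  · exact fixL_kind hp
  · simp only [List.mem_cons, List.not_mem_nil, or_false] at hp
    rcases hp with rfl | rfl <;> exact Or.inr rfl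

theorem nfB_kind {k : ℕ} {p : VV × Bool} (hp : p ∈ nfB k) :
    (p.1.1 = 14 ∧ p.1.2 < k) ∨ p.1.1 = 2 := by
  cases k with
  | zero => exact absurd hp List.not_mem_nil
  | succ k =>
    simp only [nfB, List.mem_cons, List.not_mem_nil, or_false] at hp
    rcases hp with rfl | rfl
    · exact Or.inl ⟨rfl, Nat.lt_succ_self k⟩
    · exact Or.inr rfl

theorem selB_kind {k : ℕ} {p : VV × Bool} (hp : p ∈ selB k) : p.1.1 = 2 ∨ p.1.1 = 14 := by
  simp only [selB, List.mem_cons, List.not_mem_nil, or_false] at hp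
  rcases hp with rfl | rfl
  · exact Or.inl rfl
  · exact Or.inr rfl

theorem mcaB_kind {k : ℕ} {p : VV × Bool} (hp : p ∈ mcaB Us k) : p.1.1 = 4 ∨ p.1.1 = 0 := by
  unfold mcaB at hp
  split_ifs at hp
  · exact mcaL_kind hp
  · exact absurd hp List.not_mem_nil

theorem mcbB_kind {k : ℕ} {p : VV × Bool} (hp : p ∈ mcbB Us k) : p.1.1 = 4 ∨ p.1.1 = 0 := by
  unfold mcbB at hp
  split_ifs at hp
  · exact mcbL_kind hp
  · exact absurd hp List.not_mem_nil

variable {N : ℕ} {β₁ β₂ : Bool} {X : VV → Bool}

theorem avA1 {κ : ℕ} (h : Out κ) (h1 : 1 ≠ κ) :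
    Av κ (pA Us ++ pG 1 (3 * Us.length) (restL Us)) :=
  (av_pA h).append (av_pG h1 fun k _ p hp => by
    rw [restL_kind hp]
    exact Ne.symm h.1)

theorem avA2 {κ : ℕ} (h : Out κ) (h1 : 1 ≠ κ) (h2 : 2 ≠ κ) :
    Av κ ((pA Us ++ pG 1 (3 * Us.length) (restL Us)) ++ pG 2 (3 * Us.length) (fixB Us)) :=
  (avA1 h h1).append (av_pG h2 fun k _ p hp => by
    have := fixB_kind hp
    have := h.1
    omega)

theorem avA14 {κ : ℕ} (h : Out κ) (h1 : 1 ≠ κ) (h2 : 2 ≠ κ) (h14 : 14 ≠ κ) :
    Av κ (((pA Us ++ pG 1 (3 * Us.length) (restL Us)) ++ pG 2 (3 * Us.length) (fixB Us)) ++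
      pG 14 (3 * Us.length) nfB) :=
  (avA2 h h1 h2).append (av_pG h14 fun k _ p hp => by
    have := nfB_kind hp
    omega)

theorem avA3 {κ : ℕ} (h : Out κ) (h1 : 1 ≠ κ) (h2 : 2 ≠ κ) (h14 : 14 ≠ κ) (h3 : 3 ≠ κ) :
    Av κ ((((pA Us ++ pG 1 (3 * Us.length) (restL Us)) ++ pG 2 (3 * Us.length) (fixB Us)) ++
      pG 14 (3 * Us.length) nfB) ++ pG 3 (3 * Us.length) selB) :=
  (avA14 h h1 h2 h14).append (av_pG h3 fun k _ p hp => by
    have := selB_kind hp
    omega)

theorem avA4 {κ : ℕ} (h : Out κ) (h1 : 1 ≠ κ) (h2 : 2 ≠ κ) (h14 : 14 ≠ κ) (h3 : 3 ≠ κ)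
    (h4 : 4 ≠ κ) :
    Av κ (((((pA Us ++ pG 1 (3 * Us.length) (restL Us)) ++ pG 2 (3 * Us.length) (fixB Us)) ++
      pG 14 (3 * Us.length) nfB) ++ pG 3 (3 * Us.length) selB) ++ pG 4 N (naL Us)) :=
  (avA3 h h1 h2 h14 h3).append (av_pG h4 fun k _ p hp => by
    have := naL_kind hp
    omega)

theorem avA5 {κ : ℕ} (h : Out κ) (h1 : 1 ≠ κ) (h2 : 2 ≠ κ) (h14 : 14 ≠ κ) (h3 : 3 ≠ κ)
    (h4 : 4 ≠ κ) (h5 : 5 ≠ κ) :
    Av κ ((((((pA Us ++ pG 1 (3 * Us.length) (restL Us)) ++ pG 2 (3 * Us.length) (fixB Us)) ++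
      pG 14 (3 * Us.length) nfB) ++ pG 3 (3 * Us.length) selB) ++ pG 4 N (naL Us)) ++
      pG 5 (3 * Us.length) (mcaB Us)) :=
  (avA4 h h1 h2 h14 h3 h4).append (av_pG h5 fun k _ p hp => by
    have := mcaB_kind hp
    have := h.1
    omega)

section
variable (hX : MnB β₁ β₂ N Us X)

include hX

theorem restB_eq {k : ℕ} (hk : k < 3 * Us.length) : X (1, k) = (restL Us k).all (lv X) := by
  refine gate_right' (m := 3 * Us.length) hk (av_pA (Us := Us) ⟨by omega, by omega⟩) ?_
    (hX (1, k) (by simp) (by dsimp only; omega))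
  intro k _ p hp h
  rw [restL_kind hp] at h
  omega

theorem fixB_eq {k : ℕ} (hk : k < 3 * Us.length) : X (2, k) = (fixB Us k).all (lv X) := by
  have h := hX (2, k) (by simp) (by dsimp only; omega)
  unfold condsB at h
  rw [← List.append_assoc] at h
  refine gate_right' hk (avA1 ⟨by omega, by omega⟩ (by omega)) ?_ h
  intro k _ p hp h
  have := fixB_kind hp
  omega

theorem nfB_eq {k : ℕ} (hk : k < 3 * Us.length) : X (14, k) = (nfB k).all (lv X) := by
  have h := hX (14, k) (by simp) (by dsimp only; omega)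
  unfold condsB at h
  rw [← List.append_assoc, ← List.append_assoc] at h
  refine gate_right' hk (avA2 ⟨by omega, by omega⟩ (by omega) (by omega)) ?_ h
  intro k _ p hp h
  have := nfB_kind hp
  omega

theorem selB_eq {k : ℕ} (hk : k < 3 * Us.length) : X (3, k) = (selB k).all (lv X) := by
  have h := hX (3, k) (by simp) (by dsimp only; omega)
  unfold condsB at h
  rw [← List.append_assoc, ← List.append_assoc, ← List.append_assoc] at h
  refine gate_right' hk (avA14 ⟨by omega, by omega⟩ (by omega) (by omega) (by omega)) ?_ h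
  intro k _ p hp h
  have := selB_kind hp
  omega

theorem naB_eq {x : ℕ} (hx : x < N) : X (4, x) = (naL Us x).all (lv X) := by
  have h := hX (4, x) (by simp) (by dsimp only; omega)
  unfold condsB at h
  rw [← List.append_assoc, ← List.append_assoc, ← List.append_assoc, ← List.append_assoc] at h
  refine gate_right' hx (avA3 ⟨by omega, by omega⟩ (by omega) (by omega) (by omega)
    (by omega)) ?_ h
  intro k _ p hp h
  have := naL_kind hp
  omega

theorem mcaB_eq {k : ℕ} (hk : k < 3 * Us.length) : X (5, k) = (mcaB Us k).all (lv X) := by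
  have h := hX (5, k) (by simp) (by dsimp only; omega)
  unfold condsB at h
  rw [← List.append_assoc, ← List.append_assoc, ← List.append_assoc, ← List.append_assoc,
    ← List.append_assoc] at h
  refine gate_right' hk (avA4 ⟨by omega, by omega⟩ (by omega) (by omega) (by omega)
    (by omega) (by omega)) ?_ h
  intro k _ p hp h
  have := mcaB_kind hp
  omega

theorem mcbB_eq {k : ℕ} (hk : k < 3 * Us.length) : X (6, k) = (mcbB Us k).all (lv X) := by
  have h := hX (6, k) (by simp) (by dsimp only; omega)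
  unfold condsB at h
  rw [← List.append_assoc, ← List.append_assoc, ← List.append_assoc, ← List.append_assoc,
    ← List.append_assoc, ← List.append_assoc] at h
  refine gate_right' hk (avA5 ⟨by omega, by omega⟩ (by omega) (by omega) (by omega)
    (by omega) (by omega) (by omega)) ?_ h
  intro k _ p hp h
  have := mcbB_kind hp
  omega

theorem fix_old {k : ℕ} (hk : k < 3 * Us.length) : X (2, k) = (fixL Us k).all (lv X) := by
  rw [fixB_eq hX hk]
  unfold fixB
  by_cases h : okp Us k = true
  · rw [if_pos h]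
  · rw [if_neg h]
    unfold fixL
    rw [if_neg h]
    simp only [List.all_cons, List.all_nil, lv]
    cases X (1, k) <;> cases X (0, 0) <;> rfl

theorem chain {k : ℕ} (hk : k < 3 * Us.length) :
    X (14, k) = ((List.range k).map fun k' => (((2, k'), false) : VV × Bool)).all (lv X) := by
  induction k with
  | zero =>
    rw [nfB_eq hX hk]
    rfl
  | succ k ih =>
    rw [nfB_eq hX hk, List.range_succ, List.map_append, List.all_append, ← ih (by omega)]
    simp only [nfB, List.map_cons, List.map_nil, List.all_cons, List.all_nil, lv]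
    cases X (14, k) <;> rfl

theorem sel_old {k : ℕ} (hk : k < 3 * Us.length) : X (3, k) = (selL k).all (lv X) := by
  rw [selB_eq hX hk]
  unfold selL
  rw [List.all_cons, ← chain hX hk]
  simp only [selB, List.all_cons, List.all_nil, lv]
  cases X (14, k) <;> simp

end

/-- the corrected state -/
def X1 (Us : List NT) (X : VV → Bool) : VV → Bool := fun v =>
  if v.1 = 5 ∧ v.2 < 3 * Us.length ∧ (uu Us v.2).length ≠ 3 then (mcaL Us v.2).all (lv X)
  else if v.1 = 6 ∧ v.2 < 3 * Us.length ∧ (uu Us v.2).length ≠ 3 then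
    (mcbL Us v.2).all (lv X) else X v

theorem X1_kind {v : VV} (h5 : v.1 ≠ 5) (h6 : v.1 ≠ 6) : X1 Us X v = X v := by
  unfold X1
  rw [if_neg (fun h => h5 h.1), if_neg (fun h => h6 h.1)]

theorem X1_len {v : VV} (h : (uu Us v.2).length = 3) : X1 Us X v = X v := by
  unfold X1
  rw [if_neg (fun h' => h'.2.2 h), if_neg (fun h' => h'.2.2 h)]

theorem X1_all {L : List (VV × Bool)} (h : ∀ p ∈ L, p.1.1 ≠ 5 ∧ p.1.1 ≠ 6) :
    L.all (lv (X1 Us X)) = L.all (lv X) :=
  all_congr fun p hp => X1_kind (h p hp).1 (h p hp).2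

theorem pS_mem {c : CV} (hc : c ∈ pS Us) : ∃ k < 3 * Us.length, (uu Us k).length = 3 ∧
    ∃ c' ∈ softL, c = mp (rho Us k) c' := by
  obtain ⟨q, hq, hc⟩ := List.mem_flatMap.1 hc
  rw [List.mem_range] at hq
  unfold sbk at hc
  split_ifs at hc with h3
  · have key : ∀ r < 3, c ∈ sd Us (3 * q + r) → ∃ k < 3 * Us.length, (uu Us k).length = 3 ∧
        ∃ c' ∈ softL, c = mp (rho Us k) c' := by
      intro r hr h
      obtain ⟨c', hc', rfl⟩ := List.mem_map.1 h
      refine ⟨3 * q + r, by omega, ?_, c', hc', rfl⟩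
      unfold uu
      rw [show (3 * q + r) / 3 = q by omega]
      exact h3
    rcases List.mem_append.1 hc with hc | hc
    · exact key 0 (by omega) hc
    · rcases List.mem_append.1 hc with hc | hc
      · exact key 1 (by omega) hc
      · exact key 2 (by omega) hc
  · exact absurd hc List.not_mem_nil

theorem pS_var {c : CV} (hc : c ∈ pS Us) {p : VV × Bool} (hp : p ∈ c.2) :
    ∃ k < 3 * Us.length, (uu Us k).length = 3 ∧ ∃ i, 3 ≤ i ∧ i ≤ 13 ∧ p.1 = (rho Us k i).1 := by
  obtain ⟨k, hk, h3, c', hc', rfl⟩ := pS_mem hc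
  obtain ⟨p', hp', rfl⟩ := List.mem_map.1 hp
  exact ⟨k, hk, h3, p'.1, (soft_idx c' hc' p' hp').1, (soft_idx c' hc' p' hp').2, rfl⟩

theorem X1_pS {c : CV} (hc : c ∈ pS Us) {p : VV × Bool} (hp : p ∈ c.2) :
    X1 Us X p.1 = X p.1 := by
  obtain ⟨k, hk, h3, i, h1, h2, e⟩ := pS_var hc hp
  rw [e]
  by_cases hi : i < 5
  · rw [rho_mid h1 hi]
    exact X1_kind (by simp) (by simp)
  · rw [rho_ge (by omega)]
    exact X1_len h3

theorem flv_congr {v w : VV} (h : X1 Us X w = X w) : flv (X1 Us X) v w = flv X v w := by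
  by_cases e : w = v
  · subst e
    rw [flv_self, flv_self, h]
  · rw [flv_ne _ e, flv_ne _ e, h]

end

end BdMnAux

open BdMnAux

/-- a local minimum of the new system gives a local minimum of the old one, with the same values
of the main variables -/
theorem mn_of_mnB {β₁ β₂ : Bool} {N : ℕ} {Us : List NT} {X : VV → Bool} (hU : UOk N Us)
    (h : MnB β₁ β₂ N Us X) :
    ∃ X' : VV → Bool, Mn β₁ β₂ N Us X' ∧ ∀ j, X' (0, j) = X (0, j) := by
  refine ⟨X1 Us X, ?_, fun j => X1_kind (by simp) (by simp)⟩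
  intro v hv1 hv2
  rw [← Bool.not_eq_true]
  intro hcon
  set Z := X1 Us X with hZ
  -- all old gates are right
  have hk1 : ∀ k < 3 * Us.length, ∀ p ∈ restL Us k, p.1.1 ≠ 1 := fun k _ p hp => by
    rw [restL_kind hp]
    omega
  have hk2 : ∀ k < 3 * Us.length, ∀ p ∈ fixL Us k, p.1.1 ≠ 2 := fun k _ p hp => by
    have := fixL_kind hp
    omega
  have hk3 : ∀ k < 3 * Us.length, ∀ p ∈ selL k, p.1.1 ≠ 3 := fun k _ p hp => by
    have := selL_kind hp
    omega
  have hk4 : ∀ k < N, ∀ p ∈ naL Us k, p.1.1 ≠ 4 := fun k _ p hp => by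
    have := naL_kind hp
    omega
  have hk5 : ∀ k < 3 * Us.length, ∀ p ∈ mcaL Us k, p.1.1 ≠ 5 := fun k _ p hp => by
    have := mcaL_kind hp
    omega
  have hk6 : ∀ k < 3 * Us.length, ∀ p ∈ mcbL Us k, p.1.1 ≠ 6 := fun k _ p hp => by
    have := mcbL_kind hp
    omega
  have hg1 : ∀ k < 3 * Us.length, Z (1, k) = (restL Us k).all (lv Z) := fun k hk => by
    rw [hZ, X1_kind (by simp) (by simp), restB_eq h hk, X1_all]
    intro p hp
    rw [restL_kind hp]
    omega
  have hg2 : ∀ k < 3 * Us.length, Z (2, k) = (fixL Us k).all (lv Z) := fun k hk => by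
    rw [hZ, X1_kind (by simp) (by simp), fix_old h hk, X1_all]
    intro p hp
    have := fixL_kind hp
    omega
  have hg3 : ∀ k < 3 * Us.length, Z (3, k) = (selL k).all (lv Z) := fun k hk => by
    rw [hZ, X1_kind (by simp) (by simp), sel_old h hk, X1_all]
    intro p hp
    have := selL_kind hp
    omega
  have hg4 : ∀ k < N, Z (4, k) = (naL Us k).all (lv Z) := fun k hk => by
    rw [hZ, X1_kind (by simp) (by simp), naB_eq h hk, X1_all]
    intro p hp
    have := naL_kind hp
    omega
  have hg5 : ∀ k < 3 * Us.length, Z (5, k) = (mcaL Us k).all (lv Z) := fun k hk => by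
    rw [hZ, X1_all (L := mcaL Us k)]
    · by_cases h3 : (uu Us k).length = 3
      · rw [X1_len h3, mcaB_eq h hk]
        unfold mcaB
        rw [if_pos h3]
      · unfold X1
        rw [if_pos ⟨rfl, hk, h3⟩]
    · intro p hp
      have := mcaL_kind hp
      omega
  have hg6 : ∀ k < 3 * Us.length, Z (6, k) = (mcbL Us k).all (lv Z) := fun k hk => by
    rw [hZ, X1_all (L := mcbL Us k)]
    · by_cases h3 : (uu Us k).length = 3
      · rw [X1_len h3, mcbB_eq h hk]
        unfold mcbB
        rw [if_pos h3]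
      · unfold X1
        rw [if_neg (by simp), if_pos ⟨rfl, hk, h3⟩]
    · intro p hp
      have := mcbL_kind hp
      omega
  -- the first part
  have hA : ∀ c ∈ pA Us, ∀ p ∈ c.2, Z p.1 = X p.1 := fun c hc p hp =>
    X1_kind (av_pA (Us := Us) (κ := 5) ⟨by omega, by omega⟩ c hc p hp)
      (av_pA (Us := Us) (κ := 6) ⟨by omega, by omega⟩ c hc p hp)
  have hA1 : ∀ c ∈ pA Us, cv β₁ β₂ Z c = cv β₁ β₂ X c := fun c hc => cv_congr (hA c hc)
  have hA2 : ∀ c ∈ pA Us, cv β₁ β₂ (flv Z v) c = cv β₁ β₂ (flv X v) c := fun c hc =>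
    cv_congr fun p hp => flv_congr (hA c hc p hp)
  have hS1 : ∀ c ∈ pS Us, cv β₁ β₂ Z c = cv β₁ β₂ X c := fun c hc =>
    cv_congr fun p hp => X1_pS hc hp
  have hS2 : ∀ c ∈ pS Us, cv β₁ β₂ (flv Z v) c = cv β₁ β₂ (flv X v) c := fun c hc =>
    cv_congr fun p hp => flv_congr (X1_pS hc hp)
  have hmin := h v (by omega) hv2
  unfold conds at hcon
  rcases imp_append_cases hcon with h1 | ⟨hN0, hcon⟩
  · rw [imp_congr hA1 hA2] at h1
    unfold condsB at hmin
    rw [imp_left h1] at hmin
    exact absurd hmin (by simp)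
  rcases imp_append_cases hcon with h1 | ⟨hN1, hcon⟩
  · rw [pG_imp_false hk1 hg1] at h1
    exact absurd h1 (by simp)
  rcases imp_append_cases hcon with h1 | ⟨hN2, hcon⟩
  · rw [pG_imp_false hk2 hg2] at h1
    exact absurd h1 (by simp)
  rcases imp_append_cases hcon with h1 | ⟨hN3, hcon⟩
  · rw [pG_imp_false hk3 hg3] at h1
    exact absurd h1 (by simp)
  rcases imp_append_cases hcon with h1 | ⟨hN4, hcon⟩
  · rw [pG_imp_false hk4 hg4] at h1
    exact absurd h1 (by simp)
  rcases imp_append_cases hcon with h1 | ⟨hN5, hcon⟩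
  · rw [pG_imp_false hk5 hg5] at h1
    exact absurd h1 (by simp)
  rcases imp_append_cases hcon with h1 | ⟨hN6, hcon⟩
  · rw [pG_imp_false hk6 hg6] at h1
    exact absurd h1 (by simp)
  -- the variable is one of the gadgets
  have hv7 : 7 ≤ v.1 := by
    by_contra hlt
    push Not at hlt
    have hno : ∀ c ∈ pS Us, ∀ p ∈ c.2, p.1 ≠ v := by
      intro c hc p hp e
      obtain ⟨k, hk, h3, i, hi1, hi2, e1⟩ := pS_var hc hp
      rw [e] at e1
      by_cases hi : i < 5
      · rw [rho_mid hi1 hi] at e1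
        have hlt' : (rt Us k (i - 3)).1 < N := by
          refine uu_mem hU (k := k) ?_
          unfold rt
          rw [List.getD_eq_getElem _ _ (by rw [h3]; omega)]
          exact List.getElem_mem _
        exact pG_ne hk4 hg4 hN4 hlt' e1
      · rw [rho_ge (by omega)] at e1
        have e2 := congrArg Prod.fst e1
        dsimp only at e2
        have hi' : i = 5 ∨ i = 6 := by omega
        rcases hi' with rfl | rfl
        · exact pG_ne hk5 hg5 hN5 hk e1
        · exact pG_ne hk6 hg6 hN6 hk e1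
    have hsame : ∀ c ∈ pS Us, cv β₁ β₂ (flv Z v) c = cv β₁ β₂ Z c := fun c hc =>
      cv_congr fun p hp => flv_ne _ (hno c hc p hp)
    have hz : ∀ K : List CV, (∀ c ∈ K, cv β₁ β₂ (flv Z v) c = cv β₁ β₂ Z c) →
        imp β₁ β₂ Z (flv Z v) K = false := by
      intro K hK
      induction K with
      | nil => rfl
      | cons c K ih =>
        rw [imp_cons, hK c List.mem_cons_self, ih fun c hc => hK c (List.mem_cons_of_mem _ hc)]
        cases cv β₁ β₂ Z c <;> simp
    rw [hz _ hsame] at hcon
    exact absurd hcon (by simp)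
  have hnA : Ni β₁ β₂ X (flv X v) (pA Us) := by
    intro c hc h1
    rw [← hA2 c hc] at h1
    rw [← hA1 c hc]
    exact hN0 c hc h1
  have hnG : ∀ {κ m : ℕ} {L : ℕ → List (VV × Bool)}, κ < 7 ∨ κ = 14 →
      (∀ k < m, ∀ p ∈ L k, p.1.1 < 7 ∨ p.1.1 = 14) → Ni β₁ β₂ X (flv X v) (pG κ m L) := by
    intro κ m L hκ hL
    obtain ⟨a, b⟩ := v
    refine Av.ni (av_pG ?_ ?_)
    · dsimp only at hv7 hv1
      omega
    · intro k hk p hp
      have := hL k hk p hp
      dsimp only at hv7 hv1
      omega
  rw [imp_congr hS1 hS2] at hcon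
  unfold condsB at hmin
  rw [imp_right hnA (imp_right (hnG (by omega) fun k _ p hp => by
      have := restL_kind hp; omega) (imp_right (hnG (by omega) fun k _ p hp => by
      have := fixB_kind hp; omega) (imp_right (hnG (by omega) fun k _ p hp => by
      have := nfB_kind hp; omega) (imp_right (hnG (by omega) fun k _ p hp => by
      have := selB_kind hp; omega) (imp_right (hnG (by omega) fun k _ p hp => by
      have := naL_kind hp; omega) (imp_right (hnG (by omega) fun k _ p hp => by
      have := mcaB_kind hp; omega) (imp_right (hnG (by omega) fun k _ p hp => by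
      have := mcbB_kind hp; omega) hcon)))))))] at hmin
  exact absurd hmin (by simp)

end Pool.Agent.MPa0a715.OD.Bd
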