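import Pool.Agent.Lib.MP_a0a715_lc_BI.BdDefs
import Pool.Agent.Lib.MP_a0a715_lc_BI.BdMn
import Pool.Agent.Lib.MP_a0a715_lc_OD.HRed
import Pool.Agent.Lib.MP_a0a715_lc_OD.HOut

/-!
# The circuit with bounded influence and its local minima
-/

namespace Pool.Agent.MPa0a715.OD.Bd

open Pool.Agent.MPa0a715 Pool.Agent.MPa0a715.OD Pool.Agent.PolyTime
open Pool.Agent.MPa0a715.TL (NT termCircuit litNames tc_out tc_n)

namespace BdRedAux

/-- the variables are in range -/
def InB15 (B : ℕ) (v : VV) : Prop := v.1 < 15 ∧ v.2 < B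

/-- the conditions are in order -/
def COk15 (B : ℕ) (L : List CV) : Prop := ∀ c ∈ L, Shape c ∧ ∀ p ∈ c.2, InB15 B p.1

theorem InB15.of {B : ℕ} {v : VV} (h : InB B v) : InB15 B v :=
  ⟨by have := h.1; omega, h.2⟩

theorem COk15.append {B : ℕ} {L L' : List CV} (h : COk15 B L) (h' : COk15 B L') :
    COk15 B (L ++ L') := by
  intro c hc
  rcases List.mem_append.1 hc with hc | hc
  · exact h c hc
  · exact h' c hc

theorem COk15.of {B : ℕ} {L L' : List CV} (h : COk B L) (h' : ∀ c ∈ L', c ∈ L) :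
    COk15 B L' := fun c hc =>
  ⟨(h c (h' c hc)).1, fun p hp => InB15.of ((h c (h' c hc)).2 p hp)⟩

theorem cok_gd {B : ℕ} {g : VV} {L : List (VV × Bool)} (hg : InB15 B g)
    (hL : ∀ p ∈ L, InB15 B p.1) : COk15 B (gd g L) := by
  intro c hc
  unfold gd at hc
  rcases List.mem_append.1 hc with hc | hc
  · obtain ⟨q, hq, rfl⟩ := List.mem_map.1 hc
    refine ⟨Or.inl ⟨rfl, Or.inr rfl⟩, ?_⟩
    intro p hp
    simp only [List.mem_cons, List.not_mem_nil, or_false] at hp
    rcases hp with rfl | rfl
    · exact hg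
    · exact hL q hq
  · rw [List.mem_singleton] at hc
    subst hc
    refine ⟨Or.inl ⟨rfl, Or.inl rfl⟩, ?_⟩
    intro p hp
    rw [List.mem_singleton] at hp
    subst hp
    exact hg

theorem cok_pG {B κ m : ℕ} {L : ℕ → List (VV × Bool)} (hκ : κ < 15) (hm : m ≤ B)
    (hL : ∀ k < m, ∀ p ∈ L k, InB15 B p.1) : COk15 B (pG κ m L) := by
  intro c hc
  obtain ⟨k, hk, hc⟩ := List.mem_flatMap.1 hc
  rw [List.mem_range] at hk
  exact cok_gd ⟨hκ, by show k < B; omega⟩ (hL k hk) c hc

/-- the literals of a gate are in range if the conditions are -/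
theorem mem_pG {B κ m : ℕ} {L : ℕ → List (VV × Bool)} (h : COk B (pG κ m L)) {k : ℕ}
    (hk : k < m) {p : VV × Bool} (hp : p ∈ L k) : InB B p.1 := by
  have h1 : (false, [((κ, k), true), (p.1, !p.2)]) ∈ pG κ m L := by
    refine List.mem_flatMap.2 ⟨k, List.mem_range.2 hk, ?_⟩
    unfold gd
    exact List.mem_append_left _ (List.mem_map.2 ⟨p, hp, rfl⟩)
  exact (h _ h1).2 (p.1, !p.2) (by simp)

variable {N : ℕ} {Us : List NT}

theorem cok_condsB (hU : UOk N Us) : COk15 (N + 3 * Us.length + 1) (condsB Us N) := by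
  have h := cok_conds hU
  have hsub : ∀ L : List CV, (∀ c ∈ L, c ∈ conds Us N) → COk (N + 3 * Us.length + 1) L :=
    fun L hL c hc => h c (hL c hc)
  have h2 : COk (N + 3 * Us.length + 1) (pG 2 (3 * Us.length) (fixL Us)) :=
    hsub _ fun c hc => by
      unfold conds
      simp only [List.mem_append]
      tauto
  have h5 : COk (N + 3 * Us.length + 1) (pG 5 (3 * Us.length) (mcaL Us)) :=
    hsub _ fun c hc => by
      unfold conds
      simp only [List.mem_append]
      tauto
  have h6 : COk (N + 3 * Us.length + 1) (pG 6 (3 * Us.length) (mcbL Us)) :=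
    hsub _ fun c hc => by
      unfold conds
      simp only [List.mem_append]
      tauto
  unfold condsB
  refine COk15.append ?_ (COk15.append ?_ (COk15.append ?_ (COk15.append ?_ (COk15.append ?_
    (COk15.append ?_ (COk15.append ?_ (COk15.append ?_ ?_)))))))
  · exact COk15.of h fun c hc => by
      unfold conds
      simp only [List.mem_append]
      tauto
  · exact COk15.of h fun c hc => by
      unfold conds
      simp only [List.mem_append]
      tauto
  · refine cok_pG (by omega) (by omega) fun k hk => ?_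
    intro p hp
    unfold fixB at hp
    split_ifs at hp with h3
    · exact InB15.of (mem_pG h2 hk hp)
    · simp only [List.mem_cons, List.not_mem_nil, or_false] at hp
      rcases hp with rfl | rfl
      · exact ⟨by simp, by show k < _; omega⟩
      · exact ⟨by simp, by show k < _; omega⟩
  · refine cok_pG (by omega) (by omega) fun k hk => ?_
    intro p hp
    cases k with
    | zero => exact absurd hp List.not_mem_nil
    | succ k =>
      unfold nfB at hp
      simp only [List.mem_cons, List.not_mem_nil, or_false] at hp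
      rcases hp with rfl | rfl
      · exact ⟨by simp, by show k < _; omega⟩
      · exact ⟨by simp, by show k < _; omega⟩
  · refine cok_pG (by omega) (by omega) fun k hk => ?_
    intro p hp
    unfold selB at hp
    simp only [List.mem_cons, List.not_mem_nil, or_false] at hp
    rcases hp with rfl | rfl
    · exact ⟨by simp, by show k < _; omega⟩
    · exact ⟨by simp, by show k < _; omega⟩
  · exact COk15.of h fun c hc => by
      unfold conds
      simp only [List.mem_append]
      tauto
  · refine cok_pG (by omega) (by omega) fun k hk => ?_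
    intro p hp
    unfold mcaB at hp
    split_ifs at hp with h3
    · exact InB15.of (mem_pG h5 hk hp)
    · exact absurd hp List.not_mem_nil
  · refine cok_pG (by omega) (by omega) fun k hk => ?_
    intro p hp
    unfold mcbB at hp
    split_ifs at hp with h3
    · exact InB15.of (mem_pG h6 hk hp)
    · exact absurd hp List.not_mem_nil
  · exact COk15.of h fun c hc => by
      unfold conds
      simp only [List.mem_append]
      tauto

theorem nm_lt15 {B : ℕ} {v : VV} (h1 : v.1 < 15) (h2 : v.2 < B) : nm B v < 15 * B := by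
  unfold nm
  calc v.1 * B + v.2 < v.1 * B + B := by omega
    _ = (v.1 + 1) * B := by ring
    _ ≤ 15 * B := Nat.mul_le_mul_right _ h1

end BdRedAux

open BdRedAux

theorem uDsB_ok {N : ℕ} {Ts : List NT} (h : TOk N Ts) : DOk (15 * bB N Ts) (uDsB N Ts) := by
  intro c hc
  unfold uDsB at hc
  rw [List.mem_reverse] at hc
  obtain ⟨c', hc', rfl⟩ := List.mem_map.1 hc
  obtain ⟨h1, h2⟩ := cok_condsB (nUs_ok h) c' hc'
  refine ⟨numC_shape h1, ?_⟩
  intro p hp
  unfold numC at hp
  obtain ⟨q, hq, rfl⟩ := List.mem_map.1 hp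
  obtain ⟨h3, h4⟩ := h2 q hq
  rw [length_nUs] at h4
  exact nm_lt15 h3 h4

theorem uCB_valid {β₁ β₂ : Bool} {N : ℕ} {Ts : List NT} (h : TOk N Ts) :
    (uCB β₁ β₂ N Ts).Valid := cc_valid (uDsB_ok h)

theorem uCB_n {β₁ β₂ : Bool} {N : ℕ} {Ts : List NT} :
    (uCB β₁ β₂ N Ts).n = 15 * bB N Ts := cc_n

/-- local minima have no improvement -/
theorem BdRedAux.uCB_min {β₁ β₂ : Bool} {N : ℕ} {Ts : List NT} (h : TOk N Ts) {s : List Bool}
    (hs : (uCB β₁ β₂ N Ts).IsLocalMin s) :
    MnB β₁ β₂ N (nUs Ts) (fun v => s.getD (nm (bB N Ts) v) false) := by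
  obtain ⟨hl, hmin⟩ := hs
  rw [uCB_n] at hl hmin
  intro v hv1 hv2
  rw [length_nUs] at hv2
  change v.2 < bB N Ts at hv2
  have hok := cok_condsB (nUs_ok h)
  rw [length_nUs] at hok
  change COk15 (bB N Ts) _ at hok
  by_contra hcon
  rw [Bool.not_eq_false] at hcon
  set i := nm (bB N Ts) v with hi
  have hiN : i < 15 * bB N Ts := nm_lt15 hv1 hv2
  -- the flipped state
  have e1 : imp β₁ β₂ (fun v => s.getD (nm (bB N Ts) v) false)
      (fun v => (flip s i).getD (nm (bB N Ts) v) false) (condsB (nUs Ts) N) = true := by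
    rw [← hcon]
    refine imp_congr (fun _ _ => rfl) fun c hc => cv_congr fun p hp => ?_
    obtain ⟨h1, h2⟩ := (hok c hc).2 p hp
    rw [getD_flip _ _ _ (by rw [hl]; exact nm_lt15 h1 h2)]
    by_cases e : p.1 = v
    · rw [e, if_pos rfl, flv_self]
    · rw [if_neg fun e' => e (nm_inj h2 hv2 e'.symm), flv_ne _ e]
  have e2 : imp β₁ β₂ (fun i => s.getD i false) (fun j => (flip s i).getD j false)
      ((condsB (nUs Ts) N).map (numC (bB N Ts))) = true := by
    rw [← e1]
    have aux : ∀ (L : List CV) (Y Y' : ℕ → Bool),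
        imp β₁ β₂ Y Y' (L.map (numC (bB N Ts))) = imp β₁ β₂ (fun v => Y (nm (bB N Ts) v))
          (fun v => Y' (nm (bB N Ts) v)) L := by
      intro L Y Y'
      induction L with
      | nil => rfl
      | cons c L ih =>
        rw [List.map_cons, imp_cons, imp_cons, cv_numC, cv_numC, ih]
    exact aux _ _ _
  have e3 := imp_val e2
  have e4 := hmin i hiN
  rw [Circuit.cost_eq, Circuit.cost_eq] at e4
  unfold uCB at e4
  rw [cc_out (uDsB_ok h) hl, cc_out (uDsB_ok h) (by rw [length_flip]; exact hl)] at e4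
  unfold uDsB at e4
  rw [List.map_reverse, List.map_reverse] at e4
  omega

theorem redB_min {β₁ β₂ : Bool} {N : ℕ} {Ts : List NT} (h : TOk N Ts) {s : List Bool}
    (hs : (uCB β₁ β₂ N Ts).IsLocalMin s) : (termCircuit N Ts).IsLocalMin (s.take N) := by
  obtain ⟨X, hM, hX0⟩ := mn_of_mnB (nUs_ok h) (BdRedAux.uCB_min h hs)
  obtain ⟨hl, -⟩ := hs
  rw [uCB_n] at hl
  have hNB : N < bB N Ts := by unfold bB; omega
  have hlt : (s.take N).length = N := by
    rw [List.length_take, hl]
    omega
  refine ⟨by rw [hlt, tc_n], ?_⟩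
  intro i hi
  rw [tc_n] at hi
  by_contra hcon
  rw [not_le, Circuit.cost_eq, Circuit.cost_eq] at hcon
  have hval : val ((termCircuit N Ts).out (flip (s.take N) i)) <
      val ((termCircuit N Ts).out (s.take N)) := by omega
  have h' : ∀ T ∈ Ts, T ≠ [] ∧ ∀ p ∈ T, p.1 < N := fun T hT => (h T hT).1
  rw [tc_out h' hlt, tc_out h' (by rw [length_flip]; exact hlt),
    MPa0a715.val_lt_iff _ _ (by rw [List.length_map, List.length_map])] at hval
  obtain ⟨r, hr, h1, h2, h3⟩ := hval
  rw [List.length_map] at hr h3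
  -- bits
  have hget : ∀ (x : List Bool) (r : ℕ), r < Ts.length →
      (Ts.map fun T => decide (∀ p ∈ T, x.getD p.1 false = p.2)).getD r false =
        decide (∀ p ∈ Ts.getD r [], x.getD p.1 false = p.2) := by
    intro x r hr
    rw [List.getD_eq_getElem _ _ (by rw [List.length_map]; exact hr), List.getElem_map,
      List.getD_eq_getElem _ _ hr]
  have hXs : ∀ j < N, (s.take N).getD j false = X (0, j) := by
    intro j hj
    rw [hX0]
    unfold nm
    rw [Nat.zero_mul, Nat.zero_add, List.getD_eq_getElem _ _ (by rw [hlt]; exact hj),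
      List.getElem_take, List.getD_eq_getElem _ _ (by omega)]
  have hXf : ∀ j < N, (flip (s.take N) i).getD j false = flv X (0, i) (0, j) := by
    intro j hj
    rw [getD_flip _ _ _ (by rw [hlt]; exact hj)]
    by_cases e : i = j
    · rw [if_pos e, ← e, flv_self, hXs i hi]
    · rw [if_neg e, flv_ne _ (fun e' => e (congrArg Prod.snd e').symm), hXs j hj]
  have hmemT : ∀ r < Ts.length, Ts.getD r [] ∈ Ts := by
    intro r hr
    rw [List.getD_eq_getElem _ _ hr]
    exact List.getElem_mem hr
  have key1 : ∀ q < Ts.length, (tU X ((nUs Ts).getD q []) ↔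
      ((Ts.map fun T => decide (∀ p ∈ T, (s.take N).getD p.1 false = p.2)).getD
        (Ts.length - 1 - q) false = true)) := by
    intro q hq
    have hT := h _ (hmemT (Ts.length - 1 - q) (by omega))
    rw [nUs_getD hq, nT_iff X hT.1.1 hT.2, hget _ _ (by omega), decide_eq_true_eq]
    exact forall₂_congr fun p hp => by rw [hXs _ (hT.1.2 p hp)]
  have key2 : ∀ q < Ts.length, (tU (flv X (0, i)) ((nUs Ts).getD q []) ↔
      ((Ts.map fun T => decide (∀ p ∈ T, (flip (s.take N) i).getD p.1 false = p.2)).getD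
        (Ts.length - 1 - q) false = true)) := by
    intro q hq
    have hT := h _ (hmemT (Ts.length - 1 - q) (by omega))
    rw [nUs_getD hq, nT_iff _ hT.1.1 hT.2, hget _ _ (by omega), decide_eq_true_eq]
    exact forall₂_congr fun p hp => by rw [hXf _ (hT.1.2 p hp)]
  have hq : Ts.length - 1 - (Ts.length - 1 - r) = r := by omega
  refine main (nUs_ok h) hM (x := i) (q := Ts.length - 1 - r) (by rw [length_nUs]; omega)
    ?_ ?_ ?_
  · rw [key1 _ (by omega), hq]
    exact h2
  · rw [key2 _ (by omega), hq, h1]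
    simp
  · intro q' hq' ht
    rw [key2 _ (by omega)] at ht
    rw [key1 _ (by omega)]
    rw [← h3 _ (by omega) (by omega)]
    exact ht

theorem uCB_outs {Φ : List BFun} {φ : BFun} (hφ : φ ∈ Φ) (h : φ.Pattern) :
    ∃ β₁ β₂ : Bool, ∀ (N : ℕ) (Ts : List NT), TOk N Ts → (uCB β₁ β₂ N Ts).OutsIn Φ := by
  obtain ⟨β₁, β₂, h⟩ := pattern_fun h
  refine ⟨β₁, β₂, fun N Ts hT o ho => ?_⟩
  have hok := uDsB_ok hT
  obtain ⟨c, hc, hcx⟩ := cc_conds (β₁ := β₁) (β₂ := β₂) hok ho
  obtain ⟨hs, hb⟩ := hok c hc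
  have key : ∃ A₀ A₁ A₂ : Arg, (A₀.Ok (15 * bB N Ts) ∧ A₁.Ok (15 * bB N Ts) ∧
      A₂.Ok (15 * bB N Ts)) ∧ ∀ x : List Bool, cv β₁ β₂ (fun i => x.getD i false) c =
        gval β₁ β₂ (A₀.val x) (A₁.val x) (A₂.val x) := by
    obtain ⟨t, L⟩ := c
    rcases hs with ⟨h1, h2 | h2⟩ | ⟨h1, h2⟩
    · dsimp only at h1 h2 hb
      subst h1
      match L, h2, hb with
      | [p], _, hb =>
        refine ⟨(ofLit p).tw true, .const false, .const false, ⟨Arg.tw_ok (hb p (by simp)),
          trivial, trivial⟩, fun x => ?_⟩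
        rw [Arg.tw_val, ofLit_val]
        simp only [cv, Arg.val, gval, List.all_cons, List.all_nil]
        cases lv (fun i => x.getD i false) p <;> rfl
    · dsimp only at h1 h2 hb
      subst h1
      match L, h2, hb with
      | [p, q], _, hb =>
        refine ⟨(ofLit p).tw true, (ofLit q).tw true, .const false,
          ⟨Arg.tw_ok (hb p (by simp)), Arg.tw_ok (hb q (by simp)), trivial⟩, fun x => ?_⟩
        rw [Arg.tw_val, Arg.tw_val, ofLit_val, ofLit_val]
        simp only [cv, Arg.val, gval, List.all_cons, List.all_nil]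
        cases lv (fun i => x.getD i false) p <;> cases lv (fun i => x.getD i false) q <;> rfl
    · dsimp only at h1 h2 hb
      subst h1
      match L, h2, hb with
      | [p, q, r], _, hb =>
        refine ⟨ofLit p, ofLit q, ofLit r, ⟨hb p (by simp), hb q (by simp), hb r (by simp)⟩,
          fun x => ?_⟩
        rw [ofLit_val, ofLit_val, ofLit_val]
        rfl
  obtain ⟨A₀, A₁, A₂, ⟨ok0, ok1, ok2⟩, hA⟩ := key
  obtain ⟨σ, hσ1, hσ2⟩ := h A₀ A₁ A₂
  refine ⟨φ, hφ, σ, ?_, ?_⟩
  · rw [uCB_n]
    exact hσ1 _ ok0 ok1 ok2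
  · intro x hx
    rw [uCB_n] at hx
    rw [hσ2, ← hA]
    exact hcx x hx

end Pool.Agent.MPa0a715.OD.Bd
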