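import Pool.Agent.Lib.MP_a0a715_lc_BI.Cnj
import Pool.Agent.Lib.MP_a0a715_lc_BI.BdInfl
import Pool.Agent.Lib.MP_a0a715_lc_BI.BdPT
import Pool.Agent.Lib.MP_a0a715_lc_BI.BdRed

/-!
# Output functions with pattern: circuits with bounded influence are as hard as all circuits
-/

namespace Pool.Agent.MPa0a715.OD.Bd

open Pool.Agent.MPa0a715 Pool.Agent.MPa0a715.OD Pool.Agent.PolyTime
open Pool.Agent.MPa0a715.TL (NT termCircuit)
open Pool.Agent.MPa0a715.BI (baseOf baseOf_n baseOf_ok ptime_baseOf ptime_allC allC infl_parts)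
open Pool.Agent.MPa0a715.BI.CnjAux (terms_ok terms_len dec ptime_dec cj_correct)

/-- number of inputs of the intermediate circuit -/
def nB (C : Circuit) : ℕ := (baseOf C).Nv

/-- conjunctions of the intermediate circuit -/
def tB (C : Circuit) : List NT := (allC (baseOf C)).flatten

theorem tB_ok {C : Circuit} (hC : C.Valid) (hn : 0 < C.n) : TOk (nB C) (tB C) := by
  have hB := baseOf_ok hC hn
  intro T hT
  exact ⟨terms_ok hB T hT, terms_len hB T hT⟩

theorem pt_nB_tB : PU nB ∧ PTime tB := by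
  obtain ⟨hG, hnx, hco, him⟩ := ptime_baseOf
  have hn : PU (fun C : Circuit => (baseOf C).n) :=
    (pu_n (PTime.id (α := Circuit))).of_eq fun C => (baseOf_n C).symm
  obtain ⟨h1, h2⟩ := ptime_allC hn hG hnx hco him
  exact ⟨h1, PTime.flatten h2⟩

/-- Circuit-FLIP without restriction reduces to Circuit-FLIP with outputs from `Φ` and bounded
influence, if a function in `Φ` has the pattern -/
theorem hard_bounded {Φ : List BFun} {φ : BFun} (hφ : φ ∈ Φ) (h : φ.Pattern) :
    PLSReduces (fun _ => True) fun C => C.OutsIn Φ ∧ C.Influence 2000 := by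
  obtain ⟨β₁, β₂, hO⟩ := uCB_outs hφ h
  obtain ⟨hN, hT⟩ := pt_nB_tB
  have hn0 : PTime (fun C : Circuit => decide (C.n ≤ 0)) :=
    PTime.le (pu_n (PTime.id (α := Circuit))).toNat (PTime.const 0)
  have hd : PTime (fun p : Circuit × List Bool => dec (p.1, p.2.take (nB p.1))) :=
    ptime_dec.comp (PTime.fst.pair (PTime.take PTime.snd (hN.toNat.comp PTime.fst)))
  refine ⟨fun C => if C.n ≤ 0 then ⟨0, [], []⟩ else uCB β₁ β₂ (nB C) (tB C),
    fun p => if p.1.n ≤ 0 then [] else dec (p.1, p.2.take (nB p.1)), ?_, ?_, ?_⟩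
  · exact (PTime.iteP hn0 (PTime.const _) (ptime_uCB hN hT)).isPolyTime
  · exact (PTime.iteP (hn0.comp PTime.fst) (PTime.const _) hd).isPolyTime
  · intro C hC _
    dsimp only
    split_ifs with h1
    · refine ⟨⟨fun k hk => absurd hk (Nat.not_lt_zero k), fun o ho => absurd ho
        List.not_mem_nil⟩, ⟨fun o ho => absurd ho List.not_mem_nil, fun i hi => absurd hi
        (Nat.not_lt_zero i)⟩, fun y _ => ⟨?_, ?_⟩⟩
      · simp only [List.length_nil]
        omega
      · intro i hi
        omega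
    · have h2 : 0 < C.n := by omega
      have hT := tB_ok hC h2
      exact ⟨uCB_valid hT, ⟨hO _ _ hT, influence_uCB hT (infl_parts (baseOf_ok hC h2))⟩,
        fun s hs => cj_correct hC h2 (redB_min hT hs)⟩

end Pool.Agent.MPa0a715.OD.Bd
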