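import Pool.Agent.Lib.MP_a0a715_lc_BI.Drv

/-!
# The variables which are not rails
-/

namespace Pool.Agent.MPa0a715.BI

open Pool.Agent.MPa0a715

variable {B : Base} {X : Var → Bool}

namespace ChnAux

theorem cv_eq {X : Var → Bool} {a g : Var} : cv X (cEq a g) = true ↔ X g ≠ X a := by
  simp only [cv, pv, cEq, List.any_cons, List.any_nil, List.all_cons, List.all_nil]
  cases X a <;> cases X g <;> simp

theorem cv_nor {X : Var → Bool} {a b g : Var} :
    cv X (cNor a b g) = true ↔ X g ≠ (X a || X b) := by
  simp only [cv, pv, cNor, List.any_cons, List.any_nil, List.all_cons, List.all_nil]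
  cases X a <;> cases X b <;> cases X g <;> simp

/-- a constraint `g` iff `a` is satisfied if nothing more important contains `g` -/
theorem eq_of (hB : B.Ok) (hX : Mn B X) {p : Pos} {a g : Var} (hp : PVld B p)
    (hc : con B p = cEq a g) (hag : a ≠ g)
    (h : ∀ d ∈ occ B g, ¬ klt (key B d) (key B p)) : X g = X a := by
  by_contra hcon
  have h1 : cv X (con B p) = true := by
    rw [hc, cv_eq]
    exact hcon
  have h2 := drive hB hX (v := g) hp h1 fun d hd _ _ hk => absurd hk (h d hd)
  rw [hc, cv_eq, fl_self, fl_ne _ hag] at h2
  apply h2
  revert hcon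
  cases X a <;> cases X g <;> simp

theorem nor_of (hB : B.Ok) (hX : Mn B X) {p : Pos} {a b g : Var} (hp : PVld B p)
    (hc : con B p = cNor a b g) (hag : a ≠ g) (hbg : b ≠ g)
    (h : ∀ d ∈ occ B g, ¬ klt (key B d) (key B p)) : X g = (X a || X b) := by
  by_contra hcon
  have h1 : cv X (con B p) = true := by
    rw [hc, cv_nor]
    exact hcon
  have h2 := drive hB hX (v := g) hp h1 fun d hd _ _ hk => absurd hk (h d hd)
  rw [hc, cv_nor, fl_self, fl_ne _ hag, fl_ne _ hbg] at h2
  apply h2
  revert hcon
  cases X a <;> cases X b <;> cases X g <;> simp

end ChnAux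

open ChnAux

theorem yc_eq (hB : B.Ok) (hX : Mn B X) {k : ℕ} (hk : k < B.Z + 2) : X (.yc k) = X .y := by
  induction k with
  | zero =>
    refine eq_of hB hX (p := .Py0) trivial rfl (by simp) fun d hd => ?_
    simp only [occ, if_true, List.mem_cons, List.not_mem_nil, or_false] at hd
    rcases hd with rfl | rfl | rfl <;> simp [key, klt]
  | succ k ih =>
    have h : X (.yc (k + 1)) = X (.yc k) := by
      refine eq_of hB hX (p := .Py k) (show k < B.Z + 1 by omega) rfl (by simp) fun d hd => ?_
      simp only [occ, List.mem_cons, List.not_mem_nil, or_false] at hd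
      rcases hd with rfl | rfl | rfl
      · simp [key, klt]
      · simp [key, klt]
      · split_ifs <;> simp [key, klt]
    rw [h, ih (by omega)]

theorem ec_eq (hB : B.Ok) (hX : Mn B X) {t : Bool} {k : ℕ} (hk : k < B.Z + 2) :
    X (.ec t k) = X (.e t) := by
  induction k with
  | zero =>
    refine eq_of hB hX (p := .Pe0 t) trivial rfl (by simp) fun d hd => ?_
    simp only [occ, if_true, List.mem_cons, List.not_mem_nil, or_false] at hd
    rcases hd with rfl | rfl | rfl <;> simp [key, klt]
  | succ k ih =>
    have h : X (.ec t (k + 1)) = X (.ec t k) := by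
      refine eq_of hB hX (p := .Pe t k) (show k < B.Z + 1 by omega) rfl (by simp)
        fun d hd => ?_
      simp only [occ, List.mem_cons, List.not_mem_nil, or_false] at hd
      rcases hd with rfl | rfl | rfl
      · simp [key, klt]
      · simp [key, klt]
      · simp [key, klt]
    rw [h, ih (by omega)]

theorem La_eq (hB : B.Ok) (hX : Mn B X) {t : Bool} {k : ℕ} (hk : k < B.Z + 2) :
    X (.La t k) = X (.L t 0) := by
  induction k with
  | zero =>
    refine eq_of hB hX (p := .Pl0 t) trivial rfl (by simp) fun d hd => ?_
    simp only [occ, if_true, List.mem_cons, List.not_mem_nil, or_false] at hd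
    rcases hd with rfl | rfl | rfl <;> simp [key, klt]
  | succ k ih =>
    have h : X (.La t (k + 1)) = X (.La t k) := by
      refine eq_of hB hX (p := .Pl t k) (show k < B.Z + 1 by omega) rfl (by simp)
        fun d hd => ?_
      simp only [occ, List.mem_cons, List.not_mem_nil, or_false] at hd
      rcases hd with rfl | rfl | rfl
      · simp [key, klt]
      · simp [key, klt]
      · simp [key, klt]
    rw [h, ih (by omega)]

theorem L_top (hB : B.Ok) (hX : Mn B X) {t : Bool} : X (.L t B.m) = false := by
  by_contra hcon
  rw [Bool.not_eq_false] at hcon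
  have h1 : cv X (con B (.top t)) = true := by simp [con, cv, pv, hcon]
  have h2 := drive hB hX (v := .L t B.m) (p := .top t) trivial h1 fun d hd _ _ hk => by
    simp only [occ] at hd
    split_ifs at hd with h3
    · simp only [List.mem_cons, List.not_mem_nil, or_false] at hd
      rcases hd with rfl | rfl | rfl
      · simp [key, klt] at hk
      · simp [key, klt] at hk
      · simp [key, klt] at hk
    · simp only [List.mem_cons, List.not_mem_nil, or_false] at hd
      rcases hd with rfl | rfl | rfl
      · simp [key, klt] at hk
      · simp [key, klt] at hk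
      · simp [key, klt] at hk
  simp [con, cv, pv, fl_self, hcon] at h2

theorem L_eq (hB : B.Ok) (hX : Mn B X) {t : Bool} {j : ℕ} (hj : j < B.m) :
    X (.L t j) = (X (.L t (j + 1)) || X (.tau t j)) := by
  refine nor_of hB hX (p := .PL t j) hj rfl (by simp) (by simp) fun d hd => ?_
  simp only [occ] at hd
  split_ifs at hd with h1 h2 h3
  · omega
  · simp only [List.mem_cons, List.not_mem_nil, or_false] at hd
    subst h1
    rcases hd with rfl | rfl | rfl <;> simp [key, klt]
  · omega
  · simp only [List.mem_cons, List.not_mem_nil, or_false] at hd
    rcases hd with rfl | rfl | rfl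
    · simp [key, klt]
    · simp only [key, klt]
      omega
    · simp only [key, klt]
      omega

theorem rho_eq (hB : B.Ok) (hX : Mn B X) {j : ℕ} (hj : j < B.m) :
    X (.rho j) = (X (.L false (j + 1)) || X (.L true (j + 1))) := by
  refine nor_of hB hX (p := .Prho j) hj rfl (by simp) (by simp) fun d hd => ?_
  simp only [occ, List.mem_cons, List.not_mem_nil, or_false] at hd
  rcases hd with rfl | rfl <;> simp [key, klt]

theorem m_eq (hB : B.Ok) (hX : Mn B X) {j : ℕ} (hj : j < B.m) :
    X (.m j) = (X (.q j) || X (.rho j)) := by
  have up : (X (.q j) || X (.rho j)) = true → X (.m j) = true := by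
    intro h
    by_contra hcon
    rw [Bool.not_eq_true] at hcon
    have h1 : cv X (con B (.hold j)) = true := by
      simp only [con, cOr, cv, pv, List.any_cons, List.any_nil, List.all_cons, List.all_nil, hcon]
      revert h
      cases X (.q j) <;> cases X (.rho j) <;> simp
    have h2 := drive hB hX (v := .m j) (p := .hold j) hj h1 fun d hd _ _ hk => by
      simp only [occ, List.mem_cons, List.not_mem_nil, or_false] at hd
      rcases hd with rfl | rfl | rfl | rfl <;> simp [key, klt] at hk
    simp [con, cOr, cv, pv, fl_self, hcon] at h2
  have down : (X (.q j) || X (.rho j)) = false → X (.m j) = false := by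
    intro h
    rw [Bool.or_eq_false_iff] at h
    by_contra hcon
    rw [Bool.not_eq_false] at hcon
    have h1 : cv X (con B (.M j)) = true := by simp [con, cv, pv, hcon]
    have h2 := drive hB hX (v := .m j) (p := .M j) hj h1 fun d hd _ _ hk => by
      simp only [occ, List.mem_cons, List.not_mem_nil, or_false] at hd
      rcases hd with rfl | rfl | rfl | rfl
      · intro P hP h3
        simp only [con, cOr, List.mem_cons, List.not_mem_nil, or_false] at hP
        rcases hP with rfl | rfl
        · simp [pv, fl_ne, h.1] at h3
        · simp [pv, fl_ne, h.2] at h3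
      · simp [key, klt] at hk
      · simp [key, klt] at hk
      · simp [key, klt] at hk
    simp [con, cv, pv, fl_self, hcon] at h2
  cases h : (X (.q j) || X (.rho j)) with
  | false => exact down h
  | true => exact up h

theorem tau_eq (hB : B.Ok) (hX : Mn B X) {t : Bool} {j : ℕ} (hj : j < B.m) :
    X (.tau t j) = (X (.be (!t) j) && !X (.m j)) := by
  have up : (X (.be (!t) j) && !X (.m j)) = true → X (.tau t j) = true := by
    intro h
    rw [Bool.and_eq_true, Bool.not_eq_true'] at h
    by_contra hcon
    rw [Bool.not_eq_true] at hcon
    have h1 : cv X (con B (.T1 t j)) = true := by simp [con, cv, pv, hcon, h.1, h.2]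
    have h2 := drive hB hX (v := .tau t j) (p := .T1 t j) hj h1 fun d hd _ _ hk => by
      simp only [occ, List.mem_cons, List.not_mem_nil, or_false] at hd
      rcases hd with rfl | rfl | rfl <;> simp [key, klt] at hk
    simp [con, cv, pv, fl_self, hcon] at h2
  have down : (X (.be (!t) j) && !X (.m j)) = false → X (.tau t j) = false := by
    intro h
    by_contra hcon
    rw [Bool.not_eq_false] at hcon
    have h1 : cv X (con B (.T2 t j)) = true := by simp [con, cv, pv, hcon]
    have h2 := drive hB hX (v := .tau t j) (p := .T2 t j) hj h1 fun d hd _ _ hk => by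
      simp only [occ, List.mem_cons, List.not_mem_nil, or_false] at hd
      rcases hd with rfl | rfl | rfl
      · intro P hP h3
        simp only [con, List.mem_cons, List.not_mem_nil, or_false] at hP
        subst hP
        exfalso
        simp only [pv, List.all_cons, List.all_nil, Bool.and_true, Bool.and_eq_true] at h3
        rw [fl_ne _ (by simp), fl_ne _ (by simp)] at h3
        revert h h3
        cases X (.be (!t) j) <;> cases X (.m j) <;> simp
      · simp [key, klt] at hk
      · simp [key, klt] at hk
    simp [con, cv, pv, fl_self, hcon] at h2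
  cases h : (X (.be (!t) j) && !X (.m j)) with
  | false => exact down h
  | true => exact up h

theorem e_eq (hB : B.Ok) (hX : Mn B X) {t : Bool} :
    X (.e t) = !(X (.D t 0) && (X .y != t)) := by
  have hyc : X (.yc t.toNat) = X .y := yc_eq hB hX (by cases t <;> simp)
  have down : (X (.D t 0) && (X .y != t)) = true → X (.e t) = false := by
    intro h
    rw [Bool.and_eq_true] at h
    by_contra hcon
    rw [Bool.not_eq_false] at hcon
    have hy : (X .y == !t) = true := by
      have := h.2
      revert this
      cases X .y <;> cases t <;> simp
    have h1 : cv X (con B (.K1 t)) = true := by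
      simp only [con, cv, pv, List.any_cons, List.any_nil, List.all_cons, List.all_nil, hcon, h.1,
        hyc, hy]
      rfl
    have h2 := drive hB hX (v := .e t) (p := .K1 t) trivial h1 fun d hd _ _ hk => by
      simp only [occ, List.mem_cons, List.not_mem_nil, or_false] at hd
      rcases hd with rfl | rfl | rfl <;> simp [key, klt] at hk
    simp [con, cv, pv, fl_self, hcon] at h2
  have up : (X (.D t 0) && (X .y != t)) = false → X (.e t) = true := by
    intro h
    by_contra hcon
    rw [Bool.not_eq_true] at hcon
    have h1 : cv X (con B (.K2 t)) = true := by simp [con, cv, pv, hcon]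
    have h2 := drive hB hX (v := .e t) (p := .K2 t) trivial h1 fun d hd _ _ hk => by
      simp only [occ, List.mem_cons, List.not_mem_nil, or_false] at hd
      rcases hd with rfl | rfl | rfl
      · intro P hP h3
        simp only [con, List.mem_cons, List.not_mem_nil, or_false] at hP
        subst hP
        exfalso
        simp only [pv, List.all_cons, List.all_nil, Bool.and_true, Bool.and_eq_true] at h3
        rw [fl_self, fl_ne _ (show Var.D t 0 ≠ Var.e t by simp),
          fl_ne _ (show Var.yc t.toNat ≠ Var.e t by simp), hyc] at h3
        revert h h3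
        cases X (.D t 0) <;> cases X .y <;> cases t <;> simp
      · simp [key, klt] at hk
      · simp [key, klt] at hk
    simp [con, cv, pv, fl_self, hcon] at h2
  cases h : (X (.D t 0) && (X .y != t)) with
  | false => exact up h
  | true => exact down h

theorem y_flip (hB : B.Ok) (hX : Mn B X) (h : X (.L (!(X .y)) 0) = true)
    (h' : X (.L (X .y) 0) = false) : X (.Y (!(X .y)) true 0) = false := by
  by_contra hcon
  rw [Bool.not_eq_false] at hcon
  have h1 : cv X (con B .Yd) = true := by
    simp only [con, cv, pv, List.any_cons, List.any_nil, List.all_cons, List.all_nil]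
    revert h h'
    cases X .y <;> simp +contextual
  have h2 := drive hB hX (v := .y) (p := .Yd) trivial h1 fun d hd _ _ hk => by
    simp only [occ, List.mem_cons, List.not_mem_nil, or_false] at hd
    rcases hd with rfl | rfl | rfl
    · intro P hP h3
      exfalso
      simp only [con, List.mem_cons, List.not_mem_nil, or_false] at hP
      rcases hP with rfl | rfl
      · simp only [pv, List.all_cons, List.all_nil, Bool.and_true, Bool.and_eq_true] at h3
        rw [fl_self, fl_ne _ (by simp)] at h3
        revert h3 hcon
        cases X .y <;> simp +contextual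
      · simp only [pv, List.all_cons, List.all_nil, Bool.and_true, Bool.and_eq_true] at h3
        rw [fl_self, fl_ne _ (by simp)] at h3
        revert h3 hcon
        cases X .y <;> simp +contextual
    · simp [key, klt] at hk
    · simp [key, klt] at hk
  simp only [con, cv, pv, List.any_cons, List.any_nil, List.all_cons, List.all_nil] at h2
  rw [fl_self, fl_ne _ (by simp), fl_ne _ (by simp)] at h2
  revert h2 h h'
  cases X .y <;> simp +contextual

theorem load (hB : B.Ok) (hX : Mn B X) {t g : Bool} {i : ℕ} (hi : i < B.n)
    (hV : X (.V t i) = g) (h : X (.ck t g i) = true) (h1 : X (.ck t (!g) i) = false)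
    (h2 : ∀ b, X (.r t b i 0) = true)
    (h3 : X (.r (!t) g (B.nx.getD i 0) (2 * B.N + 1 + i)) = false) : False := by
  have hv : cv X (con B (.Ld t i)) = true := by
    simp only [con, cv, pv, List.any_cons, List.any_nil, List.all_cons, List.all_nil]
    revert hV h
    cases g <;> simp +contextual
  have h4 := drive hB hX (v := .V t i) (p := .Ld t i) hi hv fun d hd _ _ hk => by
    have hck : ∀ b, NI X (fl X (.V t i)) (con B (.Hck t b i)) := by
      intro b P hP h5
      exfalso
      simp only [con, List.mem_cons, List.not_mem_nil, or_false] at hP
      subst hP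
      simp only [pv, List.all_cons, List.all_nil, Bool.and_true, Bool.and_eq_true] at h5
      rw [fl_self, fl_ne _ (by simp), fl_ne _ (by simp), hV] at h5
      revert h5 h3
      cases b <;> cases g <;> simp +contextual
    simp only [occ, List.mem_cons, List.not_mem_nil, or_false] at hd
    rcases hd with rfl | rfl | rfl | rfl
    · intro P hP h5
      exfalso
      simp only [con, List.mem_cons, List.not_mem_nil, or_false] at hP
      rcases hP with rfl | rfl
      · simp [pv, fl_ne, h2] at h5
      · simp [pv, fl_ne, h2] at h5
    · exact hck true
    · exact hck false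
    · simp [key, klt] at hk
  simp only [con, cv, pv, List.any_cons, List.any_nil, List.all_cons, List.all_nil] at h4
  rw [fl_self, fl_ne _ (by simp), fl_ne _ (by simp), hV] at h4
  revert h4 h1
  cases g <;> simp +contextual

end Pool.Agent.MPa0a715.BI
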