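import Pool.Agent.Lib.MP_a0a715_lc_BI.Red

/-!
# Circuits whose outputs are conjunctions of three literals, every input in at most seven
-/

namespace Pool.Agent.MPa0a715.BI

open Pool.Agent.MPa0a715 Pool.Agent.PolyTime
open Pool.Agent.MPa0a715.TL (NT litNames termCircuit)

variable {B : Base} {X : Var → Bool}

namespace CnjAux

/-! ### values of lists of bits -/

theorem val_map_le {α : Type} (l : List α) (f g : α → Bool)
    (h : ∀ a ∈ l, f a = true → g a = true) : val (l.map f) ≤ val (l.map g) := by
  induction l with
  | nil => exact le_rfl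
  | cons a l ih =>
    rw [List.map_cons, List.map_cons, val, val]
    have h1 := ih fun b hb => h b (List.mem_cons_of_mem _ hb)
    have h2 := h a List.mem_cons_self
    have h3 : (f a).toNat ≤ (g a).toNat := by
      cases hf : f a
      · simp
      · rw [h2 hf]
    omega

theorem val_eq_zero {α : Type} (l : List α) (f : α → Bool) (h : ∀ a ∈ l, f a = false) :
    val (l.map f) = 0 := by
  induction l with
  | nil => rfl
  | cons a l ih =>
    rw [List.map_cons, val, ih fun b hb => h b (List.mem_cons_of_mem _ hb),
      h a List.mem_cons_self]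
    rfl

theorem val_pos {α : Type} (l : List α) (f : α → Bool) {a : α} (ha : a ∈ l)
    (h : f a = true) : 0 < val (l.map f) := by
  induction l with
  | nil => exact absurd ha List.not_mem_nil
  | cons b l ih =>
    rw [List.map_cons, val]
    rcases List.mem_cons.1 ha with rfl | h1
    · rw [h]
      simp
    · have := ih h1
      omega

theorem val_lt_parts {α : Type} (a b c : List α) (f g : α → Bool)
    (hc : ∀ t ∈ c, g t = true → f t = true) (hb : ∀ t ∈ b, g t = false)
    {t : α} (ht : t ∈ b) (hf : f t = true) :
    val ((a ++ b ++ c).map g) < val ((a ++ b ++ c).map f) := by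
  have h1 := val_map_le c g f hc
  have h2 := val_eq_zero b g hb
  have h3 := val_pos b f ht hf
  have h4 := val_lt (a.map g)
  rw [List.map_append, List.map_append, List.map_append, List.map_append, val_append,
    val_append, val_append, val_append, h2]
  simp only [List.length_append, List.length_map] at h4 ⊢
  have h5 : 2 ^ (a.length + b.length) * val (c.map g) ≤
      2 ^ (a.length + b.length) * val (c.map f) := Nat.mul_le_mul_left _ h1
  have h6 : 2 ^ a.length * 1 ≤ 2 ^ a.length * val (b.map f) := Nat.mul_le_mul_left _ h3
  rw [Nat.mul_one] at h6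
  omega

/-! ### flipping a variable -/

/-- value of a conjunction of numbered variables -/
def ev (x : List Bool) (T : NT) : Bool := decide (∀ p ∈ T, x.getD p.1 false = p.2)

theorem ev_num (x : List Bool) (P : Part) :
    ev x (P.map fun l => (B.num l.1, l.2)) = pv (asg B x) P := by
  unfold ev pv asg
  rw [Bool.eq_iff_iff, decide_eq_true_eq, List.all_eq_true]
  simp only [List.forall_mem_map, beq_iff_eq]

theorem fl_of_ne {v w : Var} (h : w ≠ v) : fl X v w = X w := by
  unfold fl
  rw [Function.update_of_ne h]

theorem pv_congr {X' : Var → Bool} {P : Part} (h : ∀ l ∈ P, X' l.1 = X l.1) :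
    pv X' P = pv X P := by
  unfold pv
  rw [Bool.eq_iff_iff, List.all_eq_true, List.all_eq_true]
  constructor
  · intro h1 l hl
    rw [← h l hl]
    exact h1 l hl
  · intro h1 l hl
    rw [h l hl]
    exact h1 l hl

theorem cv_fl_of_not_occ {v : Var} {c : Con} (h : ¬ Occ v c) : cv (fl X v) c = cv X c := by
  unfold cv
  rw [Bool.eq_iff_iff, List.any_eq_true, List.any_eq_true]
  have h1 : ∀ P ∈ c, pv (fl X v) P = pv X P := fun P hP =>
    pv_congr fun l hl => fl_of_ne fun he => h ⟨P, hP, l, hl, he⟩
  constructor
  · rintro ⟨P, hP, h2⟩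
    exact ⟨P, hP, by rw [← h1 P hP]; exact h2⟩
  · rintro ⟨P, hP, h2⟩
    exact ⟨P, hP, by rw [h1 P hP]; exact h2⟩

theorem asg_flip (hB : B.Ok) {x : List Bool} (hx : x.length = B.Nv) {v w : Var}
    (hv : B.Vld v) (hw : B.Vld w) : asg B (flip x (B.num v)) w = fl (asg B x) v w := by
  unfold asg
  rw [getD_flip _ _ _ (by rw [hx]; exact num_lt hB hw)]
  by_cases h : w = v
  · subst h
    rw [if_pos rfl]
    unfold fl
    rw [Function.update_self]
  · rw [if_neg fun h1 => h (num_inj hB hw hv h1.symm), fl_of_ne h]

theorem pv_flip (hB : B.Ok) {x : List Bool} (hx : x.length = B.Nv) {v : Var} (hv : B.Vld v)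
    {d : Pos} (hd : PVld B d) {P : Part} (hP : P ∈ con B d) :
    pv (asg B (flip x (B.num v))) P = pv (fl (asg B x) v) P :=
  pv_congr fun l hl => asg_flip hB hx hv (con_vld hB hd ⟨P, hP, l, hl, rfl⟩)

/-! ### the list of parts -/

theorem flatten_eq {P Q : List Pos} {p : Pos} (h : posL B = P ++ p :: Q) :
    (allC B).flatten = ((Q.map fun q => numC B (con B q)).reverse).flatten ++
      numC B (con B p) ++ ((P.map fun q => numC B (con B q)).reverse).flatten := by
  unfold allC
  rw [h]
  simp [List.map_append, List.reverse_append, List.flatten_append]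

theorem mem_parts {T : NT} {L : List Pos}
    (h : T ∈ ((L.map fun q => numC B (con B q)).reverse).flatten) :
    ∃ d ∈ L, ∃ P ∈ con B d, T = P.map fun l => (B.num l.1, l.2) := by
  obtain ⟨c, hc, hT⟩ := List.mem_flatten.1 h
  rw [List.mem_reverse] at hc
  obtain ⟨d, hd, rfl⟩ := List.mem_map.1 hc
  unfold numC at hT
  obtain ⟨P, hP, rfl⟩ := List.mem_map.1 hT
  exact ⟨d, hd, P, hP, rfl⟩

theorem mem_all {T : NT} (h : T ∈ (allC B).flatten) :
    ∃ d, PVld B d ∧ ∃ P ∈ con B d, T = P.map fun l => (B.num l.1, l.2) := by
  unfold allC at h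
  obtain ⟨d, hd, P, hP, h1⟩ := mem_parts h
  exact ⟨d, mem_posL.1 hd, P, hP, h1⟩

theorem terms_ok (hB : B.Ok) : ∀ T ∈ (allC B).flatten, T ≠ [] ∧ ∀ p ∈ T, p.1 < B.Nv := by
  intro T hT
  obtain ⟨d, hd, P, hP, rfl⟩ := mem_all hT
  obtain ⟨_, _, h3⟩ := con_shape hB hd
  obtain ⟨h4, _, _⟩ := h3 P hP
  refine ⟨fun h => h4 (List.map_eq_nil_iff.1 h), ?_⟩
  intro p hp
  obtain ⟨l, hl, rfl⟩ := List.mem_map.1 hp
  exact num_lt hB (con_vld hB hd ⟨P, hP, l, hl, rfl⟩)

theorem terms_len (hB : B.Ok) : ∀ T ∈ (allC B).flatten, T.length ≤ 3 := by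
  intro T hT
  obtain ⟨d, hd, P, hP, rfl⟩ := mem_all hT
  obtain ⟨_, _, h3⟩ := con_shape hB hd
  rw [List.length_map]
  exact (h3 P hP).2.1

end CnjAux

open CnjAux

theorem min_tc (hB : B.Ok) {x : List Bool}
    (hx : (termCircuit B.Nv (allC B).flatten).IsLocalMin x) : Mn B (asg B x) := by
  obtain ⟨hl, hmin⟩ := hx
  rw [TL.tc_n] at hl hmin
  intro v P Q p hL hcv hNI
  by_contra hcon
  have hcon' : cv (fl (asg B x) v) (con B p) = false := by simpa using hcon
  have hp : PVld B p := mem_posL.1 (by rw [hL]; simp)
  have hocc : Occ v (con B p) := by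
    by_contra h
    rw [cv_fl_of_not_occ h, hcv] at hcon'
    exact absurd hcon' (by simp)
  have hv := con_vld hB hp hocc
  have h1 := hmin _ (num_lt hB hv)
  have hl' : (flip x (B.num v)).length = B.Nv := by rw [length_flip]; exact hl
  rw [Circuit.cost_eq, Circuit.cost_eq, TL.tc_out (terms_ok hB) hl,
    TL.tc_out (terms_ok hB) hl'] at h1
  change 2 * val ((allC B).flatten.map (ev x)) ≤
    2 * val ((allC B).flatten.map (ev (flip x (B.num v)))) at h1
  rw [flatten_eq hL] at h1
  obtain ⟨P0, hP0, hP0'⟩ := List.any_eq_true.1 hcv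
  have h2 := val_lt_parts ((Q.map fun q => numC B (con B q)).reverse).flatten
    (numC B (con B p)) ((P.map fun q => numC B (con B q)).reverse).flatten (ev x)
    (ev (flip x (B.num v))) ?_ ?_ (t := P0.map fun l => (B.num l.1, l.2)) ?_ ?_
  · omega
  · intro T hT h3
    obtain ⟨d, hd, P', hP', rfl⟩ := mem_parts hT
    have hd' : PVld B d := mem_posL.1 (by rw [hL]; simp [hd])
    rw [ev_num] at h3 ⊢
    rw [pv_flip hB hl hv hd' hP'] at h3
    exact hNI d hd P' hP' h3
  · intro T hT
    unfold numC at hT
    obtain ⟨P', hP', rfl⟩ := List.mem_map.1 hT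
    rw [ev_num, pv_flip hB hl hv hp hP']
    unfold cv at hcon'
    rw [List.any_eq_false] at hcon'
    simpa using hcon' P' hP'
  · unfold numC
    exact List.mem_map.2 ⟨P0, hP0, rfl⟩
  · rw [ev_num]
    exact hP0'

namespace CnjAux

/-! ### every variable is in at most seven parts -/

/-- number of parts which contain the variable -/
def cnt (v : Var) (c : Con) : ℕ := (c.filter fun P => decide (∃ l ∈ P, l.1 = v)).length

theorem cnt_le (v : Var) (c : Con) : cnt v c ≤ c.length := List.length_filter_le _ _

theorem cnt_pos {v : Var} {c : Con} (h : 0 < cnt v c) : Occ v c := by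
  unfold cnt at h
  obtain ⟨P, hP⟩ := List.exists_mem_of_length_pos h
  rw [List.mem_filter, decide_eq_true_eq] at hP
  obtain ⟨hP, l, hl, h1⟩ := hP
  exact ⟨P, hP, l, hl, h1⟩

theorem len_push (g : Var) : (push B g).length ≤ 3 := by
  cases g <;> simp [push]

theorem len_gcon (s g : Bool) (w : ℕ) : (gcon B s g w).length ≤ 2 := by
  unfold gcon
  split
  · simp
  · split_ifs <;> simp [cAnd, cOr]
  · split_ifs <;> simp [cAnd, cOr]
  · simp [cCp]

theorem cnt_L_rho (t : Bool) (j : ℕ) :
    cnt (.L t (j + 1)) (con B (.Prho j)) ≤ 2 := by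
  cases t <;> simp [cnt, con, cNor]

theorem cnt_L_PL (t : Bool) (j : ℕ) :
    cnt (.L t (j + 1)) (con B (.PL t j)) ≤ 2 := by
  cases t <;> simp [cnt, con, cNor]

theorem len_own (s g : Bool) (w c : ℕ) : (con B (ownr B s g w c)).length ≤ 2 := by
  cases c with
  | zero =>
    unfold ownr
    split_ifs
    · simp [con]
    · exact len_gcon s g w
  | succ c => simp [ownr, con, cCp]

theorem len_rdr (s g : Bool) (c : ℕ) : (con B (rdr B s g c)).length ≤ 2 := by
  unfold rdr
  split_ifs
  · split
    · exact len_gcon _ _ _
    · exact len_gcon _ _ _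
  all_goals simp [con, cAnd, cOr]

theorem sum_occ (v : Var) : ((occ B v).map fun p => cnt v (con B p)).sum ≤ 7 := by
  have key : ∀ (c : Con) (k : ℕ), c.length ≤ k → cnt v c ≤ k := fun c k h =>
    (cnt_le _ _).trans h
  cases v with
  | V s i =>
    have h1 := key (con B (.HL s i)) 2 (by simp [con])
    have h2 := key (con B (.Hck s true i)) 1 (by simp [con])
    have h3 := key (con B (.Hck s false i)) 1 (by simp [con])
    have h4 := key (con B (.Ld s i)) 2 (by simp [con])
    simp only [occ, List.map_cons, List.map_nil, List.sum_cons, List.sum_nil]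
    omega
  | r s g w c =>
    have h1 := key (con B (ownr B s g w c)) 2 (len_own s g w c)
    have h2 := key (con B (.Hc s g w c)) 1 (by simp [con, cCp])
    have h3 := key (con B (rdr B s g c)) 2 (len_rdr s g c)
    have h4 := key (con B (.Lp (.r s g w c))) 2 (by simp [con, push])
    simp only [occ, List.map_cons, List.map_nil, List.sum_cons, List.sum_nil]
    omega
  | ck t g i =>
    have h1 := key (con B (.Hck t g i)) 1 (by simp [con])
    have h2 := key (con B (.HF t i)) 2 (by simp [con, cOr])
    have h3 := key (con B (.Lp (.ck t g i))) 2 (by simp [con, push])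
    have h4 := key (con B (.Ld t i)) 2 (by simp [con])
    simp only [occ, List.map_cons, List.map_nil, List.sum_cons, List.sum_nil]
    omega
  | F t i =>
    have h1 := key (con B (.HF t i)) 2 (by simp [con, cOr])
    have h2 := key (con B (.HE t i)) 2 (by simp [con, cOr])
    have h3 := key (con B (.Lp (.F t i))) 2 (by simp [con, push])
    simp only [occ, List.map_cons, List.map_nil, List.sum_cons, List.sum_nil]
    omega
  | E t i =>
    have h1 := key (con B (.HE t (i - 1))) 2 (by simp [con, cOr])
    have h2 := key (con B (if i = B.n then .HD0 t else .HE t i)) 2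
      (by split_ifs <;> simp [con, cOr, cCp])
    have h3 := key (con B (.Lp (.E t i))) 2 (by simp [con, push])
    simp only [occ, List.map_cons, List.map_nil, List.sum_cons, List.sum_nil]
    omega
  | D t k =>
    have h1 := key (con B (if k = 0 then .HD0 t else .HD t (k - 1))) 1
      (by split_ifs <;> simp [con, cCp])
    have h2 := key (con B (.HD t k)) 1 (by simp [con, cCp])
    have h3 := key (con B (if k = 0 then .K1 t else .Hp (!t) (k - 1))) 2
      (by split_ifs <;> simp [con, cOr])
    have h4 := key (con B (.Lp (.D t k))) 2 (by simp [con, push])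
    simp only [occ, List.map_cons, List.map_nil, List.sum_cons, List.sum_nil]
    omega
  | p s j =>
    have h1 := key (con B (.Hp s j)) 2 (by simp [con, cOr])
    have h2 := key (con B (.Hu s j)) 1 (by simp [con, cAnd])
    have h3 := key (con B (.Lp (.p s j))) 2 (by simp [con, push])
    simp only [occ, List.map_cons, List.map_nil, List.sum_cons, List.sum_nil]
    omega
  | u s j =>
    have h1 := key (con B (.Hu s j)) 1 (by simp [con, cAnd])
    have h2 := key (con B (.Hal s j)) 1 (by simp [con, cAnd])
    have h3 := key (con B (.Lp (.u s j))) 2 (by simp [con, push])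
    simp only [occ, List.map_cons, List.map_nil, List.sum_cons, List.sum_nil]
    omega
  | Y s g j =>
    have h1 := key (con B (if g then (if j = 0 then .Hy else .HY s true (j - 1))
      else .HY s false j)) 2 (by split_ifs <;> simp [con, cCp])
    have h2 := key (con B (if g then .HY s false j else .HY s true j)) 1
      (by split_ifs <;> simp [con, cCp])
    have h3 := key (con B (if g then .Hal s j else .Hbe s j)) 1
      (by split_ifs <;> simp [con, cAnd])
    have h4 := key (con B (.Lp (.Y s g j))) 3 (by simp [con, push])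
    simp only [occ, List.map_cons, List.map_nil, List.sum_cons, List.sum_nil]
    omega
  | al s j =>
    have h1 := key (con B (.Hal s j)) 1 (by simp [con, cAnd])
    have h2 := key (con B (.Hq j)) 2 (by simp [con, cOr])
    have h3 := key (con B (.Lp (.al s j))) 3 (by simp [con, push])
    simp only [occ, List.map_cons, List.map_nil, List.sum_cons, List.sum_nil]
    omega
  | be s j =>
    have h1 := key (con B (.Hbe s j)) 1 (by simp [con, cAnd])
    have h2 := key (con B (.T1 (!s) j)) 1 (by simp [con])
    have h3 := key (con B (.Lp (.be s j))) 3 (by simp [con, push])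
    simp only [occ, List.map_cons, List.map_nil, List.sum_cons, List.sum_nil]
    omega
  | q j =>
    have h1 := key (con B (.Hq j)) 2 (by simp [con, cOr])
    have h2 := key (con B (.hold j)) 2 (by simp [con, cOr])
    have h3 := key (con B (.Lp (.q j))) 3 (by simp [con, push])
    simp only [occ, List.map_cons, List.map_nil, List.sum_cons, List.sum_nil]
    omega
  | m j =>
    have h1 := key (con B (.hold j)) 2 (by simp [con, cOr])
    have h2 := key (con B (.M j)) 1 (by simp [con])
    have h3 := key (con B (.T1 false j)) 1 (by simp [con])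
    have h4 := key (con B (.T1 true j)) 1 (by simp [con])
    simp only [occ, List.map_cons, List.map_nil, List.sum_cons, List.sum_nil]
    omega
  | tau t j =>
    have h1 := key (con B (.T1 t j)) 1 (by simp [con])
    have h2 := key (con B (.T2 t j)) 1 (by simp [con])
    have h3 := key (con B (.PL t j)) 3 (by simp [con, cNor])
    simp only [occ, List.map_cons, List.map_nil, List.sum_cons, List.sum_nil]
    omega
  | L t j =>
    rcases j with _ | j
    · have h1 := key (con B (if B.m = 0 then .top t else .PL t 0)) 3
        (by split_ifs <;> simp [con, cNor])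
      have h2 := key (con B .Yd) 2 (by simp [con])
      have h3 := key (con B (.Pl0 t)) 2 (by simp [con, cEq])
      simp only [occ, if_true, List.map_cons, List.map_nil, List.sum_cons, List.sum_nil]
      omega
    · have h1 := key (con B (if j + 1 = B.m then .top t else .PL t (j + 1))) 3
        (by split_ifs <;> simp [con, cNor])
      have h2 := cnt_L_rho (B := B) t j
      have h3 := cnt_L_PL (B := B) t j
      have h0 : ¬ j + 1 = 0 := by omega
      simp only [occ, if_neg h0, Nat.add_sub_cancel, List.map_cons, List.map_nil,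
        List.sum_cons, List.sum_nil]
      omega
  | rho j =>
    have h1 := key (con B (.Prho j)) 3 (by simp [con, cNor])
    have h2 := key (con B (.hold j)) 2 (by simp [con, cOr])
    simp only [occ, List.map_cons, List.map_nil, List.sum_cons, List.sum_nil]
    omega
  | y =>
    have h1 := key (con B .Hy) 2 (by simp [con])
    have h2 := key (con B .Yd) 2 (by simp [con])
    have h3 := key (con B .Py0) 2 (by simp [con, cEq])
    simp only [occ, List.map_cons, List.map_nil, List.sum_cons, List.sum_nil]
    omega
  | yc k =>
    have h1 := key (con B (if k = 0 then .Py0 else .Py (k - 1))) 2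
      (by split_ifs <;> simp [con, cEq])
    have h2 := key (con B (.Py k)) 2 (by simp [con, cEq])
    have h3 := key (con B (if k = 0 then .K1 false else if k = 1 then .K1 true
      else .Lp (inv B k))) 3 (by
        split_ifs
        · simp [con]
        · simp [con]
        · exact len_push _)
    simp only [occ, List.map_cons, List.map_nil, List.sum_cons, List.sum_nil]
    omega
  | e t =>
    have h1 := key (con B (.K1 t)) 1 (by simp [con])
    have h2 := key (con B (.K2 t)) 1 (by simp [con])
    have h3 := key (con B (.Pe0 t)) 2 (by simp [con, cEq])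
    simp only [occ, List.map_cons, List.map_nil, List.sum_cons, List.sum_nil]
    omega
  | ec t k =>
    have h1 := key (con B (if k = 0 then .Pe0 t else .Pe t (k - 1))) 2
      (by split_ifs <;> simp [con, cEq])
    have h2 := key (con B (.Pe t k)) 2 (by simp [con, cEq])
    have h3 := key (con B (.Lp (inv B k))) 3 (len_push _)
    simp only [occ, List.map_cons, List.map_nil, List.sum_cons, List.sum_nil]
    omega
  | La t k =>
    have h1 := key (con B (if k = 0 then .Pl0 t else .Pl t (k - 1))) 2
      (by split_ifs <;> simp [con, cEq])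
    have h2 := key (con B (.Pl t k)) 2 (by simp [con, cEq])
    have h3 := key (con B (.Lp (inv B k))) 3 (len_push _)
    simp only [occ, List.map_cons, List.map_nil, List.sum_cons, List.sum_nil]
    omega

theorem list_sum_le {α : Type} [DecidableEq α] {l : List α} (hl : l.Nodup) (l' : List α)
    (g : α → ℕ) (h : ∀ a ∈ l, 0 < g a → a ∈ l') : (l.map g).sum ≤ (l'.map g).sum := by
  have h1 : (l.map g).sum = ∑ a ∈ l.toFinset, g a := (List.sum_toFinset g hl).symm
  have h2 : ∑ a ∈ l.toFinset, g a = ∑ a ∈ l.toFinset.filter fun a => 0 < g a, g a := by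
    rw [Finset.sum_filter]
    refine Finset.sum_congr rfl fun a _ => ?_
    split_ifs with h3
    · rfl
    · omega
  have h3 : ∑ a ∈ l.toFinset.filter (fun a => 0 < g a), g a ≤ ∑ a ∈ l'.toFinset, g a := by
    refine Finset.sum_le_sum_of_subset ?_
    intro a ha
    rw [Finset.mem_filter, List.mem_toFinset] at ha
    rw [List.mem_toFinset]
    exact h a ha.1 ha.2
  have h4 : ∑ a ∈ l'.toFinset, g a = (l'.dedup.map g).sum := by
    rw [← List.sum_toFinset g (List.nodup_dedup l')]
    congr 1
    ext a
    simp
  have h5 : (l'.dedup.map g).sum ≤ (l'.map g).sum :=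
    ((List.dedup_sublist l').map g).sum_le_sum fun _ _ => Nat.zero_le _
  omega

/-- the part contains the variable with the number `i` -/
def has (i : ℕ) (T : NT) : Bool := decide (∃ p ∈ T, p.1 = i)

theorem parts_sum (i : ℕ) : ((allC B).flatten.filter (has i)).length =
    ((posL B).map fun p => ((numC B (con B p)).filter (has i)).length).sum := by
  unfold allC
  rw [List.filter_flatten, List.length_flatten, List.map_reverse, List.map_reverse,
    List.sum_reverse, List.map_map, List.map_map]
  rfl

theorem count_num (hB : B.Ok) {v : Var} (hv : B.Vld v) {p : Pos} (hp : PVld B p) :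
    ((numC B (con B p)).filter (has (B.num v))).length = cnt v (con B p) := by
  unfold numC cnt
  rw [List.filter_map, List.length_map]
  congr 1
  refine List.filter_congr fun P hP => ?_
  unfold has
  rw [Function.comp_apply, decide_eq_decide]
  constructor
  · rintro ⟨q, hq, h⟩
    obtain ⟨l, hl, rfl⟩ := List.mem_map.1 hq
    exact ⟨l, hl, num_inj hB (con_vld hB hp ⟨P, hP, l, hl, rfl⟩) hv h⟩
  · rintro ⟨l, hl, h⟩
    exact ⟨_, List.mem_map.2 ⟨l, hl, rfl⟩, by rw [← h]⟩

end CnjAux

/-- every variable occurs in at most seven parts -/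
theorem infl_parts (hB : B.Ok) (i : ℕ) :
    ((allC B).flatten.filter fun T => decide (∃ p ∈ T, p.1 = i)).length ≤ 7 := by
  change ((allC B).flatten.filter (has i)).length ≤ 7
  by_cases h : ∃ p, PVld B p ∧ ∃ v, Occ v (con B p) ∧ B.num v = i
  · obtain ⟨p0, hp0, v, hv0, rfl⟩ := h
    have hv := con_vld hB hp0 hv0
    rw [parts_sum]
    have h1 : (posL B).map (fun p => ((numC B (con B p)).filter (has (B.num v))).length) =
        (posL B).map fun p => CnjAux.cnt v (con B p) :=
      List.map_congr_left fun p hp => count_num hB hv (mem_posL.1 hp)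
    rw [h1]
    refine (list_sum_le nodup_posL (occ B v) _ fun p hp h2 => ?_).trans (sum_occ v)
    exact occ_mem hB (mem_posL.1 hp) (cnt_pos h2)
  · have h1 : (allC B).flatten.filter (has i) = [] := by
      rw [List.filter_eq_nil_iff]
      intro T hT h2
      unfold has at h2
      rw [decide_eq_true_eq] at h2
      obtain ⟨d, hd, P, hP, rfl⟩ := CnjAux.mem_all hT
      obtain ⟨q, hq, h3⟩ := h2
      obtain ⟨l, hl, rfl⟩ := List.mem_map.1 hq
      exact h ⟨d, hd, l.1, ⟨P, hP, l, hl, rfl⟩, h3⟩
    rw [h1]
    simp

namespace CnjAux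

/-! ### the reduction -/

/-- the circuit -/
def cj (B : Base) : Circuit := termCircuit B.Nv (allC B).flatten

theorem cj_valid (hB : B.Ok) : (cj B).Valid := TL.tc_valid (terms_ok hB)

theorem cj_conj (hB : B.Ok) : (cj B).ConjOuts 3 := by
  intro o ho
  obtain ⟨T, hT, h⟩ := TL.tc_terms (terms_ok hB) ho
  refine ⟨T, terms_len hB T hT, ?_, ?_⟩
  · intro p hp
    unfold cj
    rw [TL.tc_n]
    exact (terms_ok hB T hT).2 p hp
  · intro x hx
    unfold cj at hx
    rw [TL.tc_n] at hx
    exact h x hx

theorem cj_bit (hB : B.Ok) {x : List Bool} (hx : x.length = B.Nv) {j : ℕ}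
    (hj : j < (allC B).flatten.length) :
    (cj B).outBit x j = ev x ((allC B).flatten.getD j []) := by
  have h1 := TL.tc_out (terms_ok hB) hx
  have hlen : (cj B).outs.length = (allC B).flatten.length := by
    have h2 := congrArg List.length h1
    unfold Circuit.out at h2
    rw [List.length_map, List.length_map] at h2
    exact h2
  have h3 : ((cj B).out x).getD j false = (cj B).env x ((cj B).outs.getD j 0) := by
    unfold Circuit.out
    rw [List.getD_eq_getElem _ _ (by rw [List.length_map, hlen]; exact hj), List.getElem_map,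
      List.getD_eq_getElem (cj B).outs 0 (by rw [hlen]; exact hj)]
  change (cj B).env x ((cj B).outs.getD j 0) = _
  rw [← h3]
  unfold cj
  rw [h1, List.getD_eq_getElem _ _ (by rw [List.length_map]; exact hj), List.getElem_map,
    List.getD_eq_getElem _ _ hj]
  rfl

theorem cj_len (hB : B.Ok) : (cj B).outs.length = (allC B).flatten.length := by
  have h1 := TL.tc_out (terms_ok hB) (x := List.replicate B.Nv false)
    (List.length_replicate ..)
  have h2 := congrArg List.length h1
  unfold Circuit.out at h2
  rw [List.length_map, List.length_map] at h2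
  exact h2

theorem card_filter_idx {α : Type} (l : List α) (f : α → Bool) (d : α) :
    ((Finset.range l.length).filter fun j => f (l.getD j d) = true).card =
      (l.filter f).length := by
  induction l using List.reverseRecOn with
  | nil => simp
  | append_singleton l a ih =>
    rw [List.length_append, List.length_singleton, Finset.range_add_one,
      Finset.filter_insert, List.filter_append]
    have h1 : (Finset.range l.length).filter (fun j => f ((l ++ [a]).getD j d) = true) =
        (Finset.range l.length).filter fun j => f (l.getD j d) = true := by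
      refine Finset.filter_congr fun j hj => ?_
      rw [List.getD_append _ _ _ _ (Finset.mem_range.1 hj)]
    have h2 : (l ++ [a]).getD l.length d = a := by
      rw [List.getD_append_right _ _ _ _ le_rfl]
      simp
    rw [h1, h2]
    split_ifs with h
    · rw [Finset.card_insert_of_notMem (by simp), ih]
      simp [h]
    · rw [ih]
      simp [h]

theorem cj_infl (hB : B.Ok) : (cj B).Influence 7 := by
  intro i _
  refine ⟨(Finset.range (allC B).flatten.length).filter fun j =>
    has i ((allC B).flatten.getD j []) = true, ?_, ?_⟩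
  · rw [card_filter_idx]
    exact infl_parts hB i
  · intro j hj h
    rw [cj_len hB] at hj
    rw [Finset.mem_filter, Finset.mem_range]
    refine ⟨hj, ?_⟩
    by_contra hcon
    obtain ⟨x, hx, h1⟩ := h
    apply h1
    have hx' : x.length = B.Nv := by
      rw [hx]
      exact TL.tc_n
    rw [cj_bit hB (by rw [length_flip]; exact hx') hj, cj_bit hB hx' hj]
    unfold ev
    rw [decide_eq_decide]
    have hT : (allC B).flatten.getD j [] ∈ (allC B).flatten := by
      rw [List.getD_eq_getElem _ _ hj]
      exact List.getElem_mem hj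
    have h2 : ∀ p ∈ (allC B).flatten.getD j [],
        (flip x i).getD p.1 false = x.getD p.1 false := by
      intro p hp
      rw [getD_flip _ _ _ (by rw [hx']; exact (terms_ok hB _ hT).2 p hp), if_neg]
      intro h3
      apply hcon
      unfold has
      rw [decide_eq_true_eq]
      exact ⟨p, hp, h3.symm⟩
    constructor
    · intro h3 p hp
      rw [← h2 p hp]
      exact h3 p hp
    · intro h3 p hp
      rw [h2 p hp]
      exact h3 p hp

/-- the solution given by a local minimum -/
def dec (p : Circuit × List Bool) : List Bool :=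
  (List.range p.1.n).map fun i => p.2.getD ((baseOf p.1).num
    (.V (p.2.getD ((baseOf p.1).num .y) false) i)) false

theorem dec_eq {C : Circuit} {x : List Bool} :
    dec (C, x) = sl (baseOf C) (asg (baseOf C) x) (asg (baseOf C) x .y) := by
  unfold dec sl asg
  rw [baseOf_n]

theorem cj_correct {C : Circuit} (hC : C.Valid) (hn : 0 < C.n) {x : List Bool}
    (hx : (cj (baseOf C)).IsLocalMin x) : C.IsLocalMin (dec (C, x)) := by
  have hB := baseOf_ok hC hn
  have hS := baseOf_sem hC hn
  have hX := min_tc hB hx
  rw [dec_eq]
  refine baseOf_min hC hn ?_ (static hB hS hX)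
  unfold sl
  rw [List.length_map, List.length_range, baseOf_n]

theorem pu_N {α : Type} [Enc α] {B : α → Base} (hn : PU fun a => (B a).n)
    (hG : PTime fun a => (B a).G) : PU fun a => (B a).N :=
  hn.add (PU.ofLength hG)

theorem ptime_K {α : Type} [Enc α] {B : α → Base} (hn : PU fun a => (B a).n)
    (hG : PTime fun a => (B a).G) (hco : PTime fun a => (B a).co) :
    PTime fun a => (B a).K := by
  have h1 := (pu_N hn hG).toNat
  have h2 : PTime fun a => (B a).m := PTime.length hco
  exact ((((PTime.const 2).mul h1).add (PTime.const 1)).add hn.toNat).add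
    ((PTime.const 3).mul h2)

theorem ptime_dec : PTime dec := by
  obtain ⟨hG, _, hco, _⟩ := ptime_baseOf
  have hn : PU (fun C : Circuit => (baseOf C).n) :=
    (pu_n (PTime.id (α := Circuit))).of_eq fun C => (baseOf_n C).symm
  have hK : PTime fun C : Circuit => (baseOf C).K := ptime_K hn hG hco
  have hs : PTime (fun q : (Circuit × List Bool) × ℕ => q.1.2) := PTime.snd' PTime.fst
  have hK' : PTime (fun q : (Circuit × List Bool) × ℕ => (baseOf q.1.1).K) :=
    hK.comp (PTime.fst' PTime.fst)
  have hy : PTime (fun q : (Circuit × List Bool) × ℕ => (baseOf q.1.1).num .y) :=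
    ((((PTime.const 39).mul hK').add (PTime.const 0)).mul hK').add (PTime.const 0)
  have hc : PTime (fun q : (Circuit × List Bool) × ℕ =>
      q.1.2.getD ((baseOf q.1.1).num .y) false) := PTime.listGetD hs hy (PTime.const false)
  have hv : PTime (fun q : (Circuit × List Bool) × ℕ => (baseOf q.1.1).num
      (.V (q.1.2.getD ((baseOf q.1.1).num .y) false) q.2)) := by
    have h1 : PTime (fun q : (Circuit × List Bool) × ℕ =>
        (q.1.2.getD ((baseOf q.1.1).num .y) false).toNat) :=
      (PTime.iteP hc.boolP (PTime.const 1) (PTime.const 0)).of_eq fun q => by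
        cases q.1.2.getD ((baseOf q.1.1).num .y) false <;> rfl
    exact (((h1.mul hK').add PTime.snd).mul hK').add (PTime.const 0)
  exact PTime.map (g := fun (p : Circuit × List Bool) (i : ℕ) =>
    p.2.getD ((baseOf p.1).num (.V (p.2.getD ((baseOf p.1).num .y) false) i)) false)
    (pu_n PTime.fst).range (PTime.listGetD hs hv (PTime.const false))

end CnjAux

theorem hard_conj : PLSReduces (fun _ => True) fun C => C.ConjOuts 3 ∧ C.Influence 7 := by
  obtain ⟨hG, hnx, hco, him⟩ := ptime_baseOf
  have hn : PU (fun C : Circuit => (baseOf C).n) :=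
    (pu_n (PTime.id (α := Circuit))).of_eq fun C => (baseOf_n C).symm
  obtain ⟨hNv, hall⟩ := ptime_allC hn hG hnx hco him
  have hn0 : PTime (fun C : Circuit => decide (C.n ≤ 0)) :=
    PTime.le (pu_n (PTime.id (α := Circuit))).toNat (PTime.const 0)
  refine ⟨fun C => if C.n ≤ 0 then ⟨0, [], []⟩ else cj (baseOf C),
    fun p => if p.1.n ≤ 0 then [] else dec p, ?_, ?_, ?_⟩
  · exact (PTime.iteP hn0 (PTime.const _)
      (TL.ptime_termCircuit hNv (PTime.flatten hall))).isPolyTime
  · exact (PTime.iteP (hn0.comp PTime.fst) (PTime.const _) ptime_dec).isPolyTime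
  · intro C hC _
    dsimp only
    split_ifs with h1
    · refine ⟨⟨fun k hk => absurd hk (Nat.not_lt_zero k), fun o ho => absurd ho
        List.not_mem_nil⟩, ⟨fun o ho => absurd ho List.not_mem_nil, fun i hi => absurd hi
        (Nat.not_lt_zero i)⟩, fun y _ => ⟨?_, ?_⟩⟩
      · simp only [List.length_nil]
        omega
      · intro i hi
        omega
    · have h2 : 0 < C.n := by omega
      have hB := baseOf_ok hC h2
      exact ⟨cj_valid hB, ⟨cj_conj hB, cj_infl hB⟩, fun y hy => cj_correct hC h2 hy⟩

end Pool.Agent.MPa0a715.BI
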