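import Pool.Agent.Lib.MP_a0a715_lc.Sem

/-!
# A system of constraints with three variables each, every variable in at most four constraints

The system simulates a circuit which computes, for a solution, the next solution, the digits of
its cost and the position of the first digit that decreases. There are two slots for solutions.
-/

namespace Pool.Agent.MPa0a715.BI

open Pool.Agent.MPa0a715

/-- The variables of the system. The boolean `s` or `t` is the number of a slot. -/
inductive Var
  /-- bit `i` of the solution in slot `s` -/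
  | V (s : Bool) (i : ℕ)
  /-- wire `w` of the circuit on the solution in slot `s` may have the value `g`; copy `c` -/
  | r (s g : Bool) (w c : ℕ)
  /-- bit `i` of slot `t` has the value `g` and this may be wrong -/
  | ck (t g : Bool) (i : ℕ)
  /-- bit `i` of slot `t` may be wrong -/
  | F (t : Bool) (i : ℕ)
  /-- one of the first `i` bits of slot `t` may be wrong -/
  | E (t : Bool) (i : ℕ)
  /-- copies of the last of these -/
  | D (t : Bool) (k : ℕ)
  /-- digit `j` of the cost of slot `s` has to be shown -/
  | p (s : Bool) (j : ℕ)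
  /-- digit `j` of slot `s` -/
  | u (s : Bool) (j : ℕ)
  /-- slot `s` may be the active one; copies -/
  | Y (s g : Bool) (j : ℕ)
  /-- digit `j` of slot `s` if this is the active slot -/
  | al (s : Bool) (j : ℕ)
  /-- slot `s` may be active and improve its digit `j` -/
  | be (s : Bool) (j : ℕ)
  /-- digit `j` of the active slot -/
  | q (j : ℕ)
  /-- digit `j` of the register -/
  | m (j : ℕ)
  /-- the active slot is left in favour of slot `t` because of digit `j` -/
  | tau (t : Bool) (j : ℕ)
  /-- the same for a digit with number at least `j` -/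
  | L (t : Bool) (j : ℕ)
  /-- the same for a digit with number larger than `j` and some slot -/
  | rho (j : ℕ)
  /-- the number of the active slot -/
  | y
  /-- its copies -/
  | yc (k : ℕ)
  /-- slot `t` is evaluated -/
  | e (t : Bool)
  /-- its copies -/
  | ec (t : Bool) (k : ℕ)
  /-- copies of `L t 0` -/
  | La (t : Bool) (k : ℕ)
  deriving DecidableEq

/-- the variable is a rail: it is forced up by a constraint and pushed to a value by another -/
def Rail : Var → Prop
  | .r _ _ _ _ => True
  | .ck _ _ _ => True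
  | .F _ _ => True
  | .E _ _ => True
  | .D _ _ => True
  | .p _ _ => True
  | .u _ _ => True
  | .Y _ _ _ => True
  | .al _ _ => True
  | .be _ _ => True
  | .q _ => True
  | _ => False

/-- a conjunction of literals; `(v, b)` says that `v` has the value `b` -/
abbrev Part := List (Var × Bool)

/-- a constraint is violated if one of its parts is true -/
abbrev Con := List Part

/-- value of a part -/
def pv (X : Var → Bool) (P : Part) : Bool := P.all fun l => X l.1 == l.2

/-- the constraint is violated -/
def cv (X : Var → Bool) (c : Con) : Bool := c.any (pv X)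

/-- flip one variable -/
def fl (X : Var → Bool) (v : Var) : Var → Bool := Function.update X v (!X v)

/-- no part of the constraint becomes true -/
def NI (X X' : Var → Bool) (c : Con) : Prop := ∀ P ∈ c, pv X' P = true → pv X P = true

/-- the variable occurs in the constraint -/
def Occ (v : Var) (c : Con) : Prop := ∃ P ∈ c, ∃ l ∈ P, l.1 = v

/-- `g` if `a` and `b` -/
def cAnd (a b g : Var) : Con := [[(a, true), (b, true), (g, false)]]

/-- `g` if `a` or `b` -/
def cOr (a b g : Var) : Con := [[(a, true), (g, false)], [(b, true), (g, false)]]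

/-- `g` if `a` -/
def cCp (a g : Var) : Con := [[(a, true), (g, false)]]

/-- `g` iff `a` -/
def cEq (a g : Var) : Con := [[(g, true), (a, false)], [(g, false), (a, true)]]

/-- `g` iff `a` or `b` -/
def cNor (a b g : Var) : Con :=
  [[(g, true), (a, false), (b, false)], [(g, false), (a, true)], [(g, false), (b, true)]]

/-- the given circuit: number of inputs, gates, the wires of the next solution, of the digits of
the cost, and of the digit that is improved -/
structure Base where
  n : ℕ
  G : List Gate
  nx : List ℕ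
  co : List ℕ
  im : List ℕ

namespace Base

variable (B : Base)

/-- number of wires -/
def N : ℕ := B.n + B.G.length

/-- number of digits -/
def m : ℕ := B.co.length

/-- number of copies of each wire -/
def K : ℕ := 2 * B.N + 1 + B.n + 3 * B.m

/-- the values on the wires -/
def env (x : List Bool) (w : ℕ) : Bool := (Circuit.mk B.n B.G []).env x w

/-- the next solution -/
def next (x : List Bool) : List Bool := (List.range B.n).map fun i => B.env x (B.nx.getD i 0)

/-- the circuit is in order -/
structure Ok : Prop where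
  pos : 0 < B.n
  gates : ∀ (k : ℕ) (h : k < B.G.length), ∀ r ∈ B.G[k].refs, r < B.n + k
  len : B.im.length = B.co.length
  nx : ∀ i < B.n, B.nx.getD i 0 < B.N
  co : ∀ j < B.m, B.co.getD j 0 < B.N
  im : ∀ j < B.m, B.im.getD j 0 < B.N

/-- what the circuit computes: if digit `j` is improved, then it is one for the solution and zero
for the next solution, the higher digits are equal, and no other digit is improved -/
def Sem : Prop :=
  ∀ x : List Bool, x.length = B.n → ∀ j < B.m, B.env x (B.im.getD j 0) = true →
    B.env x (B.co.getD j 0) = true ∧ B.env (B.next x) (B.co.getD j 0) = false ∧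
    (∀ k < B.m, j < k → B.env (B.next x) (B.co.getD k 0) = B.env x (B.co.getD k 0)) ∧
    ∀ k < B.m, k ≠ j → B.env x (B.im.getD k 0) = false

/-! ### numbers of variables -/

/-- length of the chains of copies is `Z + 2` -/
def Z : ℕ := 42 * B.K * B.K

/-- kind and indices of a variable -/
def code : Var → ℕ × ℕ × ℕ
  | .V s i => (s.toNat, i, 0)
  | .r s g w c => (4 + 2 * s.toNat + g.toNat, w, c)
  | .ck t g i => (8 + 2 * t.toNat + g.toNat, i, 0)
  | .F t i => (12 + t.toNat, i, 0)
  | .E t i => (14 + t.toNat, i, 0)
  | .D t k => (16 + t.toNat, k, 0)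
  | .p s j => (18 + s.toNat, j, 0)
  | .u s j => (20 + s.toNat, j, 0)
  | .Y s g j => (24 + 2 * s.toNat + g.toNat, j, 0)
  | .al s j => (28 + s.toNat, j, 0)
  | .be s j => (30 + s.toNat, j, 0)
  | .q j => (32, j, 0)
  | .m j => (33, j, 0)
  | .tau t j => (34 + t.toNat, j, 0)
  | .L t j => (36 + t.toNat, j, 0)
  | .rho j => (38, j, 0)
  | .y => (39, 0, 0)
  | .e t => (40 + t.toNat, 0, 0)
  | .yc k => (42, 0, k)
  | .ec t k => (43 + t.toNat, 0, k)
  | .La t k => (45 + t.toNat, 0, k)

/-- number of a variable -/
def num : Var → ℕ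
  | .yc k => B.Z + k
  | .ec t k => B.Z + (1 + t.toNat) * (B.Z + 2) + k
  | .La t k => B.Z + (3 + t.toNat) * (B.Z + 2) + k
  | v => ((code v).1 * B.K + (code v).2.1) * B.K + (code v).2.2

/-- number of variables -/
def Nv : ℕ := B.Z + 5 * (B.Z + 2)

/-- the copies with this number are used for the variable -/
def pos (v : Var) : ℕ := B.num v + 2

/-- the indices are in range -/
def Vld : Var → Prop
  | .V _ i => i < B.n
  | .r _ _ w c => w < B.N ∧ c < B.K
  | .ck _ _ i => i < B.n
  | .F _ i => i < B.n
  | .E _ i => i ≤ B.n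
  | .D _ k => k ≤ B.m
  | .p _ j => j < B.m
  | .u _ j => j < B.m
  | .Y _ false j => j < B.m
  | .Y _ true j => j ≤ B.m
  | .al _ j => j < B.m
  | .be _ j => j < B.m
  | .q j => j < B.m
  | .m j => j < B.m
  | .tau _ j => j < B.m
  | .L _ j => j ≤ B.m
  | .rho j => j < B.m
  | .y => True
  | .yc k => k < B.Z + 2
  | .e _ => True
  | .ec _ k => k < B.Z + 2
  | .La _ k => k < B.Z + 2

/-- the list of all rails, ordered by their codes -/
def rails : List Var :=
  [ [false, true].flatMap fun s => [false, true].flatMap fun g =>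
      (List.range B.N).flatMap fun w => (List.range B.K).map (Var.r s g w),
    [false, true].flatMap fun t => [false, true].flatMap fun g =>
      (List.range B.n).map (Var.ck t g),
    [false, true].flatMap fun t => (List.range B.n).map (Var.F t),
    [false, true].flatMap fun t => (List.range (B.n + 1)).map (Var.E t),
    [false, true].flatMap fun t => (List.range (B.m + 1)).map (Var.D t),
    [false, true].flatMap fun s => (List.range B.m).map (Var.p s),
    [false, true].flatMap fun s => (List.range B.m).map (Var.u s),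
    [false, true].flatMap fun s =>
      (List.range B.m).map (Var.Y s false) ++ (List.range (B.m + 1)).map (Var.Y s true),
    [false, true].flatMap fun s => (List.range B.m).map (Var.al s),
    [false, true].flatMap fun s => (List.range B.m).map (Var.be s),
    (List.range B.m).map Var.q ].flatten

end Base

/-! ### the constraints -/

/-- names of the constraints -/
inductive Pos
  | HL (s : Bool) (i : ℕ)
  | Hg (s g : Bool) (w : ℕ)
  | Hc (s g : Bool) (w c : ℕ)
  | Hck (t g : Bool) (i : ℕ)
  | HF (t : Bool) (i : ℕ)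
  | HE (t : Bool) (i : ℕ)
  | HD0 (t : Bool)
  | HD (t : Bool) (k : ℕ)
  | Hp (s : Bool) (j : ℕ)
  | Hu (s : Bool) (j : ℕ)
  | Hy
  | HY (s g : Bool) (j : ℕ)
  | Hal (s : Bool) (j : ℕ)
  | Hbe (s : Bool) (j : ℕ)
  | Hq (j : ℕ)
  | top (t : Bool)
  | Prho (j : ℕ)
  | hold (j : ℕ)
  | M (j : ℕ)
  | T1 (t : Bool) (j : ℕ)
  | T2 (t : Bool) (j : ℕ)
  | PL (t : Bool) (j : ℕ)
  | Yd
  | Py0
  | Py (k : ℕ)
  | K1 (t : Bool)
  | K2 (t : Bool)
  | Pe0 (t : Bool)
  | Pe (t : Bool) (k : ℕ)
  | Pl0 (t : Bool)
  | Pl (t : Bool) (k : ℕ)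
  | Lp (g : Var)
  | Ld (s : Bool) (i : ℕ)
  deriving DecidableEq

section
variable (B : Base)

/-- the constraint for wire `w` of slot `s`, value `g` -/
def gcon (s g : Bool) (w : ℕ) : Con :=
  match B.G[w - B.n]? with
  | none => []
  | some (.and i j) =>
    if g then cAnd (.r s g i (2 * w + 1)) (.r s g j (2 * w + 2)) (.r s g w 0)
    else cOr (.r s g i (2 * w + 1)) (.r s g j (2 * w + 2)) (.r s g w 0)
  | some (.or i j) =>
    if g then cOr (.r s g i (2 * w + 1)) (.r s g j (2 * w + 2)) (.r s g w 0)
    else cAnd (.r s g i (2 * w + 1)) (.r s g j (2 * w + 2)) (.r s g w 0)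
  | some (.not i) => cCp (.r s (!g) i (2 * w + 1)) (.r s g w 0)

/-- the constraint that pushes a rail up or down -/
def push : Var → Con
  | .r s g w c => [[(.r s g w c, true), (.ec s (B.pos (.r s g w c)), true)],
      [(.r s g w c, false), (.ec s (B.pos (.r s g w c)), false)]]
  | .p s j => [[(.p s j, true), (.ec s (B.pos (.p s j)), true)],
      [(.p s j, false), (.ec s (B.pos (.p s j)), false)]]
  | .u s j => [[(.u s j, true), (.ec s (B.pos (.u s j)), true)],
      [(.u s j, false), (.ec s (B.pos (.u s j)), false)]]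
  | .ck t g i => [[(.ck t g i, true), (.yc (B.pos (.ck t g i)), !t)],
      [(.ck t g i, false), (.yc (B.pos (.ck t g i)), t)]]
  | .F t i => [[(.F t i, true), (.yc (B.pos (.F t i)), !t)],
      [(.F t i, false), (.yc (B.pos (.F t i)), t)]]
  | .E t i => [[(.E t i, true), (.yc (B.pos (.E t i)), !t)],
      [(.E t i, false), (.yc (B.pos (.E t i)), t)]]
  | .D t k => [[(.D t k, true), (.yc (B.pos (.D t k)), !t)],
      [(.D t k, false), (.yc (B.pos (.D t k)), t)]]
  | .Y s g j => [[(.Y s g j, true), (.La s (B.pos (.Y s g j)), false)],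
      [(.Y s g j, true), (.La (!s) (B.pos (.Y s g j)), true)],
      [(.Y s g j, false), (.La s (B.pos (.Y s g j)), true),
        (.La (!s) (B.pos (.Y s g j)), false)]]
  | .al s j => [[(.al s j, true), (.La s (B.pos (.al s j)), false)],
      [(.al s j, true), (.La (!s) (B.pos (.al s j)), true)],
      [(.al s j, false), (.La s (B.pos (.al s j)), true), (.La (!s) (B.pos (.al s j)), false)]]
  | .be s j => [[(.be s j, true), (.La s (B.pos (.be s j)), false)],
      [(.be s j, true), (.La (!s) (B.pos (.be s j)), true)],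
      [(.be s j, false), (.La s (B.pos (.be s j)), true), (.La (!s) (B.pos (.be s j)), false)]]
  | .q j => [[(.q j, true), (.La false (B.pos (.q j)), false), (.La true (B.pos (.q j)), false)],
      [(.q j, false), (.La false (B.pos (.q j)), true)],
      [(.q j, false), (.La true (B.pos (.q j)), true)]]
  | _ => []

/-- the constraints -/
def con : Pos → Con
  | .HL s i => [[(.V s i, true), (.r s true i 0, false)], [(.V s i, false), (.r s false i 0, false)]]
  | .Hg s g w => gcon B s g w
  | .Hc s g w c => cCp (.r s g w c) (.r s g w (c + 1))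
  | .Hck t g i => [[(.V t i, g), (.r (!t) (!g) (B.nx.getD i 0) (2 * B.N + 1 + i), true),
      (.ck t g i, false)]]
  | .HF t i => cOr (.ck t true i) (.ck t false i) (.F t i)
  | .HE t i => cOr (.E t i) (.F t i) (.E t (i + 1))
  | .HD0 t => cCp (.E t B.n) (.D t 0)
  | .HD t k => cCp (.D t k) (.D t (k + 1))
  | .Hp s j => cOr (.r s false (B.im.getD j 0) (2 * B.N + 1 + B.n + j)) (.D (!s) (j + 1)) (.p s j)
  | .Hu s j => cAnd (.r s true (B.co.getD j 0) (2 * B.N + 1 + B.n + B.m + j)) (.p s j) (.u s j)
  | .Hy => [[(.y, true), (.Y true true 0, false)], [(.y, false), (.Y false true 0, false)]]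
  | .HY s g j => if g then cCp (.Y s false j) (.Y s true (j + 1))
      else cCp (.Y s true j) (.Y s false j)
  | .Hal s j => cAnd (.Y s true j) (.u s j) (.al s j)
  | .Hbe s j => cAnd (.Y s false j)
      (.r s true (B.im.getD j 0) (2 * B.N + 1 + B.n + 2 * B.m + j)) (.be s j)
  | .Hq j => cOr (.al false j) (.al true j) (.q j)
  | .top t => [[(.L t B.m, true)]]
  | .Prho j => cNor (.L false (j + 1)) (.L true (j + 1)) (.rho j)
  | .hold j => cOr (.q j) (.rho j) (.m j)
  | .M j => [[(.m j, true)]]
  | .T1 t j => [[(.be (!t) j, true), (.m j, false), (.tau t j, false)]]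
  | .T2 t j => [[(.tau t j, true)]]
  | .PL t j => cNor (.L t (j + 1)) (.tau t j) (.L t j)
  | .Yd => [[(.y, true), (.L false 0, true)], [(.y, false), (.L true 0, true)]]
  | .Py0 => cEq .y (.yc 0)
  | .Py k => cEq (.yc k) (.yc (k + 1))
  | .K1 t => [[(.e t, true), (.D t 0, true), (.yc t.toNat, !t)]]
  | .K2 t => [[(.e t, false)]]
  | .Pe0 t => cEq (.e t) (.ec t 0)
  | .Pe t k => cEq (.ec t k) (.ec t (k + 1))
  | .Pl0 t => cEq (.L t 0) (.La t 0)
  | .Pl t k => cEq (.La t k) (.La t (k + 1))
  | .Lp g => push B g
  | .Ld s i => [[(.V s i, true), (.ck s true i, true)], [(.V s i, false), (.ck s false i, true)]]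

/-- the constraints of the rails of slot `s` -/
def segR (s : Bool) : List Pos :=
  (List.range B.N).flatMap fun w =>
    (if w < B.n then [] else [Pos.Hg s false w, Pos.Hg s true w]) ++
    (List.range (B.K - 1)).flatMap fun c => [Pos.Hc s false w c, Pos.Hc s true w c]

/-- the constraints of a digit -/
def segD (j : ℕ) : List Pos :=
  [.Prho j, .hold j, .M j, .T1 false j, .T1 true j, .T2 false j, .T2 true j, .PL false j,
    .PL true j]

/-- the segments of the list of constraints -/
def segs : List (List Pos) :=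
  [ (List.range B.n).flatMap fun i => [.HL false i, .HL true i],
    segR B false,
    segR B true,
    (List.range B.n).flatMap fun i => [.Hck false false i, .Hck false true i, .Hck true false i,
      .Hck true true i],
    (List.range B.n).flatMap fun i => [.HF false i, .HF true i],
    (List.range B.n).flatMap fun i => [.HE false i, .HE true i],
    [.HD0 false, .HD0 true],
    (List.range B.m).flatMap fun k => [.HD false k, .HD true k],
    (List.range B.m).flatMap fun j => [.Hp false j, .Hp true j],
    (List.range B.m).flatMap fun j => [.Hu false j, .Hu true j],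
    [.Hy],
    (List.range B.m).flatMap fun j => [.HY false false j, .HY true false j, .HY false true j,
      .HY true true j],
    (List.range B.m).flatMap fun j => [.Hal false j, .Hal true j],
    (List.range B.m).flatMap fun j => [.Hbe false j, .Hbe true j],
    (List.range B.m).map Pos.Hq,
    [.top false, .top true],
    (List.range B.m).flatMap fun d => segD (B.m - 1 - d),
    [.Yd],
    [.Py0],
    (List.range (B.Z + 1)).map Pos.Py,
    [.K1 false, .K1 true],
    [.K2 false, .K2 true],
    [.Pe0 false, .Pe0 true],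
    (List.range (B.Z + 1)).flatMap fun k => [.Pe false k, .Pe true k],
    [.Pl0 false, .Pl0 true],
    (List.range (B.Z + 1)).flatMap fun k => [.Pl false k, .Pl true k],
    B.rails.map Pos.Lp,
    (List.range B.n).flatMap fun i => [.Ld false i, .Ld true i] ]

/-- the list of all constraints, the most important one first -/
def posL : List Pos := (segs B).flatten

/-- the place of a constraint in the list: number of the segment, and three further numbers -/
def key : Pos → ℕ × ℕ × ℕ × ℕ
  | .HL s i => (0, i, 0, s.toNat)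
  | .Hg s g w => (1 + s.toNat, w, 0, g.toNat)
  | .Hc s g w c => (1 + s.toNat, w, c + 1, g.toNat)
  | .Hck t g i => (3, i, t.toNat, g.toNat)
  | .HF t i => (4, i, 0, t.toNat)
  | .HE t i => (5, i, 0, t.toNat)
  | .HD0 t => (6, 0, 0, t.toNat)
  | .HD t k => (7, k, 0, t.toNat)
  | .Hp s j => (8, j, 0, s.toNat)
  | .Hu s j => (9, j, 0, s.toNat)
  | .Hy => (10, 0, 0, 0)
  | .HY s g j => (11, j, g.toNat, s.toNat)
  | .Hal s j => (12, j, 0, s.toNat)
  | .Hbe s j => (13, j, 0, s.toNat)
  | .Hq j => (14, j, 0, 0)
  | .top t => (15, 0, 0, t.toNat)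
  | .Prho j => (16, B.m - j, 0, 0)
  | .hold j => (16, B.m - j, 1, 0)
  | .M j => (16, B.m - j, 2, 0)
  | .T1 t j => (16, B.m - j, 3, t.toNat)
  | .T2 t j => (16, B.m - j, 4, t.toNat)
  | .PL t j => (16, B.m - j, 5, t.toNat)
  | .Yd => (17, 0, 0, 0)
  | .Py0 => (18, 0, 0, 0)
  | .Py k => (19, k, 0, 0)
  | .K1 t => (20, 0, 0, t.toNat)
  | .K2 t => (21, 0, 0, t.toNat)
  | .Pe0 t => (22, 0, 0, t.toNat)
  | .Pe t k => (23, k, 0, t.toNat)
  | .Pl0 t => (24, 0, 0, t.toNat)
  | .Pl t k => (25, k, 0, t.toNat)
  | .Lp g => (26, (Base.code g).1, (Base.code g).2.1, (Base.code g).2.2)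
  | .Ld s i => (27, i, 0, s.toNat)

/-- strict lexicographic order -/
def klt (a b : ℕ × ℕ × ℕ × ℕ) : Prop :=
  a.1 < b.1 ∨ (a.1 = b.1 ∧ (a.2.1 < b.2.1 ∨ (a.2.1 = b.2.1 ∧
    (a.2.2.1 < b.2.2.1 ∨ (a.2.2.1 = b.2.2.1 ∧ a.2.2.2 < b.2.2.2)))))

/-- the indices of the constraint are in range -/
def PVld : Pos → Prop
  | .HL _ i => i < B.n
  | .Hg _ _ w => B.n ≤ w ∧ w < B.N
  | .Hc _ _ w c => w < B.N ∧ c + 1 < B.K
  | .Hck _ _ i => i < B.n
  | .HF _ i => i < B.n
  | .HE _ i => i < B.n
  | .HD0 _ => True
  | .HD _ k => k < B.m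
  | .Hp _ j => j < B.m
  | .Hu _ j => j < B.m
  | .Hy => True
  | .HY _ _ j => j < B.m
  | .Hal _ j => j < B.m
  | .Hbe _ j => j < B.m
  | .Hq j => j < B.m
  | .top _ => True
  | .Prho j => j < B.m
  | .hold j => j < B.m
  | .M j => j < B.m
  | .T1 _ j => j < B.m
  | .T2 _ j => j < B.m
  | .PL _ j => j < B.m
  | .Yd => True
  | .Py0 => True
  | .Py k => k < B.Z + 1
  | .K1 _ => True
  | .K2 _ => True
  | .Pe0 _ => True
  | .Pe _ k => k < B.Z + 1
  | .Pl0 _ => True
  | .Pl _ k => k < B.Z + 1
  | .Lp g => Rail g ∧ B.Vld g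
  | .Ld _ i => i < B.n

/-- the constraint that forces the rail `r s g w c` up -/
def ownr (s g : Bool) (w : ℕ) : ℕ → Pos
  | 0 => if w < B.n then .HL s w else .Hg s g w
  | c + 1 => .Hc s g w c

/-- the constraint, apart from the next copy, which reads the rail `r s g _ c` -/
def rdr (s g : Bool) (c : ℕ) : Pos :=
  if c ≤ 2 * B.N then
    match B.G[(c - 1) / 2 - B.n]? with
    | some (.not _) => .Hg s (!g) ((c - 1) / 2)
    | _ => .Hg s g ((c - 1) / 2)
  else if c < 2 * B.N + 1 + B.n then .Hck (!s) (!g) (c - (2 * B.N + 1))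
  else if c < 2 * B.N + 1 + B.n + B.m then .Hp s (c - (2 * B.N + 1 + B.n))
  else if c < 2 * B.N + 1 + B.n + 2 * B.m then .Hu s (c - (2 * B.N + 1 + B.n + B.m))
  else .Hbe s (c - (2 * B.N + 1 + B.n + 2 * B.m))

open Classical in
/-- the rail which uses the copies with number `k` -/
noncomputable def inv (k : ℕ) : Var :=
  if h : ∃ g, Rail g ∧ B.Vld g ∧ B.pos g = k then h.choose else .y

/-- the constraints which contain a variable (and perhaps others) -/
noncomputable def occ : Var → List Pos
  | .V s i => [.HL s i, .Hck s true i, .Hck s false i, .Ld s i]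
  | .r s g w c => [ownr B s g w c, .Hc s g w c, rdr B s g c, .Lp (.r s g w c)]
  | .ck t g i => [.Hck t g i, .HF t i, .Lp (.ck t g i), .Ld t i]
  | .F t i => [.HF t i, .HE t i, .Lp (.F t i)]
  | .E t i => [.HE t (i - 1), if i = B.n then .HD0 t else .HE t i, .Lp (.E t i)]
  | .D t k => [if k = 0 then .HD0 t else .HD t (k - 1), .HD t k,
      if k = 0 then .K1 t else .Hp (!t) (k - 1), .Lp (.D t k)]
  | .p s j => [.Hp s j, .Hu s j, .Lp (.p s j)]
  | .u s j => [.Hu s j, .Hal s j, .Lp (.u s j)]
  | .Y s g j => [if g then (if j = 0 then .Hy else .HY s true (j - 1)) else .HY s false j,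
      if g then .HY s false j else .HY s true j, if g then .Hal s j else .Hbe s j,
      .Lp (.Y s g j)]
  | .al s j => [.Hal s j, .Hq j, .Lp (.al s j)]
  | .be s j => [.Hbe s j, .T1 (!s) j, .Lp (.be s j)]
  | .q j => [.Hq j, .hold j, .Lp (.q j)]
  | .m j => [.hold j, .M j, .T1 false j, .T1 true j]
  | .tau t j => [.T1 t j, .T2 t j, .PL t j]
  | .L t j => if j = 0 then [if B.m = 0 then .top t else .PL t 0, .Yd, .Pl0 t]
      else [if j = B.m then .top t else .PL t j, .Prho (j - 1), .PL t (j - 1)]
  | .rho j => [.Prho j, .hold j]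
  | .y => [.Hy, .Yd, .Py0]
  | .yc k => [if k = 0 then .Py0 else .Py (k - 1), .Py k,
      if k = 0 then .K1 false else if k = 1 then .K1 true else .Lp (inv B k)]
  | .e t => [.K1 t, .K2 t, .Pe0 t]
  | .ec t k => [if k = 0 then .Pe0 t else .Pe t (k - 1), .Pe t k, .Lp (inv B k)]
  | .La t k => [if k = 0 then .Pl0 t else .Pl t (k - 1), .Pl t k, .Lp (inv B k)]

/-- the rail `g` has to be up because of its own constraint -/
def frc (X : Var → Bool) : Var → Bool
  | .r s g w 0 => if w < B.n then X (.V s w) == g else
      match B.G[w - B.n]? with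
      | none => false
      | some (.and i j) =>
        if g then X (.r s g i (2 * w + 1)) && X (.r s g j (2 * w + 2))
        else X (.r s g i (2 * w + 1)) || X (.r s g j (2 * w + 2))
      | some (.or i j) =>
        if g then X (.r s g i (2 * w + 1)) || X (.r s g j (2 * w + 2))
        else X (.r s g i (2 * w + 1)) && X (.r s g j (2 * w + 2))
      | some (.not i) => X (.r s (!g) i (2 * w + 1))
  | .r s g w (c + 1) => X (.r s g w c)
  | .ck t g i => (X (.V t i) == g) && X (.r (!t) (!g) (B.nx.getD i 0) (2 * B.N + 1 + i))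
  | .F t i => X (.ck t true i) || X (.ck t false i)
  | .E _ 0 => false
  | .E t (i + 1) => X (.E t i) || X (.F t i)
  | .D t 0 => X (.E t B.n)
  | .D t (k + 1) => X (.D t k)
  | .p s j => X (.r s false (B.im.getD j 0) (2 * B.N + 1 + B.n + j)) || X (.D (!s) (j + 1))
  | .u s j => X (.r s true (B.co.getD j 0) (2 * B.N + 1 + B.n + B.m + j)) && X (.p s j)
  | .Y s true 0 => X .y == s
  | .Y s true (j + 1) => X (.Y s false j)
  | .Y s false j => X (.Y s true j)
  | .al s j => X (.Y s true j) && X (.u s j)
  | .be s j => X (.Y s false j) && X (.r s true (B.im.getD j 0) (2 * B.N + 1 + B.n + 2 * B.m + j))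
  | .q j => X (.al false j) || X (.al true j)
  | _ => false

/-- the rail is pushed down (otherwise it is pushed up) -/
def dnv (X : Var → Bool) : Var → Bool
  | .r s _ _ _ => X (.e s)
  | .p s _ => X (.e s)
  | .u s _ => X (.e s)
  | .ck t _ _ => X .y != t
  | .F t _ => X .y != t
  | .E t _ => X .y != t
  | .D t _ => X .y != t
  | .Y s _ _ => !(X (.L s 0) && !X (.L (!s) 0))
  | .al s _ => !(X (.L s 0) && !X (.L (!s) 0))
  | .be s _ => !(X (.L s 0) && !X (.L (!s) 0))
  | .q _ => !(X (.L false 0) || X (.L true 0))
  | _ => false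

/-- no flip of a variable is an improvement: whenever a flip repairs a violated constraint, a part
of a more important constraint becomes true -/
def Mn (X : Var → Bool) : Prop :=
  ∀ (v : Var) (P Q : List Pos) (p : Pos), posL B = P ++ p :: Q → cv X (con B p) = true →
    (∀ d ∈ P, NI X (fl X v) (con B d)) → cv (fl X v) (con B p) = true

/-- the solution in slot `s` -/
def sl (X : Var → Bool) (s : Bool) : List Bool := (List.range B.n).map fun i => X (.V s i)

end

end Pool.Agent.MPa0a715.BI
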