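import Pool.Agent.Lib.MP_a0a715_lc_BI.Num

/-!
# Occurrences of variables in constraints
-/

namespace Pool.Agent.MPa0a715.BI

open Pool.Agent.MPa0a715

variable {B : Base} {X : Var → Bool}

namespace OccAux

/-- the variables of a constraint -/
def vs (B : Base) : Pos → List Var
  | .HL s i => [.V s i, .r s true i 0, .r s false i 0]
  | .Hg s g w => match B.G[w - B.n]? with
    | none => []
    | some (.and i j) => [.r s g i (2 * w + 1), .r s g j (2 * w + 2), .r s g w 0]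
    | some (.or i j) => [.r s g i (2 * w + 1), .r s g j (2 * w + 2), .r s g w 0]
    | some (.not i) => [.r s (!g) i (2 * w + 1), .r s g w 0]
  | .Hc s g w c => [.r s g w c, .r s g w (c + 1)]
  | .Hck t g i => [.V t i, .r (!t) (!g) (B.nx.getD i 0) (2 * B.N + 1 + i), .ck t g i]
  | .HF t i => [.ck t true i, .ck t false i, .F t i]
  | .HE t i => [.E t i, .F t i, .E t (i + 1)]
  | .HD0 t => [.E t B.n, .D t 0]
  | .HD t k => [.D t k, .D t (k + 1)]
  | .Hp s j => [.r s false (B.im.getD j 0) (2 * B.N + 1 + B.n + j), .D (!s) (j + 1), .p s j]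
  | .Hu s j => [.r s true (B.co.getD j 0) (2 * B.N + 1 + B.n + B.m + j), .p s j, .u s j]
  | .Hy => [.y, .Y true true 0, .Y false true 0]
  | .HY s g j => if g then [.Y s false j, .Y s true (j + 1)] else [.Y s true j, .Y s false j]
  | .Hal s j => [.Y s true j, .u s j, .al s j]
  | .Hbe s j => [.Y s false j,
      .r s true (B.im.getD j 0) (2 * B.N + 1 + B.n + 2 * B.m + j), .be s j]
  | .Hq j => [.al false j, .al true j, .q j]
  | .top t => [.L t B.m]
  | .Prho j => [.L false (j + 1), .L true (j + 1), .rho j]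
  | .hold j => [.q j, .rho j, .m j]
  | .M j => [.m j]
  | .T1 t j => [.be (!t) j, .m j, .tau t j]
  | .T2 t j => [.tau t j]
  | .PL t j => [.L t (j + 1), .tau t j, .L t j]
  | .Yd => [.y, .L false 0, .L true 0]
  | .Py0 => [.y, .yc 0]
  | .Py k => [.yc k, .yc (k + 1)]
  | .K1 t => [.e t, .D t 0, .yc t.toNat]
  | .K2 t => [.e t]
  | .Pe0 t => [.e t, .ec t 0]
  | .Pe t k => [.ec t k, .ec t (k + 1)]
  | .Pl0 t => [.L t 0, .La t 0]
  | .Pl t k => [.La t k, .La t (k + 1)]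
  | .Lp (.r s g w c) => [.r s g w c, .ec s (B.pos (.r s g w c))]
  | .Lp (.p s j) => [.p s j, .ec s (B.pos (.p s j))]
  | .Lp (.u s j) => [.u s j, .ec s (B.pos (.u s j))]
  | .Lp (.ck t g i) => [.ck t g i, .yc (B.pos (.ck t g i))]
  | .Lp (.F t i) => [.F t i, .yc (B.pos (.F t i))]
  | .Lp (.E t i) => [.E t i, .yc (B.pos (.E t i))]
  | .Lp (.D t k) => [.D t k, .yc (B.pos (.D t k))]
  | .Lp (.Y s g j) => [.Y s g j, .La s (B.pos (.Y s g j)), .La (!s) (B.pos (.Y s g j))]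
  | .Lp (.al s j) => [.al s j, .La s (B.pos (.al s j)), .La (!s) (B.pos (.al s j))]
  | .Lp (.be s j) => [.be s j, .La s (B.pos (.be s j)), .La (!s) (B.pos (.be s j))]
  | .Lp (.q j) => [.q j, .La false (B.pos (.q j)), .La true (B.pos (.q j))]
  | .Lp _ => []
  | .Ld s i => [.V s i, .ck s true i, .ck s false i]

theorem occ_iff {v : Var} {c : Con} : Occ v c ↔ v ∈ c.flatten.map Prod.fst := by
  constructor
  · rintro ⟨P, hP, l, hl, rfl⟩
    exact List.mem_map.2 ⟨l, List.mem_flatten.2 ⟨P, hP, hl⟩, rfl⟩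
  · intro h
    obtain ⟨l, hl, rfl⟩ := List.mem_map.1 h
    obtain ⟨P, hP, hl⟩ := List.mem_flatten.1 hl
    exact ⟨P, hP, l, hl, rfl⟩

theorem vs_len (p : Pos) : (vs B p).length ≤ 3 := by
  rcases p with _ | _ | _ | _ | _ | _ | _ | _ | _ | _ | _ | _ | _ | _ | _ | _ | _ | _ | _ | _ | _ |
    _ | _ | _ | _ | _ | _ | _ | _ | _ | _ | g | _
  all_goals try (simp [vs]; done)
  · simp only [vs]
    split <;> simp
  · simp only [vs]
    split <;> simp
  · cases g <;> simp [vs]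

theorem occ_vs {v : Var} {p : Pos} (h : Occ v (con B p)) : v ∈ vs B p := by
  rw [occ_iff] at h
  rcases p with _ | ⟨s, g, w⟩ | _ | _ | _ | _ | _ | _ | _ | _ | _ | ⟨s, g, j⟩ | _ | _ | _ | _ | _ |
    _ | _ | _ | _ | _ | _ | _ | _ | _ | _ | _ | _ | _ | _ | g | _
  all_goals try (simp [con, cOr, cAnd, cCp, cEq, cNor] at h; simp [vs]; tauto)
  · rcases hG : B.G[w - B.n]? with _ | (⟨i, j⟩ | ⟨i, j⟩ | ⟨i⟩)
    · simp [con, gcon, hG] at h
    · cases g <;> simp [con, gcon, vs, hG, cOr, cAnd] at h ⊢ <;> tauto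
    · cases g <;> simp [con, gcon, vs, hG, cOr, cAnd] at h ⊢ <;> tauto
    · simp [con, gcon, vs, hG, cCp] at h ⊢
      tauto
  · cases g <;> simp [con, vs, cCp] at h ⊢ <;> tauto
  · cases g <;> simp [con, vs, push] at h ⊢ <;> tauto

theorem n_le : B.n ≤ B.N := Nat.le_add_right _ _

theorem N_lt {w : ℕ} (hw : w < B.N) : 2 * w + 2 < B.K := by
  unfold Base.K
  omega

theorem gate_refs (hB : B.Ok) {w : ℕ} {g : Gate} (h : B.G[w - B.n]? = some g) (hw : B.n ≤ w) :
    ∀ r ∈ g.refs, r < w := by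
  obtain ⟨h1, h2⟩ := List.getElem?_eq_some_iff.1 h
  intro r hr
  rw [← h2] at hr
  have := hB.gates _ h1 r hr
  omega

theorem lp_vld (hB : B.Ok) {g v : Var} (hr : Rail g) (hg : B.Vld g) (h : v ∈ vs B (.Lp g)) :
    B.Vld v := by
  have hp := pos_lt hB hr hg
  cases g <;> simp only [Rail] at hr <;>
    simp only [vs, List.mem_cons, List.not_mem_nil, or_false] at h <;>
    rcases h with rfl | rfl | rfl <;> first | exact hg | exact hp

theorem vs_vld (hB : B.Ok) {p : Pos} {v : Var} (hp : PVld B p) (h : v ∈ vs B p) : B.Vld v := by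
  have hn := n_le (B := B)
  have hpos := hB.pos
  have hK : B.K = 2 * B.N + 1 + B.n + 3 * B.m := rfl
  rcases p with ⟨s, i⟩ | ⟨s, g, w⟩ | ⟨s, g, w, c⟩ | ⟨t, g, i⟩ | ⟨t, i⟩ | ⟨t, i⟩ | ⟨t⟩ | ⟨t, k⟩ |
    ⟨s, j⟩ | ⟨s, j⟩ | _ | ⟨s, g, j⟩ | ⟨s, j⟩ | ⟨s, j⟩ | ⟨j⟩ | ⟨t⟩ | ⟨j⟩ | ⟨j⟩ | ⟨j⟩ | ⟨t, j⟩ | ⟨t, j⟩ |
    ⟨t, j⟩ | _ | _ | ⟨k⟩ | ⟨t⟩ | ⟨t⟩ | ⟨t⟩ | ⟨t, k⟩ | ⟨t⟩ | ⟨t, k⟩ | ⟨g⟩ | ⟨s, i⟩
  case Hg =>
    have hp' : B.n ≤ w ∧ w < B.N := hp
    rcases hG : B.G[w - B.n]? with _ | (⟨i, j⟩ | ⟨i, j⟩ | ⟨i⟩)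
    · simp [vs, hG] at h
    · have hr := gate_refs hB hG hp'.1
      simp [Gate.refs] at hr
      simp [vs, hG] at h
      rcases h with rfl | rfl | rfl <;> simp only [Base.Vld] <;> omega
    · have hr := gate_refs hB hG hp'.1
      simp [Gate.refs] at hr
      simp [vs, hG] at h
      rcases h with rfl | rfl | rfl <;> simp only [Base.Vld] <;> omega
    · have hr := gate_refs hB hG hp'.1
      simp [Gate.refs] at hr
      simp [vs, hG] at h
      rcases h with rfl | rfl <;> simp only [Base.Vld] <;> omega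
  case Lp => exact lp_vld hB hp.1 hp.2 h
  case Hck =>
    have hp' : i < B.n := hp
    have h1 := hB.nx i hp'
    simp [vs] at h
    rcases h with rfl | rfl | rfl
    · exact hp'
    · rw [List.getD_eq_getElem?_getD] at h1
      exact ⟨h1, by omega⟩
    · exact hp'
  case Hp =>
    have hp' : j < B.m := hp
    have h1 := hB.im j hp'
    simp [vs] at h
    rcases h with rfl | rfl | rfl
    · rw [List.getD_eq_getElem?_getD] at h1
      exact ⟨h1, by omega⟩
    · exact hp'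
    · exact hp'
  case Hu =>
    have hp' : j < B.m := hp
    have h1 := hB.co j hp'
    simp [vs] at h
    rcases h with rfl | rfl | rfl
    · rw [List.getD_eq_getElem?_getD] at h1
      exact ⟨h1, by omega⟩
    · exact hp'
    · exact hp'
  case Hbe =>
    have hp' : j < B.m := hp
    have h1 := hB.im j hp'
    simp [vs] at h
    rcases h with rfl | rfl | rfl
    · exact hp'
    · rw [List.getD_eq_getElem?_getD] at h1
      exact ⟨h1, by omega⟩
    · exact hp'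
  case HY =>
    have hp' : j < B.m := hp
    cases g <;> simp [vs] at h <;> rcases h with rfl | rfl <;> simp only [Base.Vld] <;> omega
  case HL =>
    have hp' : i < B.n := hp
    simp [vs] at h
    rcases h with rfl | rfl | rfl <;> simp only [Base.Vld] <;> omega
  case Hc =>
    have hp' : w < B.N ∧ c + 1 < B.K := hp
    simp [vs] at h
    rcases h with rfl | rfl <;> simp only [Base.Vld] <;> omega
  case K1 =>
    simp [vs] at h
    rcases h with rfl | rfl | rfl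
    · trivial
    · exact Nat.zero_le _
    · have : t.toNat ≤ 1 := by cases t <;> simp
      simp only [Base.Vld]
      omega
  all_goals
    simp only [PVld] at hp
    simp only [vs, List.mem_cons, List.not_mem_nil, or_false] at h
    rcases h with rfl | rfl | rfl <;> simp only [Base.Vld] <;> omega

theorem rdr_gate {s g : Bool} {w c : ℕ} (hw : w < B.N) (hc : c = 2 * w + 1 ∨ c = 2 * w + 2)
    (h : ∀ i, B.G[w - B.n]? ≠ some (.not i)) : rdr B s g c = .Hg s g w := by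
  have h1 : c ≤ 2 * B.N := by omega
  have h2 : (c - 1) / 2 = w := by omega
  rw [rdr, if_pos h1, h2]
  split
  · next i hi => exact absurd hi (h i)
  · rfl

theorem rdr_not {s g : Bool} {w i : ℕ} (hw : w < B.N) (h : B.G[w - B.n]? = some (.not i)) :
    rdr B s (!g) (2 * w + 1) = .Hg s g w := by
  have h1 : 2 * w + 1 ≤ 2 * B.N := by omega
  have h2 : (2 * w + 1 - 1) / 2 = w := by omega
  rw [rdr, if_pos h1, h2, h]
  simp

theorem rdr_ck {s g : Bool} {i : ℕ} (hi : i < B.n) :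
    rdr B (!s) (!g) (2 * B.N + 1 + i) = .Hck s g i := by
  rw [rdr, if_neg (by omega), if_pos (by omega)]
  simp

theorem rdr_p {s g : Bool} {j : ℕ} (hj : j < B.m) :
    rdr B s g (2 * B.N + 1 + B.n + j) = .Hp s j := by
  rw [rdr, if_neg (by omega), if_neg (by omega), if_pos (by omega)]
  simp

theorem rdr_u {s g : Bool} {j : ℕ} (hj : j < B.m) :
    rdr B s g (2 * B.N + 1 + B.n + B.m + j) = .Hu s j := by
  rw [rdr, if_neg (by omega), if_neg (by omega), if_neg (by omega), if_pos (by omega)]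
  simp

theorem rdr_be {s g : Bool} {j : ℕ} :
    rdr B s g (2 * B.N + 1 + B.n + 2 * B.m + j) = .Hbe s j := by
  rw [rdr, if_neg (by omega), if_neg (by omega), if_neg (by omega), if_neg (by omega)]
  simp

theorem lp_mem (hB : B.Ok) {g v : Var} (hr : Rail g) (hg : B.Vld g) (h : v ∈ vs B (.Lp g)) :
    Pos.Lp g ∈ occ B v := by
  have hi := inv_eq hB hr hg
  have h0 : B.pos g ≠ 0 := by simp [Base.pos]
  have h1 : B.pos g ≠ 1 := by simp [Base.pos]
  cases g <;> simp only [Rail] at hr <;>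
    simp only [vs, List.mem_cons, List.not_mem_nil, or_false] at h <;>
    rcases h with rfl | rfl | rfl <;> simp [occ, hi, h0, h1]

theorem vs_mem (hB : B.Ok) {p : Pos} {v : Var} (hp : PVld B p) (h : v ∈ vs B p) :
    p ∈ occ B v := by
  have hn := n_le (B := B)
  have hpos := hB.pos
  have hK : B.K = 2 * B.N + 1 + B.n + 3 * B.m := rfl
  rcases p with ⟨s, i⟩ | ⟨s, g, w⟩ | ⟨s, g, w, c⟩ | ⟨t, g, i⟩ | ⟨t, i⟩ | ⟨t, i⟩ | ⟨t⟩ | ⟨t, k⟩ |
    ⟨s, j⟩ | ⟨s, j⟩ | _ | ⟨s, g, j⟩ | ⟨s, j⟩ | ⟨s, j⟩ | ⟨j⟩ | ⟨t⟩ | ⟨j⟩ | ⟨j⟩ | ⟨j⟩ | ⟨t, j⟩ | ⟨t, j⟩ |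
    ⟨t, j⟩ | _ | _ | ⟨k⟩ | ⟨t⟩ | ⟨t⟩ | ⟨t⟩ | ⟨t, k⟩ | ⟨t⟩ | ⟨t, k⟩ | ⟨g⟩ | ⟨s, i⟩
  case Hg =>
    have hp' : B.n ≤ w ∧ w < B.N := hp
    rcases hG : B.G[w - B.n]? with _ | (⟨i, j⟩ | ⟨i, j⟩ | ⟨i⟩)
    · simp [vs, hG] at h
    · have h1 : ∀ i, B.G[w - B.n]? ≠ some (.not i) := by simp [hG]
      simp [vs, hG] at h
      rcases h with rfl | rfl | rfl
      · simp [occ, rdr_gate hp'.2 (Or.inl rfl) h1]
      · simp [occ, rdr_gate hp'.2 (Or.inr rfl) h1]
      · simp [occ, ownr, hp'.1]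
    · have h1 : ∀ i, B.G[w - B.n]? ≠ some (.not i) := by simp [hG]
      simp [vs, hG] at h
      rcases h with rfl | rfl | rfl
      · simp [occ, rdr_gate hp'.2 (Or.inl rfl) h1]
      · simp [occ, rdr_gate hp'.2 (Or.inr rfl) h1]
      · simp [occ, ownr, hp'.1]
    · simp [vs, hG] at h
      rcases h with rfl | rfl
      · simp [occ, rdr_not hp'.2 hG]
      · simp [occ, ownr, hp'.1]
  case Lp => exact lp_mem hB hp.1 hp.2 h
  case Hck =>
    have hp' : i < B.n := hp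
    simp only [vs, List.mem_cons, List.not_mem_nil, or_false] at h
    rcases h with rfl | rfl | rfl
    · cases g <;> simp [occ]
    · simp [occ, rdr_ck hp']
    · simp [occ]
  case Hp =>
    have hp' : j < B.m := hp
    simp only [vs, List.mem_cons, List.not_mem_nil, or_false] at h
    rcases h with rfl | rfl | rfl
    · simp [occ, rdr_p hp']
    · simp [occ]
    · simp [occ]
  case Hu =>
    have hp' : j < B.m := hp
    simp only [vs, List.mem_cons, List.not_mem_nil, or_false] at h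
    rcases h with rfl | rfl | rfl
    · simp [occ, rdr_u hp']
    · simp [occ]
    · simp [occ]
  case Hbe =>
    simp only [vs, List.mem_cons, List.not_mem_nil, or_false] at h
    rcases h with rfl | rfl | rfl
    · simp [occ]
    · simp [occ, rdr_be]
    · simp [occ]
  case HY =>
    cases g <;> simp [vs] at h <;> rcases h with rfl | rfl <;> simp [occ]
  case HL =>
    have hp' : i < B.n := hp
    simp [vs] at h
    rcases h with rfl | rfl | rfl <;> simp [occ, ownr, hp']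
  case K1 =>
    simp [vs] at h
    rcases h with rfl | rfl | rfl
    · simp [occ]
    · simp [occ]
    · cases t <;> simp [occ]
  case PL =>
    have hp' : j < B.m := hp
    simp [vs] at h
    rcases h with rfl | rfl | rfl
    · simp [occ]
    · simp [occ]
    · rcases Nat.eq_zero_or_pos j with rfl | hj
      · simp [occ, hp'.ne']
      · simp [occ, hp'.ne, hj.ne']
  case top =>
    simp [vs] at h
    subst h
    rcases Nat.eq_zero_or_pos B.m with h0 | hj
    · simp [occ, h0]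
    · simp [occ, hj.ne']
  case HE =>
    have hp' : i < B.n := hp
    simp [vs] at h
    rcases h with rfl | rfl | rfl
    · simp [occ, hp'.ne]
    · simp [occ]
    · simp [occ]
  case T1 =>
    simp [vs] at h
    rcases h with rfl | rfl | rfl
    · simp [occ]
    · cases t <;> simp [occ]
    · simp [occ]
  case Ld =>
    simp [vs] at h
    rcases h with rfl | rfl | rfl <;> simp [occ]
  all_goals
    simp only [vs, List.mem_cons, List.not_mem_nil, or_false] at h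
    rcases h with rfl | rfl | rfl <;> simp [occ, ownr]

theorem push_shape {g : Var} (hr : Rail g) : push B g ≠ [] ∧ (push B g).length ≤ 3 ∧
    ∀ P ∈ push B g, P ≠ [] ∧ P.length ≤ 3 ∧ (P.map Prod.fst).Nodup := by
  cases g <;> simp only [Rail] at hr <;> simp [push]

end OccAux

open OccAux

theorem occ_mem (hB : B.Ok) {p : Pos} {v : Var} (hp : PVld B p) (h : Occ v (con B p)) :
    p ∈ occ B v :=
  vs_mem hB hp (occ_vs h)

theorem occ_len (v : Var) : (occ B v).length ≤ 4 := by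
  cases v <;> simp only [occ] <;> (try split) <;> simp

theorem con_vld (hB : B.Ok) {p : Pos} {v : Var} (hp : PVld B p) (h : Occ v (con B p)) :
    B.Vld v :=
  vs_vld hB hp (occ_vs h)

theorem con_shape (hB : B.Ok) {p : Pos} (hp : PVld B p) : con B p ≠ [] ∧
    (con B p).length ≤ 3 ∧
    ∀ P ∈ con B p, P ≠ [] ∧ P.length ≤ 3 ∧ (P.map Prod.fst).Nodup := by
  rcases p with ⟨s, i⟩ | ⟨s, g, w⟩ | ⟨s, g, w, c⟩ | ⟨t, g, i⟩ | ⟨t, i⟩ | ⟨t, i⟩ | ⟨t⟩ | ⟨t, k⟩ |
    ⟨s, j⟩ | ⟨s, j⟩ | _ | ⟨s, g, j⟩ | ⟨s, j⟩ | ⟨s, j⟩ | ⟨j⟩ | ⟨t⟩ | ⟨j⟩ | ⟨j⟩ | ⟨j⟩ | ⟨t, j⟩ | ⟨t, j⟩ |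
    ⟨t, j⟩ | _ | _ | ⟨k⟩ | ⟨t⟩ | ⟨t⟩ | ⟨t⟩ | ⟨t, k⟩ | ⟨t⟩ | ⟨t, k⟩ | ⟨g⟩ | ⟨s, i⟩
  case Hg =>
    have hp' : B.n ≤ w ∧ w < B.N := hp
    have hlt : w - B.n < B.G.length := by
      have : B.N = B.n + B.G.length := rfl
      omega
    have hr := gate_refs (B := B) (w := w) hB (List.getElem?_eq_getElem hlt) hp'.1
    rcases hG : B.G[w - B.n] with ⟨i, j⟩ | ⟨i, j⟩ | ⟨i⟩
    · rw [hG] at hr
      simp [Gate.refs] at hr
      have h1 : i ≠ w := hr.1.ne
      have h2 : j ≠ w := hr.2.ne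
      cases g <;> simp [con, gcon, List.getElem?_eq_getElem hlt, hG, cOr, cAnd, h1, h2]
    · rw [hG] at hr
      simp [Gate.refs] at hr
      have h1 : i ≠ w := hr.1.ne
      have h2 : j ≠ w := hr.2.ne
      cases g <;> simp [con, gcon, List.getElem?_eq_getElem hlt, hG, cOr, cAnd, h1, h2]
    · rw [hG] at hr
      simp [Gate.refs] at hr
      have h1 : i ≠ w := hr.ne
      simp [con, gcon, List.getElem?_eq_getElem hlt, hG, cCp, h1]
  case Lp => exact push_shape hp.1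
  case HY => cases g <;> simp [con, cCp]
  all_goals simp [con, cCp, cOr, cAnd, cNor, cEq]

theorem con_vars (p : Pos) : ∃ S : Finset Var, S.card ≤ 3 ∧ ∀ v, Occ v (con B p) → v ∈ S :=
  ⟨(vs B p).toFinset, (List.toFinset_card_le _).trans (vs_len p),
    fun _ h => List.mem_toFinset.2 (occ_vs h)⟩

end Pool.Agent.MPa0a715.BI
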