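import Pool.Agent.Lib.MP_a0a715_lc_BI.Defs

/-!
# The list of constraints is sorted
-/

namespace Pool.Agent.MPa0a715.BI

open Pool.Agent.MPa0a715

variable {B : Base}

namespace OrdAux

theorem digit (m j : ℕ) : (∃ a < m, j = m - 1 - a) ↔ j < m := by
  constructor
  · rintro ⟨a, ha, h⟩
    omega
  · intro h
    exact ⟨m - 1 - j, by omega, by omega⟩

theorem range_flatMap {α : Type} (R : α → α → Prop) (m : ℕ) (f : ℕ → List α)
    (h1 : ∀ i < m, (f i).Pairwise R)
    (h2 : ∀ i j, i < j → j < m → ∀ x ∈ f i, ∀ y ∈ f j, R x y) :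
    ((List.range m).flatMap f).Pairwise R := by
  rw [List.pairwise_flatMap]
  exact ⟨fun i hi => h1 i (List.mem_range.1 hi), List.pairwise_lt_range.imp_of_mem
    (fun _ hj hij => h2 _ _ hij (List.mem_range.1 hj))⟩

theorem range_map {α : Type} (R : α → α → Prop) (m : ℕ) (f : ℕ → α)
    (h : ∀ i j, i < j → j < m → R (f i) (f j)) : ((List.range m).map f).Pairwise R := by
  rw [List.pairwise_map]
  exact List.pairwise_lt_range.imp_of_mem
    (fun _ hj hij => h _ _ hij (List.mem_range.1 hj))

theorem bool_flatMap {α : Type} (R : α → α → Prop) (f : Bool → List α)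
    (h1 : ∀ b, (f b).Pairwise R) (h2 : ∀ x ∈ f false, ∀ y ∈ f true, R x y) :
    ([false, true].flatMap f).Pairwise R := by
  have e : [false, true].flatMap f = f false ++ f true := by simp
  rw [e, List.pairwise_append]
  exact ⟨h1 _, h1 _, h2⟩

theorem flatten_sorted {α : Type} (k : α → ℕ) (R : α → α → Prop) (hR : ∀ x y, k x < k y → R x y)
    {Ls : List (List α)} {bs : List (ℕ × ℕ)}
    (h : List.Forall₂ (fun l b => (∀ x ∈ l, b.1 ≤ k x ∧ k x < b.2) ∧ l.Pairwise R) Ls bs)
    (hbs : bs.Pairwise fun b c => b.2 ≤ c.1) :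
    Ls.flatten.Pairwise R ∧ ∀ x ∈ Ls.flatten, ∃ b ∈ bs, b.1 ≤ k x := by
  induction h with
  | nil => simp
  | @cons l b Ls bs hl _ ih =>
    rw [List.pairwise_cons] at hbs
    obtain ⟨ih1, ih2⟩ := ih hbs.2
    rw [List.flatten_cons]
    refine ⟨List.pairwise_append.2 ⟨hl.2, ih1, fun x hx y hy => hR x y ?_⟩, fun x hx => ?_⟩
    · obtain ⟨c, hc, hcy⟩ := ih2 y hy
      have h1 := hbs.1 c hc
      have h2 := (hl.1 x hx).2
      omega
    · rcases List.mem_append.1 hx with hx | hx
      · exact ⟨b, List.mem_cons_self, (hl.1 x hx).1⟩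
      · obtain ⟨c, hc, hcx⟩ := ih2 x hx
        exact ⟨c, List.mem_cons_of_mem _ hc, hcx⟩

/-- the order on the rails -/
def RV (g h : Var) : Prop := klt (26, (Base.code g).1, (Base.code g).2.1, (Base.code g).2.2)
  (26, (Base.code h).1, (Base.code h).2.1, (Base.code h).2.2)

theorem RV_of_lt {g h : Var} (hl : (Base.code g).1 < (Base.code h).1) : RV g h := by
  simp [RV, klt, hl]

/-- a sorted list of variables with kinds in the interval from `a` to `b` -/
structure SegV (a b : ℕ) (l : List Var) : Prop where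
  bd : ∀ x ∈ l, a ≤ (Base.code x).1 ∧ (Base.code x).1 < b
  pw : l.Pairwise RV

theorem SegV.append {a b c d : ℕ} {l l' : List Var} (h : SegV a b l) (h' : SegV c d l')
    (hbc : b ≤ c) (hac : a ≤ c) (hbd : b ≤ d) : SegV a d (l ++ l') where
  bd x hx := by
    rcases List.mem_append.1 hx with hx | hx
    · have := h.bd x hx
      omega
    · have := h'.bd x hx
      omega
  pw := List.pairwise_append.2 ⟨h.pw, h'.pw, fun x hx z hz => RV_of_lt (by
    have := h.bd x hx
    have := h'.bd z hz
    omega)⟩

theorem SegV.bool {a c : ℕ} (b : ℕ) {f : Bool → List Var} (h : SegV a b (f false))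
    (h' : SegV b c (f true)) (hab : a ≤ b) (hbc : b ≤ c) : SegV a c ([false, true].flatMap f) := by
  have e : [false, true].flatMap f = f false ++ f true := by simp
  rw [e]
  exact h.append h' le_rfl hab hbc

theorem SegV.map {k : ℕ} (m : ℕ) (f : ℕ → Var) (hk : ∀ i, (Base.code (f i)).1 = k)
    (hc : ∀ i, (Base.code (f i)).2.1 = i) : SegV k (k + 1) ((List.range m).map f) where
  bd x hx := by
    obtain ⟨i, _, rfl⟩ := List.mem_map.1 hx
    rw [hk]
    omega
  pw := range_map _ _ _ fun i j hij _ => by
    unfold RV klt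
    rw [hk, hk, hc, hc]
    exact Or.inr ⟨rfl, Or.inr ⟨rfl, Or.inl hij⟩⟩

theorem SegV.rr (B : Base) (s g : Bool) : SegV (4 + 2 * s.toNat + g.toNat)
    (4 + 2 * s.toNat + g.toNat + 1)
    ((List.range B.N).flatMap fun w => (List.range B.K).map (Var.r s g w)) where
  bd x hx := by
    obtain ⟨w, _, hx⟩ := List.mem_flatMap.1 hx
    obtain ⟨c, _, rfl⟩ := List.mem_map.1 hx
    simp only [Base.code]
    omega
  pw := by
    refine range_flatMap _ _ _ (fun w _ => range_map _ _ _ fun c c' hc _ => ?_)
      (fun w w' hw _ => ?_)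
    · exact Or.inr ⟨rfl, Or.inr ⟨rfl, Or.inr ⟨rfl, hc⟩⟩⟩
    · intro x hx z hz
      obtain ⟨c, _, rfl⟩ := List.mem_map.1 hx
      obtain ⟨c', _, rfl⟩ := List.mem_map.1 hz
      exact Or.inr ⟨rfl, Or.inr ⟨rfl, Or.inl hw⟩⟩

theorem sorted_rails (B : Base) : B.rails.Pairwise RV := by
  refine (flatten_sorted (fun g => (Base.code g).1) RV (fun _ _ h => RV_of_lt h)
    (bs := [(4, 8), (8, 12), (12, 14), (14, 16), (16, 18), (18, 20), (20, 22), (24, 28), (28, 30),
      (30, 32), (32, 33)]) ?_ (by decide)).1
  have key : ∀ {a b : ℕ} {l : List Var}, SegV a b l →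
      (∀ x ∈ l, (a, b).1 ≤ (Base.code x).1 ∧ (Base.code x).1 < (a, b).2) ∧ l.Pairwise RV :=
    fun h => ⟨h.bd, h.pw⟩
  refine List.Forall₂.cons (key ?_) (List.Forall₂.cons (key ?_) (List.Forall₂.cons (key ?_)
    (List.Forall₂.cons (key ?_) (List.Forall₂.cons (key ?_) (List.Forall₂.cons (key ?_)
    (List.Forall₂.cons (key ?_) (List.Forall₂.cons (key ?_) (List.Forall₂.cons (key ?_)
    (List.Forall₂.cons (key ?_) (List.Forall₂.cons (key ?_) List.Forall₂.nil))))))))))
  · exact .bool 6 (.bool 5 (.rr B false false) (.rr B false true) (by omega) (by omega))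
      (.bool 7 (.rr B true false) (.rr B true true) (by omega) (by omega)) (by omega) (by omega)
  · exact .bool 10 (.bool 9 (.map _ _ (fun _ => rfl) fun _ => rfl)
      (.map _ _ (fun _ => rfl) fun _ => rfl) (by omega) (by omega))
      (.bool 11 (.map _ _ (fun _ => rfl) fun _ => rfl) (.map _ _ (fun _ => rfl) fun _ => rfl)
        (by omega) (by omega)) (by omega) (by omega)
  · exact .bool 13 (.map _ _ (fun _ => rfl) fun _ => rfl) (.map _ _ (fun _ => rfl) fun _ => rfl)
      (by omega) (by omega)
  · exact .bool 15 (.map _ _ (fun _ => rfl) fun _ => rfl) (.map _ _ (fun _ => rfl) fun _ => rfl)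
      (by omega) (by omega)
  · exact .bool 17 (.map _ _ (fun _ => rfl) fun _ => rfl) (.map _ _ (fun _ => rfl) fun _ => rfl)
      (by omega) (by omega)
  · exact .bool 19 (.map _ _ (fun _ => rfl) fun _ => rfl) (.map _ _ (fun _ => rfl) fun _ => rfl)
      (by omega) (by omega)
  · exact .bool 21 (.map _ _ (fun _ => rfl) fun _ => rfl) (.map _ _ (fun _ => rfl) fun _ => rfl)
      (by omega) (by omega)
  · exact .bool 26 (.append (b := 25) (c := 25) (.map _ _ (fun _ => rfl) fun _ => rfl)
      (.map _ _ (fun _ => rfl) fun _ => rfl) (by omega) (by omega) (by omega))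
      (.append (b := 27) (c := 27) (.map _ _ (fun _ => rfl) fun _ => rfl)
      (.map _ _ (fun _ => rfl) fun _ => rfl) (by omega) (by omega) (by omega)) (by omega) (by omega)
  · exact .bool 29 (.map _ _ (fun _ => rfl) fun _ => rfl) (.map _ _ (fun _ => rfl) fun _ => rfl)
      (by omega) (by omega)
  · exact .bool 31 (.map _ _ (fun _ => rfl) fun _ => rfl) (.map _ _ (fun _ => rfl) fun _ => rfl)
      (by omega) (by omega)
  · exact .map _ _ (fun _ => rfl) fun _ => rfl

/-- the order on the constraints -/
def RP (B : Base) (p q : Pos) : Prop := klt (key B p) (key B q)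

/-- a sorted list of constraints in segment `b` -/
structure SegP (B : Base) (b : ℕ) (l : List Pos) : Prop where
  bd : ∀ x ∈ l, (key B x).1 = b
  pw : l.Pairwise (RP B)

theorem SegP.fm {b m : ℕ} {f : ℕ → List Pos} (h : ℕ → ℕ)
    (hh : ∀ i j, i < j → j < m → h i < h j)
    (h1 : ∀ i < m, ∀ x ∈ f i, (key B x).1 = b ∧ (key B x).2.1 = h i)
    (h2 : ∀ i < m, (f i).Pairwise (RP B)) : SegP B b ((List.range m).flatMap f) where
  bd x hx := by
    obtain ⟨i, hi, hx⟩ := List.mem_flatMap.1 hx
    exact (h1 i (List.mem_range.1 hi) x hx).1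
  pw := by
    refine range_flatMap _ _ _ h2 fun i j hij hj x hx z hz => ?_
    have h3 := h1 i (hij.trans hj) x hx
    have h4 := h1 j hj z hz
    unfold RP klt
    rw [h3.1, h4.1, h3.2, h4.2]
    exact Or.inr ⟨rfl, Or.inl (hh i j hij hj)⟩

theorem SegP.map {b m : ℕ} {f : ℕ → Pos} (h1 : ∀ i, (key B (f i)).1 = b)
    (h2 : ∀ i, (key B (f i)).2.1 = i) : SegP B b ((List.range m).map f) where
  bd x hx := by
    obtain ⟨i, _, rfl⟩ := List.mem_map.1 hx
    exact h1 i
  pw := range_map _ _ _ fun i j hij _ => by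
    unfold RP klt
    rw [h1, h1, h2, h2]
    exact Or.inr ⟨rfl, Or.inl hij⟩

theorem SegP.r (B : Base) (s : Bool) : SegP B (1 + s.toNat) (segR B s) := by
  refine SegP.fm (fun i => i) (fun i j hij _ => hij) (fun w _ x hx => ?_) (fun w _ => ?_)
  · rcases List.mem_append.1 hx with hx | hx
    · by_cases hw : w < B.n
      · rw [if_pos hw] at hx
        exact absurd hx List.not_mem_nil
      · rw [if_neg hw] at hx
        simp only [List.mem_cons, List.not_mem_nil, or_false] at hx
        rcases hx with rfl | rfl <;> exact ⟨rfl, rfl⟩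
    · obtain ⟨c, _, hx⟩ := List.mem_flatMap.1 hx
      simp only [List.mem_cons, List.not_mem_nil, or_false] at hx
      rcases hx with rfl | rfl <;> exact ⟨rfl, rfl⟩
  · rw [List.pairwise_append]
    refine ⟨?_, range_flatMap _ _ _ (fun c _ => ?_) (fun c c' hc _ x hx z hz => ?_),
      fun x hx z hz => ?_⟩
    · by_cases hw : w < B.n
      · rw [if_pos hw]
        exact List.Pairwise.nil
      · rw [if_neg hw]
        simp [RP, klt, key]
    · simp [RP, klt, key]
    · simp only [List.mem_cons, List.not_mem_nil, or_false] at hx hz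
      rcases hx with rfl | rfl <;> rcases hz with rfl | rfl <;> simp [RP, klt, key, hc]
    · by_cases hw : w < B.n
      · rw [if_pos hw] at hx
        exact absurd hx List.not_mem_nil
      · rw [if_neg hw] at hx
        obtain ⟨c, _, hz⟩ := List.mem_flatMap.1 hz
        simp only [List.mem_cons, List.not_mem_nil, or_false] at hx hz
        rcases hx with rfl | rfl <;> rcases hz with rfl | rfl <;> simp [RP, klt, key]

theorem SegP.rails (B : Base) : SegP B 26 (B.rails.map Pos.Lp) where
  bd x hx := by
    obtain ⟨g, _, rfl⟩ := List.mem_map.1 hx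
    rfl
  pw := by
    rw [List.pairwise_map]
    exact sorted_rails B

end OrdAux

open OrdAux

theorem mem_posL {p : Pos} : p ∈ posL B ↔ PVld B p := by
  cases p <;> simp [posL, segs, segR, segD, Base.rails, PVld]
  case HL s i => cases s <;> simp
  case Hg s g w => cases s <;> cases g <;> simp [and_comm]
  case Hc s g w c =>
    have e : w < B.N → (c < B.K - 1 ↔ c + 1 < B.K) := fun _ => by omega
    cases s <;> cases g <;> simpa using e
  case Hck t g i => cases t <;> cases g <;> simp
  case HF t i => cases t <;> simp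
  case HE t i => cases t <;> simp
  case HD t i => cases t <;> simp
  case Hp t i => cases t <;> simp
  case Hu t i => cases t <;> simp
  case HY s g i => cases s <;> cases g <;> simp
  case Hal t i => cases t <;> simp
  case Hbe t i => cases t <;> simp
  case Prho j => exact digit _ _
  case hold j => exact digit _ _
  case M j => exact digit _ _
  case T1 t j => cases t <;> simp [digit]
  case T2 t j => cases t <;> simp [digit]
  case PL t j => cases t <;> simp [digit]
  case Pe t k => cases t <;> simp
  case Pl t k => cases t <;> simp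
  case Lp g =>
    cases g <;> simp [Rail, Base.Vld]
    case r s g w c => cases s <;> cases g <;> simp
    case ck t g i => cases t <;> cases g <;> simp
    case F t i => cases t <;> simp
    case E t i => cases t <;> simp
    case D t i => cases t <;> simp
    case p t i => cases t <;> simp
    case u t i => cases t <;> simp
    case Y s g i => cases s <;> cases g <;> simp
    case al t i => cases t <;> simp
    case be t i => cases t <;> simp
  case Ld t i => cases t <;> simp

theorem sorted_posL : (posL B).Pairwise fun p q => klt (key B p) (key B q) := by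
  refine (flatten_sorted (fun p => (key B p).1) (RP B) (fun _ _ h => Or.inl h)
    (bs := [(0, 1), (1, 2), (2, 3), (3, 4), (4, 5), (5, 6), (6, 7), (7, 8), (8, 9), (9, 10),
      (10, 11), (11, 12), (12, 13), (13, 14), (14, 15), (15, 16), (16, 17), (17, 18), (18, 19),
      (19, 20), (20, 21), (21, 22), (22, 23), (23, 24), (24, 25), (25, 26), (26, 27), (27, 28)])
    ?_ (by decide)).1
  have hk : ∀ {b : ℕ} {l : List Pos}, SegP B b l →
      (∀ x ∈ l, (b, b + 1).1 ≤ (key B x).1 ∧ (key B x).1 < (b, b + 1).2) ∧ l.Pairwise (RP B) :=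
    fun h => ⟨fun x hx => by
      rw [h.bd x hx]
      exact ⟨le_rfl, Nat.lt_succ_self _⟩, h.pw⟩
  refine List.Forall₂.cons (hk ?_) (List.Forall₂.cons (hk ?_) (List.Forall₂.cons (hk ?_)
    (List.Forall₂.cons (hk ?_) (List.Forall₂.cons (hk ?_) (List.Forall₂.cons (hk ?_)
    (List.Forall₂.cons (hk ?_) (List.Forall₂.cons (hk ?_) (List.Forall₂.cons (hk ?_)
    (List.Forall₂.cons (hk ?_) (List.Forall₂.cons (hk ?_) (List.Forall₂.cons (hk ?_)
    (List.Forall₂.cons (hk ?_) (List.Forall₂.cons (hk ?_) (List.Forall₂.cons (hk ?_)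
    (List.Forall₂.cons (hk ?_) (List.Forall₂.cons (hk ?_) (List.Forall₂.cons (hk ?_)
    (List.Forall₂.cons (hk ?_) (List.Forall₂.cons (hk ?_) (List.Forall₂.cons (hk ?_)
    (List.Forall₂.cons (hk ?_) (List.Forall₂.cons (hk ?_) (List.Forall₂.cons (hk ?_)
    (List.Forall₂.cons (hk ?_) (List.Forall₂.cons (hk ?_) (List.Forall₂.cons (hk ?_)
    (List.Forall₂.cons (hk ?_) List.Forall₂.nil)))))))))))))))))))))))))))
  · exact .fm (fun i => i) (fun _ _ h _ => h) (fun i _ => by simp [key]) (fun i _ => by simp [RP, klt, key])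
  · exact .r B false
  · exact .r B true
  · exact .fm (fun i => i) (fun _ _ h _ => h) (fun i _ => by simp [key]) (fun i _ => by simp [RP, klt, key])
  · exact .fm (fun i => i) (fun _ _ h _ => h) (fun i _ => by simp [key]) (fun i _ => by simp [RP, klt, key])
  · exact .fm (fun i => i) (fun _ _ h _ => h) (fun i _ => by simp [key]) (fun i _ => by simp [RP, klt, key])
  · exact ⟨by simp [key], by simp [RP, klt, key]⟩
  · exact .fm (fun i => i) (fun _ _ h _ => h) (fun i _ => by simp [key]) (fun i _ => by simp [RP, klt, key])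
  · exact .fm (fun i => i) (fun _ _ h _ => h) (fun i _ => by simp [key]) (fun i _ => by simp [RP, klt, key])
  · exact .fm (fun i => i) (fun _ _ h _ => h) (fun i _ => by simp [key]) (fun i _ => by simp [RP, klt, key])
  · exact ⟨by simp [key], by simp [RP, klt, key]⟩
  · exact .fm (fun i => i) (fun _ _ h _ => h) (fun i _ => by simp [key]) (fun i _ => by simp [RP, klt, key])
  · exact .fm (fun i => i) (fun _ _ h _ => h) (fun i _ => by simp [key]) (fun i _ => by simp [RP, klt, key])
  · exact .fm (fun i => i) (fun _ _ h _ => h) (fun i _ => by simp [key]) (fun i _ => by simp [RP, klt, key])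
  · exact .map (fun _ => rfl) (fun _ => rfl)
  · exact ⟨by simp [key], by simp [RP, klt, key]⟩
  · exact .fm (fun i => B.m - (B.m - 1 - i)) (fun i j h hj => by omega)
      (fun i _ => by simp [key, segD]) (fun i _ => by simp [RP, klt, key, segD])
  · exact ⟨by simp [key], by simp [RP, klt, key]⟩
  · exact ⟨by simp [key], by simp [RP, klt, key]⟩
  · exact .map (fun _ => rfl) (fun _ => rfl)
  · exact ⟨by simp [key], by simp [RP, klt, key]⟩
  · exact ⟨by simp [key], by simp [RP, klt, key]⟩
  · exact ⟨by simp [key], by simp [RP, klt, key]⟩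
  · exact .fm (fun i => i) (fun _ _ h _ => h) (fun i _ => by simp [key]) (fun i _ => by simp [RP, klt, key])
  · exact ⟨by simp [key], by simp [RP, klt, key]⟩
  · exact .fm (fun i => i) (fun _ _ h _ => h) (fun i _ => by simp [key]) (fun i _ => by simp [RP, klt, key])
  · exact .rails B
  · exact .fm (fun i => i) (fun _ _ h _ => h) (fun i _ => by simp [key]) (fun i _ => by simp [RP, klt, key])

theorem nodup_posL : (posL B).Nodup := by
  refine (sorted_posL (B := B)).imp ?_
  intro a b h e
  subst e
  unfold klt at h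
  omega

end Pool.Agent.MPa0a715.BI
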