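import Pool.Agent.Lib.MP_a0a715_lc_BI.Num
import Pool.Agent.Lib.MP_a0a715_lc_BI.Occ
import Pool.Agent.Lib.MP_a0a715_lc_BI.Ord

/-!
# The driving lemma
-/

namespace Pool.Agent.MPa0a715.BI

open Pool.Agent.MPa0a715

variable {B : Base} {X : Var → Bool}

theorem fl_self (X : Var → Bool) (v : Var) : fl X v v = !X v := Function.update_self ..

theorem fl_ne (X : Var → Bool) {v w : Var} (h : w ≠ v) : fl X v w = X w :=
  Function.update_of_ne h ..

theorem pv_fl {v : Var} {P : Part} (h : ∀ l ∈ P, l.1 ≠ v) : pv (fl X v) P = pv X P := by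
  unfold pv
  rw [Bool.eq_iff_iff, List.all_eq_true, List.all_eq_true]
  exact forall₂_congr fun l hl => by rw [fl_ne X (h l hl)]

/-- if `p` is violated and no part of a more important constraint containing `v` becomes true
when `v` is flipped, then `p` remains violated -/
theorem drive (hB : B.Ok) (hX : Mn B X) {v : Var} {p : Pos} (hp : PVld B p)
    (h1 : cv X (con B p) = true)
    (h2 : ∀ d ∈ occ B v, PVld B d → Occ v (con B d) → klt (key B d) (key B p) →
      NI X (fl X v) (con B d)) :
    cv (fl X v) (con B p) = true := by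
  obtain ⟨P, Q, hPQ⟩ := List.append_of_mem (mem_posL.2 hp)
  refine hX v P Q p hPQ h1 fun d hd => ?_
  have hs := sorted_posL (B := B)
  rw [hPQ, List.pairwise_append] at hs
  have hlt : klt (key B d) (key B p) := hs.2.2 d hd p List.mem_cons_self
  have hdv : PVld B d := mem_posL.1 (by rw [hPQ]; exact List.mem_append_left _ hd)
  by_cases hO : Occ v (con B d)
  · exact h2 d (occ_mem hB hdv hO) hdv hO hlt
  · intro C hC h
    rwa [pv_fl (fun l hl e => hO ⟨C, hC, l, hl, e⟩)] at h

end Pool.Agent.MPa0a715.BI
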