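import Pool.Agent.Lib.MP_a0a715_lc_BI.Rail

/-!
# Rails which are pushed down have the right values
-/

namespace Pool.Agent.MPa0a715.BI

open Pool.Agent.MPa0a715

variable {B : Base} {X : Var → Bool}

namespace ExaAux

theorem length_sl (s : Bool) : (sl B X s).length = B.n := by simp [sl]

theorem env_input {s : Bool} {i : ℕ} (hi : i < B.n) : B.env (sl B X s) i = X (.V s i) := by
  unfold Base.env
  rw [Circuit.env_input _ (by rw [length_sl]; exact hi), sl,
    List.getD_eq_getElem _ _ (by simpa using hi), List.getElem_map, List.getElem_range]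

theorem env_gate (hB : B.Ok) {s : Bool} {k : ℕ} (hk : k < B.G.length) :
    B.env (sl B X s) (B.n + k) = (B.G[k]).evalW (B.env (sl B X s)) :=
  Circuit.env_gate (C := ⟨B.n, B.G, []⟩) ⟨hB.gates, fun _ ho => absurd ho List.not_mem_nil⟩
    (length_sl s) hk

end ExaAux

open ExaAux

theorem slot_exact (hB : B.Ok) (hX : Mn B X) {s : Bool} (he : X (.e s) = true) {w c : ℕ}
    (hw : w < B.N) (hc : c < B.K) (g : Bool) :
    X (.r s g w c) = (B.env (sl B X s) w == g) := by
  have hd : ∀ g w c, w < B.N → c < B.K → X (.r s g w c) = frc B X (.r s g w c) :=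
    fun g w c hw hc => rail_down hB hX trivial ⟨hw, hc⟩ he
  induction w using Nat.strong_induction_on generalizing c g with
  | _ w ih =>
    have h0 : ∀ g, X (.r s g w 0) = (B.env (sl B X s) w == g) := by
      intro g
      rw [hd g w 0 hw (by omega)]
      by_cases hwn : w < B.n
      · simp only [frc, if_pos hwn]
        rw [env_input hwn]
      · simp only [frc, if_neg hwn]
        obtain ⟨k, rfl⟩ : ∃ k, w = B.n + k := ⟨w - B.n, by omega⟩
        have hk : k < B.G.length := by unfold Base.N at hw; omega
        rw [Nat.add_sub_cancel_left, List.getElem?_eq_getElem hk, env_gate hB hk]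
        have hr := hB.gates k hk
        have hc2 : 2 * (B.n + k) + 2 < B.K := by unfold Base.K; omega
        generalize B.G[k] = G at hr
        cases G with
        | and i j =>
          have hi := hr i (by simp [Gate.refs])
          have hj := hr j (by simp [Gate.refs])
          simp only [Gate.evalW]
          rw [ih i hi (by omega) (c := 2 * (B.n + k) + 1) (by omega) g,
            ih j hj (by omega) (c := 2 * (B.n + k) + 2) (by omega) g]
          cases g <;> cases B.env (sl B X s) i <;> cases B.env (sl B X s) j <;> rfl
        | or i j =>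
          have hi := hr i (by simp [Gate.refs])
          have hj := hr j (by simp [Gate.refs])
          simp only [Gate.evalW]
          rw [ih i hi (by omega) (c := 2 * (B.n + k) + 1) (by omega) g,
            ih j hj (by omega) (c := 2 * (B.n + k) + 2) (by omega) g]
          cases g <;> cases B.env (sl B X s) i <;> cases B.env (sl B X s) j <;> rfl
        | not i =>
          have hi := hr i (by simp [Gate.refs])
          simp only [Gate.evalW]
          rw [ih i hi (by omega) (c := 2 * (B.n + k) + 1) (by omega) (!g)]
          cases g <;> cases B.env (sl B X s) i <;> rfl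
    induction c with
    | zero => exact h0 g
    | succ c ihc =>
      rw [hd g w (c + 1) hw hc]
      simp only [frc]
      exact ihc (by omega)

theorem ck_exact (hB : B.Ok) (hX : Mn B X) {s : Bool} (he : X (.e s) = true) (hy : X .y = s)
    {i : ℕ} (hi : i < B.n) (g : Bool) : X (.ck (!s) g i) =
      ((X (.V (!s) i) == g) && (B.env (sl B X s) (B.nx.getD i 0) == !g)) := by
  rw [rail_down hB hX (g := .ck (!s) g i) trivial hi (by
    simp only [dnv, hy]
    cases s <;> rfl)]
  simp only [frc]
  rw [Bool.not_not, slot_exact hB hX he (hB.nx i hi) (by unfold Base.K; omega)]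

theorem D_exact (hB : B.Ok) (hX : Mn B X) {s : Bool} (he : X (.e s) = true) (hy : X .y = s)
    {k : ℕ} (hk : k ≤ B.m) : X (.D (!s) k) = true ↔
      ∃ i < B.n, X (.V (!s) i) ≠ B.env (sl B X s) (B.nx.getD i 0) := by
  have hdn : (X .y != !s) = true := by
    rw [hy]
    cases s <;> rfl
  have hF : ∀ i < B.n, X (.F (!s) i) = true ↔
      X (.V (!s) i) ≠ B.env (sl B X s) (B.nx.getD i 0) := by
    intro i hi
    rw [rail_down hB hX (g := .F (!s) i) trivial hi hdn]
    simp only [frc]
    rw [ck_exact hB hX he hy hi, ck_exact hB hX he hy hi]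
    cases X (.V (!s) i) <;> cases B.env (sl B X s) (B.nx.getD i 0) <;> simp
  have hE : ∀ j ≤ B.n, X (.E (!s) j) = true ↔
      ∃ i < j, X (.V (!s) i) ≠ B.env (sl B X s) (B.nx.getD i 0) := by
    intro j
    induction j with
    | zero =>
      intro hj
      rw [rail_down hB hX (g := .E (!s) 0) trivial hj hdn]
      simp [frc]
    | succ j ih =>
      intro hj
      rw [rail_down hB hX (g := .E (!s) (j + 1)) trivial hj hdn]
      simp only [frc, Bool.or_eq_true]
      rw [ih (by omega), hF j (by omega)]
      constructor
      · rintro (⟨i, hi, h⟩ | h)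
        · exact ⟨i, by omega, h⟩
        · exact ⟨j, by omega, h⟩
      · rintro ⟨i, hi, h⟩
        rcases Nat.lt_succ_iff_lt_or_eq.1 hi with h1 | h1
        · exact Or.inl ⟨i, h1, h⟩
        · rw [h1] at h
          exact Or.inr h
  have hD : ∀ k ≤ B.m, X (.D (!s) k) = X (.E (!s) B.n) := by
    intro k
    induction k with
    | zero =>
      intro hk
      rw [rail_down hB hX (g := .D (!s) 0) trivial hk hdn]
      rfl
    | succ k ih =>
      intro hk
      rw [rail_down hB hX (g := .D (!s) (k + 1)) trivial hk hdn]
      simp only [frc]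
      exact ih (by omega)
  rw [hD k hk, hE B.n le_rfl]

theorem Y_exact (hB : B.Ok) (hX : Mn B X) {s : Bool}
    (hd : (X (.L s 0) && !X (.L (!s) 0)) = false) {j : ℕ} :
    (j ≤ B.m → X (.Y s true j) = (X .y == s)) ∧ (j < B.m → X (.Y s false j) = (X .y == s)) := by
  have hd' : (!(X (.L s 0) && !X (.L (!s) 0))) = true := by rw [hd]; rfl
  have hf : ∀ j, j < B.m → X (.Y s true j) = (X .y == s) →
      X (.Y s false j) = (X .y == s) := by
    intro j hj h
    rw [rail_down hB hX (g := .Y s false j) trivial hj hd']
    simp only [frc]
    exact h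
  have ht : ∀ j, j ≤ B.m → X (.Y s true j) = (X .y == s) := by
    intro j
    induction j with
    | zero =>
      intro hj
      rw [rail_down hB hX (g := .Y s true 0) trivial hj hd']
      rfl
    | succ j ih =>
      intro hj
      rw [rail_down hB hX (g := .Y s true (j + 1)) trivial hj hd']
      simp only [frc]
      exact hf j (by omega) (ih (by omega))
  exact ⟨ht j, fun hj => hf j hj (ht j (by omega))⟩

end Pool.Agent.MPa0a715.BI
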