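import Pool.Agent.Lib.MP_a0a715_lc_BI.Slu

/-!
# Local minima of the system: the solution in the active slot is a local minimum
-/

namespace Pool.Agent.MPa0a715.BI

open Pool.Agent.MPa0a715

variable {B : Base} {X : Var → Bool}

namespace LogAux

theorem e_active (hB : B.Ok) (hX : Mn B X) {s : Bool} (hy : X .y = s) : X (.e s) = true := by
  rw [e_eq hB hX, hy]
  simp

theorem L_zero (hB : B.Ok) (hX : Mn B X) {t : Bool} (h : X (.L t 0) = false) :
    ∀ j ≤ B.m, X (.L t j) = false := by
  intro j
  induction j with
  | zero => exact fun _ => h
  | succ j ih =>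
    intro hj
    have h1 := ih (by omega)
    rw [L_eq hB hX (by omega)] at h1
    simp only [Bool.or_eq_false_iff] at h1
    exact h1.1

theorem tau_zero (hB : B.Ok) (hX : Mn B X) {t : Bool} (h : X (.L t 0) = false) {j : ℕ}
    (hj : j < B.m) : X (.tau t j) = false := by
  have h1 := L_zero hB hX h j (by omega)
  rw [L_eq hB hX hj] at h1
  simp only [Bool.or_eq_false_iff] at h1
  exact h1.2

theorem exists_tau (hB : B.Ok) (hX : Mn B X) {t : Bool} (h : X (.L t 0) = true) :
    ∃ j < B.m, X (.tau t j) = true := by
  by_contra hcon
  push Not at hcon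
  have key : ∀ d ≤ B.m, X (.L t (B.m - d)) = false := by
    intro d
    induction d with
    | zero => exact fun _ => L_top hB hX
    | succ d ih =>
      intro hd
      rw [L_eq hB hX (by omega), show B.m - (d + 1) + 1 = B.m - d by omega, ih (by omega)]
      have := hcon (B.m - (d + 1)) (by omega)
      simpa using this
  have := key B.m le_rfl
  rw [Nat.sub_self, h] at this
  exact absurd this (by simp)

theorem L_of_tau (hB : B.Ok) (hX : Mn B X) {t : Bool} {j : ℕ} (hj : j < B.m)
    (h : X (.tau t j) = true) : ∀ k ≤ j, X (.L t k) = true := by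
  have key : ∀ d ≤ j, X (.L t (j - d)) = true := by
    intro d
    induction d with
    | zero =>
      intro _
      rw [Nat.sub_zero, L_eq hB hX hj, h]
      simp
    | succ d ih =>
      intro hd
      rw [L_eq hB hX (by omega), show j - (d + 1) + 1 = j - d by omega, ih (by omega)]
      simp
  intro k hk
  have := key (j - k) (by omega)
  rwa [show j - (j - k) = k by omega] at this

/-- the active slot is not the target -/
theorem no_own (hB : B.Ok) (hX : Mn B X) {s : Bool} (hy : X .y = s) : X (.L s 0) = false := by
  by_contra hcon
  rw [Bool.not_eq_false] at hcon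
  obtain ⟨j, hj, h1⟩ := exists_tau hB hX hcon
  rw [tau_eq hB hX hj, Bool.and_eq_true] at h1
  have h2 : X (.be (!s) j) = frc B X (.be (!s) j) := by
    refine rail_down hB hX trivial hj ?_
    simp only [dnv, Bool.not_not, hcon, Bool.not_true, Bool.and_false, Bool.not_false]
  have h3 : X (.Y (!s) false j) = false := by
    have h4 := (Y_exact hB hX (s := !s) (by simp [hcon]) (j := j)).2 hj
    rw [h4, hy]
    cases s <;> rfl
  rw [h1.1] at h2
  simp only [frc, h3, Bool.false_and] at h2
  exact absurd h2 (by simp)

/-- the digits and the position of the improved digit are read off correctly -/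
theorem co_exact (hB : B.Ok) (hX : Mn B X) {s : Bool} (he : X (.e s) = true) {j : ℕ}
    (hj : j < B.m) : X (.r s true (B.co.getD j 0) (2 * B.N + 1 + B.n + B.m + j)) =
      B.env (sl B X s) (B.co.getD j 0) := by
  rw [slot_exact hB hX he (hB.co j hj) (by unfold Base.K; omega) true]
  simp

theorem im_exact (hB : B.Ok) (hX : Mn B X) {s : Bool} (he : X (.e s) = true) {j : ℕ}
    (hj : j < B.m) : X (.r s true (B.im.getD j 0) (2 * B.N + 1 + B.n + 2 * B.m + j)) =
      B.env (sl B X s) (B.im.getD j 0) := by
  rw [slot_exact hB hX he (hB.im j hj) (by unfold Base.K; omega) true]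
  simp

theorem im_exact' (hB : B.Ok) (hX : Mn B X) {s : Bool} (he : X (.e s) = true) {j : ℕ}
    (hj : j < B.m) : X (.r s false (B.im.getD j 0) (2 * B.N + 1 + B.n + j)) =
      !B.env (sl B X s) (B.im.getD j 0) := by
  rw [slot_exact hB hX he (hB.im j hj) (by unfold Base.K; omega) false]
  simp

theorem length_sl (s : Bool) : (sl B X s).length = B.n := by simp [sl]

/-- the slot which is not active is not the target either -/
theorem no_other (hB : B.Ok) (hS : B.Sem) (hX : Mn B X) {s : Bool} (hy : X .y = s) :
    X (.L (!s) 0) = false := by
  by_contra hcon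
  rw [Bool.not_eq_false] at hcon
  have hL : X (.L s 0) = false := no_own hB hX hy
  have he : X (.e s) = true := e_active hB hX hy
  obtain ⟨j, hj, h1⟩ := exists_tau hB hX hcon
  have hτ := h1
  rw [tau_eq hB hX hj, Bool.and_eq_true, Bool.not_not, Bool.not_eq_true'] at h1
  obtain ⟨hbe, hm⟩ := h1
  have hq : X (.q j) = false ∧ X (.rho j) = false := by
    have := hm
    rw [m_eq hB hX hj] at this
    simpa using this
  -- rails for slot `s`
  have hd : (X (.L s 0) && !X (.L (!s) 0)) = false := by rw [hL]; rfl
  have hYt : ∀ k < B.m, X (.Y s true k) = true := by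
    intro k hk
    rw [(Y_exact hB hX hd (j := k)).1 (by omega), hy]
    simp
  have hbe' : X (.be s j) = frc B X (.be s j) := by
    refine rail_down hB hX trivial hj ?_
    simp only [dnv, hL, Bool.false_and, Bool.not_false]
  have him : B.env (sl B X s) (B.im.getD j 0) = true := by
    rw [hbe] at hbe'
    simp only [frc] at hbe'
    have := hbe'.symm
    rw [Bool.and_eq_true] at this
    rw [← im_exact hB hX he hj]
    exact this.2
  obtain ⟨s1, s2, s3, s4⟩ := hS _ (length_sl s) j hj him
  -- if a register digit is zero then so is the rail `u`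
  have hu : ∀ k < B.m, X (.m k) = false → X (.u s k) = false := by
    intro k hk hmk
    have h2 : X (.q k) = false := by
      rw [m_eq hB hX hk] at hmk
      simp only [Bool.or_eq_false_iff] at hmk
      exact hmk.1
    by_contra h3
    rw [Bool.not_eq_false] at h3
    have h4 : X (.al s k) = true := by
      refine rail_up hB hX trivial hk ?_
      simp only [frc, hYt k hk, h3, Bool.and_self]
    have h5 : X (.q k) = true := by
      refine rail_up hB hX trivial hk ?_
      simp only [frc]
      cases s <;> simp [h4]
    rw [h2] at h5
    exact absurd h5 (by simp)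
  have hp : X (.p s j) = false := by
    by_contra h3
    rw [Bool.not_eq_false] at h3
    have h4 : X (.u s j) = true := by
      refine rail_up hB hX trivial hj ?_
      simp only [frc, co_exact hB hX he hj, s1, h3, Bool.and_self]
    rw [hu j hj hm] at h4
    exact absurd h4 (by simp)
  have hD : X (.D (!s) (j + 1)) = false := by
    by_contra h3
    rw [Bool.not_eq_false] at h3
    have h4 : X (.p s j) = true := by
      refine rail_up hB hX trivial hj ?_
      simp only [frc, h3, Bool.or_true]
    rw [hp] at h4
    exact absurd h4 (by simp)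
  have heq : ∀ i < B.n, X (.V (!s) i) = B.env (sl B X s) (B.nx.getD i 0) := by
    intro i hi
    by_contra h3
    have h4 := (D_exact hB hX he hy (k := j + 1) (by omega)).2 ⟨i, hi, h3⟩
    rw [hD] at h4
    exact absurd h4 (by simp)
  have hsl : sl B X (!s) = B.next (sl B X s) := by
    unfold Base.next
    rw [sl]
    refine List.map_congr_left fun i hi => ?_
    exact heq i (List.mem_range.1 hi)
  have hD0 : X (.D (!s) 0) = false := by
    by_contra h3
    rw [Bool.not_eq_false] at h3
    obtain ⟨i, hi, h4⟩ := (D_exact hB hX he hy (k := 0) (by omega)).1 h3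
    exact h4 (heq i hi)
  have het : X (.e (!s)) = true := by
    rw [e_eq hB hX, hD0]
    rfl
  -- digits of the other slot
  have hco : ∀ k < B.m, X (.m k) = false → B.env (sl B X (!s)) (B.co.getD k 0) = false := by
    intro k hk hmk
    rw [hsl]
    rcases Nat.lt_trichotomy k j with h3 | h3 | h3
    · exfalso
      have h4 : X (.rho k) = true := by
        rw [rho_eq hB hX hk]
        have := L_of_tau hB hX hj hτ (k + 1) (by omega)
        cases s
        · simp only [Bool.not_false] at this
          rw [this, Bool.or_true]
        · simp only [Bool.not_true] at this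
          rw [this, Bool.true_or]
      rw [m_eq hB hX hk, h4, Bool.or_true] at hmk
      exact absurd hmk (by simp)
    · rw [h3]
      exact s2
    · rw [s3 k hk h3]
      have h4 := hu k hk hmk
      by_contra h5
      rw [Bool.not_eq_false] at h5
      have h6 : X (.p s k) = true := by
        refine rail_up hB hX trivial hk ?_
        simp only [frc, im_exact' hB hX he hk, s4 k hk (by omega), Bool.not_false, Bool.true_or]
      have h7 : X (.u s k) = true := by
        refine rail_up hB hX trivial hk ?_
        simp only [frc, co_exact hB hX he hk, h5, h6, Bool.and_self]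
      rw [h4] at h7
      exact absurd h7 (by simp)
  have hut : ∀ k < B.m, X (.m k) = false → X (.u (!s) k) = false := by
    intro k hk hmk
    have h3 : X (.u (!s) k) = frc B X (.u (!s) k) := by
      refine rail_down hB hX trivial hk ?_
      exact het
    rw [h3]
    simp only [frc, co_exact hB hX het hk, hco k hk hmk, Bool.false_and]
  have himt : ∀ k < B.m, X (.m k) = false → B.env (sl B X (!s)) (B.im.getD k 0) = false := by
    intro k hk hmk
    by_contra h3
    rw [Bool.not_eq_false] at h3
    have h4 := (hS _ (length_sl (!s)) k hk h3).1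
    rw [hco k hk hmk] at h4
    exact absurd h4 (by simp)
  have hL' : X (.L (!(!s)) 0) = false := by rw [Bool.not_not]; exact hL
  have hqup : ∀ k < B.m, X (.m k) = true → X (.q k) = true := by
    intro k hk hmk
    refine up_q hB hX ?_ hk hmk
    cases s
    · exact Or.inr hcon
    · exact Or.inl hcon
  have hYup : ∀ d ≤ B.m, X (.Y (!s) true (B.m - d)) = true := by
    intro d
    induction d with
    | zero =>
      intro _
      refine up_Yt hB hX hcon hL' (by omega) (fun h => ?_) (fun h => ?_)
      · omega
      · omega
    | succ d ih =>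
      intro hd
      have hk : B.m - (d + 1) < B.m := by omega
      have ih' := ih (by omega)
      rw [show B.m - d = B.m - (d + 1) + 1 by omega] at ih'
      generalize B.m - (d + 1) = k at ih' hk
      have h3 : X (.Y (!s) false k) = true := by
        refine up_Yf hB hX hcon hL' hk ih' ?_
        cases hmk : X (.m k) with
        | false =>
          left
          rw [im_exact hB hX het hk]
          exact himt k hk hmk
        | true => exact Or.inr (up_be hB hX hcon hL' hk hmk)
      refine up_Yt hB hX hcon hL' hk.le (fun _ => h3) fun _ => ?_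
      cases hmk : X (.m k) with
      | false => exact Or.inl (hut k hk hmk)
      | true => exact Or.inr (up_al hB hX hcon hL' hk (hqup k hk hmk))
  have h3 := hYup B.m le_rfl
  rw [Nat.sub_self] at h3
  have h4 := y_flip hB hX (by rw [hy]; exact hcon) (by rw [hy]; exact hL)
  rw [hy, h3] at h4
  exact absurd h4 (by simp)

end LogAux

open LogAux in
/-- in a local minimum of the system no digit of the active solution is improved -/
theorem static (hB : B.Ok) (hS : B.Sem) (hX : Mn B X) :
    ∀ j < B.m, B.env (sl B X (X .y)) (B.im.getD j 0) = false := by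
  obtain ⟨s, hy⟩ : ∃ s, X .y = s := ⟨_, rfl⟩
  rw [hy]
  intro j hj
  by_contra him
  rw [Bool.not_eq_false] at him
  have hL : X (.L s 0) = false := no_own hB hX hy
  have hLt : X (.L (!s) 0) = false := no_other hB hS hX hy
  have he : X (.e s) = true := e_active hB hX hy
  have hL0 : X (.L false 0) = false := by cases s; exacts [hL, hLt]
  have hL1 : X (.L true 0) = false := by cases s; exacts [hLt, hL]
  have hds : (X (.L s 0) && !X (.L (!s) 0)) = false := by rw [hL]; rfl
  have hdt : (X (.L (!s) 0) && !X (.L (!(!s)) 0)) = false := by rw [hLt]; rfl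
  have hbe : X (.be s j) = true := by
    refine rail_up hB hX trivial hj ?_
    simp only [frc, im_exact hB hX he hj, him, Bool.and_true]
    rw [(Y_exact hB hX hds (j := j)).2 hj, hy]
    simp
  have hm : X (.m j) = true := by
    have h1 := tau_zero hB hX hLt hj
    rw [tau_eq hB hX hj, Bool.not_not, hbe, Bool.true_and] at h1
    simpa using h1
  have hrho : X (.rho j) = false := by
    rw [rho_eq hB hX hj, L_zero hB hX hL0 (j + 1) (by omega),
      L_zero hB hX hL1 (j + 1) (by omega)]
    rfl
  have hq : X (.q j) = true := by
    rw [m_eq hB hX hj, hrho, Bool.or_false] at hm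
    exact hm
  have hq' : X (.q j) = frc B X (.q j) := by
    refine rail_down hB hX trivial hj ?_
    simp only [dnv, hL0, hL1, Bool.or_self, Bool.not_false]
  have halt : X (.al (!s) j) = false := by
    have h1 : X (.al (!s) j) = frc B X (.al (!s) j) := by
      refine rail_down hB hX trivial hj ?_
      simp only [dnv, hLt, Bool.false_and, Bool.not_false]
    rw [h1]
    simp only [frc]
    rw [(Y_exact hB hX hdt (j := j)).1 (by omega), hy]
    cases s <;> simp
  have hal : X (.al s j) = true := by
    rw [hq] at hq'
    simp only [frc] at hq'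
    cases s
    · simp only [Bool.not_false] at halt
      rw [halt, Bool.or_false] at hq'
      exact hq'.symm
    · simp only [Bool.not_true] at halt
      rw [halt, Bool.false_or] at hq'
      exact hq'.symm
  have hu : X (.u s j) = true := by
    have h1 : X (.al s j) = frc B X (.al s j) := by
      refine rail_down hB hX trivial hj ?_
      simp only [dnv, hL, Bool.false_and, Bool.not_false]
    rw [hal] at h1
    simp only [frc] at h1
    have := h1.symm
    rw [Bool.and_eq_true] at this
    exact this.2
  have hp : X (.p s j) = true := by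
    have h1 : X (.u s j) = frc B X (.u s j) := rail_down hB hX trivial hj he
    rw [hu] at h1
    simp only [frc] at h1
    have := h1.symm
    rw [Bool.and_eq_true] at this
    exact this.2
  have hD : X (.D (!s) (j + 1)) = true := by
    have h1 : X (.p s j) = frc B X (.p s j) := rail_down hB hX trivial hj he
    rw [hp] at h1
    simp only [frc, im_exact' hB hX he hj, him, Bool.not_true, Bool.false_or] at h1
    exact h1.symm
  obtain ⟨i, hi, hne⟩ := (D_exact hB hX he hy (k := j + 1) (by omega)).1 hD
  have hD0 : X (.D (!s) 0) = true :=
    (D_exact hB hX he hy (k := 0) (by omega)).2 ⟨i, hi, hne⟩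
  have het : X (.e (!s)) = false := by
    rw [e_eq hB hX, hD0, hy]
    cases s <;> rfl
  have hup : ∀ g w c, w < B.N → c < B.K → X (.r (!s) g w c) = true := fun g w c hw hc =>
    slot_up hB hX het (by rw [hy, Bool.not_not]) hL0 hL1 hw hc
  obtain ⟨v, hv⟩ : ∃ v, X (.V (!s) i) = v := ⟨_, rfl⟩
  obtain ⟨z, hz⟩ : ∃ z, B.env (sl B X s) (B.nx.getD i 0) = z := ⟨_, rfl⟩
  rw [hv, hz] at hne
  have hz' : z = !v := by
    revert hne
    cases v <;> cases z <;> simp
  have hnN : B.n ≤ B.N := by unfold Base.N; omega
  refine load hB hX hi hv ?_ ?_ (fun b => hup b i 0 (by omega) (by unfold Base.K; omega)) ?_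
  · rw [ck_exact hB hX he hy hi, hv, hz, hz']
    simp
  · rw [ck_exact hB hX he hy hi, hv, hz, hz']
    cases v <;> simp
  · rw [Bool.not_not, slot_exact hB hX he (hB.nx i hi) (by unfold Base.K; omega), hz, hz']
    cases v <;> simp

end Pool.Agent.MPa0a715.BI
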