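import Pool.Agent.Lib.MP_a0a715_lc_BI.Defs

/-!
# Numbers of variables
-/

namespace Pool.Agent.MPa0a715.BI

open Pool.Agent.MPa0a715

variable {B : Base} {X : Var → Bool}

namespace NumAux

/-- the variable with a given code -/
def dec (c : ℕ × ℕ × ℕ) : Var :=
  ([.V false c.2.1, .V true c.2.1, .y, .y,
    .r false false c.2.1 c.2.2, .r false true c.2.1 c.2.2,
    .r true false c.2.1 c.2.2, .r true true c.2.1 c.2.2,
    .ck false false c.2.1, .ck false true c.2.1, .ck true false c.2.1, .ck true true c.2.1,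
    .F false c.2.1, .F true c.2.1, .E false c.2.1, .E true c.2.1,
    .D false c.2.1, .D true c.2.1, .p false c.2.1, .p true c.2.1,
    .u false c.2.1, .u true c.2.1, .y, .y,
    .Y false false c.2.1, .Y false true c.2.1, .Y true false c.2.1, .Y true true c.2.1,
    .al false c.2.1, .al true c.2.1, .be false c.2.1, .be true c.2.1,
    .q c.2.1, .m c.2.1, .tau false c.2.1, .tau true c.2.1,
    .L false c.2.1, .L true c.2.1, .rho c.2.1, .y, .e false, .e true,
    .yc c.2.2, .ec false c.2.2, .ec true c.2.2, .La false c.2.2, .La true c.2.2] :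
      List Var).getD c.1 .y

theorem dec_code (v : Var) : dec (Base.code v) = v := by
  rcases v with ⟨_ | _, _⟩ | ⟨_ | _, _ | _, _, _⟩ | ⟨_ | _, _ | _, _⟩ | ⟨_ | _, _⟩ | ⟨_ | _, _⟩ |
    ⟨_ | _, _⟩ | ⟨_ | _, _⟩ | ⟨_ | _, _⟩ | ⟨_ | _, _ | _, _⟩ | ⟨_ | _, _⟩ | ⟨_ | _, _⟩ | ⟨_⟩ | ⟨_⟩ |
    ⟨_ | _, _⟩ | ⟨_ | _, _⟩ | ⟨_⟩ | _ | ⟨_⟩ | ⟨_ | _⟩ | ⟨_ | _, _⟩ | ⟨_ | _, _⟩ <;> rfl

theorem code_inj {v w : Var} (h : Base.code v = Base.code w) : v = w := by
  rw [← dec_code v, ← dec_code w, h]

/-- the variable is not a copy in a chain -/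
def NC : Var → Prop
  | .yc _ => False
  | .ec _ _ => False
  | .La _ _ => False
  | _ => True

theorem rail_nc {v : Var} (h : Rail v) : NC v := by
  cases v <;> trivial

theorem num_nc {v : Var} (h : NC v) :
    B.num v = ((Base.code v).1 * B.K + (Base.code v).2.1) * B.K + (Base.code v).2.2 := by
  cases v <;> first | rfl | exact h.elim

theorem K_eq (B : Base) : B.K = 2 * B.N + 1 + B.n + 3 * B.m := rfl

theorem n_le_N (B : Base) : B.n ≤ B.N := Nat.le_add_right _ _

theorem toNat_le (b : Bool) : b.toNat ≤ 1 := by cases b <;> simp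

theorem code_bd {v : Var} (h : NC v) (hv : B.Vld v) :
    (Base.code v).1 < 42 ∧ (Base.code v).2.1 < B.K ∧ (Base.code v).2.2 < B.K := by
  have hK := K_eq B
  have hn := n_le_N B
  have hb := toNat_le
  cases v with
  | V s i => simp only [Base.code, Base.Vld] at *; have := hb s; omega
  | r s g w c => simp only [Base.code, Base.Vld] at *; have := hb s; have := hb g; omega
  | ck t g i => simp only [Base.code, Base.Vld] at *; have := hb t; have := hb g; omega
  | F t i => simp only [Base.code, Base.Vld] at *; have := hb t; omega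
  | E t i => simp only [Base.code, Base.Vld] at *; have := hb t; omega
  | D t k => simp only [Base.code, Base.Vld] at *; have := hb t; omega
  | p s j => simp only [Base.code, Base.Vld] at *; have := hb s; omega
  | u s j => simp only [Base.code, Base.Vld] at *; have := hb s; omega
  | Y s g j =>
    have := hb s
    cases g <;> simp only [Base.code, Base.Vld, Bool.toNat_true, Bool.toNat_false] at * <;> omega
  | al s j => simp only [Base.code, Base.Vld] at *; have := hb s; omega
  | be s j => simp only [Base.code, Base.Vld] at *; have := hb s; omega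
  | q j => simp only [Base.code, Base.Vld] at *; omega
  | m j => simp only [Base.code, Base.Vld] at *; omega
  | tau t j => simp only [Base.code, Base.Vld] at *; have := hb t; omega
  | L t j => simp only [Base.code, Base.Vld] at *; have := hb t; omega
  | rho j => simp only [Base.code, Base.Vld] at *; omega
  | y => simp only [Base.code]; omega
  | yc k => exact h.elim
  | e t => simp only [Base.code]; have := hb t; omega
  | ec t k => exact h.elim
  | La t k => exact h.elim

theorem num_lt_Z {v : Var} (h : NC v) (hv : B.Vld v) : B.num v < B.Z := by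
  obtain ⟨h1, h2, h3⟩ := code_bd h hv
  rw [num_nc h, Base.Z]
  have h4 : (Base.code v).1 * B.K + (Base.code v).2.1 + 1 ≤ 42 * B.K := by
    have := Nat.mul_le_mul_right B.K (show (Base.code v).1 + 1 ≤ 42 by omega)
    nlinarith
  have h5 := Nat.mul_le_mul_right B.K h4
  nlinarith

/-- number of the chain and position in the chain -/
def chn : Var → ℕ × ℕ
  | .yc k => (0, k)
  | .ec t k => (1 + t.toNat, k)
  | .La t k => (3 + t.toNat, k)
  | _ => (0, 0)

theorem num_chain {v : Var} (h : ¬ NC v) : B.num v = B.Z + (chn v).1 * (B.Z + 2) + (chn v).2 := by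
  cases v <;> first | exact (h trivial).elim | simp [Base.num, chn]

theorem chn_bd {v : Var} (h : ¬ NC v) (hv : B.Vld v) : (chn v).1 < 5 ∧ (chn v).2 < B.Z + 2 := by
  have hb := toNat_le
  cases v with
  | yc k => simp only [chn, Base.Vld] at *; omega
  | ec t k => simp only [chn, Base.Vld] at *; have := hb t; omega
  | La t k => simp only [chn, Base.Vld] at *; have := hb t; omega
  | _ => exact (h trivial).elim

theorem chn_inj {v w : Var} (hv : ¬ NC v) (hw : ¬ NC w) (h : chn v = chn w) : v = w := by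
  rcases v with _ | _ | _ | _ | _ | _ | _ | _ | _ | _ | _ | _ | _ |
    _ | _ | _ | _ | k | _ | ⟨_ | _, k⟩ | ⟨_ | _, k⟩ <;>
    first
    | exact (hv trivial).elim
    | (rcases w with _ | _ | _ | _ | _ | _ | _ | _ | _ | _ | _ | _ | _ |
        _ | _ | _ | _ | l | _ | ⟨_ | _, l⟩ | ⟨_ | _, l⟩ <;>
        first
        | exact (hw trivial).elim
        | (simp [chn] at h; try (subst h; rfl)))

theorem div_aux {K a b c d : ℕ} (hb : b < K) (hd : d < K) (h : a * K + b = c * K + d) :
    a = c ∧ b = d := by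
  have hK : 0 < K := by omega
  have h1 : (a * K + b) / K = a := by
    rw [Nat.add_comm, Nat.add_mul_div_right _ _ hK, Nat.div_eq_of_lt hb, Nat.zero_add]
  have h2 : (c * K + d) / K = c := by
    rw [Nat.add_comm, Nat.add_mul_div_right _ _ hK, Nat.div_eq_of_lt hd, Nat.zero_add]
  have h3 : a = c := by rw [← h1, h, h2]
  subst h3
  exact ⟨rfl, by omega⟩

end NumAux

open NumAux

theorem num_lt (_hB : B.Ok) {v : Var} (hv : B.Vld v) : B.num v < B.Nv := by
  by_cases h : NC v
  · have := num_lt_Z h hv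
    unfold Base.Nv
    omega
  · obtain ⟨h1, h2⟩ := chn_bd h hv
    rw [num_chain h, Base.Nv]
    have := Nat.mul_le_mul_right (B.Z + 2) (show (chn v).1 + 1 ≤ 5 by omega)
    nlinarith

theorem num_inj (_hB : B.Ok) {v w : Var} (hv : B.Vld v) (hw : B.Vld w)
    (h : B.num v = B.num w) : v = w := by
  by_cases h1 : NC v <;> by_cases h2 : NC w
  · rw [num_nc h1, num_nc h2] at h
    obtain ⟨a1, a2, a3⟩ := code_bd h1 hv
    obtain ⟨b1, b2, b3⟩ := code_bd h2 hw
    obtain ⟨c1, c2⟩ := div_aux a3 b3 h
    obtain ⟨c3, c4⟩ := div_aux a2 b2 c1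
    exact code_inj (Prod.ext c3 (Prod.ext c4 c2))
  · have := num_lt_Z h1 hv
    rw [h, num_chain h2] at this
    omega
  · have := num_lt_Z h2 hw
    rw [← h, num_chain h1] at this
    omega
  · rw [num_chain h1, num_chain h2] at h
    obtain ⟨a1, a2⟩ := chn_bd h1 hv
    obtain ⟨b1, b2⟩ := chn_bd h2 hw
    obtain ⟨c1, c2⟩ := div_aux a2 b2 (by omega : (chn v).1 * (B.Z + 2) + (chn v).2 =
      (chn w).1 * (B.Z + 2) + (chn w).2)
    exact chn_inj h1 h2 (Prod.ext c1 c2)

theorem pos_lt (_hB : B.Ok) {g : Var} (hr : Rail g) (hv : B.Vld g) : B.pos g < B.Z + 2 := by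
  have := num_lt_Z (rail_nc hr) hv
  unfold Base.pos
  omega

theorem inv_eq (hB : B.Ok) {g : Var} (hr : Rail g) (hv : B.Vld g) : inv B (B.pos g) = g := by
  have hex : ∃ g', Rail g' ∧ B.Vld g' ∧ B.pos g' = B.pos g := ⟨g, hr, hv, rfl⟩
  unfold inv
  rw [dif_pos hex]
  obtain ⟨_, h2, h3⟩ := hex.choose_spec
  have h4 : B.num hex.choose + 2 = B.num g + 2 := h3
  exact num_inj hB h2 hv (by omega)

end Pool.Agent.MPa0a715.BI
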