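import Pool.Agent.Lib.MP_a0a715_lc_IN.Defs
import Pool.Agent.Lib.MP_a0a715_lc_TL.PTRed

/-!
# Circuits whose outputs are disjunctions of at most three conjunctions
-/

namespace Pool.Agent.MPa0a715.BI

open Pool.Agent.MPa0a715 Pool.Agent.PolyTime
open Pool.Agent.MPa0a715.TL (NT litNames termCircuit)

namespace OrcAux

/-- part `q % 3` of the list with number `q / 3`; missing parts are replaced by the first one -/
def part (Cs : List (List NT)) (q : ℕ) : NT :=
  (Cs.getD (q / 3) []).getD (q % 3) ((Cs.getD (q / 3) []).getD 0 [])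

/-- the gates -/
def oblocks (N : ℕ) (Cs : List (List NT)) : List Blk :=
  [ (N, fun i => (none, [(0, i)])),
    (3 * Cs.length, fun q => (some true, litNames (part Cs q))),
    (Cs.length, fun j => (some false, [(2, 3 * j), (2, 3 * j + 1), (2, 3 * j + 2)])) ]

end OrcAux

open OrcAux

/-- the circuit with `N` inputs whose outputs are the disjunctions of the conjunctions in the
lists in `Cs` (at most three conjunctions each) -/
def orCircuit (N : ℕ) (Cs : List (List NT)) : Circuit :=
  compile (inNames N) (toG 1 (oblocks N Cs)) (ws 3 (List.range Cs.length))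

/-- the lists are in order -/
def COk (N : ℕ) (Cs : List (List NT)) : Prop :=
  ∀ c ∈ Cs, c ≠ [] ∧ c.length ≤ 3 ∧ ∀ T ∈ c, T ≠ [] ∧ ∀ p ∈ T, p.1 < N

namespace OrcAux

section
variable {N : ℕ} {Cs : List (List NT)}

theorem getD_mem' {c : List NT} (hc : c ≠ []) (i : ℕ) : c.getD i (c.getD 0 []) ∈ c := by
  have h0 : 0 < c.length := List.length_pos_iff.2 hc
  by_cases hi : i < c.length
  · rw [List.getD_eq_getElem _ _ hi]
    exact List.getElem_mem hi
  · rw [List.getD_eq_default _ _ (by omega), List.getD_eq_getElem _ _ h0]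
    exact List.getElem_mem h0

theorem cs_mem {j : ℕ} (hj : j < Cs.length) : Cs.getD j [] ∈ Cs := by
  rw [List.getD_eq_getElem _ _ hj]
  exact List.getElem_mem hj

theorem part_ok (h : COk N Cs) {q : ℕ} (hq : q < 3 * Cs.length) :
    part Cs q ≠ [] ∧ ∀ p ∈ part Cs q, p.1 < N := by
  obtain ⟨h1, _, h3⟩ := h _ (cs_mem (Cs := Cs) (j := q / 3) (by omega))
  exact h3 _ (getD_mem' h1 _)

theorem oblocks_ok (h : COk N Cs) : AllB (BlkOK N (oblocks N Cs)) 1 (oblocks N Cs) := by
  refine ⟨?_, ?_, ?_, trivial⟩
  · intro i hi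
    refine ⟨List.cons_ne_nil _ _, ?_⟩
    intro r hr
    change r ∈ [(0, i)] at hr
    rw [List.mem_singleton] at hr
    subst hr
    exact ⟨hi, Or.inl Nat.zero_lt_one⟩
  · intro q hq
    change q < 3 * Cs.length at hq
    obtain ⟨h1, h2⟩ := part_ok h hq
    change litNames (part Cs q) ≠ [] ∧ ∀ r ∈ litNames (part Cs q), _
    refine ⟨?_, ?_⟩
    · unfold litNames
      intro hcon
      exact h1 (List.map_eq_nil_iff.1 hcon)
    · intro r hr
      unfold litNames at hr
      obtain ⟨p, hp, rfl⟩ := List.mem_map.1 hr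
      have := h2 p hp
      cases hb : p.2
      · exact ⟨this, Or.inl (by simp)⟩
      · exact ⟨this, Or.inl (by simp)⟩
  · intro j hj
    change j < Cs.length at hj
    refine ⟨List.cons_ne_nil _ _, ?_⟩
    intro r hr
    change r ∈ [(2, 3 * j), (2, 3 * j + 1), (2, 3 * j + 2)] at hr
    have hr' : r = (2, 3 * j) ∨ r = (2, 3 * j + 1) ∨ r = (2, 3 * j + 2) := by
      simpa using hr
    rcases hr' with rfl | rfl | rfl
    · exact ⟨show 3 * j < 3 * Cs.length by omega, Or.inl (show 2 < 3 by omega)⟩
    · exact ⟨show 3 * j + 1 < 3 * Cs.length by omega, Or.inl (show 2 < 3 by omega)⟩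
    · exact ⟨show 3 * j + 2 < 3 * Cs.length by omega, Or.inl (show 2 < 3 by omega)⟩

theorem oc_wf (h : COk N Cs) : WF (inNames N) (toG 1 (oblocks N Cs)) := wf_blocks (oblocks_ok h)

theorem oc_outs {o : Name} (ho : o ∈ ws 3 (List.range Cs.length)) :
    o ∈ (toG 1 (oblocks N Cs)).map Prod.fst := by
  obtain ⟨h1, h2⟩ := mem_ws.1 ho
  exact toG_names.2 ⟨2, _, rfl, by omega, List.mem_range.1 h2⟩

/-- a disjunction with repeated parts -/
theorem any_three {c : List NT} (hc : c ≠ []) (hl : c.length ≤ 3) (f : NT → Prop) :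
    (f (c.getD 0 (c.getD 0 [])) ∨ f (c.getD 1 (c.getD 0 [])) ∨ f (c.getD 2 (c.getD 0 []))) ↔
      ∃ T ∈ c, f T := by
  constructor
  · rintro (h | h | h)
    · exact ⟨_, getD_mem' hc 0, h⟩
    · exact ⟨_, getD_mem' hc 1, h⟩
    · exact ⟨_, getD_mem' hc 2, h⟩
  · rintro ⟨T, hT, h⟩
    obtain ⟨i, hi, rfl⟩ := List.getElem_of_mem hT
    have hi3 : i < 3 := by omega
    have e : c.getD i (c.getD 0 []) = (c)[i] := List.getD_eq_getElem _ _ hi
    rw [← e] at h
    interval_cases i
    · exact Or.inl h
    · exact Or.inr (Or.inl h)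
    · exact Or.inr (Or.inr h)

theorem oc_env (h : COk N Cs) {x : List Bool} (hx : x.length = N) {j : ℕ} (hj : j < Cs.length) :
    cenv (inNames N) (toG 1 (oblocks N Cs)) (ws 3 (List.range Cs.length)) x (3, j) = true ↔
      ∃ T ∈ Cs.getD j [], ∀ p ∈ T, x.getD p.1 false = p.2 := by
  have hx' : x.length = (inNames N).length := by rw [length_inNames, hx]
  have hE := compile_sat (oc_wf h) (fun o ho => oc_outs (N := N) (Cs := Cs) (o := o) ho) hx'
  set E := cenv (inNames N) (toG 1 (oblocks N Cs)) (ws 3 (List.range Cs.length)) x with hEdef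
  have h0 : ∀ i < N, E (0, i) = x.getD i false := by
    intro i hi
    have h1 := cenv_input (outs := ws 3 (List.range Cs.length)) (oc_wf h) hx' (i := i)
      (by rw [length_inNames]; exact hi)
    have h2 : (inNames N)[i]'(by rw [length_inNames]; exact hi) = (0, i) := by
      unfold inNames
      rw [List.getElem_map, List.getElem_range]
    rw [h2] at h1
    exact h1
  have h1 : ∀ i < N, E (1, i) = !x.getD i false := by
    intro i hi
    rw [← h0 i hi]
    exact sat_not (sat_blocks hE (i := 0) rfl i hi)
  have h2 : ∀ q < 3 * Cs.length,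
      (E (2, q) = true ↔ ∀ p ∈ part Cs q, x.getD p.1 false = p.2) := by
    intro q hq
    have h2 := sat_and (sat_blocks hE (i := 1) rfl q hq)
    have h3 := (part_ok h hq).2
    change E (2, q) = true ↔ ∀ r ∈ litNames (part Cs q), E r = true at h2
    rw [h2]
    unfold litNames
    constructor
    · intro h4 p hp
      have h5 := h4 _ (List.mem_map.2 ⟨p, hp, rfl⟩)
      cases hb : p.2 with
      | false =>
        rw [hb] at h5
        simp only [Bool.false_eq_true, if_false] at h5
        rw [h1 _ (h3 p hp)] at h5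
        simpa using h5
      | true =>
        rw [hb] at h5
        simp only [if_true] at h5
        rw [h0 _ (h3 p hp)] at h5
        exact h5
    · intro h4 r hr
      obtain ⟨p, hp, rfl⟩ := List.mem_map.1 hr
      have h5 := h4 p hp
      cases hb : p.2 with
      | false =>
        simp only [Bool.false_eq_true, if_false]
        rw [h1 _ (h3 p hp), h5, hb]
        rfl
      | true =>
        simp only [if_true]
        rw [h0 _ (h3 p hp), h5, hb]
  have h6 := sat_or (sat_blocks hE (i := 2) rfl j hj)
  change E (3, j) = true ↔ ∃ r ∈ [(2, 3 * j), (2, 3 * j + 1), (2, 3 * j + 2)],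
    E r = true at h6
  obtain ⟨hc1, hc2, _⟩ := h _ (cs_mem hj)
  have e0 : part Cs (3 * j) = (Cs.getD j []).getD 0 ((Cs.getD j []).getD 0 []) := by
    unfold part
    rw [show 3 * j / 3 = j by omega, show 3 * j % 3 = 0 by omega]
  have e1 : part Cs (3 * j + 1) = (Cs.getD j []).getD 1 ((Cs.getD j []).getD 0 []) := by
    unfold part
    rw [show (3 * j + 1) / 3 = j by omega, show (3 * j + 1) % 3 = 1 by omega]
  have e2 : part Cs (3 * j + 2) = (Cs.getD j []).getD 2 ((Cs.getD j []).getD 0 []) := by
    unfold part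
    rw [show (3 * j + 2) / 3 = j by omega, show (3 * j + 2) % 3 = 2 by omega]
  rw [h6, ← any_three hc1 hc2 fun T => ∀ p ∈ T, x.getD p.1 false = p.2, ← e0, ← e1, ← e2,
    ← h2 _ (by omega), ← h2 _ (by omega), ← h2 _ (by omega)]
  simp

end

end OrcAux

theorem oc_valid {N : ℕ} {Cs : List (List NT)} (h : COk N Cs) : (orCircuit N Cs).Valid :=
  compile_valid (oc_wf h) fun _ ho => oc_outs ho

theorem oc_n {N : ℕ} {Cs : List (List NT)} : (orCircuit N Cs).n = N := length_inNames N

theorem oc_len {N : ℕ} {Cs : List (List NT)} : (orCircuit N Cs).outs.length = Cs.length := by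
  unfold orCircuit compile ws
  simp

theorem oc_bit {N : ℕ} {Cs : List (List NT)} (h : COk N Cs) {x : List Bool}
    (hx : x.length = N) {j : ℕ} (hj : j < Cs.length) :
    (orCircuit N Cs).outBit x j =
      (Cs.getD j []).any fun T => decide (∀ p ∈ T, x.getD p.1 false = p.2) := by
  have hbit : (orCircuit N Cs).outBit x j =
      cenv (inNames N) (toG 1 (oblocks N Cs)) (ws 3 (List.range Cs.length)) x (3, j) := by
    have h1 : j < (ws 3 (List.range Cs.length)).length := by
      unfold ws
      simpa using hj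
    have h2 : (orCircuit N Cs).outs.getD j 0 = wireOf (inNames N).length
        (fanin (toG 1 (oblocks N Cs)))
        (inNames N ++ (toG 1 (oblocks N Cs)).map Prod.fst) (3, j) := by
      change ((ws 3 (List.range Cs.length)).map _).getD j 0 = _
      rw [List.getD_eq_getElem _ _ (by rw [List.length_map]; exact h1), List.getElem_map]
      congr 1
      unfold ws
      rw [List.getElem_map, List.getElem_range]
    unfold Circuit.outBit cenv
    rw [h2]
    rfl
  rw [hbit, Bool.eq_iff_iff, oc_env h hx hj, List.any_eq_true]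
  simp only [decide_eq_true_eq]

theorem ptime_orCircuit {α : Type} [Enc α] {N : α → ℕ} {Cs : α → List (List NT)}
    (hN : PU N) (hC : PTime Cs) : PTime (fun a => orCircuit (N a) (Cs a)) := by
  have hin : PTime (fun a => inNames (N a)) :=
    PTime.map (g := fun (_ : α) (i : ℕ) => ((0, i) : Name)) hN.range
      ((PTime.const 0).pair PTime.snd)
  have hl : PU (fun a => (Cs a).length) := PU.ofLength hC
  have hc : PTime (fun p : α × ℕ => (Cs p.1).getD (p.2 / 3) []) :=
    PTime.listGetD (hC.comp PTime.fst) (PTime.snd.div (PTime.const 3)) (PTime.const [])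
  have hpart : PTime (fun p : α × ℕ => part (Cs p.1) p.2) := by
    unfold part
    exact PTime.listGetD hc (PTime.snd.mod (PTime.const 3))
      (PTime.listGetD hc (PTime.const 0) (PTime.const []))
  have h3 : PTime (fun p : α × ℕ => 3 * p.2) := (PTime.const 3).mul PTime.snd
  have hG : PTime (fun a => toG 1 (oblocks (N a) (Cs a))) := by
    unfold oblocks
    refine ptime_toG_cons hN ?_ (ptime_toG_cons ((PU.const 3).mul hl) ?_
      (ptime_toG_cons hl ?_ (PTime.const _)))
    · exact (PTime.const none).pair (((PTime.const 0).pair PTime.snd).cons (PTime.const []))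
    · exact (PTime.const (some true)).pair (TL.ptime_litNames hpart)
    · exact (PTime.const (some false)).pair (((PTime.const 2).pair h3).cons
        (((PTime.const 2).pair (h3.add (PTime.const 1))).cons
          (((PTime.const 2).pair (h3.add (PTime.const 2))).cons (PTime.const []))))
  exact ptime_compile hin hG (ptime_ws hl.range)

end Pool.Agent.MPa0a715.BI
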