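import Pool.Agent.Lib.MP_a0a715_lc_BI.Defs
import Pool.Agent.Lib.MP_a0a715_lc_TL.PTRed

/-!
# The list of the constraints is computed in polynomial time
-/

namespace Pool.Agent.MPa0a715.BI

open Pool.Agent.MPa0a715 Pool.Agent.PolyTime
open Pool.Agent.MPa0a715.TL (NT litNames termCircuit)

/-- the parts of a constraint with numbers for the variables -/
def numC (B : Base) (c : Con) : List NT := c.map fun P => P.map fun l => (B.num l.1, l.2)

/-- all constraints, the least important one first -/
def allC (B : Base) : List (List NT) := ((posL B).map fun p => numC B (con B p)).reverse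

namespace PtbAux

local instance encVar : Enc Var := ⟨fun v => enc (Base.code v)⟩

section
variable {α β : Type} [Enc α] [Enc β]

/-- the parts of a base are computed in polynomial time -/
structure PB (B : α → Base) : Prop where
  n : PU fun a => (B a).n
  G : PTime fun a => (B a).G
  nx : PTime fun a => (B a).nx
  co : PTime fun a => (B a).co
  im : PTime fun a => (B a).im

theorem PB.comp {B : α → Base} (h : PB B) {g : β → α} (hg : PTime g) :
    PB (fun b => B (g b)) :=
  ⟨PU.comp (f := fun a => (B a).n) h.n hg, PTime.comp (f := fun a => (B a).G) h.G hg,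
    PTime.comp (f := fun a => (B a).nx) h.nx hg, PTime.comp (f := fun a => (B a).co) h.co hg,
    PTime.comp (f := fun a => (B a).im) h.im hg⟩

theorem PB.fst {B : α → Base} (h : PB B) : PB (fun p : α × β => B p.1) := h.comp PTime.fst

variable {B : α → Base}

theorem PB.uN (h : PB B) : PU (fun a => (B a).N) := h.n.add (PU.ofLength h.G)

theorem PB.um (h : PB B) : PU (fun a => (B a).m) := PU.ofLength h.co

theorem PB.uK (h : PB B) : PU (fun a => (B a).K) :=
  (((((PU.const 2).mul h.uN).add (PU.const 1)).add h.n).add ((PU.const 3).mul h.um))

theorem PB.uZ (h : PB B) : PU (fun a => (B a).Z) := ((PU.const 42).mul h.uK).mul h.uK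

theorem PB.uNv (h : PB B) : PU (fun a => (B a).Nv) :=
  h.uZ.add ((PU.const 5).mul (h.uZ.add (PU.const 2)))

theorem PB.uZ1 (h : PB B) : PU (fun a => (B a).Z + 1) := h.uZ.add (PU.const 1)

theorem PB.un1 (h : PB B) : PU (fun a => (B a).n + 1) := h.n.add (PU.const 1)

theorem PB.um1 (h : PB B) : PU (fun a => (B a).m + 1) := h.um.add (PU.const 1)

theorem PB.pn (h : PB B) : PTime (fun a => (B a).n) := h.n.toNat
theorem PB.pN (h : PB B) : PTime (fun a => (B a).N) := h.uN.toNat
theorem PB.pm (h : PB B) : PTime (fun a => (B a).m) := h.um.toNat
theorem PB.pK (h : PB B) : PTime (fun a => (B a).K) := h.uK.toNat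
theorem PB.pZ (h : PB B) : PTime (fun a => (B a).Z) := h.uZ.toNat

theorem PB.gnx (h : PB B) {i : α → ℕ} (hi : PTime i) :
    PTime (fun a => (B a).nx.getD (i a) 0) := PTime.listGetD h.nx hi (PTime.const 0)
theorem PB.gco (h : PB B) {i : α → ℕ} (hi : PTime i) :
    PTime (fun a => (B a).co.getD (i a) 0) := PTime.listGetD h.co hi (PTime.const 0)
theorem PB.gim (h : PB B) {i : α → ℕ} (hi : PTime i) :
    PTime (fun a => (B a).im.getD (i a) 0) := PTime.listGetD h.im hi (PTime.const 0)

/-! ### variables -/

variable {f g : α → ℕ}

theorem mkv {k : ℕ} {F : α → Var} (hf : PTime f) (hg : PTime g)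
    (h : ∀ a, Base.code (F a) = (k, f a, g a)) : PTime F :=
  ((PTime.const k).pair (hf.pair hg)).of_enc_eq (fun x => x) (fun _ => rfl)
    (fun x => by show enc (Base.code (F x)) = _; rw [h])

theorem pv_V {s : Bool} (hf : PTime f) : PTime (fun a => Var.V s (f a)) :=
  mkv hf (PTime.const 0) fun _ => rfl
theorem pv_r {s b : Bool} (hf : PTime f) (hg : PTime g) :
    PTime (fun a => Var.r s b (f a) (g a)) := mkv hf hg fun _ => rfl
theorem pv_ck {s b : Bool} (hf : PTime f) : PTime (fun a => Var.ck s b (f a)) :=
  mkv hf (PTime.const 0) fun _ => rfl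
theorem pv_F {s : Bool} (hf : PTime f) : PTime (fun a => Var.F s (f a)) :=
  mkv hf (PTime.const 0) fun _ => rfl
theorem pv_E {s : Bool} (hf : PTime f) : PTime (fun a => Var.E s (f a)) :=
  mkv hf (PTime.const 0) fun _ => rfl
theorem pv_D {s : Bool} (hf : PTime f) : PTime (fun a => Var.D s (f a)) :=
  mkv hf (PTime.const 0) fun _ => rfl
theorem pv_p {s : Bool} (hf : PTime f) : PTime (fun a => Var.p s (f a)) :=
  mkv hf (PTime.const 0) fun _ => rfl
theorem pv_u {s : Bool} (hf : PTime f) : PTime (fun a => Var.u s (f a)) :=
  mkv hf (PTime.const 0) fun _ => rfl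
theorem pv_Y {s b : Bool} (hf : PTime f) : PTime (fun a => Var.Y s b (f a)) :=
  mkv hf (PTime.const 0) fun _ => rfl
theorem pv_al {s : Bool} (hf : PTime f) : PTime (fun a => Var.al s (f a)) :=
  mkv hf (PTime.const 0) fun _ => rfl
theorem pv_be {s : Bool} (hf : PTime f) : PTime (fun a => Var.be s (f a)) :=
  mkv hf (PTime.const 0) fun _ => rfl
theorem pv_q (hf : PTime f) : PTime (fun a => Var.q (f a)) :=
  mkv hf (PTime.const 0) fun _ => rfl
theorem pv_m (hf : PTime f) : PTime (fun a => Var.m (f a)) :=
  mkv hf (PTime.const 0) fun _ => rfl
theorem pv_tau {s : Bool} (hf : PTime f) : PTime (fun a => Var.tau s (f a)) :=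
  mkv hf (PTime.const 0) fun _ => rfl
theorem pv_L {s : Bool} (hf : PTime f) : PTime (fun a => Var.L s (f a)) :=
  mkv hf (PTime.const 0) fun _ => rfl
theorem pv_rho (hf : PTime f) : PTime (fun a => Var.rho (f a)) :=
  mkv hf (PTime.const 0) fun _ => rfl
theorem pv_yc (hf : PTime f) : PTime (fun a => Var.yc (f a)) :=
  mkv (PTime.const 0) hf fun _ => rfl
theorem pv_ec {s : Bool} (hf : PTime f) : PTime (fun a => Var.ec s (f a)) :=
  mkv (PTime.const 0) hf fun _ => rfl
theorem pv_La {s : Bool} (hf : PTime f) : PTime (fun a => Var.La s (f a)) :=
  mkv (PTime.const 0) hf fun _ => rfl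

theorem num_eq (B : Base) (v : Var) : B.num v =
    if (Base.code v).1 < 42 then
      ((Base.code v).1 * B.K + (Base.code v).2.1) * B.K + (Base.code v).2.2
    else B.Z + ((Base.code v).1 - 42) * (B.Z + 2) + (Base.code v).2.2 := by
  cases v with
  | V s i => cases s <;> simp [Base.num, Base.code]
  | r s g w c => cases s <;> cases g <;> simp [Base.num, Base.code]
  | ck t g i => cases t <;> cases g <;> simp [Base.num, Base.code]
  | F t i => cases t <;> simp [Base.num, Base.code]
  | E t i => cases t <;> simp [Base.num, Base.code]
  | D t i => cases t <;> simp [Base.num, Base.code]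
  | p t i => cases t <;> simp [Base.num, Base.code]
  | u t i => cases t <;> simp [Base.num, Base.code]
  | Y t g i => cases t <;> cases g <;> simp [Base.num, Base.code]
  | al t i => cases t <;> simp [Base.num, Base.code]
  | be t i => cases t <;> simp [Base.num, Base.code]
  | q i => simp [Base.num, Base.code]
  | m i => simp [Base.num, Base.code]
  | tau t i => cases t <;> simp [Base.num, Base.code]
  | L t i => cases t <;> simp [Base.num, Base.code]
  | rho i => simp [Base.num, Base.code]
  | y => simp [Base.num, Base.code]
  | yc i => simp [Base.num, Base.code]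
  | e t => cases t <;> simp [Base.num, Base.code]
  | ec t i => cases t <;> simp [Base.num, Base.code]
  | La t i => cases t <;> simp [Base.num, Base.code]

theorem PB.num (h : PB B) {v : α → Var} (hv : PTime v) : PTime (fun a => (B a).num (v a)) := by
  have hc : PTime (fun a => Base.code (v a)) :=
    hv.of_enc_eq (fun x => x) (fun _ => rfl) (fun _ => rfl)
  have h1 := hc.fst'
  have h2 := hc.snd'.fst'
  have h3 := hc.snd'.snd'
  refine (PTime.iteP (PTime.lt h1 (PTime.const 42))
    ((((h1.mul h.pK).add h2).mul h.pK).add h3)
    ((h.pZ.add ((h1.sub (PTime.const 42)).mul (h.pZ.add (PTime.const 2)))).add h3)).of_eq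
    fun a => (num_eq (B a) (v a)).symm

theorem PB.pos (h : PB B) {v : α → Var} (hv : PTime v) : PTime (fun a => (B a).pos (v a)) :=
  (h.num hv).add (PTime.const 2)

end

section
variable {α : Type} [Enc α] {B : α → Base} {f g : α → ℕ}

/-! ### constraints -/

theorem c_HL (s : Bool) (hf : PTime f) : PTime (fun a => con (B a) (.HL s (f a))) := by
  simp only [con]
  repeat' first
    | exact PTime.const _
    | assumption
    | apply pv_V
    | apply pv_r
    | apply PTime.pair
    | apply PTime.cons

theorem c_Hc (s b : Bool) (hf : PTime f) (hg : PTime g) :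
    PTime (fun a => con (B a) (.Hc s b (f a) (g a))) := by
  simp only [con, cCp]
  repeat' first
    | exact PTime.const _
    | assumption
    | apply pv_r
    | apply PTime.pair
    | apply PTime.cons
    | apply PTime.add

theorem c_Hck (s b : Bool) (h : PB B) (hf : PTime f) :
    PTime (fun a => con (B a) (.Hck s b (f a))) := by
  have h1 := h.gnx hf
  have h2 := h.pN
  simp only [con]
  repeat' first
    | exact PTime.const _
    | assumption
    | apply pv_V
    | apply pv_r
    | apply pv_ck
    | apply PTime.pair
    | apply PTime.cons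
    | apply PTime.add
    | apply PTime.mul

theorem c_HF (s : Bool) (hf : PTime f) : PTime (fun a => con (B a) (.HF s (f a))) := by
  simp only [con, cOr]
  repeat' first
    | exact PTime.const _
    | assumption
    | apply pv_ck
    | apply pv_F
    | apply PTime.pair
    | apply PTime.cons

theorem c_HE (s : Bool) (hf : PTime f) : PTime (fun a => con (B a) (.HE s (f a))) := by
  simp only [con, cOr]
  repeat' first
    | exact PTime.const _
    | assumption
    | apply pv_E
    | apply pv_F
    | apply PTime.pair
    | apply PTime.cons
    | apply PTime.add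

theorem c_HD0 (s : Bool) (h : PB B) : PTime (fun a => con (B a) (.HD0 s)) := by
  have h1 := h.pn
  simp only [con, cCp]
  repeat' first
    | exact PTime.const _
    | assumption
    | apply pv_E
    | apply pv_D
    | apply PTime.pair
    | apply PTime.cons

theorem c_HD (s : Bool) (hf : PTime f) : PTime (fun a => con (B a) (.HD s (f a))) := by
  simp only [con, cCp]
  repeat' first
    | exact PTime.const _
    | assumption
    | apply pv_D
    | apply PTime.pair
    | apply PTime.cons
    | apply PTime.add

theorem c_Hp (s : Bool) (h : PB B) (hf : PTime f) :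
    PTime (fun a => con (B a) (.Hp s (f a))) := by
  have h1 := h.gim hf
  have h2 := h.pN
  have h3 := h.pn
  simp only [con, cOr]
  repeat' first
    | exact PTime.const _
    | assumption
    | apply pv_r
    | apply pv_D
    | apply pv_p
    | apply PTime.pair
    | apply PTime.cons
    | apply PTime.add
    | apply PTime.mul

theorem c_Hu (s : Bool) (h : PB B) (hf : PTime f) :
    PTime (fun a => con (B a) (.Hu s (f a))) := by
  have h1 := h.gco hf
  have h2 := h.pN
  have h3 := h.pn
  have h4 := h.pm
  simp only [con, cAnd]
  repeat' first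
    | exact PTime.const _
    | assumption
    | apply pv_r
    | apply pv_p
    | apply pv_u
    | apply PTime.pair
    | apply PTime.cons
    | apply PTime.add
    | apply PTime.mul

theorem c_HY (s b : Bool) (hf : PTime f) : PTime (fun a => con (B a) (.HY s b (f a))) := by
  cases b
  · simp only [con, cCp, Bool.false_eq_true, if_false]
    repeat' first
      | exact PTime.const _
      | assumption
      | apply pv_Y
      | apply PTime.pair
      | apply PTime.cons
      | apply PTime.add
  · simp only [con, cCp, if_true]
    repeat' first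
      | exact PTime.const _
      | assumption
      | apply pv_Y
      | apply PTime.pair
      | apply PTime.cons
      | apply PTime.add

theorem c_Hal (s : Bool) (hf : PTime f) : PTime (fun a => con (B a) (.Hal s (f a))) := by
  simp only [con, cAnd]
  repeat' first
    | exact PTime.const _
    | assumption
    | apply pv_Y
    | apply pv_u
    | apply pv_al
    | apply PTime.pair
    | apply PTime.cons

theorem c_Hbe (s : Bool) (h : PB B) (hf : PTime f) :
    PTime (fun a => con (B a) (.Hbe s (f a))) := by
  have h1 := h.gim hf
  have h2 := h.pN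
  have h3 := h.pn
  have h4 := h.pm
  simp only [con, cAnd]
  repeat' first
    | exact PTime.const _
    | assumption
    | apply pv_Y
    | apply pv_r
    | apply pv_be
    | apply PTime.pair
    | apply PTime.cons
    | apply PTime.add
    | apply PTime.mul

theorem c_Hq (hf : PTime f) : PTime (fun a => con (B a) (.Hq (f a))) := by
  simp only [con, cOr]
  repeat' first
    | exact PTime.const _
    | assumption
    | apply pv_al
    | apply pv_q
    | apply PTime.pair
    | apply PTime.cons

theorem c_top (s : Bool) (h : PB B) : PTime (fun a => con (B a) (.top s)) := by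
  have h1 := h.pm
  simp only [con]
  repeat' first
    | exact PTime.const _
    | assumption
    | apply pv_L
    | apply PTime.pair
    | apply PTime.cons

theorem c_Prho (hf : PTime f) : PTime (fun a => con (B a) (.Prho (f a))) := by
  simp only [con, cNor]
  repeat' first
    | exact PTime.const _
    | assumption
    | apply pv_L
    | apply pv_rho
    | apply PTime.pair
    | apply PTime.cons
    | apply PTime.add

theorem c_hold (hf : PTime f) : PTime (fun a => con (B a) (.hold (f a))) := by
  simp only [con, cOr]
  repeat' first
    | exact PTime.const _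
    | assumption
    | apply pv_q
    | apply pv_rho
    | apply pv_m
    | apply PTime.pair
    | apply PTime.cons

theorem c_M (hf : PTime f) : PTime (fun a => con (B a) (.M (f a))) := by
  simp only [con]
  repeat' first
    | exact PTime.const _
    | assumption
    | apply pv_m
    | apply PTime.pair
    | apply PTime.cons

theorem c_T1 (s : Bool) (hf : PTime f) : PTime (fun a => con (B a) (.T1 s (f a))) := by
  simp only [con]
  repeat' first
    | exact PTime.const _
    | assumption
    | apply pv_be
    | apply pv_m
    | apply pv_tau
    | apply PTime.pair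
    | apply PTime.cons

theorem c_T2 (s : Bool) (hf : PTime f) : PTime (fun a => con (B a) (.T2 s (f a))) := by
  simp only [con]
  repeat' first
    | exact PTime.const _
    | assumption
    | apply pv_tau
    | apply PTime.pair
    | apply PTime.cons

theorem c_PL (s : Bool) (hf : PTime f) : PTime (fun a => con (B a) (.PL s (f a))) := by
  simp only [con, cNor]
  repeat' first
    | exact PTime.const _
    | assumption
    | apply pv_L
    | apply pv_tau
    | apply PTime.pair
    | apply PTime.cons
    | apply PTime.add

theorem c_Py (hf : PTime f) : PTime (fun a => con (B a) (.Py (f a))) := by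
  simp only [con, cEq]
  repeat' first
    | exact PTime.const _
    | assumption
    | apply pv_yc
    | apply PTime.pair
    | apply PTime.cons
    | apply PTime.add

theorem c_Pe (s : Bool) (hf : PTime f) : PTime (fun a => con (B a) (.Pe s (f a))) := by
  simp only [con, cEq]
  repeat' first
    | exact PTime.const _
    | assumption
    | apply pv_ec
    | apply PTime.pair
    | apply PTime.cons
    | apply PTime.add

theorem c_Pl (s : Bool) (hf : PTime f) : PTime (fun a => con (B a) (.Pl s (f a))) := by
  simp only [con, cEq]
  repeat' first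
    | exact PTime.const _
    | assumption
    | apply pv_La
    | apply PTime.pair
    | apply PTime.cons
    | apply PTime.add

theorem c_Ld (s : Bool) (hf : PTime f) : PTime (fun a => con (B a) (.Ld s (f a))) := by
  simp only [con]
  repeat' first
    | exact PTime.const _
    | assumption
    | apply pv_V
    | apply pv_ck
    | apply PTime.pair
    | apply PTime.cons

theorem c_K1 (s : Bool) : PTime (fun a => con (B a) (.K1 s)) := by
  simp only [con]
  repeat' first
    | exact PTime.const _
    | assumption
    | apply PTime.pair
    | apply PTime.cons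

theorem c_Hg (s b : Bool) (h : PB B) (hf : PTime f) :
    PTime (fun a => con (B a) (.Hg s b (f a))) := by
  have hG : PTime (fun a => (B a).G[f a - (B a).n]?) := PTime.getElem? h.G (hf.sub h.pn)
  have hA : ∀ (b' : Bool), PTime (fun p : α × Gate =>
      cAnd (.r s b' p.2.code.2.1 (2 * f p.1 + 1)) (.r s b' p.2.code.2.2 (2 * f p.1 + 2))
        (.r s b' (f p.1) 0)) := by
    intro b'
    have hc : PTime (fun p : α × Gate => p.2.code) := ptime_code PTime.snd
    have h1 : PTime (fun p : α × Gate => p.2.code.2.1) := hc.snd'.fst'
    have h2 : PTime (fun p : α × Gate => p.2.code.2.2) := hc.snd'.snd'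
    have h3 : PTime (fun p : α × Gate => f p.1) := hf.comp PTime.fst
    simp only [cAnd]
    repeat' first
      | exact PTime.const _
      | assumption
      | apply pv_r
      | apply PTime.pair
      | apply PTime.cons
      | apply PTime.add
      | apply PTime.mul
  have hO : ∀ (b' : Bool), PTime (fun p : α × Gate =>
      cOr (.r s b' p.2.code.2.1 (2 * f p.1 + 1)) (.r s b' p.2.code.2.2 (2 * f p.1 + 2))
        (.r s b' (f p.1) 0)) := by
    intro b'
    have hc : PTime (fun p : α × Gate => p.2.code) := ptime_code PTime.snd
    have h1 : PTime (fun p : α × Gate => p.2.code.2.1) := hc.snd'.fst'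
    have h2 : PTime (fun p : α × Gate => p.2.code.2.2) := hc.snd'.snd'
    have h3 : PTime (fun p : α × Gate => f p.1) := hf.comp PTime.fst
    simp only [cOr]
    repeat' first
      | exact PTime.const _
      | assumption
      | apply pv_r
      | apply PTime.pair
      | apply PTime.cons
      | apply PTime.add
      | apply PTime.mul
  have hN : PTime (fun p : α × Gate =>
      cCp (.r s (!b) p.2.code.2.1 (2 * f p.1 + 1)) (.r s b (f p.1) 0)) := by
    have hc : PTime (fun p : α × Gate => p.2.code) := ptime_code PTime.snd
    have h1 : PTime (fun p : α × Gate => p.2.code.2.1) := hc.snd'.fst'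
    have h3 : PTime (fun p : α × Gate => f p.1) := hf.comp PTime.fst
    simp only [cCp]
    repeat' first
      | exact PTime.const _
      | assumption
      | apply pv_r
      | apply PTime.pair
      | apply PTime.cons
      | apply PTime.add
      | apply PTime.mul
  have hk : PTime (fun p : α × Gate => p.2.code.1) := (ptime_code PTime.snd).fst'
  have hall : PTime (fun p : α × Gate =>
      if p.2.code.1 = some true then
        (if b then cAnd (.r s b p.2.code.2.1 (2 * f p.1 + 1))
            (.r s b p.2.code.2.2 (2 * f p.1 + 2)) (.r s b (f p.1) 0)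
          else cOr (.r s b p.2.code.2.1 (2 * f p.1 + 1))
            (.r s b p.2.code.2.2 (2 * f p.1 + 2)) (.r s b (f p.1) 0))
      else if p.2.code.1 = some false then
        (if b then cOr (.r s b p.2.code.2.1 (2 * f p.1 + 1))
            (.r s b p.2.code.2.2 (2 * f p.1 + 2)) (.r s b (f p.1) 0)
          else cAnd (.r s b p.2.code.2.1 (2 * f p.1 + 1))
            (.r s b p.2.code.2.2 (2 * f p.1 + 2)) (.r s b (f p.1) 0))
      else cCp (.r s (!b) p.2.code.2.1 (2 * f p.1 + 1)) (.r s b (f p.1) 0)) := by
    cases b
    · exact ptime_ite_eq hk (b := some true) (hO false)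
        (ptime_ite_eq hk (b := some false) (hA false) hN)
    · exact ptime_ite_eq hk (b := some true) (hA true)
        (ptime_ite_eq hk (b := some false) (hO true) hN)
  refine (PTime.option_cases (g := fun _ => ([] : Con)) hG (PTime.const _) hall).of_eq
    fun a => ?_
  simp only [con, gcon]
  cases (B a).G[f a - (B a).n]? with
  | none => rfl
  | some x => cases x <;> rfl

/-! ### the constraints which push the rails -/

theorem push_r (s b : Bool) (h : PB B) (hf : PTime f) (hg : PTime g) :
    PTime (fun a => push (B a) (.r s b (f a) (g a))) := by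
  have h1 := h.pos (pv_r (s := s) (b := b) hf hg)
  simp only [push]
  repeat' first
    | exact PTime.const _
    | assumption
    | apply pv_r
    | apply pv_ec
    | apply PTime.pair
    | apply PTime.cons

theorem push_p (s : Bool) (h : PB B) (hf : PTime f) :
    PTime (fun a => push (B a) (.p s (f a))) := by
  have h1 := h.pos (pv_p (s := s) hf)
  simp only [push]
  repeat' first
    | exact PTime.const _
    | assumption
    | apply pv_p
    | apply pv_ec
    | apply PTime.pair
    | apply PTime.cons

theorem push_u (s : Bool) (h : PB B) (hf : PTime f) :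
    PTime (fun a => push (B a) (.u s (f a))) := by
  have h1 := h.pos (pv_u (s := s) hf)
  simp only [push]
  repeat' first
    | exact PTime.const _
    | assumption
    | apply pv_u
    | apply pv_ec
    | apply PTime.pair
    | apply PTime.cons

theorem push_ck (s b : Bool) (h : PB B) (hf : PTime f) :
    PTime (fun a => push (B a) (.ck s b (f a))) := by
  have h1 := h.pos (pv_ck (s := s) (b := b) hf)
  simp only [push]
  repeat' first
    | exact PTime.const _
    | assumption
    | apply pv_ck
    | apply pv_yc
    | apply PTime.pair
    | apply PTime.cons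

theorem push_F (s : Bool) (h : PB B) (hf : PTime f) :
    PTime (fun a => push (B a) (.F s (f a))) := by
  have h1 := h.pos (pv_F (s := s) hf)
  simp only [push]
  repeat' first
    | exact PTime.const _
    | assumption
    | apply pv_F
    | apply pv_yc
    | apply PTime.pair
    | apply PTime.cons

theorem push_E (s : Bool) (h : PB B) (hf : PTime f) :
    PTime (fun a => push (B a) (.E s (f a))) := by
  have h1 := h.pos (pv_E (s := s) hf)
  simp only [push]
  repeat' first
    | exact PTime.const _
    | assumption
    | apply pv_E
    | apply pv_yc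
    | apply PTime.pair
    | apply PTime.cons

theorem push_D (s : Bool) (h : PB B) (hf : PTime f) :
    PTime (fun a => push (B a) (.D s (f a))) := by
  have h1 := h.pos (pv_D (s := s) hf)
  simp only [push]
  repeat' first
    | exact PTime.const _
    | assumption
    | apply pv_D
    | apply pv_yc
    | apply PTime.pair
    | apply PTime.cons

theorem push_Y (s b : Bool) (h : PB B) (hf : PTime f) :
    PTime (fun a => push (B a) (.Y s b (f a))) := by
  have h1 := h.pos (pv_Y (s := s) (b := b) hf)
  simp only [push]
  repeat' first
    | exact PTime.const _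
    | assumption
    | apply pv_Y
    | apply pv_La
    | apply PTime.pair
    | apply PTime.cons

theorem push_al (s : Bool) (h : PB B) (hf : PTime f) :
    PTime (fun a => push (B a) (.al s (f a))) := by
  have h1 := h.pos (pv_al (s := s) hf)
  simp only [push]
  repeat' first
    | exact PTime.const _
    | assumption
    | apply pv_al
    | apply pv_La
    | apply PTime.pair
    | apply PTime.cons

theorem push_be (s : Bool) (h : PB B) (hf : PTime f) :
    PTime (fun a => push (B a) (.be s (f a))) := by
  have h1 := h.pos (pv_be (s := s) hf)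
  simp only [push]
  repeat' first
    | exact PTime.const _
    | assumption
    | apply pv_be
    | apply pv_La
    | apply PTime.pair
    | apply PTime.cons

theorem push_q (h : PB B) (hf : PTime f) :
    PTime (fun a => push (B a) (.q (f a))) := by
  have h1 := h.pos (pv_q hf)
  simp only [push]
  repeat' first
    | exact PTime.const _
    | assumption
    | apply pv_q
    | apply pv_La
    | apply PTime.pair
    | apply PTime.cons

/-! ### the list -/

/-- the constraints which push the rails -/
def railC (B : Base) : List Con :=
  [ [false, true].flatMap fun s => [false, true].flatMap fun g =>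
      (List.range B.N).flatMap fun w => (List.range B.K).map fun c => push B (.r s g w c),
    [false, true].flatMap fun t => [false, true].flatMap fun g =>
      (List.range B.n).map fun i => push B (.ck t g i),
    [false, true].flatMap fun t => (List.range B.n).map fun i => push B (.F t i),
    [false, true].flatMap fun t => (List.range (B.n + 1)).map fun i => push B (.E t i),
    [false, true].flatMap fun t => (List.range (B.m + 1)).map fun i => push B (.D t i),
    [false, true].flatMap fun s => (List.range B.m).map fun i => push B (.p s i),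
    [false, true].flatMap fun s => (List.range B.m).map fun i => push B (.u s i),
    [false, true].flatMap fun s =>
      ((List.range B.m).map fun i => push B (.Y s false i)) ++
        (List.range (B.m + 1)).map fun i => push B (.Y s true i),
    [false, true].flatMap fun s => (List.range B.m).map fun i => push B (.al s i),
    [false, true].flatMap fun s => (List.range B.m).map fun i => push B (.be s i),
    (List.range B.m).map fun i => push B (.q i) ].flatten

theorem railC_eq (B : Base) : B.rails.map (push B) = railC B := by
  simp only [Base.rails, railC, List.map_flatten, List.map_cons, List.map_nil,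
    List.map_flatMap, List.map_append, List.map_map]
  rfl

theorem ptime_railC (h : PB B) : PTime (fun a => railC (B a)) := by
  have h' : PB (fun p : α × ℕ => B p.1) := h.fst
  have hi : PTime (fun p : α × ℕ => p.2) := PTime.snd
  have h'' : PB (fun p : (α × ℕ) × ℕ => B p.1.1) := h'.fst
  have hi1 : PTime (fun p : (α × ℕ) × ℕ => p.1.2) := PTime.snd' PTime.fst
  have hi2 : PTime (fun p : (α × ℕ) × ℕ => p.2) := PTime.snd
  have e1 : ∀ s g, PTime (fun a => (List.range (B a).N).flatMap fun w =>
      (List.range (B a).K).map fun c => push (B a) (.r s g w c)) := fun s g =>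
    PTime.flatMap (g := fun (a : α) (w : ℕ) =>
      (List.range (B a).K).map fun c => push (B a) (.r s g w c)) h.uN.range
      (PTime.map (g := fun (p : α × ℕ) (c : ℕ) => push (B p.1) (.r s g p.2 c)) h'.uK.range
        (push_r s g h'' hi1 hi2))
  have e2 : ∀ s g, PTime (fun a => (List.range (B a).n).map fun i => push (B a) (.ck s g i)) :=
    fun s g => PTime.map (g := fun (a : α) (i : ℕ) => push (B a) (.ck s g i)) h.n.range
      (push_ck s g h' hi)
  have e3 : ∀ s, PTime (fun a => (List.range (B a).n).map fun i => push (B a) (.F s i)) :=
    fun s => PTime.map (g := fun (a : α) (i : ℕ) => push (B a) (.F s i)) h.n.range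
      (push_F s h' hi)
  have e4 : ∀ s, PTime (fun a => (List.range ((B a).n + 1)).map fun i => push (B a) (.E s i)) :=
    fun s => PTime.map (g := fun (a : α) (i : ℕ) => push (B a) (.E s i)) h.un1.range
      (push_E s h' hi)
  have e5 : ∀ s, PTime (fun a => (List.range ((B a).m + 1)).map fun i => push (B a) (.D s i)) :=
    fun s => PTime.map (g := fun (a : α) (i : ℕ) => push (B a) (.D s i)) h.um1.range
      (push_D s h' hi)
  have e6 : ∀ s, PTime (fun a => (List.range (B a).m).map fun i => push (B a) (.p s i)) :=
    fun s => PTime.map (g := fun (a : α) (i : ℕ) => push (B a) (.p s i)) h.um.range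
      (push_p s h' hi)
  have e7 : ∀ s, PTime (fun a => (List.range (B a).m).map fun i => push (B a) (.u s i)) :=
    fun s => PTime.map (g := fun (a : α) (i : ℕ) => push (B a) (.u s i)) h.um.range
      (push_u s h' hi)
  have e8 : ∀ s, PTime (fun a => (List.range (B a).m).map fun i => push (B a) (.Y s false i)) :=
    fun s => PTime.map (g := fun (a : α) (i : ℕ) => push (B a) (.Y s false i)) h.um.range
      (push_Y s false h' hi)
  have e9 : ∀ s, PTime (fun a => (List.range ((B a).m + 1)).map fun i =>
      push (B a) (.Y s true i)) :=
    fun s => PTime.map (g := fun (a : α) (i : ℕ) => push (B a) (.Y s true i)) h.um1.range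
      (push_Y s true h' hi)
  have e10 : ∀ s, PTime (fun a => (List.range (B a).m).map fun i => push (B a) (.al s i)) :=
    fun s => PTime.map (g := fun (a : α) (i : ℕ) => push (B a) (.al s i)) h.um.range
      (push_al s h' hi)
  have e11 : ∀ s, PTime (fun a => (List.range (B a).m).map fun i => push (B a) (.be s i)) :=
    fun s => PTime.map (g := fun (a : α) (i : ℕ) => push (B a) (.be s i)) h.um.range
      (push_be s h' hi)
  have e12 : PTime (fun a => (List.range (B a).m).map fun i => push (B a) (.q i)) :=
    PTime.map (g := fun (a : α) (i : ℕ) => push (B a) (.q i)) h.um.range (push_q h' hi)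
  unfold railC
  simp only [List.flatMap_cons, List.flatMap_nil, List.append_nil, List.flatten_cons,
    List.flatten_nil]
  refine PTime.append (PTime.append (PTime.append (e1 _ _) (e1 _ _))
    (PTime.append (e1 _ _) (e1 _ _))) ?_
  refine PTime.append (PTime.append (PTime.append (e2 _ _) (e2 _ _))
    (PTime.append (e2 _ _) (e2 _ _))) ?_
  refine PTime.append (PTime.append (e3 _) (e3 _)) ?_
  refine PTime.append (PTime.append (e4 _) (e4 _)) ?_
  refine PTime.append (PTime.append (e5 _) (e5 _)) ?_
  refine PTime.append (PTime.append (e6 _) (e6 _)) ?_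
  refine PTime.append (PTime.append (e7 _) (e7 _)) ?_
  refine PTime.append (PTime.append (PTime.append (e8 _) (e9 _))
    (PTime.append (e8 _) (e9 _))) ?_
  refine PTime.append (PTime.append (e10 _) (e10 _)) ?_
  refine PTime.append (PTime.append (e11 _) (e11 _)) ?_
  exact e12

/-- the constraints of a digit -/
def digC (B : Base) (j : ℕ) : List Con :=
  [con B (.Prho j), con B (.hold j), con B (.M j), con B (.T1 false j), con B (.T1 true j),
    con B (.T2 false j), con B (.T2 true j), con B (.PL false j), con B (.PL true j)]

/-- the constraints of the wires of a slot -/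
def wirC (B : Base) (s : Bool) : List Con :=
  (List.range B.N).flatMap fun w =>
    (if w < B.n then [] else [con B (.Hg s false w), con B (.Hg s true w)]) ++
    (List.range (B.K - 1)).flatMap fun c => [con B (.Hc s false w c), con B (.Hc s true w c)]

theorem wirC_eq (B : Base) (s : Bool) : (segR B s).map (con B) = wirC B s := by
  simp only [segR, wirC, List.map_flatMap, List.map_append, List.map_cons, List.map_nil]
  congr 1
  funext w
  split_ifs <;> rfl

theorem ptime_wirC (h : PB B) (s : Bool) : PTime (fun a => wirC (B a) s) := by
  have h' : PB (fun p : α × ℕ => B p.1) := h.fst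
  have hi : PTime (fun p : α × ℕ => p.2) := PTime.snd
  have hi1 : PTime (fun p : (α × ℕ) × ℕ => p.1.2) := PTime.snd' PTime.fst
  have hi2 : PTime (fun p : (α × ℕ) × ℕ => p.2) := PTime.snd
  refine PTime.flatMap h.uN.range (?_ : PTime (fun p : α × ℕ => _))
  refine PTime.append (PTime.iteP (PTime.lt hi h'.pn) (PTime.const _)
    ((c_Hg s false h' hi).cons ((c_Hg s true h' hi).cons (PTime.const _)))) ?_
  refine PTime.flatMap (TL.PU.sub1 h'.uK).range (?_ : PTime (fun p : (α × ℕ) × ℕ => _))
  exact (c_Hc (B := fun p : (α × ℕ) × ℕ => B p.1.1) s false hi1 hi2).cons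
    ((c_Hc (B := fun p : (α × ℕ) × ℕ => B p.1.1) s true hi1 hi2).cons (PTime.const _))

/-- the constraints in order -/
def listC (B : Base) : List (List Con) :=
  [ (List.range B.n).flatMap fun i => [con B (.HL false i), con B (.HL true i)],
    wirC B false,
    wirC B true,
    (List.range B.n).flatMap fun i => [con B (.Hck false false i), con B (.Hck false true i),
      con B (.Hck true false i), con B (.Hck true true i)],
    (List.range B.n).flatMap fun i => [con B (.HF false i), con B (.HF true i)],
    (List.range B.n).flatMap fun i => [con B (.HE false i), con B (.HE true i)],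
    [con B (.HD0 false), con B (.HD0 true)],
    (List.range B.m).flatMap fun k => [con B (.HD false k), con B (.HD true k)],
    (List.range B.m).flatMap fun j => [con B (.Hp false j), con B (.Hp true j)],
    (List.range B.m).flatMap fun j => [con B (.Hu false j), con B (.Hu true j)],
    [con B .Hy],
    (List.range B.m).flatMap fun j => [con B (.HY false false j), con B (.HY true false j),
      con B (.HY false true j), con B (.HY true true j)],
    (List.range B.m).flatMap fun j => [con B (.Hal false j), con B (.Hal true j)],
    (List.range B.m).flatMap fun j => [con B (.Hbe false j), con B (.Hbe true j)],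
    (List.range B.m).map fun j => con B (.Hq j),
    [con B (.top false), con B (.top true)],
    (List.range B.m).flatMap fun d => digC B (B.m - 1 - d),
    [con B .Yd],
    [con B .Py0],
    (List.range (B.Z + 1)).map fun k => con B (.Py k),
    [con B (.K1 false), con B (.K1 true)],
    [con B (.K2 false), con B (.K2 true)],
    [con B (.Pe0 false), con B (.Pe0 true)],
    (List.range (B.Z + 1)).flatMap fun k => [con B (.Pe false k), con B (.Pe true k)],
    [con B (.Pl0 false), con B (.Pl0 true)],
    (List.range (B.Z + 1)).flatMap fun k => [con B (.Pl false k), con B (.Pl true k)],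
    railC B,
    (List.range B.n).flatMap fun i => [con B (.Ld false i), con B (.Ld true i)] ]

theorem listC_eq (B : Base) : (posL B).map (con B) = (listC B).flatten := by
  have e : B.rails.map (con B ∘ Pos.Lp) = railC B := by
    rw [← railC_eq]
    rfl
  unfold posL segs listC
  simp only [List.map_flatten, List.map_cons, List.map_nil, List.map_flatMap, List.map_map, e,
    wirC_eq, segD, digC]
  rfl

theorem ptime_listC (h : PB B) : PTime (fun a => listC (B a)) := by
  have h' : PB (fun p : α × ℕ => B p.1) := h.fst
  have hi : PTime (fun p : α × ℕ => p.2) := PTime.snd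
  have hj : PTime (fun p : α × ℕ => (B p.1).m - 1 - p.2) :=
    (h'.pm.sub (PTime.const 1)).sub hi
  have hnil : PTime (fun _ : α × ℕ => ([] : List Con)) := PTime.const _
  have hnil' : PTime (fun _ : α => ([] : List Con)) := PTime.const _
  unfold listC
  refine PTime.cons ?_ (PTime.cons ?_ (PTime.cons ?_ (PTime.cons ?_ (PTime.cons ?_
    (PTime.cons ?_ (PTime.cons ?_ (PTime.cons ?_ (PTime.cons ?_ (PTime.cons ?_
    (PTime.cons ?_ (PTime.cons ?_ (PTime.cons ?_ (PTime.cons ?_ (PTime.cons ?_
    (PTime.cons ?_ (PTime.cons ?_ (PTime.cons ?_ (PTime.cons ?_ (PTime.cons ?_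
    (PTime.cons ?_ (PTime.cons ?_ (PTime.cons ?_ (PTime.cons ?_ (PTime.cons ?_
    (PTime.cons ?_ (PTime.cons ?_ (PTime.cons ?_
    (PTime.const []))))))))))))))))))))))))))))
  · refine PTime.flatMap h.n.range (?_ : PTime (fun p : α × ℕ => _))
    exact (c_HL (B := fun p : α × ℕ => B p.1) _ hi).cons
      ((c_HL (B := fun p : α × ℕ => B p.1) _ hi).cons hnil)
  · exact ptime_wirC h false
  · exact ptime_wirC h true
  · refine PTime.flatMap h.n.range (?_ : PTime (fun p : α × ℕ => _))
    exact (c_Hck _ _ h' hi).cons ((c_Hck _ _ h' hi).cons ((c_Hck _ _ h' hi).cons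
      ((c_Hck _ _ h' hi).cons hnil)))
  · refine PTime.flatMap h.n.range (?_ : PTime (fun p : α × ℕ => _))
    exact (c_HF (B := fun p : α × ℕ => B p.1) _ hi).cons
      ((c_HF (B := fun p : α × ℕ => B p.1) _ hi).cons hnil)
  · refine PTime.flatMap h.n.range (?_ : PTime (fun p : α × ℕ => _))
    exact (c_HE (B := fun p : α × ℕ => B p.1) _ hi).cons
      ((c_HE (B := fun p : α × ℕ => B p.1) _ hi).cons hnil)
  · exact (c_HD0 _ h).cons ((c_HD0 _ h).cons hnil')
  · refine PTime.flatMap h.um.range (?_ : PTime (fun p : α × ℕ => _))
    exact (c_HD (B := fun p : α × ℕ => B p.1) _ hi).cons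
      ((c_HD (B := fun p : α × ℕ => B p.1) _ hi).cons hnil)
  · refine PTime.flatMap h.um.range (?_ : PTime (fun p : α × ℕ => _))
    exact (c_Hp _ h' hi).cons ((c_Hp _ h' hi).cons hnil)
  · refine PTime.flatMap h.um.range (?_ : PTime (fun p : α × ℕ => _))
    exact (c_Hu _ h' hi).cons ((c_Hu _ h' hi).cons hnil)
  · simp only [con]
    exact PTime.const _
  · refine PTime.flatMap h.um.range (?_ : PTime (fun p : α × ℕ => _))
    exact (c_HY (B := fun p : α × ℕ => B p.1) _ _ hi).cons
      ((c_HY (B := fun p : α × ℕ => B p.1) _ _ hi).cons
      ((c_HY (B := fun p : α × ℕ => B p.1) _ _ hi).cons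
      ((c_HY (B := fun p : α × ℕ => B p.1) _ _ hi).cons hnil)))
  · refine PTime.flatMap h.um.range (?_ : PTime (fun p : α × ℕ => _))
    exact (c_Hal (B := fun p : α × ℕ => B p.1) _ hi).cons
      ((c_Hal (B := fun p : α × ℕ => B p.1) _ hi).cons hnil)
  · refine PTime.flatMap h.um.range (?_ : PTime (fun p : α × ℕ => _))
    exact (c_Hbe _ h' hi).cons ((c_Hbe _ h' hi).cons hnil)
  · exact PTime.map (g := fun (a : α) (j : ℕ) => con (B a) (.Hq j)) h.um.range
      (c_Hq (B := fun p : α × ℕ => B p.1) hi)
  · exact (c_top _ h).cons ((c_top _ h).cons hnil')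
  · refine PTime.flatMap h.um.range (?_ : PTime (fun p : α × ℕ => _))
    exact (c_Prho (B := fun p : α × ℕ => B p.1) hj).cons
      ((c_hold (B := fun p : α × ℕ => B p.1) hj).cons
      ((c_M (B := fun p : α × ℕ => B p.1) hj).cons
      ((c_T1 (B := fun p : α × ℕ => B p.1) _ hj).cons
      ((c_T1 (B := fun p : α × ℕ => B p.1) _ hj).cons
      ((c_T2 (B := fun p : α × ℕ => B p.1) _ hj).cons
      ((c_T2 (B := fun p : α × ℕ => B p.1) _ hj).cons
      ((c_PL (B := fun p : α × ℕ => B p.1) _ hj).cons
      ((c_PL (B := fun p : α × ℕ => B p.1) _ hj).cons hnil))))))))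
  · simp only [con, cEq]
    exact PTime.const _
  · simp only [con, cEq]
    exact PTime.const _
  · exact PTime.map (g := fun (a : α) (j : ℕ) => con (B a) (.Py j)) h.uZ1.range
      (c_Py (B := fun p : α × ℕ => B p.1) hi)
  · exact (c_K1 _).cons ((c_K1 _).cons hnil')
  · simp only [con, cEq]
    exact PTime.const _
  · simp only [con, cEq]
    exact PTime.const _
  · refine PTime.flatMap h.uZ1.range (?_ : PTime (fun p : α × ℕ => _))
    exact (c_Pe (B := fun p : α × ℕ => B p.1) _ hi).cons
      ((c_Pe (B := fun p : α × ℕ => B p.1) _ hi).cons hnil)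
  · simp only [con, cEq]
    exact PTime.const _
  · refine PTime.flatMap h.uZ1.range (?_ : PTime (fun p : α × ℕ => _))
    exact (c_Pl (B := fun p : α × ℕ => B p.1) _ hi).cons
      ((c_Pl (B := fun p : α × ℕ => B p.1) _ hi).cons hnil)
  · exact ptime_railC h
  · refine PTime.flatMap h.n.range (?_ : PTime (fun p : α × ℕ => _))
    exact (c_Ld (B := fun p : α × ℕ => B p.1) _ hi).cons
      ((c_Ld (B := fun p : α × ℕ => B p.1) _ hi).cons hnil)

theorem ptime_numC {β : Type} [Enc β] {B : β → Base} (h : PB B) {c : β → Con} (hc : PTime c) :
    PTime (fun a => numC (B a) (c a)) := by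
  have h' : PB (fun p : β × Part => B p.1) := h.fst
  have h'' : PB (fun p : (β × Part) × (Var × Bool) => B p.1.1) := h'.fst
  have h1 : PTime (fun p : (β × Part) × (Var × Bool) => p.2.1) := PTime.fst' PTime.snd
  have h2 : PTime (fun p : (β × Part) × (Var × Bool) => p.2.2) := PTime.snd' PTime.snd
  exact PTime.map (g := fun (a : β) (P : Part) => P.map fun l => ((B a).num l.1, l.2)) hc
    (PTime.map (g := fun (p : β × Part) (l : Var × Bool) => ((B p.1).num l.1, l.2)) PTime.snd
      ((h''.num h1).pair h2))

theorem ptime_all (h : PB B) : PTime (fun a => allC (B a)) := by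
  have h1 : PTime (fun a => (listC (B a)).flatten) := PTime.flatten (ptime_listC h)
  have h' : PB (fun p : α × Con => B p.1) := h.fst
  have h2 := PTime.reverse (PTime.map (g := fun (a : α) (c : Con) => numC (B a) c) h1
    (ptime_numC h' PTime.snd))
  refine h2.of_eq fun a => ?_
  rw [← listC_eq, List.map_map]
  rfl

end

end PtbAux

theorem ptime_allC {α : Type} [Enc α] {B : α → Base} (hn : PU fun a => (B a).n)
    (hG : PTime fun a => (B a).G) (hnx : PTime fun a => (B a).nx)
    (hco : PTime fun a => (B a).co) (him : PTime fun a => (B a).im) :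
    PU (fun a => (B a).Nv) ∧ PTime (fun a => allC (B a)) :=
  ⟨PtbAux.PB.uNv ⟨hn, hG, hnx, hco, him⟩, PtbAux.ptime_all ⟨hn, hG, hnx, hco, him⟩⟩

end Pool.Agent.MPa0a715.BI
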