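import Pool.Agent.Lib.MP_a0a715_lc_BI.Chn

/-!
# The rails in general
-/

namespace Pool.Agent.MPa0a715.BI

open Pool.Agent.MPa0a715

variable {B : Base} {X : Var → Bool}

namespace RailAux

/-- lowering a rail is no problem for a constraint that does not contain its negation -/
theorem ni_low {g : Var} {c : Con} (h : X g = true) (hc : ∀ P ∈ c, ((g, false) : Var × Bool) ∉ P) :
    NI X (fl X g) c := by
  intro P hP h1
  by_cases hO : ∃ l ∈ P, l.1 = g
  · obtain ⟨l, hl, rfl⟩ := hO
    exfalso
    unfold pv at h1
    rw [List.all_eq_true] at h1
    have h2 := h1 l hl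
    rw [fl_self, h] at h2
    have h3 : l.2 = false := by
      revert h2
      cases l.2 <;> simp
    apply hc P hP
    rw [← h3]
    exact hl
  · rwa [pv_fl (fun l hl e => hO ⟨l, hl, e⟩)] at h1

theorem ni_high {g : Var} {c : Con} (h : X g = false)
    (hc : ∀ P ∈ c, ((g, true) : Var × Bool) ∉ P) : NI X (fl X g) c := by
  intro P hP h1
  by_cases hO : ∃ l ∈ P, l.1 = g
  · obtain ⟨l, hl, rfl⟩ := hO
    exfalso
    unfold pv at h1
    rw [List.all_eq_true] at h1
    have h2 := h1 l hl
    rw [fl_self, h] at h2
    have h3 : l.2 = true := by
      revert h2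
      cases l.2 <;> simp
    apply hc P hP
    rw [← h3]
    exact hl
  · rwa [pv_fl (fun l hl e => hO ⟨l, hl, e⟩)] at h1

/-- `p` is the own constraint of the rail `g` -/
structure Own (B : Base) (X : Var → Bool) (g : Var) (p : Pos) : Prop where
  vld : PVld B p
  first : ∀ d ∈ occ B g, PVld B d → Occ g (con B d) → ¬ klt (key B d) (key B p)
  viol : frc B X g = true → X g = false →
    cv X (con B p) = true ∧ cv (fl X g) (con B p) = false
  neg : ∀ P ∈ con B p, ((g, true) : Var × Bool) ∉ P
  low : ∀ P ∈ con B p, ((g, false) : Var × Bool) ∈ P → pv (fl X g) P = true → X g = true →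
    frc B X g = true

/-! ### general forms of own constraints -/

theorem own_and {g a b : Var} {p : Pos} (hv : PVld B p) (hc : con B p = cAnd a b g)
    (hf : frc B X g = (X a && X b)) (ha : a ≠ g) (hb : b ≠ g)
    (h : ∀ d ∈ occ B g, PVld B d → Occ g (con B d) → ¬ klt (key B d) (key B p)) :
    Own B X g p := by
  refine ⟨hv, h, ?_, ?_, ?_⟩
  · intro h1 h2
    rw [hf, Bool.and_eq_true] at h1
    rw [hc]
    constructor
    · simp [cv, pv, cAnd, h1.1, h1.2, h2]
    · simp [cv, pv, cAnd, fl_self, h2]
  · intro P hP
    rw [hc] at hP
    simp only [cAnd, List.mem_singleton] at hP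
    subst hP
    simp [Ne.symm ha, Ne.symm hb]
  · intro P hP _ h1 _
    rw [hc] at hP
    simp only [cAnd, List.mem_singleton] at hP
    subst hP
    simp only [pv, List.all_cons, List.all_nil, Bool.and_true, Bool.and_eq_true] at h1
    rw [fl_ne _ ha, fl_ne _ hb] at h1
    rw [hf, Bool.and_eq_true]
    simp only [beq_true] at h1
    exact ⟨h1.1, h1.2.1⟩

theorem own_or {g a b : Var} {p : Pos} (hv : PVld B p) (hc : con B p = cOr a b g)
    (hf : frc B X g = (X a || X b)) (ha : a ≠ g) (hb : b ≠ g)
    (h : ∀ d ∈ occ B g, PVld B d → Occ g (con B d) → ¬ klt (key B d) (key B p)) :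
    Own B X g p := by
  refine ⟨hv, h, ?_, ?_, ?_⟩
  · intro h1 h2
    rw [hf, Bool.or_eq_true] at h1
    rw [hc]
    constructor
    · rcases h1 with h1 | h1 <;> simp [cv, pv, cOr, h1, h2]
    · simp [cv, pv, cOr, fl_self, h2]
  · intro P hP
    rw [hc] at hP
    simp only [cOr, List.mem_cons, List.not_mem_nil, or_false] at hP
    rcases hP with rfl | rfl <;> simp [Ne.symm ha, Ne.symm hb]
  · intro P hP _ h1 _
    rw [hc] at hP
    simp only [cOr, List.mem_cons, List.not_mem_nil, or_false] at hP
    rw [hf, Bool.or_eq_true]
    rcases hP with rfl | rfl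
    · simp only [pv, List.all_cons, List.all_nil, Bool.and_true, Bool.and_eq_true] at h1
      rw [fl_ne _ ha] at h1
      simp only [beq_true] at h1
      exact Or.inl h1.1
    · simp only [pv, List.all_cons, List.all_nil, Bool.and_true, Bool.and_eq_true] at h1
      rw [fl_ne _ hb] at h1
      simp only [beq_true] at h1
      exact Or.inr h1.1

theorem own_cp {g a : Var} {p : Pos} (hv : PVld B p) (hc : con B p = cCp a g)
    (hf : frc B X g = X a) (ha : a ≠ g)
    (h : ∀ d ∈ occ B g, PVld B d → Occ g (con B d) → ¬ klt (key B d) (key B p)) :
    Own B X g p := by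
  refine ⟨hv, h, ?_, ?_, ?_⟩
  · intro h1 h2
    rw [hf] at h1
    rw [hc]
    constructor
    · simp [cv, pv, cCp, h1, h2]
    · simp [cv, pv, cCp, fl_self, h2]
  · intro P hP
    rw [hc] at hP
    simp only [cCp, List.mem_singleton] at hP
    subst hP
    simp [Ne.symm ha]
  · intro P hP _ h1 _
    rw [hc] at hP
    simp only [cCp, List.mem_singleton] at hP
    subst hP
    simp only [pv, List.all_cons, List.all_nil, Bool.and_true, Bool.and_eq_true] at h1
    rw [fl_ne _ ha] at h1
    rw [hf]
    simp only [beq_true] at h1
    exact h1.1

/-! ### readers of the rails of the slots -/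

theorem key_rdr (s g : Bool) (c : ℕ) : 1 ≤ (key B (rdr B s g c)).1 := by
  unfold rdr
  split_ifs
  · split <;> simp [key]
  all_goals simp [key]

/-- a gate which reads the rail has a larger number -/
theorem rdr_gate (hB : B.Ok) {s g : Bool} {w c : ℕ} (hc : c ≤ 2 * B.N)
    (hv : PVld B (rdr B s g c)) (hO : Occ (.r s g w c) (con B (rdr B s g c))) :
    ∃ g' w', rdr B s g c = .Hg s g' w' ∧ B.n ≤ w' ∧ w' < B.N ∧ w < w' ∧
      ∀ P ∈ con B (.Hg s g' w'), ((.r s g w c, false) : Var × Bool) ∉ P := by
  obtain ⟨g', hr⟩ : ∃ g', rdr B s g c = .Hg s g' ((c - 1) / 2) := by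
    unfold rdr
    rw [if_pos hc]
    split
    · exact ⟨_, rfl⟩
    · exact ⟨_, rfl⟩
  rw [hr] at hv hO
  obtain ⟨hv1, hv2⟩ := hv
  have hpos := hB.pos
  have hc0 : c ≠ 0 := by omega
  refine ⟨g', (c - 1) / 2, hr, hv1, hv2, ?_⟩
  generalize (c - 1) / 2 = w' at hv1 hv2 hO
  obtain ⟨k, rfl⟩ : ∃ k, w' = B.n + k := ⟨w' - B.n, by omega⟩
  have hkl : k < B.G.length := by unfold Base.N at hv2; omega
  have hrefs := hB.gates k hkl
  change Occ _ (gcon B s g' (B.n + k)) at hO
  change _ ∧ ∀ P ∈ gcon B s g' (B.n + k), _
  unfold gcon at hO ⊢
  rw [Nat.add_sub_cancel_left, List.getElem?_eq_getElem hkl] at hO ⊢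
  generalize B.G[k] = G at hrefs hO
  unfold Occ at hO
  cases G with
  | and i j =>
    have hi := hrefs i (by simp [Gate.refs])
    have hj := hrefs j (by simp [Gate.refs])
    cases g'
    · simp only [Bool.false_eq_true, if_false, cOr, List.mem_cons,
        List.not_mem_nil, or_false, exists_eq_or_imp, exists_eq_left, Var.r.injEq] at hO ⊢
      exact ⟨by omega, by simp [hc0]⟩
    · simp only [if_true, cAnd, List.mem_cons,
        List.not_mem_nil, or_false, exists_eq_or_imp, exists_eq_left, Var.r.injEq] at hO ⊢
      exact ⟨by omega, by simp [hc0]⟩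
  | or i j =>
    have hi := hrefs i (by simp [Gate.refs])
    have hj := hrefs j (by simp [Gate.refs])
    cases g'
    · simp only [Bool.false_eq_true, if_false, cAnd, List.mem_cons,
        List.not_mem_nil, or_false, exists_eq_or_imp, exists_eq_left, Var.r.injEq] at hO ⊢
      exact ⟨by omega, by simp [hc0]⟩
    · simp only [if_true, cOr, List.mem_cons,
        List.not_mem_nil, or_false, exists_eq_or_imp, exists_eq_left, Var.r.injEq] at hO ⊢
      exact ⟨by omega, by simp [hc0]⟩
  | not i =>
    have hi := hrefs i (by simp [Gate.refs])
    simp only [cCp, List.mem_cons,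
        List.not_mem_nil, or_false, exists_eq_or_imp, exists_eq_left, Var.r.injEq] at hO ⊢
    exact ⟨by omega, by simp [hc0]⟩

/-- the own constraints -/
theorem exists_own (hB : B.Ok) {g : Var} (hr : Rail g) (hv : B.Vld g) :
    (∃ t, g = .E t 0) ∨ ∃ p l, occ B g = p :: l ∧ Own B X g p := by
  cases g with
  | V => exact absurd hr id
  | m => exact absurd hr id
  | tau => exact absurd hr id
  | L => exact absurd hr id
  | rho => exact absurd hr id
  | y => exact absurd hr id
  | yc => exact absurd hr id
  | e => exact absurd hr id
  | ec => exact absurd hr id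
  | La => exact absurd hr id
  | r s g w c =>
    right
    refine ⟨ownr B s g w c, _, rfl, ?_⟩
    have hrd : ∀ q : Pos, (key B q).1 = 0 → ¬ klt (key B (rdr B s g c)) (key B q) := by
      intro q hq h
      have := key_rdr (B := B) s g c
      unfold klt at h
      omega
    cases c with
    | zero =>
      by_cases hw : w < B.n
      · have ho : ownr B s g w 0 = .HL s w := by simp [ownr, hw]
        rw [ho]
        refine ⟨hw, ?_, ?_, ?_, ?_⟩
        · intro d hd _ _
          simp only [occ, ho, List.mem_cons, List.not_mem_nil, or_false] at hd
          rcases hd with rfl | rfl | rfl | rfl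
          · simp [key, klt]
          · simp [key, klt]
          · exact hrd _ rfl
          · simp [key, klt]
        · intro h1 h2
          simp only [frc, if_pos hw, beq_iff_eq] at h1
          cases g
          · simp [con, cv, pv, fl_self, fl_ne, h1, h2]
          · simp [con, cv, pv, fl_self, fl_ne, h1, h2]
        · intro P hP
          simp only [con, List.mem_cons, List.not_mem_nil, or_false] at hP
          rcases hP with rfl | rfl <;> simp
        · intro P hP hm h1 _
          simp only [frc, if_pos hw, beq_iff_eq]
          simp only [con, List.mem_cons, List.not_mem_nil, or_false] at hP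
          rcases hP with rfl | rfl
          · have hg : g = true := by simpa using hm
            subst hg
            simp only [pv, List.all_cons, List.all_nil, Bool.and_true, Bool.and_eq_true] at h1
            rw [fl_ne _ (by simp)] at h1
            simpa using h1.1
          · have hg : g = false := by simpa using hm
            subst hg
            simp only [pv, List.all_cons, List.all_nil, Bool.and_true, Bool.and_eq_true] at h1
            rw [fl_ne _ (by simp)] at h1
            simpa using h1.1
      · have ho : ownr B s g w 0 = .Hg s g w := by simp [ownr, hw]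
        rw [ho]
        have hfirst : ∀ d ∈ occ B (.r s g w 0), PVld B d → Occ (.r s g w 0) (con B d) →
            ¬ klt (key B d) (key B (.Hg s g w)) := by
          intro d hd hdv hO
          simp only [occ, ho, List.mem_cons, List.not_mem_nil, or_false] at hd
          rcases hd with rfl | rfl | rfl | rfl
          · simp [key, klt]
          · simp [key, klt]
          · obtain ⟨g', w', e, _, _, hlt, _⟩ := rdr_gate hB (by omega) hdv hO
            rw [e]
            simp only [key, klt]
            omega
          · simp only [key, klt]
            cases s <;> simp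
        have hvw : PVld B (.Hg s g w) := ⟨by omega, hv.1⟩
        obtain ⟨k, rfl⟩ : ∃ k, w = B.n + k := ⟨w - B.n, by omega⟩
        have hk : k < B.G.length := by have := hv.1; unfold Base.N at this; omega
        have hcon : con B (.Hg s g (B.n + k)) = gcon B s g (B.n + k) := rfl
        unfold gcon at hcon
        rw [Nat.add_sub_cancel_left, List.getElem?_eq_getElem hk] at hcon
        have hf : frc B X (.r s g (B.n + k) 0) = frc B X (.r s g (B.n + k) 0) := rfl
        conv_rhs at hf => simp only [frc, if_neg hw]
        rw [Nat.add_sub_cancel_left, List.getElem?_eq_getElem hk] at hf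
        generalize B.G[k] = G at hcon hf
        cases G with
        | and i j =>
          cases g
          · exact own_or hvw hcon hf (by simp) (by simp) hfirst
          · exact own_and hvw hcon hf (by simp) (by simp) hfirst
        | or i j =>
          cases g
          · exact own_and hvw hcon hf (by simp) (by simp) hfirst
          · exact own_or hvw hcon hf (by simp) (by simp) hfirst
        | not i => exact own_cp hvw hcon hf (by simp) hfirst
    | succ c =>
      change Own B X (.r s g w (c + 1)) (.Hc s g w c)
      refine own_cp hv rfl rfl (by simp) ?_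
      intro d hd hdv hO
      simp only [occ, ownr, List.mem_cons, List.not_mem_nil, or_false] at hd
      rcases hd with rfl | rfl | rfl | rfl
      · simp [key, klt]
      · simp [key, klt]
      · by_cases hc : c + 1 ≤ 2 * B.N
        · obtain ⟨g', w', e, _, _, hlt, _⟩ := rdr_gate hB hc hdv hO
          rw [e]
          simp only [key, klt]
          omega
        · have h3 : 3 ≤ (key B (rdr B s g (c + 1))).1 := by
            unfold rdr
            rw [if_neg hc]
            split_ifs <;> simp [key]
          intro h
          simp only [klt] at h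
          have : (key B (.Hc s g w c)).1 ≤ 2 := by cases s <;> simp [key]
          omega
      · simp only [key, klt]
        cases s <;> simp
  | ck t g i =>
    right
    refine ⟨_, _, rfl, ?_⟩
    refine ⟨hv, ?_, ?_, ?_, ?_⟩
    · intro d hd _ _
      simp only [occ, List.mem_cons, List.not_mem_nil, or_false] at hd
      rcases hd with rfl | rfl | rfl | rfl <;> simp [key, klt]
    · intro h1 h2
      simp only [frc, Bool.and_eq_true, beq_iff_eq] at h1
      have h3 : X (.r (!t) (!g) (B.nx.getD i 0) (2 * B.N + 1 + i)) = true := h1.2
      simp only [con, cv, pv, List.any_cons, List.any_nil, List.all_cons, List.all_nil]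
      rw [fl_self, fl_ne _ (by simp), fl_ne _ (by simp), h1.1, h2, h3]
      simp
    · intro P hP
      simp only [con, List.mem_cons, List.not_mem_nil, or_false] at hP
      subst hP
      simp
    · intro P hP _ h1 _
      simp only [con, List.mem_cons, List.not_mem_nil, or_false] at hP
      subst hP
      simp only [pv, List.all_cons, List.all_nil, Bool.and_true, Bool.and_eq_true] at h1
      rw [fl_self, fl_ne _ (by simp), fl_ne _ (by simp)] at h1
      simp only [frc, Bool.and_eq_true]
      exact ⟨h1.1, by simpa using h1.2.1⟩
  | F t i =>
    right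
    refine ⟨_, _, rfl, own_or hv rfl rfl (by simp) (by simp) ?_⟩
    intro d hd _ _
    simp only [occ, List.mem_cons, List.not_mem_nil, or_false] at hd
    rcases hd with rfl | rfl | rfl <;> simp [key, klt]
  | E t i =>
    cases i with
    | zero => exact Or.inl ⟨t, rfl⟩
    | succ i =>
      right
      refine ⟨_, _, rfl, own_or (a := .E t i) (b := .F t i) ?_ rfl rfl (by simp) (by simp) ?_⟩
      · change i + 1 ≤ B.n at hv
        change i + 1 - 1 < B.n
        omega
      · intro d hd _ _
        simp only [occ, List.mem_cons, List.not_mem_nil, or_false] at hd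
        rcases hd with rfl | rfl | rfl
        · simp [key, klt]
        · split_ifs <;> simp [key, klt]
        · simp [key, klt]
  | D t k =>
    right
    cases k with
    | zero =>
      refine ⟨.HD0 t, _, rfl, own_cp trivial rfl rfl (by simp) ?_⟩
      intro d hd _ _
      simp only [occ, List.mem_cons, List.not_mem_nil, or_false] at hd
      rcases hd with rfl | rfl | rfl | rfl <;> simp [key, klt]
    | succ k =>
      refine ⟨.HD t k, _, rfl, own_cp hv rfl rfl (by simp) ?_⟩
      intro d hd _ _
      simp only [occ, List.mem_cons, List.not_mem_nil, or_false] at hd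
      rcases hd with rfl | rfl | rfl | rfl <;> simp [key, klt]
  | p s j =>
    right
    refine ⟨_, _, rfl, own_or hv rfl rfl (by simp) (by simp) ?_⟩
    intro d hd _ _
    simp only [occ, List.mem_cons, List.not_mem_nil, or_false] at hd
    rcases hd with rfl | rfl | rfl <;> simp [key, klt]
  | u s j =>
    right
    refine ⟨_, _, rfl, own_and hv rfl rfl (by simp) (by simp) ?_⟩
    intro d hd _ _
    simp only [occ, List.mem_cons, List.not_mem_nil, or_false] at hd
    rcases hd with rfl | rfl | rfl <;> simp [key, klt]
  | Y s g j =>
    right
    cases g with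
    | false =>
      refine ⟨.HY s false j, _, rfl, own_cp hv rfl rfl (by simp) ?_⟩
      intro d hd _ _
      simp only [occ, List.mem_cons, List.not_mem_nil, or_false] at hd
      rcases hd with rfl | rfl | rfl | rfl <;> simp [key, klt]
    | true =>
      cases j with
      | zero =>
        refine ⟨.Hy, _, rfl, ?_⟩
        refine ⟨trivial, ?_, ?_, ?_, ?_⟩
        · intro d hd _ _
          simp only [occ, List.mem_cons, List.not_mem_nil, or_false] at hd
          rcases hd with rfl | rfl | rfl | rfl <;> simp [key, klt]
        · intro h1 h2
          simp only [frc, beq_iff_eq] at h1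
          cases s
          · simp [con, cv, pv, fl_self, fl_ne, h1, h2]
          · simp [con, cv, pv, fl_self, fl_ne, h1, h2]
        · intro P hP
          simp only [con, List.mem_cons, List.not_mem_nil, or_false] at hP
          rcases hP with rfl | rfl <;> simp
        · intro P hP hm h1 _
          simp only [frc, beq_iff_eq]
          simp only [con, List.mem_cons, List.not_mem_nil, or_false] at hP
          rcases hP with rfl | rfl
          · have hg : s = true := by simpa using hm
            subst hg
            simp only [pv, List.all_cons, List.all_nil, Bool.and_true, Bool.and_eq_true] at h1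
            rw [fl_ne _ (by simp)] at h1
            simpa using h1.1
          · have hg : s = false := by simpa using hm
            subst hg
            simp only [pv, List.all_cons, List.all_nil, Bool.and_true, Bool.and_eq_true] at h1
            rw [fl_ne _ (by simp)] at h1
            simpa using h1.1
      | succ j =>
        refine ⟨.HY s true j, _, rfl, own_cp hv rfl rfl (by simp) ?_⟩
        intro d hd _ _
        simp only [occ, List.mem_cons, List.not_mem_nil, or_false] at hd
        rcases hd with rfl | rfl | rfl | rfl <;> simp [key, klt]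
  | al s j =>
    right
    refine ⟨_, _, rfl, own_and hv rfl rfl (by simp) (by simp) ?_⟩
    intro d hd _ _
    simp only [occ, List.mem_cons, List.not_mem_nil, or_false] at hd
    rcases hd with rfl | rfl | rfl <;> simp [key, klt]
  | be s j =>
    right
    refine ⟨_, _, rfl, own_and hv rfl rfl (by simp) (by simp) ?_⟩
    intro d hd _ _
    simp only [occ, List.mem_cons, List.not_mem_nil, or_false] at hd
    rcases hd with rfl | rfl | rfl <;> simp [key, klt]
  | q j =>
    right
    refine ⟨_, _, rfl, own_or hv rfl rfl (by simp) (by simp) ?_⟩
    intro d hd _ _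
    simp only [occ, List.mem_cons, List.not_mem_nil, or_false] at hd
    rcases hd with rfl | rfl | rfl <;> simp [key, klt]

/-- the constraints which read a rail do not contain its negation -/
theorem readers (hB : B.Ok) {g : Var} (hr : Rail g) {d : Pos} (hd : d ∈ (occ B g).tail)
    (hdv : PVld B d) (hO : Occ g (con B d)) (hne : d ≠ .Lp g)
    (hk : klt (key B d) (key B (.Lp g))) : ∀ P ∈ con B d, ((g, false) : Var × Bool) ∉ P := by
  cases g with
  | V => exact absurd hr id
  | m => exact absurd hr id
  | tau => exact absurd hr id
  | L => exact absurd hr id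
  | rho => exact absurd hr id
  | y => exact absurd hr id
  | yc => exact absurd hr id
  | e => exact absurd hr id
  | ec => exact absurd hr id
  | La => exact absurd hr id
  | r s g w c =>
    simp only [occ, List.tail_cons, List.mem_cons, List.not_mem_nil, or_false] at hd
    rcases hd with rfl | rfl | rfl
    · simp [con, cCp]
    · by_cases hc : c ≤ 2 * B.N
      · obtain ⟨g', w', e, _, _, _, h⟩ := rdr_gate hB hc hdv hO
        rw [e]
        exact h
      · unfold rdr
        rw [if_neg hc]
        split_ifs <;> simp [con, cOr, cAnd]
    · exact absurd rfl hne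
  | ck t g i =>
    simp only [occ, List.tail_cons, List.mem_cons, List.not_mem_nil, or_false] at hd
    rcases hd with rfl | rfl | rfl
    · simp [con, cOr]
    · exact absurd rfl hne
    · simp [key, klt] at hk
  | F t i =>
    simp only [occ, List.tail_cons, List.mem_cons, List.not_mem_nil, or_false] at hd
    rcases hd with rfl | rfl
    · simp [con, cOr]
    · exact absurd rfl hne
  | E t i =>
    simp only [occ, List.tail_cons, List.mem_cons, List.not_mem_nil, or_false] at hd
    rcases hd with rfl | rfl
    · split_ifs <;> simp [con, cOr, cCp]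
    · exact absurd rfl hne
  | D t k =>
    simp only [occ, List.tail_cons, List.mem_cons, List.not_mem_nil, or_false] at hd
    rcases hd with rfl | rfl | rfl
    · simp [con, cCp]
    · split_ifs <;> simp [con, cOr]
    · exact absurd rfl hne
  | p s j =>
    simp only [occ, List.tail_cons, List.mem_cons, List.not_mem_nil, or_false] at hd
    rcases hd with rfl | rfl
    · simp [con, cAnd]
    · exact absurd rfl hne
  | u s j =>
    simp only [occ, List.tail_cons, List.mem_cons, List.not_mem_nil, or_false] at hd
    rcases hd with rfl | rfl
    · simp [con, cAnd]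
    · exact absurd rfl hne
  | Y s g j =>
    simp only [occ, List.tail_cons, List.mem_cons, List.not_mem_nil, or_false] at hd
    rcases hd with rfl | rfl | rfl
    · cases g <;> simp [con, cCp]
    · cases g <;> simp [con, cAnd]
    · exact absurd rfl hne
  | al s j =>
    simp only [occ, List.tail_cons, List.mem_cons, List.not_mem_nil, or_false] at hd
    rcases hd with rfl | rfl
    · simp [con, cOr]
    · exact absurd rfl hne
  | be s j =>
    simp only [occ, List.tail_cons, List.mem_cons, List.not_mem_nil, or_false] at hd
    rcases hd with rfl | rfl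
    · simp [con]
    · exact absurd rfl hne
  | q j =>
    simp only [occ, List.tail_cons, List.mem_cons, List.not_mem_nil, or_false] at hd
    rcases hd with rfl | rfl
    · simp [con, cOr]
    · exact absurd rfl hne

/-- the constraint that pushes a rail is violated iff the rail is not where it is pushed to -/
theorem cv_push (hB : B.Ok) (hX : Mn B X) {g : Var} (hr : Rail g) (hv : B.Vld g) :
    cv X (con B (.Lp g)) = (X g == dnv X g) ∧
      cv (fl X g) (con B (.Lp g)) = ((!X g) == dnv X g) := by
  have hpos := pos_lt hB hr hv
  change cv X (push B g) = _ ∧ cv (fl X g) (push B g) = _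
  cases g with
  | V => exact absurd hr id
  | m => exact absurd hr id
  | tau => exact absurd hr id
  | L => exact absurd hr id
  | rho => exact absurd hr id
  | y => exact absurd hr id
  | yc => exact absurd hr id
  | e => exact absurd hr id
  | ec => exact absurd hr id
  | La => exact absurd hr id
  | r s g w c =>
    have h1 := ec_eq hB hX (t := s) hpos
    simp only [push, cv, pv, dnv, List.any_cons, List.any_nil, List.all_cons, List.all_nil]
    rw [fl_self, fl_ne _ (by simp), h1]
    cases X (.r s g w c) <;> cases X (.e s) <;> simp
  | p s j =>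
    have h1 := ec_eq hB hX (t := s) hpos
    simp only [push, cv, pv, dnv, List.any_cons, List.any_nil, List.all_cons, List.all_nil]
    rw [fl_self, fl_ne _ (by simp), h1]
    cases X (.p s j) <;> cases X (.e s) <;> simp
  | u s j =>
    have h1 := ec_eq hB hX (t := s) hpos
    simp only [push, cv, pv, dnv, List.any_cons, List.any_nil, List.all_cons, List.all_nil]
    rw [fl_self, fl_ne _ (by simp), h1]
    cases X (.u s j) <;> cases X (.e s) <;> simp
  | ck t g i =>
    have h1 := yc_eq hB hX hpos
    simp only [push, cv, pv, dnv, List.any_cons, List.any_nil, List.all_cons, List.all_nil]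
    rw [fl_self, fl_ne _ (by simp), h1]
    cases X (.ck t g i) <;> cases X .y <;> cases t <;> simp
  | F t i =>
    have h1 := yc_eq hB hX hpos
    simp only [push, cv, pv, dnv, List.any_cons, List.any_nil, List.all_cons, List.all_nil]
    rw [fl_self, fl_ne _ (by simp), h1]
    cases X (.F t i) <;> cases X .y <;> cases t <;> simp
  | E t i =>
    have h1 := yc_eq hB hX hpos
    simp only [push, cv, pv, dnv, List.any_cons, List.any_nil, List.all_cons, List.all_nil]
    rw [fl_self, fl_ne _ (by simp), h1]
    cases X (.E t i) <;> cases X .y <;> cases t <;> simp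
  | D t k =>
    have h1 := yc_eq hB hX hpos
    simp only [push, cv, pv, dnv, List.any_cons, List.any_nil, List.all_cons, List.all_nil]
    rw [fl_self, fl_ne _ (by simp), h1]
    cases X (.D t k) <;> cases X .y <;> cases t <;> simp
  | Y s g j =>
    have h1 := La_eq hB hX (t := s) hpos
    have h2 := La_eq hB hX (t := !s) hpos
    simp only [push, cv, pv, dnv, List.any_cons, List.any_nil, List.all_cons, List.all_nil]
    rw [fl_self, fl_ne _ (by simp), fl_ne _ (by simp), h1, h2]
    cases X (.Y s g j) <;> cases X (.L s 0) <;> cases X (.L (!s) 0) <;> simp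
  | al s j =>
    have h1 := La_eq hB hX (t := s) hpos
    have h2 := La_eq hB hX (t := !s) hpos
    simp only [push, cv, pv, dnv, List.any_cons, List.any_nil, List.all_cons, List.all_nil]
    rw [fl_self, fl_ne _ (by simp), fl_ne _ (by simp), h1, h2]
    cases X (.al s j) <;> cases X (.L s 0) <;> cases X (.L (!s) 0) <;> simp
  | be s j =>
    have h1 := La_eq hB hX (t := s) hpos
    have h2 := La_eq hB hX (t := !s) hpos
    simp only [push, cv, pv, dnv, List.any_cons, List.any_nil, List.all_cons, List.all_nil]
    rw [fl_self, fl_ne _ (by simp), fl_ne _ (by simp), h1, h2]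
    cases X (.be s j) <;> cases X (.L s 0) <;> cases X (.L (!s) 0) <;> simp
  | q j =>
    have h1 := La_eq hB hX (t := false) hpos
    have h2 := La_eq hB hX (t := true) hpos
    simp only [push, cv, pv, dnv, List.any_cons, List.any_nil, List.all_cons, List.all_nil]
    rw [fl_self, fl_ne _ (by simp), fl_ne _ (by simp), h1, h2]
    cases X (.q j) <;> cases X (.L false 0) <;> cases X (.L true 0) <;> simp

end RailAux

open RailAux

theorem rail_up (hB : B.Ok) (hX : Mn B X) {g : Var} (hr : Rail g) (hv : B.Vld g)
    (h : frc B X g = true) : X g = true := by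
  rcases exists_own (X := X) hB hr hv with ⟨t, rfl⟩ | ⟨p, l, _, ho⟩
  · exact absurd h (by simp [frc])
  · by_contra hcon
    rw [Bool.not_eq_true] at hcon
    obtain ⟨h1, h2⟩ := ho.viol h hcon
    have h3 := drive hB hX (v := g) ho.vld h1 fun d hd hdv hO hk =>
      absurd hk (ho.first d hd hdv hO)
    rw [h2] at h3
    exact absurd h3 (by simp)

theorem rail_down (hB : B.Ok) (hX : Mn B X) {g : Var} (hr : Rail g) (hv : B.Vld g)
    (h : dnv X g = true) : X g = frc B X g := by
  cases hf : frc B X g with
  | true => exact rail_up hB hX hr hv hf
  | false =>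
    by_contra hcon
    rw [Bool.not_eq_false] at hcon
    obtain ⟨c1, c2⟩ := cv_push hB hX hr hv
    rw [hcon, h] at c1 c2
    have h3 := drive hB hX (v := g) (p := .Lp g) ⟨hr, hv⟩ c1 fun d hd hdv hO hk => by
      have rd : d ∈ (occ B g).tail → NI X (fl X g) (con B d) := by
        intro hd'
        refine ni_low hcon (readers hB hr hd' hdv hO ?_ hk)
        rintro rfl
        simp [klt] at hk
      rcases exists_own (X := X) hB hr hv with ⟨t, rfl⟩ | ⟨p, l, hl, ho⟩
      · apply rd
        simp only [occ, List.mem_cons, List.not_mem_nil, or_false, List.tail_cons] at hd ⊢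
        rcases hd with rfl | rfl | rfl
        · left
          rw [if_neg (Nat.pos_iff_ne_zero.1 hB.pos).symm]
        · exact Or.inl rfl
        · exact Or.inr rfl
      · rw [hl, List.mem_cons] at hd
        rcases hd with rfl | hd
        · intro P hP h4
          by_cases hO' : ∃ l ∈ P, l.1 = g
          · obtain ⟨z, hz, rfl⟩ := hO'
            have h5 : z.2 = false := by
              have := ho.neg P hP
              cases h6 : z.2 with
              | false => rfl
              | true =>
                exfalso
                apply this
                rw [← h6]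
                exact hz
            have h6 := ho.low P hP (by rw [← h5]; exact hz) h4 hcon
            rw [hf] at h6
            exact absurd h6 (by simp)
          · rwa [pv_fl (fun l hl e => hO' ⟨l, hl, e⟩)] at h4
        · exact rd (by rw [hl]; exact hd)
    rw [c2] at h3
    exact absurd h3 (by simp)

/-- a rail that is pushed up is up if all constraints which read it allow it -/
theorem rail_push (hB : B.Ok) (hX : Mn B X) {g : Var} (hr : Rail g) (hv : B.Vld g)
    (h : dnv X g = false)
    (h' : ∀ d ∈ (occ B g).tail, PVld B d → Occ g (con B d) → d ≠ .Lp g →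
      klt (key B d) (key B (.Lp g)) → cv (Function.update X g true) (con B d) = false) :
    X g = true := by
  by_contra hcon
  rw [Bool.not_eq_true] at hcon
  obtain ⟨c1, c2⟩ := cv_push hB hX hr hv
  rw [hcon, h] at c1 c2
  have hfl : fl X g = Function.update X g true := by
    unfold fl
    rw [hcon]
    rfl
  have h3 := drive hB hX (v := g) (p := .Lp g) ⟨hr, hv⟩ c1 fun d hd hdv hO hk => by
    have rd : d ∈ (occ B g).tail → NI X (fl X g) (con B d) := by
      intro hd'
      have h5 := h' d hd' hdv hO (by rintro rfl; simp [klt] at hk) hk
      rw [← hfl] at h5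
      intro P hP h6
      unfold cv at h5
      rw [List.any_eq_false] at h5
      exact absurd h6 (h5 P hP)
    rcases exists_own (X := X) hB hr hv with ⟨t, rfl⟩ | ⟨p, l, hl, ho⟩
    · apply rd
      simp only [occ, List.mem_cons, List.not_mem_nil, or_false, List.tail_cons] at hd ⊢
      rcases hd with rfl | rfl | rfl
      · left
        rw [if_neg (Nat.pos_iff_ne_zero.1 hB.pos).symm]
      · exact Or.inl rfl
      · exact Or.inr rfl
    · rw [hl, List.mem_cons] at hd
      rcases hd with rfl | hd
      · exact ni_high hcon ho.neg
      · exact rd (by rw [hl]; exact hd)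
  rw [c2] at h3
  exact absurd h3 (by simp)

end Pool.Agent.MPa0a715.BI
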