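import Mathlib
import Pool.Agent.Lib.MP_a0a715_lc_BI.Defs
import Pool.Agent.Lib.MP_a0a715_lc_BI.Ord
import Pool.Agent.Lib.MP_a0a715_lc_BI.Num
import Pool.Agent.Lib.MP_a0a715_lc_BI.Occ
import Pool.Agent.Lib.MP_a0a715_lc_BI.Log
import Pool.Agent.Lib.MP_a0a715_lc_BI.Bas
import Pool.Agent.Lib.MP_a0a715_lc_BI.Orc
import Pool.Agent.Lib.MP_a0a715_lc_BI.Ptb
import Pool.Agent.Lib.MP_a0a715_lc_BW.Defs
import Pool.Agent.Lib.MP_a0a715_lc_IN.Red
import Pool.Agent.Lib.MP_a0a715_lc.PT

/-!
# The reduction: Circuit-FLIP with arity 3 and influence 4 is PLS-complete (module RED)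
-/

namespace Pool.Agent.MPa0a715.BI

open Pool.Agent.MPa0a715 Pool.Agent.PolyTime
open Pool.Agent.MPa0a715.TL (NT litNames termCircuit)

variable {B : Base} {X : Var → Bool}

namespace RedAux

/-- the value of a numbered part -/
theorem part_val (x : List Bool) (P : Part) :
    decide (∀ q ∈ (P.map fun l : Var × Bool => (B.num l.1, l.2)), x.getD q.1 false = q.2) =
      pv (fun v => x.getD (B.num v) false) P := by
  unfold pv
  rw [Bool.eq_iff_iff, decide_eq_true_eq, List.all_eq_true]
  constructor
  · intro h l hl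
    have := h _ (List.mem_map.2 ⟨l, hl, rfl⟩)
    simpa using this
  · intro h q hq
    obtain ⟨l, hl, rfl⟩ := List.mem_map.1 hq
    have := h l hl
    simpa using this

/-- the value of a numbered constraint -/
theorem con_val (x : List Bool) (c : Con) :
    ((numC B c).any fun T => decide (∀ p ∈ T, x.getD p.1 false = p.2)) =
      cv (fun v => x.getD (B.num v) false) c := by
  unfold numC cv
  rw [List.any_map]
  congr 1
  funext P
  exact part_val x P

theorem pv_congr {X X' : Var → Bool} {P : Part} (h : ∀ l ∈ P, X l.1 = X' l.1) :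
    pv X P = pv X' P := by
  unfold pv
  rw [Bool.eq_iff_iff, List.all_eq_true, List.all_eq_true]
  constructor
  · intro h1 l hl
    rw [← h l hl]
    exact h1 l hl
  · intro h1 l hl
    rw [h l hl]
    exact h1 l hl

theorem cv_congr {X X' : Var → Bool} {c : Con} (h : ∀ v, Occ v c → X v = X' v) :
    cv X c = cv X' c := by
  unfold cv
  rw [Bool.eq_iff_iff, List.any_eq_true, List.any_eq_true]
  constructor
  · rintro ⟨P, hP, h1⟩
    refine ⟨P, hP, ?_⟩
    rw [← pv_congr (fun l hl => h l.1 ⟨P, hP, l, hl, rfl⟩)]
    exact h1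
  · rintro ⟨P, hP, h1⟩
    refine ⟨P, hP, ?_⟩
    rw [pv_congr (fun l hl => h l.1 ⟨P, hP, l, hl, rfl⟩)]
    exact h1

theorem length_allC : (allC B).length = (posL B).length := by
  unfold allC
  rw [List.length_reverse, List.length_map]

/-- the constraint of an output -/
def pj (B : Base) (j : ℕ) : Pos := (posL B).getD ((posL B).length - 1 - j) .Hy

theorem pj_mem {j : ℕ} (hj : j < (posL B).length) : pj B j ∈ posL B := by
  unfold pj
  rw [List.getD_eq_getElem _ _ (by omega)]
  exact List.getElem_mem _

theorem getD_allC {j : ℕ} (hj : j < (posL B).length) :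
    (allC B).getD j [] = numC B (con B (pj B j)) := by
  unfold allC pj
  have h1 : j < ((posL B).map fun p => numC B (con B p)).length := by
    rw [List.length_map]
    exact hj
  rw [List.getD_reverse j h1, List.length_map, List.getD_eq_getElem _ _
    (by rw [List.length_map]; omega), List.getElem_map, List.getD_eq_getElem _ _ (by omega)]

end RedAux

open RedAux

theorem allC_ok (hB : B.Ok) : COk B.Nv (allC B) := by
  intro c hc
  unfold allC at hc
  rw [List.mem_reverse, List.mem_map] at hc
  obtain ⟨p, hp, rfl⟩ := hc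
  have hp' := mem_posL.1 hp
  obtain ⟨h1, h2, h3⟩ := con_shape hB hp'
  unfold numC
  refine ⟨fun h => h1 (List.map_eq_nil_iff.1 h), by rw [List.length_map]; exact h2, ?_⟩
  intro T hT
  obtain ⟨P, hP, rfl⟩ := List.mem_map.1 hT
  refine ⟨fun h => (h3 P hP).1 (List.map_eq_nil_iff.1 h), ?_⟩
  intro q hq
  obtain ⟨l, hl, rfl⟩ := List.mem_map.1 hq
  exact num_lt hB (con_vld hB hp' ⟨P, hP, l, hl, rfl⟩)

/-- assignment given by the bits of an input -/
def asg (B : Base) (x : List Bool) (v : Var) : Bool := x.getD (B.num v) false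

namespace RedAux

theorem outs_len : (orCircuit B.Nv (allC B)).outs.length = (posL B).length := by
  rw [oc_len, length_allC]

theorem bit (hB : B.Ok) {x : List Bool} (hx : x.length = B.Nv) {j : ℕ}
    (hj : j < (posL B).length) :
    (orCircuit B.Nv (allC B)).outBit x j = cv (asg B x) (con B (pj B j)) := by
  rw [oc_bit (allC_ok hB) hx (by rw [length_allC]; exact hj), getD_allC hj]
  exact con_val x _

/-- the assignment after a flip -/
theorem asg_flip {x : List Bool} (hx : x.length = B.Nv) {i : ℕ} {v : Var}
    (hB : B.Ok) (hv : B.Vld v) : asg B (flip x i) v = if i = B.num v then !asg B x v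
      else asg B x v := by
  unfold asg
  rw [getD_flip _ _ _ (by rw [hx]; exact num_lt hB hv)]

/-- an influence comes from a variable in the constraint -/
theorem infl (hB : B.Ok) {i j : ℕ} (hj : j < (posL B).length)
    (h : (orCircuit B.Nv (allC B)).Influences i j) :
    ∃ v, Occ v (con B (pj B j)) ∧ B.Vld v ∧ B.num v = i := by
  obtain ⟨x, hx, hne⟩ := h
  rw [oc_n] at hx
  by_contra hcon
  apply hne
  rw [bit hB hx hj, bit hB (by rw [length_flip, hx]) hj]
  refine cv_congr fun v hv => ?_
  have hvl := con_vld hB (mem_posL.1 (pj_mem hj)) hv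
  rw [asg_flip hx hB hvl, if_neg]
  intro h
  exact hcon ⟨v, hv, hvl, h.symm⟩

end RedAux

theorem min_oc (hB : B.Ok) {x : List Bool} (hx : (orCircuit B.Nv (allC B)).IsLocalMin x) :
    Mn B (asg B x) := by
  obtain ⟨hlen, hmin⟩ := hx
  rw [oc_n] at hlen hmin
  intro v P Q p hpos hcv hNI
  by_contra hcon
  rw [Bool.not_eq_true] at hcon
  have hp : p ∈ posL B := by
    rw [hpos]
    simp
  have hpv := mem_posL.1 hp
  -- the variable occurs
  have hocc : Occ v (con B p) := by
    by_contra hno
    have h1 : cv (fl (asg B x) v) (con B p) = cv (asg B x) (con B p) := by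
      refine cv_congr fun w hw => ?_
      unfold fl
      rw [Function.update_of_ne]
      rintro rfl
      exact hno hw
    rw [h1, hcv] at hcon
    exact Bool.noConfusion hcon
  have hv := con_vld hB hpv hocc
  have hi := num_lt hB hv
  have hlen' : (flip x (B.num v)).length = B.Nv := by rw [length_flip, hlen]
  have hasg : ∀ w, B.Vld w → asg B (flip x (B.num v)) w = fl (asg B x) v w := by
    intro w hw
    rw [asg_flip hlen hB hw]
    unfold fl
    by_cases hwv : w = v
    · subst hwv
      rw [if_pos rfl, Function.update_self]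
    · rw [Function.update_of_ne hwv, if_neg]
      intro h
      exact hwv (num_inj hB hw hv h.symm)
  have hcv' : ∀ d ∈ posL B, cv (asg B (flip x (B.num v))) (con B d) =
      cv (fl (asg B x) v) (con B d) := by
    intro d hd
    exact cv_congr fun w hw => hasg w (con_vld hB (mem_posL.1 hd) hw)
  set L := (posL B).length with hL
  set C := orCircuit B.Nv (allC B) with hC
  have houts : C.outs.length = L := outs_len
  -- the output of `p`
  have hLP : L = P.length + (Q.length + 1) := by
    rw [hL, hpos, List.length_append, List.length_cons]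
  set j := L - 1 - P.length with hj
  have hjL : j < L := by omega
  have hpj : pj B j = p := by
    unfold pj
    have e : (posL B).length - 1 - j = P.length := by omega
    rw [e, hpos]
    simp
  have hbx := bit hB hlen hjL
  have hbx' := bit hB hlen' hjL
  rw [hpj, hcv] at hbx
  rw [hpj, hcv' p hp, hcon] at hbx'
  -- the highest output which changes
  let S := (Finset.range L).filter fun r => C.outBit (flip x (B.num v)) r ≠ C.outBit x r
  have hjS : j ∈ S := by
    refine Finset.mem_filter.2 ⟨Finset.mem_range.2 hjL, ?_⟩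
    rw [hbx, hbx']
    simp
  have hne : S.Nonempty := ⟨j, hjS⟩
  obtain ⟨r, hr⟩ : ∃ r, r = S.max' hne := ⟨_, rfl⟩
  have hrS : r ∈ S := by rw [hr]; exact S.max'_mem hne
  have hjr : j ≤ r := by rw [hr]; exact S.le_max' j hjS
  have hrL : r < L := Finset.mem_range.1 (Finset.mem_filter.1 hrS).1
  have hrne := (Finset.mem_filter.1 hrS).2
  have hup : ∀ s < L, r < s → C.outBit (flip x (B.num v)) s = C.outBit x s := by
    intro s hs hrs
    by_contra h
    have h1 : s ∈ S := Finset.mem_filter.2 ⟨Finset.mem_range.2 hs, h⟩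
    have h2 := S.le_max' s h1
    rw [← hr] at h2
    omega
  have hdown : C.outBit (flip x (B.num v)) r = true → C.outBit x r = true := by
    rcases Nat.eq_or_lt_of_le hjr with h1 | h1
    · rw [← h1, hbx]
      exact fun _ => rfl
    · have hmem : pj B r ∈ P := by
        unfold pj
        rw [← hL, hpos, List.getD_append _ _ _ _ (by omega)]
        rw [List.getD_eq_getElem _ _ (by omega)]
        exact List.getElem_mem _
      rw [bit hB hlen' hrL, bit hB hlen hrL, hcv' _ (pj_mem hrL)]
      unfold cv
      rw [List.any_eq_true, List.any_eq_true]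
      rintro ⟨T, hT, hval⟩
      exact ⟨T, hT, hNI _ hmem T hT hval⟩
  have hlt : C.cost (flip x (B.num v)) < C.cost x := by
    rw [IN.cost_lt_iff]
    refine ⟨r, by rw [houts]; exact hrL, ?_, ?_, ?_⟩
    · by_contra h
      rw [Bool.not_eq_false] at h
      exact hrne (by rw [h, hdown h])
    · by_contra h
      rw [Bool.not_eq_true] at h
      apply hrne
      rw [h]
      by_contra h2
      rw [Bool.not_eq_false] at h2
      rw [hdown h2] at h
      exact Bool.noConfusion h
    · intro q hq hrq
      rw [houts] at hq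
      exact hup q hq hrq
  have := hmin (B.num v) hi
  omega

theorem arity_oc (hB : B.Ok) : (orCircuit B.Nv (allC B)).Arity 3 := by
  classical
  intro j hj
  rw [outs_len] at hj
  obtain ⟨S, hS, hS'⟩ := con_vars (B := B) (pj B j)
  refine ⟨S.image B.num, le_trans Finset.card_image_le hS, ?_⟩
  intro i _ hinf
  obtain ⟨v, hv, -, rfl⟩ := infl hB hj hinf
  exact Finset.mem_image_of_mem _ (hS' v hv)

theorem influence_oc (hB : B.Ok) : (orCircuit B.Nv (allC B)).Influence 4 := by
  classical
  intro i _
  by_cases hex : ∃ v, B.Vld v ∧ B.num v = i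
  · obtain ⟨v, hv, hvi⟩ := hex
    refine ⟨(occ B v).toFinset.image fun p => (posL B).length - 1 - (posL B).idxOf p,
      le_trans Finset.card_image_le (le_trans (List.toFinset_card_le _) (occ_len v)), ?_⟩
    intro j hj hinf
    rw [outs_len] at hj
    obtain ⟨w, hw, hwv, hwi⟩ := infl hB hj hinf
    have hwv' : w = v := num_inj hB hwv hv (by rw [hwi, hvi])
    subst hwv'
    refine Finset.mem_image.2 ⟨pj B j, List.mem_toFinset.2
      (occ_mem hB (mem_posL.1 (pj_mem hj)) hw), ?_⟩
    have h1 : (posL B).idxOf (pj B j) = (posL B).length - 1 - j := by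
      unfold pj
      rw [List.getD_eq_getElem _ _ (by omega)]
      exact List.Nodup.idxOf_getElem nodup_posL _ _
    rw [h1]
    omega
  · refine ⟨∅, by simp, ?_⟩
    intro j hj hinf
    rw [outs_len] at hj
    obtain ⟨w, -, hwv, hwi⟩ := infl hB hj hinf
    exact absurd ⟨w, hwv, hwi⟩ hex

namespace RedAux

/-- the solution given by a local minimum -/
def dec (B : Base) (y : List Bool) : List Bool :=
  (List.range B.n).map fun i =>
    y.getD (((y.getD (39 * B.K * B.K) false).toNat * B.K + i) * B.K) false

theorem dec_eq (B : Base) (y : List Bool) : dec B y = sl B (asg B y) (asg B y .y) := by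
  unfold dec sl
  refine List.map_congr_left fun i _ => ?_
  unfold asg
  have h1 : B.num .y = 39 * B.K * B.K := by
    show (39 * B.K + 0) * B.K + 0 = 39 * B.K * B.K
    rw [add_zero, add_zero]
  have h2 : ∀ s, B.num (.V s i) = (s.toNat * B.K + i) * B.K := fun s => by
    show (s.toNat * B.K + i) * B.K + 0 = (s.toNat * B.K + i) * B.K
    rw [add_zero]
  rw [h1, h2]

theorem length_dec (B : Base) (y : List Bool) : (dec B y).length = B.n := by
  unfold dec
  simp

/-- the constructed circuit -/
def red (C : Circuit) : Circuit := orCircuit (baseOf C).Nv (allC (baseOf C))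

theorem pu_baseN : PU fun C : Circuit => (baseOf C).n :=
  (pu_n (PTime.id (α := Circuit))).of_eq fun C => (baseOf_n C).symm

theorem ptime_red : PTime red := by
  obtain ⟨h1, h2, h3, h4⟩ := ptime_baseOf
  obtain ⟨h5, h6⟩ := ptime_allC (B := baseOf) pu_baseN h1 h2 h3 h4
  exact ptime_orCircuit h5 h6

theorem ptime_K : PTime fun C : Circuit => (baseOf C).K := by
  obtain ⟨h1, -, h3, -⟩ := ptime_baseOf
  have hn := (pu_baseN).toNat
  have hN : PTime fun C : Circuit => (baseOf C).n + (baseOf C).G.length :=
    hn.add (PTime.length h1)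
  exact (((((PTime.const 2).mul hN).add (PTime.const 1)).add hn).add
    ((PTime.const 3).mul (PTime.length h3))).of_eq fun C => rfl

theorem ptime_dec : PTime fun p : Circuit × List Bool => dec (baseOf p.1) p.2 := by
  have hn : PU (fun p : Circuit × List Bool => (baseOf p.1).n) := pu_baseN.comp PTime.fst
  refine PTime.map (g := fun (p : Circuit × List Bool) (i : ℕ) =>
    p.2.getD (((p.2.getD (39 * (baseOf p.1).K * (baseOf p.1).K) false).toNat *
      (baseOf p.1).K + i) * (baseOf p.1).K) false) hn.range ?_
  have hK : PTime (fun q : (Circuit × List Bool) × ℕ => (baseOf q.1.1).K) :=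
    ptime_K.comp (PTime.fst' PTime.fst)
  have hs : PTime (fun q : (Circuit × List Bool) × ℕ => q.1.2) := PTime.snd' PTime.fst
  have hc : PTime (fun q : (Circuit × List Bool) × ℕ =>
      (q.1.2.getD (39 * (baseOf q.1.1).K * (baseOf q.1.1).K) false).toNat) :=
    PTime.boolToNat (PTime.listGetD hs (((PTime.const 39).mul hK).mul hK) (PTime.const false))
  exact PTime.listGetD hs (((hc.mul hK).add PTime.snd).mul hK) (PTime.const false)

end RedAux

theorem hard34 : PLSReduces (fun _ => True) fun C => C.Arity 3 ∧ C.Influence 4 := by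
  have hn := pu_n (PTime.id (α := Circuit))
  have hn1 : PTime (fun C : Circuit => decide (C.n ≤ 0)) := PTime.le hn.toNat (PTime.const 0)
  refine ⟨fun C => if C.n ≤ 0 then ⟨0, [], []⟩ else red C,
    fun p => if p.1.n ≤ 0 then [] else dec (baseOf p.1) p.2, ?_, ?_, ?_⟩
  · exact (PTime.iteP hn1 (PTime.const _) ptime_red).isPolyTime
  · exact (PTime.iteP (hn1.comp PTime.fst) (PTime.const _) ptime_dec).isPolyTime
  · intro C hC _
    dsimp only
    split_ifs with h1
    · refine ⟨⟨fun k hk => absurd hk (Nat.not_lt_zero k), fun o ho => absurd ho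
        List.not_mem_nil⟩, ⟨fun j hj => absurd hj (Nat.not_lt_zero j),
        fun j hj => absurd hj (Nat.not_lt_zero j)⟩, fun y _ => ?_⟩
      have h2 : C.n = 0 := by omega
      exact ⟨h2.symm, fun i hi => absurd hi (by omega)⟩
    · have h2 : 0 < C.n := by omega
      have hB := baseOf_ok hC h2
      have hS := baseOf_sem hC h2
      refine ⟨oc_valid (allC_ok hB), ⟨arity_oc hB, influence_oc hB⟩, fun y hy => ?_⟩
      have hX := min_oc hB hy
      have hst := static hB hS hX
      rw [← dec_eq] at hst
      exact baseOf_min hC h2 (by rw [length_dec, baseOf_n]) hst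

end Pool.Agent.MPa0a715.BI
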