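import Pool.Agent.Lib.MP_a0a715_lc_BI.Rail

/-!
# Rails which are pushed up, for each kind of rails
-/

namespace Pool.Agent.MPa0a715.BI

open Pool.Agent.MPa0a715

variable {B : Base} {X : Var → Bool}

namespace UpAux

theorem upd_true {X : Var → Bool} {g v : Var} (h : X v = true) :
    Function.update X g true v = true := by
  by_cases hv : v = g
  · rw [hv, Function.update_self]
  · rw [Function.update_of_ne hv, h]

theorem cv_and {X : Var → Bool} {a b g v : Var} (h : X v = true) :
    cv (Function.update X g true) (cAnd a b v) = false := by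
  simp [cv, pv, cAnd, upd_true h]

theorem cv_or {X : Var → Bool} {a b g v : Var} (h : X v = true) :
    cv (Function.update X g true) (cOr a b v) = false := by
  simp [cv, pv, cOr, upd_true h]

theorem cv_cp {X : Var → Bool} {a g v : Var} (h : X v = true) :
    cv (Function.update X g true) (cCp a v) = false := by
  simp [cv, pv, cCp, upd_true h]

end UpAux

open UpAux

theorem up_r (hB : B.Ok) (hX : Mn B X) {s g : Bool} {w c : ℕ} (hd : X (.e s) = false)
    (hw : w < B.N) (hc : c < B.K) (h1 : c + 1 < B.K → X (.r s g w (c + 1)) = true)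
    (h2 : PVld B (rdr B s g c) → Occ (.r s g w c) (con B (rdr B s g c)) →
      cv (Function.update X (.r s g w c) true) (con B (rdr B s g c)) = false) :
    X (.r s g w c) = true := by
  refine rail_push hB hX trivial ⟨hw, hc⟩ hd fun d hd hdv hO hne hk => ?_
  simp only [occ, List.tail_cons, List.mem_cons, List.not_mem_nil, or_false] at hd
  rcases hd with rfl | rfl | rfl
  · exact cv_cp (h1 hdv.2)
  · exact h2 hdv hO
  · exact absurd rfl hne

theorem up_ck (hB : B.Ok) (hX : Mn B X) {t g : Bool} {i : ℕ} (hd : X .y = t) (hi : i < B.n)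
    (h1 : X (.F t i) = true) : X (.ck t g i) = true := by
  refine rail_push hB hX trivial hi (by simp [dnv, hd]) fun d hd' hdv hO hne hk => ?_
  simp only [occ, List.tail_cons, List.mem_cons, List.not_mem_nil, or_false] at hd'
  rcases hd' with rfl | rfl | rfl
  · exact cv_or h1
  · exact absurd rfl hne
  · simp [key, klt] at hk

theorem up_F (hB : B.Ok) (hX : Mn B X) {t : Bool} {i : ℕ} (hd : X .y = t) (hi : i < B.n)
    (h1 : X (.E t (i + 1)) = true) : X (.F t i) = true := by
  refine rail_push hB hX trivial hi (by simp [dnv, hd]) fun d hd' hdv hO hne hk => ?_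
  simp only [occ, List.tail_cons, List.mem_cons, List.not_mem_nil, or_false] at hd'
  rcases hd' with rfl | rfl
  · exact cv_or h1
  · exact absurd rfl hne

theorem up_E (hB : B.Ok) (hX : Mn B X) {t : Bool} {i : ℕ} (hd : X .y = t) (hi : i ≤ B.n)
    (h1 : i < B.n → X (.E t (i + 1)) = true) (h2 : i = B.n → X (.D t 0) = true) :
    X (.E t i) = true := by
  refine rail_push hB hX trivial hi (by simp [dnv, hd]) fun d hd' hdv hO hne hk => ?_
  simp only [occ, List.tail_cons, List.mem_cons, List.not_mem_nil, or_false] at hd'
  rcases hd' with rfl | rfl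
  · split_ifs with h3
    · exact cv_cp (h2 h3)
    · exact cv_or (h1 (by omega))
  · exact absurd rfl hne

theorem up_D (hB : B.Ok) (hX : Mn B X) {t : Bool} {k : ℕ} (hd : X .y = t) (hk : k ≤ B.m)
    (h1 : k < B.m → X (.D t (k + 1)) = true) (h2 : 0 < k → X (.p (!t) (k - 1)) = true) :
    X (.D t k) = true := by
  refine rail_push hB hX trivial hk (by simp [dnv, hd]) fun d hd' hdv hO hne hk' => ?_
  simp only [occ, List.tail_cons, List.mem_cons, List.not_mem_nil, or_false] at hd'
  rcases hd' with rfl | rfl | rfl
  · exact cv_cp (h1 hdv)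
  · split_ifs with h3
    · have hyc : X (.yc t.toNat) = t := by
        rw [yc_eq hB hX (by cases t <;> simp), hd]
      simp only [con, cv, pv, List.any_cons, List.any_nil, List.all_cons, List.all_nil]
      rw [Function.update_of_ne (show Var.yc t.toNat ≠ Var.D t k by simp), hyc]
      cases t <;> simp
    · exact cv_or (h2 (by omega))
  · exact absurd rfl hne

theorem up_p (hB : B.Ok) (hX : Mn B X) {s : Bool} {j : ℕ} (hd : X (.e s) = false)
    (hj : j < B.m) (h1 : X (.u s j) = true) : X (.p s j) = true := by
  refine rail_push hB hX trivial hj hd fun d hd' hdv hO hne hk => ?_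
  simp only [occ, List.tail_cons, List.mem_cons, List.not_mem_nil, or_false] at hd'
  rcases hd' with rfl | rfl
  · exact cv_and h1
  · exact absurd rfl hne

theorem up_u (hB : B.Ok) (hX : Mn B X) {s : Bool} {j : ℕ} (hd : X (.e s) = false)
    (hj : j < B.m) (h1 : X (.Y s true j) = false ∨ X (.al s j) = true) :
    X (.u s j) = true := by
  refine rail_push hB hX trivial hj hd fun d hd' hdv hO hne hk => ?_
  simp only [occ, List.tail_cons, List.mem_cons, List.not_mem_nil, or_false] at hd'
  rcases hd' with rfl | rfl
  · rcases h1 with h1 | h1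
    · simp [con, cAnd, cv, pv, h1]
    · exact cv_and h1
  · exact absurd rfl hne

theorem up_Yt (hB : B.Ok) (hX : Mn B X) {s : Bool} {j : ℕ} (hd : X (.L s 0) = true)
    (hd' : X (.L (!s) 0) = false) (hj : j ≤ B.m) (h1 : j < B.m → X (.Y s false j) = true)
    (h2 : j < B.m → X (.u s j) = false ∨ X (.al s j) = true) : X (.Y s true j) = true := by
  refine rail_push hB hX trivial hj (by simp [dnv, hd, hd']) fun d hd2 hdv hO hne hk => ?_
  simp only [occ, List.tail_cons, List.mem_cons, List.not_mem_nil, or_false, if_true] at hd2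
  rcases hd2 with rfl | rfl | rfl
  · exact cv_cp (h1 hdv)
  · rcases h2 hdv with h2 | h2
    · simp [con, cAnd, cv, pv, h2]
    · exact cv_and h2
  · exact absurd rfl hne

theorem up_Yf (hB : B.Ok) (hX : Mn B X) {s : Bool} {j : ℕ} (hd : X (.L s 0) = true)
    (hd' : X (.L (!s) 0) = false) (hj : j < B.m) (h1 : X (.Y s true (j + 1)) = true)
    (h2 : X (.r s true (B.im.getD j 0) (2 * B.N + 1 + B.n + 2 * B.m + j)) = false ∨
      X (.be s j) = true) : X (.Y s false j) = true := by
  refine rail_push hB hX trivial hj (by simp [dnv, hd, hd']) fun d hd2 hdv hO hne hk => ?_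
  simp only [occ, List.tail_cons, List.mem_cons, List.not_mem_nil, or_false,
    Bool.false_eq_true, if_false] at hd2
  rcases hd2 with rfl | rfl | rfl
  · exact cv_cp h1
  · rcases h2 with h2 | h2
    · simp only [con, cAnd, cv, pv, List.any_cons, List.any_nil, List.all_cons, List.all_nil]
      rw [Function.update_of_ne (show Var.r s true _ _ ≠ Var.Y s false j by simp), h2]
      simp
    · exact cv_and h2
  · exact absurd rfl hne

theorem up_al (hB : B.Ok) (hX : Mn B X) {s : Bool} {j : ℕ} (hd : X (.L s 0) = true)
    (hd' : X (.L (!s) 0) = false) (hj : j < B.m) (h1 : X (.q j) = true) :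
    X (.al s j) = true := by
  refine rail_push hB hX trivial hj (by simp [dnv, hd, hd']) fun d hd2 hdv hO hne hk => ?_
  simp only [occ, List.tail_cons, List.mem_cons, List.not_mem_nil, or_false] at hd2
  rcases hd2 with rfl | rfl
  · exact cv_or h1
  · exact absurd rfl hne

theorem up_be (hB : B.Ok) (hX : Mn B X) {s : Bool} {j : ℕ} (hd : X (.L s 0) = true)
    (hd' : X (.L (!s) 0) = false) (hj : j < B.m) (h1 : X (.m j) = true) :
    X (.be s j) = true := by
  refine rail_push hB hX trivial hj (by simp [dnv, hd, hd']) fun d hd2 hdv hO hne hk => ?_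
  simp only [occ, List.tail_cons, List.mem_cons, List.not_mem_nil, or_false] at hd2
  rcases hd2 with rfl | rfl
  · simp [con, cv, pv, h1]
  · exact absurd rfl hne

theorem up_q (hB : B.Ok) (hX : Mn B X) {j : ℕ}
    (hd : X (.L false 0) = true ∨ X (.L true 0) = true) (hj : j < B.m)
    (h1 : X (.m j) = true) : X (.q j) = true := by
  refine rail_push hB hX trivial hj ?_ fun d hd2 hdv hO hne hk => ?_
  · rcases hd with hd | hd <;> simp [dnv, hd]
  · simp only [occ, List.tail_cons, List.mem_cons, List.not_mem_nil, or_false] at hd2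
    rcases hd2 with rfl | rfl
    · exact cv_or h1
    · exact absurd rfl hne

end Pool.Agent.MPa0a715.BI
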