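import Pool.Agent.Lib.MP_a0a715_lc_BI.Exa
import Pool.Agent.Lib.MP_a0a715_lc_BI.Up

/-!
# The rails of a slot which is reset are all up
-/

namespace Pool.Agent.MPa0a715.BI

open Pool.Agent.MPa0a715

variable {B : Base} {X : Var → Bool}

namespace SluAux

theorem cv_and {X : Var → Bool} {a b g : Var} (h : X g = true) : cv X (cAnd a b g) = false := by
  simp [cv, pv, cAnd, h]

theorem cv_or {X : Var → Bool} {a b g : Var} (h : X g = true) : cv X (cOr a b g) = false := by
  simp [cv, pv, cOr, h]

theorem cv_cp {X : Var → Bool} {a g : Var} (h : X g = true) : cv X (cCp a g) = false := by
  simp [cv, pv, cCp, h]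

theorem upd {X : Var → Bool} {g v : Var} (h : X v = true) :
    Function.update X g true v = true := by
  by_cases hv : v = g
  · rw [hv, Function.update_self]
  · rw [Function.update_of_ne hv, h]

/-- descending induction -/
theorem desc {P : ℕ → Prop} {m : ℕ} (h0 : P m) (h : ∀ k < m, P (k + 1) → P k) :
    ∀ k ≤ m, P k := by
  intro k hk
  obtain ⟨d, rfl⟩ : ∃ d, m = k + d := ⟨m - k, by omega⟩
  clear hk
  induction d generalizing k with
  | zero => exact h0
  | succ d ih =>
    refine h k (by omega) ?_
    refine ih (k := k + 1) ?_ ?_
    · rw [show k + 1 + d = k + (d + 1) by omega]
      exact h0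
    · intro j hj
      exact h j (by omega)

end SluAux

open SluAux

theorem slot_up (hB : B.Ok) (hX : Mn B X) {t : Bool} (he : X (.e t) = false)
    (hy : X .y = !t) (hL : X (.L false 0) = false) (hL' : X (.L true 0) = false)
    {g : Bool} {w c : ℕ} (hw : w < B.N) (hc : c < B.K) : X (.r t g w c) = true := by
  have hLt : X (.L t 0) = false := by cases t; exacts [hL, hL']
  have hdt : (X (.L t 0) && !X (.L (!t) 0)) = false := by rw [hLt]; rfl
  have hyt : (X .y == t) = false := by rw [hy]; cases t <;> rfl
  have hYt : ∀ j < B.m, X (.Y t true j) = false := fun j hj => by
    rw [(Y_exact hB hX hdt (j := j)).1 (by omega), hyt]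
  have hYf : ∀ j < B.m, X (.Y t false j) = false := fun j hj => by
    rw [(Y_exact hB hX hdt (j := j)).2 hj, hyt]
  have hu : ∀ j < B.m, X (.u t j) = true := fun j hj =>
    up_u hB hX he hj (Or.inl (hYt j hj))
  have hp : ∀ j < B.m, X (.p t j) = true := fun j hj => up_p hB hX he hj (hu j hj)
  have hD : ∀ k ≤ B.m, X (.D (!t) k) = true := by
    refine desc ?_ ?_
    · refine up_D hB hX hy le_rfl (fun h => absurd h (lt_irrefl _)) fun h => ?_
      rw [Bool.not_not]
      exact hp _ (by omega)
    · intro k hk ih
      refine up_D hB hX hy hk.le (fun _ => ih) fun h => ?_
      rw [Bool.not_not]
      exact hp _ (by omega)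
  have hE : ∀ i ≤ B.n, X (.E (!t) i) = true := by
    refine desc ?_ ?_
    · exact up_E hB hX hy le_rfl (fun h => absurd h (lt_irrefl _)) fun _ => hD 0 (by omega)
    · intro k hk ih
      exact up_E hB hX hy hk.le (fun _ => ih) fun h => absurd h (by omega)
  have hF : ∀ i < B.n, X (.F (!t) i) = true := fun i hi =>
    up_F hB hX hy hi (hE (i + 1) (by omega))
  have hck : ∀ g, ∀ i < B.n, X (.ck (!t) g i) = true := fun g i hi =>
    up_ck hB hX hy hi (hF i hi)
  -- the rails of the slot
  have main : ∀ d ≤ B.N, ∀ w < B.N, B.N - d ≤ w → ∀ c < B.K, ∀ g, X (.r t g w c) = true := by
    intro d
    induction d with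
    | zero => intro _ w hw h; omega
    | succ d ih =>
      intro hd w hw hle
      have ih' : ∀ w' < B.N, w < w' → ∀ c < B.K, ∀ g, X (.r t g w' c) = true :=
        fun w' hw' h => ih (by omega) w' hw' (by omega)
      have hK : 0 < B.K := by unfold Base.K; omega
      have step : ∀ c < B.K, (c + 1 < B.K → ∀ g, X (.r t g w (c + 1)) = true) →
          ∀ g, X (.r t g w c) = true := by
        intro c hc h1 g
        refine up_r hB hX he hw hc (fun h => h1 h g) fun hv hO => ?_
        by_cases c1 : c ≤ 2 * B.N
        · -- a gate
          have hr : ∃ g', rdr B t g c = .Hg t g' ((c - 1) / 2) := by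
            unfold rdr
            rw [if_pos c1]
            split
            · exact ⟨_, rfl⟩
            · exact ⟨_, rfl⟩
          obtain ⟨g', hr⟩ := hr
          rw [hr] at hv hO ⊢
          obtain ⟨hv1, hv2⟩ := hv
          obtain ⟨k, hk⟩ : ∃ k, (c - 1) / 2 = B.n + k := ⟨(c - 1) / 2 - B.n, by omega⟩
          rw [hk] at hv1 hv2 hO ⊢
          have hkl : k < B.G.length := by unfold Base.N at hv2; omega
          have hrefs := hB.gates k hkl
          change Occ _ (gcon B t g' (B.n + k)) at hO
          change cv _ (gcon B t g' (B.n + k)) = false
          unfold gcon at hO ⊢
          rw [Nat.add_sub_cancel_left, List.getElem?_eq_getElem hkl] at hO ⊢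
          generalize B.G[k] = G at hrefs hO
          have fin : w < B.n + k → X (.r t g' (B.n + k) 0) = true := fun h =>
            ih' _ hv2 h 0 hK g'
          have own : ∀ b a a' : Var, (∃ P ∈ cAnd a a' b, ∃ l ∈ P, l.1 = .r t g w c) →
              (a = .r t g w c ∨ a' = .r t g w c ∨ b = .r t g w c) := by
            intro b a a'
            simp only [cAnd, List.mem_cons, List.not_mem_nil, or_false, exists_eq_or_imp,
              exists_eq_left]
            tauto
          have own2 : ∀ b a a' : Var, (∃ P ∈ cOr a a' b, ∃ l ∈ P, l.1 = .r t g w c) →
              (a = .r t g w c ∨ a' = .r t g w c ∨ b = .r t g w c) := by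
            intro b a a'
            simp only [cOr, List.mem_cons, List.not_mem_nil, or_false, exists_eq_or_imp,
              exists_eq_left]
            tauto
          have own3 : ∀ b a : Var, (∃ P ∈ cCp a b, ∃ l ∈ P, l.1 = .r t g w c) →
              (a = .r t g w c ∨ b = .r t g w c) := by
            intro b a
            simp only [cCp, List.mem_cons, List.not_mem_nil, or_false, exists_eq_or_imp,
              exists_eq_left]
            tauto
          cases G with
          | and i j =>
            have hi := hrefs i (by simp [Gate.refs])
            have hj := hrefs j (by simp [Gate.refs])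
            dsimp only at hO ⊢
            by_cases hb : Var.r t g' (B.n + k) 0 = Var.r t g w c
            · cases g'
              · simp only [Bool.false_eq_true, if_false] at hO ⊢
                exact cv_or (by rw [hb, Function.update_self])
              · simp only [if_true] at hO ⊢
                exact cv_and (by rw [hb, Function.update_self])
            · have hlt : w < B.n + k := by
                cases g'
                · simp only [Bool.false_eq_true, if_false] at hO
                  rcases own2 _ _ _ hO with h | h | h
                  · simp only [Var.r.injEq] at h; omega
                  · simp only [Var.r.injEq] at h; omega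
                  · exact absurd h hb
                · simp only [if_true] at hO
                  rcases own _ _ _ hO with h | h | h
                  · simp only [Var.r.injEq] at h; omega
                  · simp only [Var.r.injEq] at h; omega
                  · exact absurd h hb
              cases g'
              · simp only [Bool.false_eq_true, if_false]
                exact cv_or (upd (fin hlt))
              · simp only [if_true]
                exact cv_and (upd (fin hlt))
          | or i j =>
            have hi := hrefs i (by simp [Gate.refs])
            have hj := hrefs j (by simp [Gate.refs])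
            dsimp only at hO ⊢
            by_cases hb : Var.r t g' (B.n + k) 0 = Var.r t g w c
            · cases g'
              · simp only [Bool.false_eq_true, if_false] at hO ⊢
                exact cv_and (by rw [hb, Function.update_self])
              · simp only [if_true] at hO ⊢
                exact cv_or (by rw [hb, Function.update_self])
            · have hlt : w < B.n + k := by
                cases g'
                · simp only [Bool.false_eq_true, if_false] at hO
                  rcases own _ _ _ hO with h | h | h
                  · simp only [Var.r.injEq] at h; omega
                  · simp only [Var.r.injEq] at h; omega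
                  · exact absurd h hb
                · simp only [if_true] at hO
                  rcases own2 _ _ _ hO with h | h | h
                  · simp only [Var.r.injEq] at h; omega
                  · simp only [Var.r.injEq] at h; omega
                  · exact absurd h hb
              cases g'
              · simp only [Bool.false_eq_true, if_false]
                exact cv_and (upd (fin hlt))
              · simp only [if_true]
                exact cv_or (upd (fin hlt))
          | not i =>
            have hi := hrefs i (by simp [Gate.refs])
            dsimp only at hO ⊢
            by_cases hb : Var.r t g' (B.n + k) 0 = Var.r t g w c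
            · exact cv_cp (by rw [hb, Function.update_self])
            · have hlt : w < B.n + k := by
                rcases own3 _ _ hO with h | h
                · simp only [Var.r.injEq] at h; omega
                · exact absurd h hb
              exact cv_cp (upd (fin hlt))
        · by_cases c2 : c < 2 * B.N + 1 + B.n
          · have hr : rdr B t g c = .Hck (!t) (!g) (c - (2 * B.N + 1)) := by
              unfold rdr
              rw [if_neg c1, if_pos c2]
            rw [hr] at hv ⊢
            have := hck (!g) _ hv
            simp [con, cv, pv, this]
          · by_cases c3 : c < 2 * B.N + 1 + B.n + B.m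
            · have hr : rdr B t g c = .Hp t (c - (2 * B.N + 1 + B.n)) := by
                unfold rdr
                rw [if_neg c1, if_neg c2, if_pos c3]
              rw [hr] at hv ⊢
              exact cv_or (upd (hp _ hv))
            · by_cases c4 : c < 2 * B.N + 1 + B.n + 2 * B.m
              · have hr : rdr B t g c = .Hu t (c - (2 * B.N + 1 + B.n + B.m)) := by
                  unfold rdr
                  rw [if_neg c1, if_neg c2, if_neg c3, if_pos c4]
                rw [hr] at hv ⊢
                exact cv_and (upd (hu _ hv))
              · have hr : rdr B t g c = .Hbe t (c - (2 * B.N + 1 + B.n + 2 * B.m)) := by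
                  unfold rdr
                  rw [if_neg c1, if_neg c2, if_neg c3, if_neg c4]
                rw [hr] at hv ⊢
                have := hYf _ hv
                simp [con, cAnd, cv, pv, this]
      intro c hc
      have := desc (P := fun c => ∀ g, X (.r t g w c) = true) (m := B.K - 1)
        (step (B.K - 1) (by omega) fun h => absurd h (by omega))
        (fun k hk ih => step k (by omega) fun _ => ih) c (by omega)
      exact this
  exact main B.N le_rfl w hw (by omega) c hc g

end Pool.Agent.MPa0a715.BI
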